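import Pool.Agent.J4.H5.VJ.Defs

/-!
# All divisors with strict normal crossings: linear changes of coordinates and Bertini's theorem
-/

set_option autoImplicit false

open MvPolynomial NumberField IsDedekindDomain Module

namespace Pool.Agent.J4.H5.VJ

/-- The divisor `F = 0` has strict normal crossings: over an algebraic closure of `k` the form `F` is a
product of forms `H_j`, and at all points `z` over all extension fields the gradients of the `H_j`
which vanish at `z` are linearly independent. -/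
def IsSNC {k : Type} [Field k] {n : ℕ} (F : MvPolynomial (Fin (n + 1)) k) : Prop :=
  ∃ (q : ℕ) (d : Fin q → ℕ) (H : Fin q → MvPolynomial (Fin (n + 1)) (AlgebraicClosure k)),
    (∀ j, (H j).IsHomogeneous (d j)) ∧ F.map (algebraMap k (AlgebraicClosure k)) = ∏ j, H j ∧
    ∀ (Ω : Type) [Field Ω] [Algebra (AlgebraicClosure k) Ω] (z : Fin (n + 1) → Ω), z ≠ 0 →
      ∀ c : Fin q → Ω, (∀ j, c j ≠ 0 → aeval z (H j) = 0) →
        (∀ i, ∑ j, c j * aeval z (pderiv i (H j)) = 0) → c = 0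

/-- The same for the divisor `F = 0` together with the coordinate hyperplanes. -/
def IsTrans {k : Type} [Field k] {n : ℕ} (F : MvPolynomial (Fin (n + 1)) k) : Prop :=
  ∃ (q : ℕ) (d : Fin q → ℕ) (H : Fin q → MvPolynomial (Fin (n + 1)) (AlgebraicClosure k)),
    (∀ j, (H j).IsHomogeneous (d j)) ∧ F.map (algebraMap k (AlgebraicClosure k)) = ∏ j, H j ∧
    ∀ (Ω : Type) [Field Ω] [Algebra (AlgebraicClosure k) Ω] (z : Fin (n + 1) → Ω), z ≠ 0 →
      ∀ (c : Fin q → Ω) (b : Fin (n + 1) → Ω), (∀ j, c j ≠ 0 → aeval z (H j) = 0) →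
        (∀ l, b l ≠ 0 → z l = 0) →
        (∀ i, ∑ j, c j * aeval z (pderiv i (H j)) + b i = 0) → c = 0 ∧ b = 0

/-- The form `F(g x)`. -/
noncomputable def lin {k : Type} [Field k] {n : ℕ} (g : Matrix (Fin (n + 1)) (Fin (n + 1)) k)
    (F : MvPolynomial (Fin (n + 1)) k) : MvPolynomial (Fin (n + 1)) k :=
  bind₁ (fun i => ∑ j, C (g i j) * X j) F

/-- Vojta's inequality with homogeneous coordinates. -/
def HoldsH (k : Type) [Field k] [NumberField k] {n : ℕ} (F : MvPolynomial (Fin (n + 1)) k) (e : ℕ)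
    (A : ℝ) (r : ℕ) : Prop :=
  ∃ (G : MvPolynomial (Fin (n + 1)) k) (N : ℕ), G ≠ 0 ∧ G.IsHomogeneous N ∧
    ∀ S : Finset (HeightOneSpectrum (𝓞 k)), ∃ c : ℝ,
    ∀ (L : Type) [Field L] [NumberField L] [Algebra k L] (x : Fin (n + 1) → L), x ≠ 0 →
      finrank k L ≤ r → aeval x G ≠ 0 → aeval x F ≠ 0 →
      proximity S e F x ≤ A * height k x + logDisc k L + c

/-- HOM: both forms of the inequality are the same. -/
def S_HOM : Prop := ∀ (k : Type) [Field k] [NumberField k] (n : ℕ)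
  (F : MvPolynomial (Fin (n + 1)) k) (e : ℕ) (A : ℝ) (r : ℕ), F.IsHomogeneous e →
  (Holds k F e A r ↔ HoldsH k F e A r)

/-- LINH: invariance under linear changes of the coordinates. -/
def S_LINH : Prop := ∀ (k : Type) [Field k] [NumberField k] (n : ℕ)
  (F : MvPolynomial (Fin (n + 1)) k) (e : ℕ) (A : ℝ) (r : ℕ)
  (g : Matrix (Fin (n + 1)) (Fin (n + 1)) k), IsUnit g.det → F.IsHomogeneous e → 0 ≤ A →
  HoldsH k (lin g F) e A r → HoldsH k F e A r

/-- NC2: the condition of normal crossings and the power map. -/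
def S_NC2 : Prop := ∀ (k : Type) [Field k] [CharZero k] (n m : ℕ)
  (F : MvPolynomial (Fin (n + 1)) k) (e : ℕ), 1 ≤ m → F.IsHomogeneous e → IsTrans F →
  (expand m F).IsHomogeneous (m * e) ∧ IsTrans (expand m F) ∧ IsSNC (expand m F)

/-- BER1: generic hyperplanes are transversal (derivations of `Ω` over `C`). -/
def S_BER1 : Prop := ∀ (C Ω : Type) [Field C] [CharZero C] [Field Ω] [Algebra C Ω] (n q : ℕ)
  (H : Fin q → MvPolynomial (Fin (n + 1)) C) (a : Fin (n + 1) → Fin (n + 1) → Ω),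
  AlgebraicIndependent C (fun p : Fin (n + 1) × Fin (n + 1) => a p.1 p.2) →
  (∀ z : Fin (n + 1) → Ω, z ≠ 0 → ∀ c : Fin q → Ω, (∀ j, c j ≠ 0 → aeval z (H j) = 0) →
    (∀ i, ∑ j, c j * aeval z (pderiv i (H j)) = 0) → c = 0) →
  ∀ z : Fin (n + 1) → Ω, z ≠ 0 → ∀ (c : Fin q → Ω) (b : Fin (n + 1) → Ω),
    (∀ j, c j ≠ 0 → aeval z (H j) = 0) → (∀ l, b l ≠ 0 → ∑ i, a l i * z i = 0) →
    (∀ i, ∑ j, c j * aeval z (pderiv i (H j)) + ∑ l, b l * a l i = 0) → c = 0 ∧ b = 0

/-- BER2: a system of polynomial equations without solutions at the generic point has no solutions at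
the points of a nonempty open set. -/
def S_BER2 : Prop := ∀ (C σ τ ι : Type) [Field C] [Finite ι]
  (P : ι → MvPolynomial τ (MvPolynomial σ C)),
  (∀ (Ω : Type) [Field Ω] [Algebra C Ω] (a : σ → Ω), AlgebraicIndependent C a →
    ∀ t : τ → Ω, ∃ s, eval₂ (aeval a : MvPolynomial σ C →ₐ[C] Ω).toRingHom t (P s) ≠ 0) →
  ∃ δ : MvPolynomial σ C, δ ≠ 0 ∧ ∀ (Ω : Type) [Field Ω] [Algebra C Ω] (a : σ → Ω),
    aeval a δ ≠ 0 → ∀ t : τ → Ω, ∃ s,
      eval₂ (aeval a : MvPolynomial σ C →ₐ[C] Ω).toRingHom t (P s) ≠ 0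

/-- BER3: rational points. -/
def S_BER3 : Prop := ∀ (k C σ : Type) [Field k] [Infinite k] [Field C] [Algebra k C] [Finite σ]
  (δ : MvPolynomial σ C), δ ≠ 0 → ∃ α : σ → k, eval (fun i => algebraMap k C (α i)) δ ≠ 0

/-- BER: every divisor with strict normal crossings is in general position to the coordinate
hyperplanes after a linear change of coordinates. -/
def S_BER : Prop := ∀ (k : Type) [Field k] [CharZero k] (n : ℕ)
  (F : MvPolynomial (Fin (n + 1)) k), IsSNC F →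
  ∃ g : Matrix (Fin (n + 1)) (Fin (n + 1)) k, IsUnit g.det ∧ IsTrans (lin g F)

end Pool.Agent.J4.H5.VJ
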