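import Pool.Agent.J4.H5.VJ.Defs3

/-!
# All smooth projective varieties `X ⊂ ℙⁿ` and all effective divisors `D` with strict normal crossings
-/

set_option autoImplicit false

open MvPolynomial NumberField IsDedekindDomain Module

namespace Pool.Agent.J4.H5.VJ

/-- The logarithmic height relative to `k` of a point over `L`, for all finite sets of indices. -/
noncomputable def heightI (k : Type) {L : Type} [Field k] [Field L] [NumberField L] [Algebra k L]
    {ι : Type} (x : ι → L) : ℝ := Height.logHeight x / finrank k L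

/-- The local height `log (max_j |x_j| ^ e / max_i |G_i(x)|)` of the subscheme `G_1 = … = G_u = 0`,
the `G_i` forms of degree `e`, for an absolute value of `L`. -/
noncomputable def weilI {k L : Type} [Field k] [Field L] [Algebra k L] {M u : ℕ} (e : ℕ)
    (f : AbsoluteValue L ℝ) (G : Fin u → MvPolynomial (Fin M) k) (x : Fin M → L) : ℝ :=
  Real.log ((⨆ j, f (x j)) ^ e / ⨆ i, f (aeval x (G i)))

/-- The proximity function `∑_{ν ∈ S} λ_D(x, ν)` of the divisor `D : G_1 = … = G_u = 0` relative to
`k`, where `S` consists of the archimedean places of `k` and the primes in `S`. -/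
noncomputable def proximityI {k L : Type} [Field k] [NumberField k] [Field L] [NumberField L]
    [Algebra k L] {M u : ℕ} (S : Finset (HeightOneSpectrum (𝓞 k))) (e : ℕ)
    (G : Fin u → MvPolynomial (Fin M) k) (x : Fin M → L) : ℝ :=
  (∑ w : InfinitePlace L, (w.mult : ℝ) * weilI e w.1 G x +
    ∑ᶠ w ∈ primesAbove S L, weilI e (FinitePlace.mk w).1 G x) / finrank k L

/-- The row of the minors of size `s` of the Jacobian matrix of the forms `f_{α 1}, …, f_{α s}` at the
point `x`. For a smooth `X : f_1 = … = f_t = 0` of codimension `s` all these rows (for all `α`) which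
are not zero are proportional; they are the image `γ(x)` of `x` under the Gauss map of `X`. -/
noncomputable def gaussRow {k L : Type} [Field k] [Field L] [Algebra k L] {n t s : ℕ}
    (f : Fin t → MvPolynomial (Fin (n + 1)) k) (α : Fin s → Fin t) (x : Fin (n + 1) → L) :
    (Fin s → Fin (n + 1)) → L :=
  fun β => (Matrix.of fun i j => aeval x (pderiv (β j) (f (α i)))).det

/-- Vojta's inequality with the error term `A h(x)` for the divisor `D : G_1 = … = G_u = 0` (the `G_i`
forms of degree `e`) on `X : f_1 = … = f_t = 0` of codimension `s` in `ℙⁿ` and the points of degree at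
most `r` over `k`: there is a closed subset `P = 0` which contains no component of `X` such that for all
finite sets `S` of primes (the archimedean places are always added) there is a constant `c` such that
for all number fields `L` of degree at most `r` over `k` and all points `x` of `X` over `L` outside
`P = 0` and `D`: `h_K(x) + ∑_{ν ∈ S} λ_D(x, ν) ≤ A h(x) + d_k(L) + c`. Here
`h_K(x) = h(γ(x)) - (n - s + 1) h(x)` with the Gauss map `γ` is the height for the canonical divisor. -/
def HoldsV (k : Type) [Field k] [NumberField k] {n t u : ℕ} (s : ℕ)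
    (f : Fin t → MvPolynomial (Fin (n + 1)) k) (G : Fin u → MvPolynomial (Fin (n + 1)) k) (e : ℕ)
    (A : ℝ) (r : ℕ) : Prop :=
  ∃ (P : MvPolynomial (Fin (n + 1)) k) (N : ℕ), NZD f P ∧ P.IsHomogeneous N ∧
    ∀ S : Finset (HeightOneSpectrum (𝓞 k)), ∃ c : ℝ,
    ∀ (L : Type) [Field L] [NumberField L] [Algebra k L] (x : Fin (n + 1) → L), x ≠ 0 →
      (∀ i, aeval x (f i) = 0) → finrank k L ≤ r → aeval x P ≠ 0 → (∃ i, aeval x (G i) ≠ 0) →
      ∀ α : Fin s → Fin t, gaussRow f α x ≠ 0 →
      heightI k (gaussRow f α x) - (n - s + 1) * height k x + proximityI S e G x ≤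
        A * height k x + logDisc k L + c

/-- Local equations at the point `z` of `X : f_1 = … = f_t = 0`: near `z` the scheme `X` is given by the
`s` equations `f_{α i}`, the divisor `H_j : H_{j,1} = H_{j,2} = … = 0` of `X` is given by one equation
`H_{j, ι j}`, and the divisor `G_1 = … = G_u = 0` is the sum of the divisors `H_j`. -/
def LocalEquations {C Ω : Type} [Field C] [Field Ω] [Algebra C Ω] {n t u q v s : ℕ}
    (f : Fin t → MvPolynomial (Fin (n + 1)) C) (G : Fin u → MvPolynomial (Fin (n + 1)) C)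
    (H : Fin q → Fin v → MvPolynomial (Fin (n + 1)) C) (z : Fin (n + 1) → Ω)
    (α : Fin s → Fin t) (ι : Fin q → Fin v) : Prop :=
  ∃ a : MvPolynomial (Fin (n + 1)) C, aeval z a ≠ 0 ∧
    (∀ i, a * f i ∈ Ideal.span (Set.range fun i => f (α i))) ∧
    (∀ j i, a * H j i ∈ Ideal.span (Set.range f ∪ {H j (ι j)})) ∧
    (∀ i, a * G i ∈ Ideal.span (Set.range f ∪ {∏ j, H j (ι j)})) ∧
    a * ∏ j, H j (ι j) ∈ Ideal.span (Set.range f ∪ Set.range G)

/-- `X : f_1 = … = f_t = 0` is smooth of codimension `s` and the divisor `D : G_1 = … = G_u = 0` on `X`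
has strict normal crossings: over an algebraic closure of `k` there are closed subschemes
`H_j : H_{j,1} = … = H_{j,v} = 0` such that at all points `z` of `X` over all extension fields `X`, the
`H_j` and `D = ∑ H_j` have local equations as above, and the gradients of the local equations of `X` and
of the `H_j` through `z` are linearly independent. -/
def IsSNCV {k : Type} [Field k] {n t u : ℕ} (s : ℕ) (f : Fin t → MvPolynomial (Fin (n + 1)) k)
    (G : Fin u → MvPolynomial (Fin (n + 1)) k) : Prop :=
  Saturated f ∧ ∃ (q v : ℕ) (d : Fin q → ℕ)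
    (H : Fin q → Fin v → MvPolynomial (Fin (n + 1)) (AlgebraicClosure k)),
    (∀ j i, (H j i).IsHomogeneous (d j)) ∧
    ∀ (Ω : Type) [Field Ω] [Algebra (AlgebraicClosure k) Ω] (z : Fin (n + 1) → Ω), z ≠ 0 →
      (∀ i, aeval z ((f i).map (algebraMap k (AlgebraicClosure k))) = 0) →
      ∃ (α : Fin s → Fin t) (ι : Fin q → Fin v),
        LocalEquations (fun i => (f i).map (algebraMap k (AlgebraicClosure k)))
          (fun i => (G i).map (algebraMap k (AlgebraicClosure k))) H z α ι ∧
        ∀ (a : Fin s → Ω) (c : Fin q → Ω), (∀ j, c j ≠ 0 → aeval z (H j (ι j)) = 0) →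
          (∀ l, ∑ i, a i * aeval z (pderiv l ((f (α i)).map (algebraMap k (AlgebraicClosure k)))) +
            ∑ j, c j * aeval z (pderiv l (H j (ι j))) = 0) → a = 0 ∧ c = 0

/-- The same for the divisor `D` together with the coordinate hyperplanes. -/
def IsTransV {k : Type} [Field k] {n t u : ℕ} (s : ℕ) (f : Fin t → MvPolynomial (Fin (n + 1)) k)
    (G : Fin u → MvPolynomial (Fin (n + 1)) k) : Prop :=
  (∀ l, NZD f (X l)) ∧ ∃ (q v : ℕ) (d : Fin q → ℕ)
    (H : Fin q → Fin v → MvPolynomial (Fin (n + 1)) (AlgebraicClosure k)),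
    (∀ j i, (H j i).IsHomogeneous (d j)) ∧
    ∀ (Ω : Type) [Field Ω] [Algebra (AlgebraicClosure k) Ω] (z : Fin (n + 1) → Ω), z ≠ 0 →
      (∀ i, aeval z ((f i).map (algebraMap k (AlgebraicClosure k))) = 0) →
      ∃ (α : Fin s → Fin t) (ι : Fin q → Fin v),
        LocalEquations (fun i => (f i).map (algebraMap k (AlgebraicClosure k)))
          (fun i => (G i).map (algebraMap k (AlgebraicClosure k))) H z α ι ∧
        ∀ (a : Fin s → Ω) (c : Fin q → Ω) (b : Fin (n + 1) → Ω),
          (∀ j, c j ≠ 0 → aeval z (H j (ι j)) = 0) → (∀ l, b l ≠ 0 → z l = 0) →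
          (∀ l, ∑ i, a i * aeval z (pderiv l ((f (α i)).map (algebraMap k (AlgebraicClosure k)))) +
            ∑ j, c j * aeval z (pderiv l (H j (ι j))) + b l = 0) → a = 0 ∧ c = 0 ∧ b = 0

/-! ## The pieces -/

/-- PROXI: the proximity function does not depend on the field of definition. -/
def S_PROXI : Prop := ∀ (k L L' : Type) [Field k] [NumberField k] [Field L] [NumberField L]
  [Field L'] [NumberField L'] [Algebra k L] [Algebra L L'] [Algebra k L'] [IsScalarTower k L L']
  (M u : ℕ) (S : Finset (HeightOneSpectrum (𝓞 k))) (e : ℕ) (G : Fin u → MvPolynomial (Fin M) k)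
  (x : Fin M → L), x ≠ 0 → (∃ i, aeval x (G i) ≠ 0) →
  proximityI S e G (fun i => algebraMap L L' (x i)) = proximityI S e G x

/-- POWI: the pull back by the power map, and the multiplication by a scalar. -/
def S_POWI : Prop := ∀ (k L : Type) [Field k] [NumberField k] [Field L] [NumberField L]
  [Algebra k L] (M u : ℕ) (S : Finset (HeightOneSpectrum (𝓞 k))) (e m : ℕ)
  (G : Fin u → MvPolynomial (Fin M) k) (y : Fin M → L), 1 ≤ m → 1 ≤ M →
  proximityI S (m * e) (fun i => expand m (G i)) y = proximityI S e G (fun i => y i ^ m) ∧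
  ∀ c : L, c ≠ 0 → (∀ i, (G i).IsHomogeneous e) → proximityI S e G (c • y) = proximityI S e G y

/-- ROWS: multiplication of the point by a scalar, extension of the field. -/
def S_ROWS : Prop := ∀ (k L L' : Type) [Field k] [NumberField k] [Field L] [NumberField L]
  [Field L'] [NumberField L'] [Algebra k L] [Algebra L L'] [Algebra k L'] [IsScalarTower k L L']
  (n t s : ℕ) (f : Fin t → MvPolynomial (Fin (n + 1)) k) (d : Fin t → ℕ) (α : Fin s → Fin t)
  (x : Fin (n + 1) → L) (c : L), (∀ i, (f i).IsHomogeneous (d i)) → c ≠ 0 →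
  heightI k (gaussRow f α (c • x)) = heightI k (gaussRow f α x) ∧
  (gaussRow f α (c • x) ≠ 0 ↔ gaussRow f α x ≠ 0) ∧
  heightI k (gaussRow f α (fun i => algebraMap L L' (x i))) = heightI k (gaussRow f α x) ∧
  (gaussRow f α (fun i => algebraMap L L' (x i)) ≠ 0 ↔ gaussRow f α x ≠ 0)

/-- NSX: the lower bound of the height of `(x_β γ(x)_β)_β`, by the Nullstellensatz. -/
def S_NSX : Prop := ∀ (k : Type) [Field k] [NumberField k] (n t u s : ℕ)
  (f : Fin t → MvPolynomial (Fin (n + 1)) k) (G : Fin u → MvPolynomial (Fin (n + 1)) k)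
  (d : Fin t → ℕ), (∀ i, (f i).IsHomogeneous (d i)) → IsTransV s f G →
  ∃ c : ℝ, ∀ (L : Type) [Field L] [NumberField L] [Algebra k L] (x : Fin (n + 1) → L), x ≠ 0 →
    (∀ i, aeval x (f i) = 0) → ∀ α : Fin s → Fin t, gaussRow f α x ≠ 0 →
    heightI k (gaussRow f α x) + s * height k x ≤
      heightI k (fun β : Fin s → Fin (n + 1) => (∏ j, x (β j)) * gaussRow f α x β) + c

/-- ROWM: the Gauss map of the pull back under the power map. -/
def S_ROWM : Prop := ∀ (k L : Type) [Field k] [NumberField k] [Field L] [NumberField L]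
  [Algebra k L] (n t s m : ℕ) (f : Fin t → MvPolynomial (Fin (n + 1)) k) (α : Fin s → Fin t)
  (y : Fin (n + 1) → L), 1 ≤ m → (∀ l, y l ≠ 0) →
  (gaussRow (fun i => expand m (f i)) α y ≠ 0 ↔ gaussRow f α (fun i => y i ^ m) ≠ 0) ∧
  heightI k (fun β : Fin s → Fin (n + 1) => (∏ j, y (β j) ^ m) *
    gaussRow f α (fun i => y i ^ m) β) ≤
    heightI k (gaussRow (fun i => expand m (f i)) α y) + s * height k y

/-- LINV: invariance under linear changes of the coordinates. -/
def S_LINV : Prop := ∀ (k : Type) [Field k] [NumberField k] (n t u s : ℕ)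
  (f : Fin t → MvPolynomial (Fin (n + 1)) k) (G : Fin u → MvPolynomial (Fin (n + 1)) k) (e : ℕ)
  (A : ℝ) (r : ℕ) (g : Matrix (Fin (n + 1)) (Fin (n + 1)) k), IsUnit g.det →
  (∀ i, (G i).IsHomogeneous e) →
  HoldsV k s (fun i => lin g (f i)) (fun i => lin g (G i)) e A r → HoldsV k s f G e A r

/-- NCV: the condition of normal crossings and the power map. -/
def S_NCV : Prop := ∀ (k : Type) [Field k] [CharZero k] (n t u s m : ℕ)
  (f : Fin t → MvPolynomial (Fin (n + 1)) k) (G : Fin u → MvPolynomial (Fin (n + 1)) k), 1 ≤ m →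
  (∀ l, NZD (fun i => expand m (f i)) (X l)) → IsTransV s f G →
  IsTransV s (fun i => expand m (f i)) (fun i => expand m (G i))

/-- NCW: the coordinate hyperplanes can be omitted. -/
def S_NCW : Prop := ∀ (k : Type) [Field k] (n t u s : ℕ)
  (f : Fin t → MvPolynomial (Fin (n + 1)) k) (G : Fin u → MvPolynomial (Fin (n + 1)) k),
  IsTransV s f G → IsSNCV s f G

/-- BERV: general position after a linear change of coordinates. -/
def S_BERV : Prop := ∀ (k : Type) [Field k] [CharZero k] (n t u s : ℕ)
  (f : Fin t → MvPolynomial (Fin (n + 1)) k) (G : Fin u → MvPolynomial (Fin (n + 1)) k),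
  IsSNCV s f G → ∃ g : Matrix (Fin (n + 1)) (Fin (n + 1)) k, IsUnit g.det ∧
    IsTransV s (fun i => lin g (f i)) (fun i => lin g (G i))

end Pool.Agent.J4.H5.VJ
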