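import Pool.Agent.J4.H5.VJ.Defs2

/-!
# Project VJ, piece HOM: homogeneous coordinates
-/

set_option autoImplicit false

open MvPolynomial NumberField IsDedekindDomain Module

namespace Pool.Agent.J4.H5.VJ.Hom

theorem aeval_smul {k L σ : Type} [Field k] [Field L] [Algebra k L] {F : MvPolynomial σ k} {e : ℕ}
    (hF : F.IsHomogeneous e) (c : L) (x : σ → L) : aeval (c • x) F = c ^ e * aeval x F := by
  rw [aeval_def, aeval_def, eval₂_eq, eval₂_eq, Finset.mul_sum]
  refine Finset.sum_congr rfl fun d hd => ?_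
  have h1 := hF.degree_eq_sum_deg_support hd
  simp only [Pi.smul_apply, smul_eq_mul, mul_pow, Finset.prod_mul_distrib,
    Finset.prod_pow_eq_pow_sum]
  rw [← h1]
  ring

theorem weil_smul {k L : Type} [Field k] [Field L] [Algebra k L] {M : ℕ} {e : ℕ}
    (f : AbsoluteValue L ℝ) {F : MvPolynomial (Fin M) k} (hF : F.IsHomogeneous e) {c : L}
    (hc : c ≠ 0) (x : Fin M → L) : weil e f F (c • x) = weil e f F x := by
  unfold weil
  have h1 : (⨆ j, f ((c • x) j)) = f c * ⨆ j, f (x j) := by
    rw [Real.mul_iSup_of_nonneg (f.nonneg c)]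
    exact iSup_congr fun j => map_mul f _ _
  have hc' : f c ≠ 0 := f.ne_zero hc
  rw [h1, aeval_smul hF, map_mul, map_pow, mul_pow, mul_div_mul_left _ _ (pow_ne_zero _ hc')]

theorem prox_smul {k L : Type} [Field k] [NumberField k] [Field L] [NumberField L]
    [Algebra k L] {M : ℕ} (S : Finset (HeightOneSpectrum (𝓞 k))) {e : ℕ}
    {F : MvPolynomial (Fin M) k} (hF : F.IsHomogeneous e) {c : L} (hc : c ≠ 0) (x : Fin M → L) :
    proximity S e F (c • x) = proximity S e F x := by
  unfold proximity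
  simp only [weil_smul _ hF hc]

theorem height_smul (k : Type) {L : Type} [Field k] [Field L] [NumberField L] [Algebra k L]
    {M : ℕ} {c : L} (hc : c ≠ 0) (x : Fin M → L) : height k (c • x) = height k x := by
  unfold height
  rw [Height.logHeight_smul_eq_logHeight _ hc]

theorem exists_pt {L : Type} [Field L] {n : ℕ} (x : Fin (n + 1) → L) (h : x 0 ≠ 0) :
    ∃ c : L, c ≠ 0 ∧ ∃ y : Fin n → L, x = c • pt y := by
  refine ⟨x 0, h, fun i => (x 0)⁻¹ * x i.succ, ?_⟩
  funext i
  refine Fin.cases ?_ (fun i => ?_) i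
  · simp [pt]
  · simp [pt, mul_inv_cancel_left₀ h]

/-- homogenization -/
noncomputable def hz {k : Type} [Field k] {n : ℕ} (G : MvPolynomial (Fin n) k) :
    MvPolynomial (Fin (n + 1)) k :=
  ∑ i ∈ Finset.range (G.totalDegree + 1),
    X 0 ^ (G.totalDegree - i) * rename Fin.succ (homogeneousComponent i G)

theorem hz_hom {k : Type} [Field k] {n : ℕ} (G : MvPolynomial (Fin n) k) :
    (hz G).IsHomogeneous G.totalDegree := by
  unfold hz
  apply IsHomogeneous.sum
  intro i hi
  have h1 := Finset.mem_range.1 hi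
  have h2 := (isHomogeneous_X_pow (R := k) (0 : Fin (n + 1)) (G.totalDegree - i)).mul
    ((homogeneousComponent_isHomogeneous i G).rename_isHomogeneous (f := Fin.succ))
  have h3 : G.totalDegree - i + i = G.totalDegree := by omega
  rwa [h3] at h2

theorem aeval_hz {k L : Type} [Field k] [Field L] [Algebra k L] {n : ℕ}
    (G : MvPolynomial (Fin n) k) (y : Fin n → L) : aeval (pt y) (hz G) = aeval y G := by
  unfold hz
  rw [map_sum]
  conv_rhs => rw [← sum_homogeneousComponent G, map_sum]
  refine Finset.sum_congr rfl fun i _ => ?_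
  rw [map_mul, map_pow, aeval_X, aeval_rename]
  have h1 : (pt y : Fin (n + 1) → L) 0 = 1 := rfl
  have h2 : (pt y : Fin (n + 1) → L) ∘ Fin.succ = y := by funext i; rfl
  rw [h1, h2, one_pow, one_mul]

theorem exists_ne {k σ : Type} [Field k] [Infinite k] {P : MvPolynomial σ k}
    (h : P ≠ 0) : ∃ x : σ → k, aeval x P ≠ 0 := by
  by_contra hh
  push Not at hh
  apply h
  apply MvPolynomial.funext
  intro x
  have h1 := hh x
  rw [map_zero]
  rwa [MvPolynomial.aeval_eq_eval] at h1

end Pool.Agent.J4.H5.VJ.Hom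

namespace Pool.Agent.J4.H5.VJ
open Hom

theorem t_HOM : S_HOM := by
  intro k _ _ n F e A r hF
  have : Infinite k := inferInstance
  constructor
  · rintro ⟨G, hG, h⟩
    have hz0 : hz G ≠ 0 := by
      obtain ⟨y, hy⟩ := exists_ne hG
      intro h0
      apply hy
      rw [← aeval_hz G y, h0, map_zero]
    refine ⟨X 0 * hz G, 1 + G.totalDegree, mul_ne_zero (X_ne_zero _) hz0,
      (isHomogeneous_X _ _).mul (hz_hom G), fun S => ?_⟩
    obtain ⟨c, hc⟩ := h S
    refine ⟨c, fun L _ _ _ x hx hr h1 h2 => ?_⟩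
    have hx0 : x 0 ≠ 0 := by
      intro h0
      apply h1
      rw [map_mul, aeval_X, h0, zero_mul]
    obtain ⟨c0, hc0, y, rfl⟩ := exists_pt x hx0
    rw [prox_smul S hF hc0, height_smul k hc0]
    apply hc L y hr
    · intro h0
      apply h1
      rw [map_mul, aeval_smul (hz_hom G), aeval_hz, h0, mul_zero, mul_zero]
    · intro h0
      apply h2
      rw [aeval_smul hF, h0, mul_zero]
  · rintro ⟨G, N, hG, hGN, h⟩
    have key : ∀ (L : Type) [Field L] [Algebra k L] (y : Fin n → L),
        aeval y (bind₁ (Fin.cons 1 X : Fin (n + 1) → MvPolynomial (Fin n) k) G)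
          = aeval (pt y) G := by
      intro L _ _ y
      rw [aeval_bind₁]
      congr 2
      funext i
      refine Fin.cases ?_ (fun i => ?_) i
      · simp [pt]
      · simp [pt]
    refine ⟨bind₁ (Fin.cons 1 X : Fin (n + 1) → MvPolynomial (Fin n) k) G, ?_, fun S => ?_⟩
    · intro h0
      obtain ⟨x, hx⟩ := exists_ne (mul_ne_zero (X_ne_zero (0 : Fin (n + 1))) hG)
      rw [map_mul, aeval_X] at hx
      obtain ⟨c0, hc0, y, rfl⟩ := exists_pt x (left_ne_zero_of_mul hx)
      apply right_ne_zero_of_mul hx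
      rw [aeval_smul hGN, ← key k y, h0, map_zero, mul_zero]
    · obtain ⟨c, hc⟩ := h S
      refine ⟨c, fun L _ _ _ x hr h1 h2 => ?_⟩
      rw [key L x] at h1
      apply hc L (pt x) _ hr h1 h2
      intro h0
      have h3 := congrFun h0 0
      simp [pt] at h3

end Pool.Agent.J4.H5.VJ
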