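import Pool.Agent.J4.H5.VJ.Defs3
import Pool.Agent.J4.H5.VJ.Main
import Pool.Agent.J4.H5.VJ.T_HOM

/-!
# The main argument for complete intersections
-/

set_option autoImplicit false

open MvPolynomial NumberField IsDedekindDomain Module

namespace Pool.Agent.J4.H5.VJ

theorem nzd_mul {k : Type} [Field k] {n s : ℕ} {f : Fin s → MvPolynomial (Fin (n + 1)) k}
    {G G' : MvPolynomial (Fin (n + 1)) k} (h : NZD f G) (h' : NZD f G') : NZD f (G * G') :=
  fun H hH => h' H (h (G' * H) (by rwa [← mul_assoc]))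

theorem nzd_prod {k : Type} [Field k] {n s : ℕ} {f : Fin s → MvPolynomial (Fin (n + 1)) k}
    {ι : Type} (T : Finset ι) (G : ι → MvPolynomial (Fin (n + 1)) k) (h : ∀ i, NZD f (G i)) :
    NZD f (∏ i ∈ T, G i) := by
  classical
  induction T using Finset.induction_on with
  | empty => intro H hH; simpa using hH
  | insert a T ha ih => rw [Finset.prod_insert ha]; exact nzd_mul (h a) ih

/-- The descent from the pull back under the power map. -/
theorem descX (hPROX : S_PROX) (hPOW : S_POW) (hHT : S_HT) (hSER : S_SER) (hUNR : S_UNR)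
    (hKUM : S_KUM) (hCNT : S_CNT) (hDIV : S_DIV) (hDISC : S_DISC) (hPUSHX : S_PUSHX)
    (k : Type) [Field k] [NumberField k] {n s : ℕ} (f : Fin s → MvPolynomial (Fin (n + 1)) k)
    (d : Fin s → ℕ) (hf : ∀ i, (f i).IsHomogeneous (d i)) (hX : ∀ l, NZD f (X l))
    (F : MvPolynomial (Fin (n + 1)) k) (e m : ℕ) (hFe : F.IsHomogeneous e)
    (hm : 1 ≤ m) (A : ℝ)
    (h : ∀ r, HoldsX k (fun i => expand m (f i)) (expand m F) (m * e) (A * m) r) (r : ℕ) :
    HoldsX k f F e (n + 1 + A) r := by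
  classical
  obtain ⟨B, hB⟩ := hKUM n m hm
  obtain ⟨G₁, N₁, hG₁, hN₁, hS⟩ := h (r * B)
  obtain ⟨G₂, N₂, hG₂, hN₂, hG₂'⟩ := hPUSHX k n s m f G₁ N₁ hm hG₁ hN₁
  refine ⟨G₂ * ∏ i, X i, N₂ + ∑ i : Fin (n + 1), 1, nzd_mul hG₂ (nzd_prod _ _ hX),
    hN₂.mul (IsHomogeneous.prod _ _ _ fun i _ => isHomogeneous_X k i), fun S => ?_⟩
  obtain ⟨c, hc⟩ := hS S
  refine ⟨c + finrank ℚ k * (Real.log m + Real.log (max B 1 : ℕ)), ?_⟩
  intro L _ _ _ x₀ hxne hfx hr hGx hFx
  rw [map_mul, map_prod, mul_ne_zero_iff, Finset.prod_ne_zero_iff] at hGx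
  obtain ⟨hG2x, hx⟩ := hGx
  have hx00 : ∀ i, x₀ i ≠ 0 := fun i => by simpa using hx i (Finset.mem_univ i)
  obtain ⟨c₀, hc₀, x, rfl⟩ := Hom.exists_pt x₀ (hx00 0)
  rw [Hom.prox_smul S hFe hc₀, Hom.height_smul k hc₀]
  have hx0 : ∀ i, x i ≠ 0 := by
    intro i h0
    apply hx00 i.succ
    simp [pt, h0]
  have hfx' : ∀ i, aeval (pt x) (f i) = 0 := by
    intro i
    have := hfx i
    rw [Hom.aeval_smul (hf i)] at this
    exact (mul_eq_zero.1 this).resolve_left (pow_ne_zero _ hc₀)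
  rw [Hom.aeval_smul hN₂] at hG2x
  replace hG2x := (mul_ne_zero_iff.1 hG2x).2
  rw [Hom.aeval_smul hFe] at hFx
  replace hFx := (mul_ne_zero_iff.1 hFx).2
  obtain ⟨L', _, _, _, _, y, Θ, hdeg, hy, hΘ, hΘ'⟩ := hB L x hx0
  let _ : Algebra k L' := ((algebraMap L L').comp (algebraMap k L)).toAlgebra
  have _ : IsScalarTower k L L' := IsScalarTower.of_algebraMap_eq fun _ => rfl
  have hyfun : (fun i => y i ^ m) = fun i => algebraMap L L' (x i) := funext hy
  have hpt : (fun i => pt y i ^ m) = fun i => algebraMap L L' (pt x i) := by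
    rw [pt_pow, hyfun, pt_map]
  have hfin : finrank k L' = finrank k L * finrank L L' := (finrank_mul_finrank k L L').symm
  have hpos : 0 < finrank k L := finrank_pos
  have hpos' : 0 < finrank L L' := finrank_pos
  have h1 := hc L' (pt y) (pt_ne_zero y) (by
    intro i
    rw [aeval_expand', hpt, aeval_ext, hfx' i, map_zero]) (by
    rw [hfin]
    exact Nat.mul_le_mul hr hdeg) (by
    intro h0
    have h2 := hG₂' L' (pt y) h0
    rw [hpt, aeval_ext] at h2
    exact hG2x ((map_eq_zero _).1 h2)) (by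
    rw [aeval_expand', hpt, aeval_ext]
    intro h0
    exact hFx ((map_eq_zero _).1 h0))
  obtain ⟨hpow1, hpow2⟩ := hPOW k L' (n + 1) S e m F (pt y) hm (by omega)
  rw [hpow1, hpt, hPROX k L L' (n + 1) S e F (pt x) (pt_ne_zero x) hFx] at h1
  have h3 : (m : ℝ) * height k (pt y) = height k (pt x) := by
    rw [← hpow2, hpt, hHT k L L' (n + 1) (pt x)]
  -- the discriminant
  obtain ⟨T₁, hT₁, hT₁s⟩ := hCNT n L x hx0
  obtain ⟨T₂, hT₂, hT₂s⟩ := hDIV m hm L
  have h4 := hSER L L' (T₁ ∪ T₂) (by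
    intro P hP
    by_contra hcon
    push Not at hcon
    have hex : ∃ v : HeightOneSpectrum (𝓞 L), P.asIdeal.LiesOver v.asIdeal :=
      ⟨P.under (𝓞 L), ⟨rfl⟩⟩
    obtain ⟨v, hv⟩ := hex
    have hvT : v ∉ T₁ ∪ T₂ := fun h => hcon v h hv
    rw [Finset.mem_union, not_or] at hvT
    refine hUNR L L' m Θ hm hΘ P v hv (hT₂ v hvT.2) ?_ hP
    intro θ hθ
    rcases hΘ' θ hθ with h | ⟨i, hi⟩
    · exact ⟨1, map_one _, by rw [h, map_one]⟩
    · exact ⟨x i, hT₁ v hvT.1 i, hi⟩)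
  have h5 : ∑ v ∈ T₁ ∪ T₂, Real.log (Ideal.absNorm v.asIdeal : ℝ) ≤
      ∑ v ∈ T₁, Real.log (Ideal.absNorm v.asIdeal : ℝ) +
        ∑ v ∈ T₂, Real.log (Ideal.absNorm v.asIdeal : ℝ) := by
    have h6 := Finset.sum_union_inter (s₁ := T₁) (s₂ := T₂)
      (f := fun v : HeightOneSpectrum (𝓞 L) => Real.log (Ideal.absNorm v.asIdeal : ℝ))
    have h7 : 0 ≤ ∑ v ∈ T₁ ∩ T₂, Real.log (Ideal.absNorm v.asIdeal : ℝ) :=
      Finset.sum_nonneg fun v _ => Real.log_natCast_nonneg _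
    linarith
  have hD := hDISC k L L'
  have hkL : (finrank ℚ L : ℝ) = finrank ℚ k * finrank k L := by
    rw [← Nat.cast_mul, finrank_mul_finrank]
  have hposR : (0 : ℝ) < finrank k L := by exact_mod_cast hpos
  have hposR' : (0 : ℝ) < finrank L L' := by exact_mod_cast hpos'
  have hlogN : Real.log (finrank L L') ≤ Real.log (max B 1 : ℕ) := by
    apply Real.log_le_log hposR'
    exact_mod_cast hdeg.trans (le_max_left _ _)
  have h8 : Real.log (Ideal.absNorm (differentIdeal (𝓞 L) (𝓞 L')) : ℝ) / finrank k L' ≤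
      (n + 1) * height k (pt x) + finrank ℚ k * (Real.log m + Real.log (max B 1 : ℕ)) := by
    rw [hfin, Nat.cast_mul, div_le_iff₀ (mul_pos hposR hposR')]
    have h9 : Real.log (Ideal.absNorm (differentIdeal (𝓞 L) (𝓞 L')) : ℝ) ≤
        finrank L L' * ((n + 1) * Height.logHeight (pt x) + finrank ℚ L * Real.log m +
          finrank ℚ L * Real.log (max B 1 : ℕ)) := by
      refine h4.trans (mul_le_mul_of_nonneg_left ?_ hposR'.le)
      have h10 := mul_le_mul_of_nonneg_left hlogN (Nat.cast_nonneg (α := ℝ) (finrank ℚ L))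
      linarith
    refine h9.trans (le_of_eq ?_)
    rw [hkL]
    unfold height
    field_simp
    ring
  have h11 : A * m * height k (pt y) = A * height k (pt x) := by rw [mul_assoc, h3]
  rw [h11, hD] at h1
  linarith

end Pool.Agent.J4.H5.VJ
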