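import Pool.Agent.J4.H5.VJ.Defs
import Pool.Agent.Helper259.HtExt

/-!
# Project VJ (helper5), piece PROX (helper30): the proximity function does not depend on the field
-/

set_option autoImplicit false

open MvPolynomial NumberField IsDedekindDomain Module

namespace Pool.Agent.J4.H5.VJ

namespace PROX

section loc

variable {k L L' : Type} [Field k] [Field L] [NumberField L]
  [Field L'] [NumberField L'] [Algebra k L] [Algebra L L'] [Algebra k L'] [IsScalarTower k L L']

/-- the degree of the completions -/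
noncomputable def dg (v : HeightOneSpectrum (𝓞 L)) (w : HeightOneSpectrum (𝓞 L')) : ℕ :=
  v.asIdeal.ramificationIdx' w.asIdeal * v.asIdeal.inertiaDeg' w.asIdeal

theorem toNNReal_pow {a : NNReal} (ha : a ≠ 0) {b : NNReal} (hb : b ≠ 0) (f : ℕ) (hab : b = a ^ f)
    (z : WithZero (Multiplicative ℤ)) (hz : z ≠ 0) :
    WithZeroMulInt.toNNReal hb z = WithZeroMulInt.toNNReal ha z ^ f := by
  rw [WithZeroMulInt.toNNReal_neg_apply hb hz, WithZeroMulInt.toNNReal_neg_apply ha hz, hab,
    ← zpow_natCast, ← zpow_natCast, ← zpow_mul, ← zpow_mul, mul_comm]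

/-- extension of the absolute values -/
theorem abs_ext (v : HeightOneSpectrum (𝓞 L)) (w : HeightOneSpectrum (𝓞 L'))
    (h : w.asIdeal.LiesOver v.asIdeal) (x : L) (hx : x ≠ 0) :
    (FinitePlace.mk w).1 (algebraMap L L' x) = (FinitePlace.mk v).1 x ^ dg v w := by
  have h1 : (FinitePlace.mk w).1 (algebraMap L L' x) =
      ‖FinitePlace.embedding w (algebraMap L L' x)‖ := rfl
  have h2 : (FinitePlace.mk v).1 x = ‖FinitePlace.embedding v x‖ := rfl
  rw [h1, h2, FinitePlace.norm_embedding', FinitePlace.norm_embedding',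
    ← HeightOneSpectrum.valuation_liesOver L' v w x, map_pow]
  have hz : v.valuation L x ≠ 0 := (v.valuation L).ne_zero_iff.2 hx
  have hN : (Ideal.absNorm w.asIdeal : NNReal) =
      (Ideal.absNorm v.asIdeal : NNReal) ^ (v.asIdeal.inertiaDeg' w.asIdeal) := by
    rw [Ideal.absNorm_eq_pow_inertiaDeg'_of_liesOver w.asIdeal v.asIdeal v.isPrime v.ne_bot]
    push_cast
    rfl
  rw [toNNReal_pow (HeightOneSpectrum.absNorm_ne_zero v) (HeightOneSpectrum.absNorm_ne_zero w)
    _ hN _ hz]
  unfold dg
  rw [← pow_mul, mul_comm]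
  push_cast
  rfl

omit [NumberField L] [NumberField L'] in
/-- the local heights -/
theorem weil_pow {e : ℕ} {M : ℕ} (F : MvPolynomial (Fin M) k) (x : Fin M → L) (hx : x ≠ 0)
    (f : AbsoluteValue L ℝ) (g : AbsoluteValue L' ℝ) (n : ℕ) (hn : n ≠ 0)
    (hfg : ∀ y : L, y ≠ 0 → g (algebraMap L L' y) = f y ^ n) :
    weil e g F (fun i => algebraMap L L' (x i)) = n * weil e f F x := by
  have hfg' : ∀ y : L, g (algebraMap L L' y) = f y ^ n := by
    intro y
    by_cases hy : y = 0
    · rw [hy, map_zero, map_zero, map_zero, zero_pow hn]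
    · exact hfg y hy
  have hM : Nonempty (Fin M) := by
    by_contra hM
    rw [not_nonempty_iff] at hM
    exact hx (funext fun i => (hM.false i).elim)
  unfold weil
  have h1 : aeval (fun i => algebraMap L L' (x i)) F = algebraMap L L' (aeval x F) := by
    have := MvPolynomial.aeval_algebraMap_apply (A := L) L' x F
    exact this
  rw [h1, hfg']
  simp only [hfg']
  rw [← Real.iSup_pow (fun i => f.nonneg _) n, ← pow_mul, mul_comm n e, pow_mul, ← div_pow,
    Real.log_pow]

end loc

section sum

variable {L L' : Type} [Field L] [NumberField L] [Field L'] [NumberField L'] [Algebra L L']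

/-- the primes above `v` -/
def ov (L' : Type) [Field L'] [NumberField L'] [Algebra L L'] (v : HeightOneSpectrum (𝓞 L)) :
    Set (HeightOneSpectrum (𝓞 L')) := {w | w.asIdeal.LiesOver v.asIdeal}

theorem mem_pof (v : HeightOneSpectrum (𝓞 L)) (P : Ideal (𝓞 L')) :
    P ∈ IsDedekindDomain.primesOverFinset v.asIdeal (𝓞 L') ↔ P.IsPrime ∧ P.LiesOver v.asIdeal := by
  have := v.isMaximal
  exact IsDedekindDomain.mem_primesOverFinset_iff v.ne_bot _

theorem ov_finite (v : HeightOneSpectrum (𝓞 L)) : (ov L' v).Finite := by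
  refine ((IsDedekindDomain.primesOverFinset v.asIdeal (𝓞 L')).finite_toSet.preimage
    (f := fun w : HeightOneSpectrum (𝓞 L') => w.asIdeal) ?_).subset ?_
  · intro w _ w' _ h
    exact HeightOneSpectrum.ext h
  · intro w hw
    rw [Set.mem_preimage, Finset.mem_coe, mem_pof]
    exact ⟨w.isPrime, hw⟩

theorem sum_dg (v : HeightOneSpectrum (𝓞 L)) :
    ∑ w ∈ (ov_finite (L' := L') v).toFinset, dg v w = finrank L L' := by
  have := v.isMaximal
  rw [← Ideal.sum_ramification_inertia (𝓞 L') L L' v.ne_bot]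
  refine Finset.sum_bij (fun w _ => w.asIdeal) ?_ ?_ ?_ ?_
  · intro w hw
    rw [Set.Finite.mem_toFinset] at hw
    rw [mem_pof]
    exact ⟨w.isPrime, hw⟩
  · intro w _ w' _ h
    exact HeightOneSpectrum.ext h
  · intro P hP
    rw [mem_pof] at hP
    have hb : P ≠ ⊥ := by
      intro hb
      have h1 := hP.2.over
      rw [hb, Ideal.under_bot] at h1
      exact v.ne_bot h1
    refine ⟨⟨P, hP.1, hb⟩, ?_, rfl⟩
    rw [Set.Finite.mem_toFinset]
    exact hP.2
  · intro w _
    rfl

theorem dg_ne_zero (v : HeightOneSpectrum (𝓞 L)) (w : HeightOneSpectrum (𝓞 L'))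
    (h : w.asIdeal.LiesOver v.asIdeal) : dg v w ≠ 0 := by
  have := v.isMaximal
  unfold dg
  exact mul_ne_zero (Ideal.IsDedekindDomain.ramificationIdx'_ne_zero_of_liesOver w.asIdeal v.ne_bot)
    (Ideal.inertiaDeg'_ne_zero v.asIdeal w.asIdeal)

end sum

end PROX

open PROX

theorem t_PROX : S_PROX := by
  intro k L L' _ _ _ _ _ _ _ _ _ _ M S e F x hx hF
  have hfr : finrank k L * finrank L L' = finrank k L' := finrank_mul_finrank k L L'
  have hpos : (0 : ℝ) < finrank L L' := by exact_mod_cast finrank_pos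
  have hpos' : (0 : ℝ) < finrank k L := by exact_mod_cast finrank_pos
  -- the infinite places
  have hinf : ∑ w : InfinitePlace L', (w.mult : ℝ) * weil e w.1 F (fun i => algebraMap L L' (x i)) =
      finrank L L' * ∑ w : InfinitePlace L, (w.mult : ℝ) * weil e w.1 F x := by
    have h1 := Helper259.HtExt.prod_inf_ext (K := L) (L := L')
      (fun v => Real.exp (weil e v.1 F x))
    have h2 : ∀ w : InfinitePlace L', weil e w.1 F (fun i => algebraMap L L' (x i)) =
        weil e (w.comap (algebraMap L L')).1 F x := by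
      intro w
      rw [weil_pow F x hx (w.comap (algebraMap L L')).1 w.1 1 one_ne_zero
        (fun y _ => by rw [pow_one]; rfl), Nat.cast_one, one_mul]
    simp only [h2]
    have h3 : Real.exp (∑ w : InfinitePlace L', (w.mult : ℝ) *
        weil e (w.comap (algebraMap L L')).1 F x) =
        Real.exp (finrank L L' * ∑ w : InfinitePlace L, (w.mult : ℝ) * weil e w.1 F x) := by
      rw [Real.exp_sum, Real.exp_nat_mul, Real.exp_sum]
      simp only [Real.exp_nat_mul]
      exact h1
    exact Real.exp_injective h3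
  -- the primes above one prime
  have hfin1 : ∀ v : HeightOneSpectrum (𝓞 L), ∑ᶠ w ∈ ov L' v, weil e (FinitePlace.mk w).1 F
      (fun i => algebraMap L L' (x i)) = finrank L L' * weil e (FinitePlace.mk v).1 F x := by
    intro v
    rw [finsum_mem_eq_finite_toFinset_sum _ (ov_finite v)]
    have h1 : ∀ w ∈ (ov_finite (L' := L') v).toFinset, weil e (FinitePlace.mk w).1 F
        (fun i => algebraMap L L' (x i)) = (dg v w : ℝ) * weil e (FinitePlace.mk v).1 F x := by
      intro w hw
      rw [Set.Finite.mem_toFinset] at hw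
      exact weil_pow F x hx _ _ _ (dg_ne_zero v w hw) (fun y hy => abs_ext v w hw y hy)
    rw [Finset.sum_congr rfl h1, ← Finset.sum_mul, ← Nat.cast_sum, sum_dg]
  -- the primes above `S`
  have hSf : (primesAbove S L).Finite := by
    have : primesAbove S L = ⋃ v ∈ (S : Set (HeightOneSpectrum (𝓞 k))), ov L v := by
      ext w
      simp only [Set.mem_iUnion, exists_prop, Finset.mem_coe]
      rfl
    rw [this]
    exact S.finite_toSet.biUnion fun v _ => ov_finite v
  have hunion : primesAbove S L' = ⋃ v ∈ primesAbove S L, ov L' v := by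
    ext w
    simp only [Set.mem_iUnion, exists_prop]
    constructor
    · rintro ⟨u, hu, hwu⟩
      refine ⟨w.under (𝓞 L), ⟨u, hu, ?_⟩, ⟨rfl⟩⟩
      have := hwu
      have : w.asIdeal.LiesOver (w.under (𝓞 L)).asIdeal := ⟨rfl⟩
      exact Ideal.LiesOver.tower_bot w.asIdeal (w.under (𝓞 L)).asIdeal u.asIdeal
    · rintro ⟨v, ⟨u, hu, hvu⟩, hwv⟩
      have := hvu
      have : w.asIdeal.LiesOver v.asIdeal := hwv
      exact ⟨u, hu, Ideal.LiesOver.trans w.asIdeal v.asIdeal u.asIdeal⟩
  have hdisj : (primesAbove S L).PairwiseDisjoint (ov L') := by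
    intro v _ v' _ hvv
    rw [Function.onFun, Set.disjoint_left]
    intro w hw hw'
    apply hvv
    exact HeightOneSpectrum.ext (hw.over.trans hw'.over.symm)
  have hfin : ∑ᶠ w ∈ primesAbove S L', weil e (FinitePlace.mk w).1 F
      (fun i => algebraMap L L' (x i)) =
      finrank L L' * ∑ᶠ w ∈ primesAbove S L, weil e (FinitePlace.mk w).1 F x := by
    rw [hunion, finsum_mem_biUnion hdisj hSf (fun v _ => ov_finite v)]
    refine Eq.trans (finsum_mem_congr rfl fun v _ => hfin1 v) ?_
    exact (mul_finsum_mem' (fun w : HeightOneSpectrum (𝓞 L) => weil e (FinitePlace.mk w).1 F x)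
      (finrank L L' : ℝ) hSf).symm
  unfold proximity
  rw [hinf, hfin, ← hfr, ← mul_add]
  push_cast
  rw [mul_comm (finrank k L : ℝ), mul_div_mul_left _ _ hpos.ne']

end Pool.Agent.J4.H5.VJ
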