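import Pool.Agent.J4.H5.VJ.Defs2
import Pool.Agent.J4.H5.VJ.T_PROX

/-!
# Project VJ, piece LINH: linear changes of the coordinates
-/

set_option autoImplicit false

open MvPolynomial NumberField IsDedekindDomain Module

namespace Pool.Agent.J4.H5.VJ

namespace LINH

theorem aeval_lin {k L : Type} [Field k] [Field L] [Algebra k L] {n : ℕ}
    (g : Matrix (Fin (n + 1)) (Fin (n + 1)) k) (F : MvPolynomial (Fin (n + 1)) k)
    (y : Fin (n + 1) → L) :
    aeval y (lin g F) = aeval (fun i => ∑ j, algebraMap k L (g i j) * y j) F := by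
  unfold lin
  rw [aeval_bind₁]
  congr 2
  funext i
  simp

theorem mul_inv_apply {k L : Type} [Field k] [Field L] [Algebra k L] {n : ℕ}
    (g h : Matrix (Fin (n + 1)) (Fin (n + 1)) k) (hgh : g * h = 1) (x : Fin (n + 1) → L)
    (i : Fin (n + 1)) :
    ∑ j, algebraMap k L (g i j) * ∑ l, algebraMap k L (h j l) * x l = x i := by
  have h1 : ∀ l, ∑ j, g i j * h j l = if i = l then 1 else 0 := by
    intro l
    have := congrFun (congrFun hgh i) l
    rw [Matrix.mul_apply, Matrix.one_apply] at this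
    exact this
  calc ∑ j, algebraMap k L (g i j) * ∑ l, algebraMap k L (h j l) * x l
      = ∑ l, algebraMap k L (∑ j, g i j * h j l) * x l := by
        simp only [Finset.mul_sum, map_sum, map_mul, Finset.sum_mul]
        rw [Finset.sum_comm]
        refine Finset.sum_congr rfl fun l _ => Finset.sum_congr rfl fun j _ => ?_
        ring
    _ = x i := by
        simp only [h1]
        simp

theorem lin_hom {k : Type} [Field k] {n : ℕ} (g : Matrix (Fin (n + 1)) (Fin (n + 1)) k)
    (G : MvPolynomial (Fin (n + 1)) k) (N : ℕ) (hG : G.IsHomogeneous N) :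
    (lin g G).IsHomogeneous N := by
  unfold lin
  have h := hG.aeval (fun i => ∑ j, C (g i j) * X j) (n := 1) (fun i => by
    refine IsHomogeneous.sum _ _ _ fun j _ => ?_
    have := (isHomogeneous_C (Fin (n + 1)) (g i j)).mul (isHomogeneous_X k j)
    simpa using this)
  rw [one_mul] at h
  exact h

theorem lin_ne_zero {k : Type} [Field k] [Infinite k] {n : ℕ}
    (g h : Matrix (Fin (n + 1)) (Fin (n + 1)) k) (hgh : g * h = 1)
    (G : MvPolynomial (Fin (n + 1)) k) (hG : G ≠ 0) : lin g G ≠ 0 := by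
  intro h0
  apply hG
  refine MvPolynomial.funext fun y => ?_
  have h1 := aeval_lin (L := k) g G (fun i => ∑ j, h i j * y j)
  rw [h0, map_zero] at h1
  have h2 : (fun i => ∑ j, algebraMap k k (g i j) * ∑ l, h j l * y l) = y := by
    funext i
    exact mul_inv_apply (L := k) g h hgh y i
  rw [h2] at h1
  rw [map_zero, ← coe_aeval_eq_eval]
  exact h1.symm

theorem iSup_pos' {L : Type} [Field L] {ι : Type} [Finite ι] (f : AbsoluteValue L ℝ) (x : ι → L)
    (hx : x ≠ 0) : 0 < ⨆ i, f (x i) := by
  obtain ⟨i, hi⟩ := Function.ne_iff.mp hx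
  exact (f.pos hi).trans_le (Finite.le_ciSup (fun i => f (x i)) i)

theorem weil_eq {k L : Type} [Field k] [Field L] [Algebra k L] {M : ℕ} (e : ℕ)
    (f : AbsoluteValue L ℝ) (F : MvPolynomial (Fin M) k) (x : Fin M → L) (hx : x ≠ 0)
    (hF : aeval x F ≠ 0) : weil e f F x = e * Real.log (⨆ j, f (x j)) - Real.log (f (aeval x F)) := by
  unfold weil
  rw [Real.log_div (pow_ne_zero _ (iSup_pos' f x hx).ne') (f.ne_zero hF), Real.log_pow]

/-- the coefficients as a vector -/
def vec {k : Type} {n : ℕ} (g : Matrix (Fin (n + 1)) (Fin (n + 1)) k) :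
    Fin ((n + 1) * (n + 1)) → k := fun t => g (finProdFinEquiv.symm t).1 (finProdFinEquiv.symm t).2

theorem iSup_vec {k L : Type} [Field k] [Field L] [Algebra k L] {n : ℕ}
    (g : Matrix (Fin (n + 1)) (Fin (n + 1)) k) (f : AbsoluteValue L ℝ) :
    ⨆ t, f (algebraMap k L (vec g t)) =
      ⨆ p : Fin (n + 1) × Fin (n + 1), f (algebraMap k L (g p.1 p.2)) := by
  exact (finProdFinEquiv (m := n + 1) (n := n + 1)).symm.surjective.iSup_comp
    (fun p : Fin (n + 1) × Fin (n + 1) => f (algebraMap k L (g p.1 p.2)))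

theorem primes_finite {k L : Type} [Field k] [NumberField k] [Field L] [NumberField L]
    [Algebra k L] (S : Finset (HeightOneSpectrum (𝓞 k))) : (primesAbove S L).Finite := by
  have : primesAbove S L = ⋃ v ∈ (S : Set (HeightOneSpectrum (𝓞 k))), PROX.ov L v := by
    ext w
    simp only [Set.mem_iUnion, exists_prop, Finset.mem_coe]
    rfl
  rw [this]
  exact S.finite_toSet.biUnion fun v _ => PROX.ov_finite v

theorem prox_le {k L : Type} [Field k] [NumberField k] [Field L] [NumberField L]
    [Algebra k L] {n : ℕ} (S : Finset (HeightOneSpectrum (𝓞 k))) (e : ℕ)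
    (F : MvPolynomial (Fin (n + 1)) k) (g : Matrix (Fin (n + 1)) (Fin (n + 1)) k)
    (hg : vec g ≠ 0) (x y : Fin (n + 1) → L) (hx : x ≠ 0) (hy : y ≠ 0)
    (hxy : x = fun i => ∑ j, algebraMap k L (g i j) * y j) (hF : aeval x F ≠ 0) :
    proximity S e F x ≤ proximity S e (lin g F) y +
      e * (finrank ℚ k * Real.log (n + 1) + proximity S 1 (1 : MvPolynomial _ k) (vec g)) := by
  have hd : (0 : ℝ) < finrank k L := by exact_mod_cast finrank_pos
  have hF' : aeval y (lin g F) = aeval x F := by rw [aeval_lin, ← hxy]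
  have hvL : (fun t => algebraMap k L (vec g t)) ≠ 0 := by
    intro h
    apply hg
    funext t
    have := congrFun h t
    simpa using this
  rw [← t_PROX k k L _ S 1 (1 : MvPolynomial _ k) (vec g) hg (by simp)]
  have hone : ∀ f : AbsoluteValue L ℝ, weil 1 f (1 : MvPolynomial _ k)
      (fun t => algebraMap k L (vec g t)) = Real.log (⨆ t, f (algebraMap k L (vec g t))) := by
    intro f
    rw [weil_eq 1 f _ _ hvL (by simp)]
    simp
  have hsup : ∀ f : AbsoluteValue L ℝ, 0 < ⨆ t, f (algebraMap k L (vec g t)) := fun f =>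
    iSup_pos' f _ hvL
  have hinf : ∀ w : InfinitePlace L, weil e w.1 F x ≤ weil e w.1 (lin g F) y +
      e * (Real.log (n + 1) + weil 1 w.1 (1 : MvPolynomial _ k)
        (fun t => algebraMap k L (vec g t))) := by
    intro w
    have h1 := AbsoluteValue.iSup_abv_linearMap_apply_le w.1
      (fun p : Fin (n + 1) × Fin (n + 1) => algebraMap k L (g p.1 p.2)) y
    rw [← iSup_vec] at h1
    have h2 : (fun j => w.1 (∑ i, algebraMap k L (g j i) * y i)) = fun j => w.1 (x j) := by
      rw [hxy]
    have h3 : ⨆ j, w.1 (x j) ≤ (n + 1 : ℝ) * (⨆ t, w.1 (algebraMap k L (vec g t))) *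
        ⨆ j, w.1 (y j) := by
      rw [← h2]
      simpa using h1
    have h4 := Real.log_le_log (iSup_pos' w.1 x hx) h3
    have hn : (0 : ℝ) < n + 1 := by positivity
    rw [Real.log_mul (mul_pos hn (hsup w.1)).ne' (iSup_pos' w.1 y hy).ne',
      Real.log_mul hn.ne' (hsup w.1).ne'] at h4
    rw [hone, weil_eq e w.1 F x hx hF, weil_eq e w.1 (lin g F) y hy (by rw [hF']; exact hF), hF']
    have h5 := mul_le_mul_of_nonneg_left h4 (Nat.cast_nonneg (α := ℝ) e)
    linarith
  have hfin : ∀ w : HeightOneSpectrum (𝓞 L), weil e (FinitePlace.mk w).1 F x ≤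
      weil e (FinitePlace.mk w).1 (lin g F) y +
      e * weil 1 (FinitePlace.mk w).1 (1 : MvPolynomial _ k)
        (fun t => algebraMap k L (vec g t)) := by
    intro w
    have hna : IsNonarchimedean (FinitePlace.mk w).1 := FinitePlace.add_le (FinitePlace.mk w)
    have h1 := hna.iSup_abv_linearMap_apply_le
      (fun p : Fin (n + 1) × Fin (n + 1) => algebraMap k L (g p.1 p.2)) y
    rw [← iSup_vec] at h1
    have h2 : (fun j => (FinitePlace.mk w).1 (∑ i, algebraMap k L (g j i) * y i)) =
        fun j => (FinitePlace.mk w).1 (x j) := by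
      rw [hxy]
    have h3 : ⨆ j, (FinitePlace.mk w).1 (x j) ≤
        (⨆ t, (FinitePlace.mk w).1 (algebraMap k L (vec g t))) *
        ⨆ j, (FinitePlace.mk w).1 (y j) := by
      rw [← h2]
      exact h1
    have h4 := Real.log_le_log (iSup_pos' _ x hx) h3
    rw [Real.log_mul (hsup _).ne' (iSup_pos' _ y hy).ne'] at h4
    rw [hone, weil_eq e _ F x hx hF, weil_eq e _ (lin g F) y hy (by rw [hF']; exact hF), hF']
    have h5 := mul_le_mul_of_nonneg_left h4 (Nat.cast_nonneg (α := ℝ) e)
    linarith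
  unfold proximity
  rw [finsum_mem_eq_finite_toFinset_sum _ (primes_finite S),
    finsum_mem_eq_finite_toFinset_sum _ (primes_finite S),
    finsum_mem_eq_finite_toFinset_sum _ (primes_finite S)]
  have hm : ∑ w : InfinitePlace L, (w.mult : ℝ) = finrank k L * finrank ℚ k := by
    rw [← Nat.cast_sum, InfinitePlace.sum_mult_eq, ← finrank_mul_finrank ℚ k L]
    push_cast
    ring
  have hsum1 := Finset.sum_le_sum (s := (Finset.univ : Finset (InfinitePlace L)))
    (fun w _ => mul_le_mul_of_nonneg_left (hinf w) (Nat.cast_nonneg (α := ℝ) w.mult))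
  have hsum2 := Finset.sum_le_sum (s := (primes_finite (L := L) S).toFinset)
    (fun w _ => hfin w)
  have e1 : ∑ w : InfinitePlace L, (w.mult : ℝ) * (weil e w.1 (lin g F) y +
      e * (Real.log (n + 1) + weil 1 w.1 (1 : MvPolynomial _ k)
        (fun t => algebraMap k L (vec g t)))) =
      ∑ w : InfinitePlace L, (w.mult : ℝ) * weil e w.1 (lin g F) y +
      e * (finrank k L * finrank ℚ k * Real.log (n + 1) + ∑ w : InfinitePlace L, (w.mult : ℝ) *
        weil 1 w.1 (1 : MvPolynomial _ k) (fun t => algebraMap k L (vec g t))) := by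
    rw [← hm, Finset.sum_mul, ← Finset.sum_add_distrib, Finset.mul_sum, ← Finset.sum_add_distrib]
    refine Finset.sum_congr rfl fun w _ => ?_
    ring
  rw [e1] at hsum1
  rw [Finset.sum_add_distrib, ← Finset.mul_sum] at hsum2
  rw [div_le_iff₀ hd, add_mul, div_mul_cancel₀ _ hd.ne', mul_assoc, add_mul,
    div_mul_cancel₀ _ hd.ne']
  linarith

theorem height_le {k L : Type} [Field k] [NumberField k] [Field L] [NumberField L]
    [Algebra k L] {n : ℕ} (g : Matrix (Fin (n + 1)) (Fin (n + 1)) k) (x : Fin (n + 1) → L) :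
    height k (fun i => ∑ j, algebraMap k L (g i j) * x j) ≤ height k x +
      (finrank ℚ k * Real.log (n + 1) + Height.logHeight (fun p : Fin (n + 1) × Fin (n + 1) =>
        g p.1 p.2)) := by
  have hd : (0 : ℝ) < finrank k L := by exact_mod_cast finrank_pos
  have : FiniteDimensional k L := Module.Finite.of_restrictScalars_finite ℚ k L
  have h1 := Height.logHeight_linearMap_apply_le
    (fun p : Fin (n + 1) × Fin (n + 1) => algebraMap k L (g p.1 p.2)) x
  have h2 := Pool.Agent.Helper259.HtExt.logHeight_ext (K := k) (L := L)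
    (fun p : Fin (n + 1) × Fin (n + 1) => g p.1 p.2)
  have h3 : (Height.totalWeight L : ℝ) = finrank k L * finrank ℚ k := by
    rw [NumberField.totalWeight_eq_finrank, ← finrank_mul_finrank ℚ k L]
    push_cast
    ring
  rw [h2, h3] at h1
  unfold height
  rw [div_le_iff₀ hd, add_mul, div_mul_cancel₀ _ hd.ne']
  refine h1.trans (le_of_eq ?_)
  simp
  ring

end LINH

open LINH in
theorem t_LINH : S_LINH := by
  intro k _ _ n F e A r g hg hF hA ⟨G, N, hG0, hGh, hG⟩
  have h12 : g * g⁻¹ = 1 := Matrix.mul_nonsing_inv g hg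
  have h21 : g⁻¹ * g = 1 := Matrix.nonsing_inv_mul g hg
  have hv : vec g ≠ 0 := by
    intro h
    have h0 : g = 0 := by
      ext i j
      have := congrFun h (finProdFinEquiv (i, j))
      simpa [vec] using this
    rw [h0, zero_mul] at h12
    exact zero_ne_one h12
  refine ⟨lin g⁻¹ G, N, lin_ne_zero _ g h21 G hG0, lin_hom _ G N hGh, fun S => ?_⟩
  obtain ⟨c, hc⟩ := hG S
  refine ⟨c + A * (finrank ℚ k * Real.log (n + 1) + Height.logHeight
    (fun p : Fin (n + 1) × Fin (n + 1) => g⁻¹ p.1 p.2)) +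
    e * (finrank ℚ k * Real.log (n + 1) + proximity S 1 (1 : MvPolynomial _ k) (vec g)), ?_⟩
  intro L _ _ _ x hx hr hGx hFx
  set y : Fin (n + 1) → L := fun i => ∑ j, algebraMap k L (g⁻¹ i j) * x j with hy
  have hxy : x = fun i => ∑ j, algebraMap k L (g i j) * y j := by
    funext i
    exact (mul_inv_apply g g⁻¹ h12 x i).symm
  have hy0 : y ≠ 0 := by
    intro h
    apply hx
    rw [hxy, h]
    funext i
    simp
  have h1 := hc L y hy0 hr (by rw [aeval_lin] at hGx; exact hGx) (by
    rw [aeval_lin, ← hxy]; exact hFx)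
  have h2 := height_le (L := L) g⁻¹ x
  have h3 := prox_le S e F g hv x y hx hy0 hxy hFx
  have h4 := mul_le_mul_of_nonneg_left h2 hA
  rw [mul_add] at h4
  linarith

end Pool.Agent.J4.H5.VJ
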