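import Pool.Agent.J4.H5.VJ.Defs3
import Pool.Agent.J4.H5.VJ.T_LINH

/-!
# Project VJ, piece LINX: linear changes of the coordinates, complete intersections
-/

set_option autoImplicit false

open MvPolynomial NumberField IsDedekindDomain Module

namespace Pool.Agent.J4.H5.VJ

namespace LINX

theorem lin_lin {k : Type} [Field k] {n : ℕ} (g h : Matrix (Fin (n + 1)) (Fin (n + 1)) k)
    (hgh : g * h = 1) (F : MvPolynomial (Fin (n + 1)) k) : lin h (lin g F) = F := by
  unfold lin
  rw [bind₁_bind₁]
  have h1 : ∀ i l, ∑ j, g i j * h j l = if i = l then 1 else 0 := by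
    intro i l
    have := congrFun (congrFun hgh i) l
    rw [Matrix.mul_apply, Matrix.one_apply] at this
    exact this
  have h2 : (fun i => bind₁ (fun i => ∑ j, C (h i j) * X j)
      (∑ j, C (g i j) * X j : MvPolynomial (Fin (n + 1)) k)) = X := by
    funext i
    rw [map_sum]
    calc ∑ j, bind₁ (fun i => ∑ j, C (h i j) * X j) (C (g i j) * X j)
        = ∑ j, C (g i j) * ∑ l, C (h j l) * X l := by
          refine Finset.sum_congr rfl fun j _ => ?_
          rw [map_mul, bind₁_C_right, bind₁_X_right]
      _ = ∑ l, C (∑ j, g i j * h j l) * X l := by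
          simp only [Finset.mul_sum, map_sum, map_mul, Finset.sum_mul]
          rw [Finset.sum_comm]
          refine Finset.sum_congr rfl fun l _ => Finset.sum_congr rfl fun j _ => ?_
          ring
      _ = X i := by
          simp only [h1]
          simp
  rw [h2, bind₁_X_left]
  rfl

theorem lin_mul {k : Type} [Field k] {n : ℕ} (g : Matrix (Fin (n + 1)) (Fin (n + 1)) k)
    (F G : MvPolynomial (Fin (n + 1)) k) : lin g (F * G) = lin g F * lin g G := by
  unfold lin
  rw [map_mul]

theorem lin_mem {k : Type} [Field k] {n s : ℕ} (g : Matrix (Fin (n + 1)) (Fin (n + 1)) k)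
    (f : Fin s → MvPolynomial (Fin (n + 1)) k) (H : MvPolynomial (Fin (n + 1)) k)
    (hH : H ∈ Ideal.span (Set.range f)) :
    lin g H ∈ Ideal.span (Set.range (fun i => lin g (f i))) := by
  have h := Ideal.mem_map_of_mem
    (bind₁ (fun i => ∑ j, C (g i j) * X j) :
      MvPolynomial (Fin (n + 1)) k →ₐ[k] MvPolynomial (Fin (n + 1)) k) hH
  rw [Ideal.map_span, ← Set.range_comp] at h
  exact h

theorem nzd_lin {k : Type} [Field k] {n s : ℕ} (g h : Matrix (Fin (n + 1)) (Fin (n + 1)) k)
    (hgh : g * h = 1) (hhg : h * g = 1) (f : Fin s → MvPolynomial (Fin (n + 1)) k)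
    (G : MvPolynomial (Fin (n + 1)) k) (hG : NZD (fun i => lin g (f i)) G) : NZD f (lin h G) := by
  intro H hH
  have h1 := lin_mem g f _ hH
  rw [lin_mul, lin_lin h g hhg] at h1
  have h2 := lin_mem h _ _ (hG _ h1)
  simp only [lin_lin g h hgh] at h2
  exact h2

end LINX

open LINH LINX in
theorem t_LINX : S_LINX := by
  intro k _ _ n s f F e A r g hg hF ⟨G, N, hG0, hGh, hG⟩
  have h12 : g * g⁻¹ = 1 := Matrix.mul_nonsing_inv g hg
  have h21 : g⁻¹ * g = 1 := Matrix.nonsing_inv_mul g hg
  have hv : vec g ≠ 0 := by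
    intro h
    have h0 : g = 0 := by
      ext i j
      have := congrFun h (finProdFinEquiv (i, j))
      simpa [vec] using this
    rw [h0, zero_mul] at h12
    exact zero_ne_one h12
  refine ⟨lin g⁻¹ G, N, nzd_lin g g⁻¹ h12 h21 f G hG0, lin_hom _ G N hGh, fun S => ?_⟩
  obtain ⟨c, hc⟩ := hG S
  set c1 : ℝ := finrank ℚ k * Real.log (n + 1) + Height.logHeight
    (fun p : Fin (n + 1) × Fin (n + 1) => g⁻¹ p.1 p.2) with hc1
  set c2 : ℝ := finrank ℚ k * Real.log (n + 1) + Height.logHeight
    (fun p : Fin (n + 1) × Fin (n + 1) => g p.1 p.2) with hc2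
  refine ⟨c + |A| * max c1 c2 +
    e * (finrank ℚ k * Real.log (n + 1) + proximity S 1 (1 : MvPolynomial _ k) (vec g)), ?_⟩
  intro L _ _ _ x hx hfx hr hGx hFx
  set y : Fin (n + 1) → L := fun i => ∑ j, algebraMap k L (g⁻¹ i j) * x j with hy
  have hxy : x = fun i => ∑ j, algebraMap k L (g i j) * y j := by
    funext i
    exact (mul_inv_apply g g⁻¹ h12 x i).symm
  have hy0 : y ≠ 0 := by
    intro h
    apply hx
    rw [hxy, h]
    funext i
    simp
  have h1 := hc L y hy0 (fun i => by rw [aeval_lin, ← hxy]; exact hfx i) hr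
    (by rw [aeval_lin] at hGx; exact hGx) (by rw [aeval_lin, ← hxy]; exact hFx)
  have h2 : height k y ≤ height k x + c1 := height_le (L := L) g⁻¹ x
  have h2' : height k x ≤ height k y + c2 := by
    have := height_le (L := L) g y
    rw [← hxy] at this
    exact this
  have h3 := prox_le S e F g hv x y hx hy0 hxy hFx
  have h4 : A * height k y ≤ A * height k x + |A| * max c1 c2 := by
    have m1 := le_max_left c1 c2
    have m2 := le_max_right c1 c2
    have h5 : |height k y - height k x| ≤ max c1 c2 := by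
      rw [abs_le]
      constructor <;> linarith
    have h6 : A * (height k y - height k x) ≤ |A| * max c1 c2 :=
      calc A * (height k y - height k x) ≤ |A * (height k y - height k x)| := le_abs_self _
        _ = |A| * |height k y - height k x| := abs_mul _ _
        _ ≤ |A| * max c1 c2 := mul_le_mul_of_nonneg_left h5 (abs_nonneg _)
    linarith
  linarith

end Pool.Agent.J4.H5.VJ
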