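import Pool.Agent.J4.H5.VJ.Defs4
import Pool.Agent.J4.H5.VJ.T_LINX

/-!
# Project VJ, piece LINV: linear changes of the coordinates, all smooth projective varieties
-/

set_option autoImplicit false

open MvPolynomial NumberField IsDedekindDomain Module

namespace Pool.Agent.J4.H5.VJ

namespace LINV

/-- The chain rule for a linear change of the coordinates. -/
theorem pderiv_lin {k : Type} [Field k] {n : ℕ} (g : Matrix (Fin (n + 1)) (Fin (n + 1)) k)
    (H : MvPolynomial (Fin (n + 1)) k) (i : Fin (n + 1)) :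
    pderiv i (lin g H) = ∑ l, lin g (pderiv l H) * C (g l i) := by
  unfold lin
  induction H using MvPolynomial.induction_on with
  | C a => simp
  | add p q hp hq =>
    rw [map_add, map_add, hp, hq, ← Finset.sum_add_distrib]
    refine Finset.sum_congr rfl fun l _ => ?_
    rw [map_add, map_add, add_mul]
  | mul_X p s hp =>
    rw [map_mul, pderiv_mul, hp, bind₁_X_right]
    have h1 : pderiv i (∑ j, C (g s j) * X j : MvPolynomial (Fin (n + 1)) k) = C (g s i) := by
      rw [map_sum]
      rw [Finset.sum_eq_single i]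
      · rw [pderiv_C_mul, pderiv_X_self]; simp
      · intro j _ hj
        rw [pderiv_C_mul, pderiv_X_of_ne hj]; simp
      · intro h; exact absurd (Finset.mem_univ i) h
    rw [h1]
    have h2 : ∀ l, bind₁ (fun i => ∑ j, C (g i j) * X j) (pderiv l (p * X s)) =
        bind₁ (fun i => ∑ j, C (g i j) * X j) (pderiv l p) * (∑ j, C (g s j) * X j) +
          (if s = l then bind₁ (fun i => ∑ j, C (g i j) * X j) p else 0) := by
      intro l
      rw [pderiv_mul, map_add, map_mul, map_mul, bind₁_X_right]
      by_cases h : s = l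
      · subst h; rw [pderiv_X_self, if_pos rfl]; simp
      · rw [pderiv_X_of_ne h, if_neg h]; simp
    simp only [h2, add_mul, Finset.sum_add_distrib, ite_mul, zero_mul, Finset.sum_ite_eq,
      Finset.mem_univ, if_true]
    congr 1
    rw [Finset.sum_mul]
    refine Finset.sum_congr rfl fun l _ => ?_
    ring

/-- expansion of a minor of a product -/
theorem det_expand {L : Type} [Field L] {s n : ℕ} (J : Fin s → Fin (n + 1) → L)
    (g : Fin (n + 1) → Fin (n + 1) → L) (β : Fin s → Fin (n + 1)) :
    (Matrix.of fun i j => ∑ b, J i b * g b (β j)).det =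
      ∑ b' : Fin s → Fin (n + 1), (∏ j, g (b' j) (β j)) * (Matrix.of fun i j => J i (b' j)).det := by
  rw [← Matrix.det_transpose]
  have h1 : (Matrix.of fun i j => ∑ b, J i b * g b (β j)).transpose =
      fun j => ∑ b, g b (β j) • (fun i => J i b) := by
    funext j i
    rw [Matrix.transpose_apply, Matrix.of_apply, Finset.sum_apply]
    refine Finset.sum_congr rfl fun b _ => ?_
    rw [Pi.smul_apply, smul_eq_mul, mul_comm]
  rw [h1]
  have h2 := (Matrix.detRowAlternating (n := Fin s) (R := L)).toMultilinearMap.map_sum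
    (fun (j : Fin s) (b : Fin (n + 1)) => g b (β j) • (fun i => J i b : Fin s → L))
  refine Eq.trans h2 ?_
  refine Finset.sum_congr rfl fun b' _ => ?_
  have h3 := (Matrix.detRowAlternating (n := Fin s) (R := L)).toMultilinearMap.map_smul_univ
    (fun j => g (b' j) (β j)) (fun j => (fun i => J i (b' j) : Fin s → L))
  refine Eq.trans h3 ?_
  rw [smul_eq_mul]
  congr 1
  rw [← Matrix.det_transpose (Matrix.of fun i j => J i (b' j))]
  rfl

theorem aeval_pderiv_lin {k L : Type} [Field k] [Field L] [Algebra k L] {n : ℕ}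
    (g : Matrix (Fin (n + 1)) (Fin (n + 1)) k) (H : MvPolynomial (Fin (n + 1)) k)
    (x : Fin (n + 1) → L) (i : Fin (n + 1)) :
    aeval x (pderiv i (lin g H)) = ∑ l, aeval (fun i => ∑ j, algebraMap k L (g i j) * x j)
      (pderiv l H) * algebraMap k L (g l i) := by
  rw [pderiv_lin, map_sum]
  refine Finset.sum_congr rfl fun l _ => ?_
  rw [map_mul, LINH.aeval_lin]
  congr 1
  simp

/-- the rows of minors -/
theorem gaussRow_lin {k L : Type} [Field k] [Field L] [Algebra k L] {n t s : ℕ}
    (g h : Matrix (Fin (n + 1)) (Fin (n + 1)) k) (hgh : g * h = 1)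
    (f : Fin t → MvPolynomial (Fin (n + 1)) k) (α : Fin s → Fin t) (x : Fin (n + 1) → L) :
    gaussRow f α x = fun β => ∑ b' : Fin s → Fin (n + 1),
      algebraMap k L (∏ j, h (b' j) (β j)) * gaussRow (fun i => lin g (f i)) α
        (fun i => ∑ j, algebraMap k L (h i j) * x j) b' := by
  funext β
  have h1 : ∀ i l, aeval x (pderiv l (f i)) = ∑ b, aeval (fun i => ∑ j, algebraMap k L (h i j) * x j)
      (pderiv b (lin g (f i))) * algebraMap k L (h b l) := by
    intro i l
    rw [← aeval_pderiv_lin, LINX.lin_lin g h hgh]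
  unfold gaussRow
  simp only [h1, map_prod]
  exact det_expand (fun i b => aeval (fun i => ∑ j, algebraMap k L (h i j) * x j)
      (pderiv b (lin g (f (α i))))) (fun b l => algebraMap k L (h b l)) β

theorem heightI_le {k L : Type} [Field k] [NumberField k] [Field L] [NumberField L]
    [Algebra k L] {ι ι' : Type} [Fintype ι] [Finite ι'] (g : ι' × ι → k) (x : ι → L) :
    heightI k (fun i => ∑ j, algebraMap k L (g (i, j)) * x j) ≤ heightI k x +
      (finrank ℚ k * Real.log (Nat.card ι) + Height.logHeight g) := by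
  have hd : (0 : ℝ) < finrank k L := by exact_mod_cast finrank_pos
  have : FiniteDimensional k L := Module.Finite.of_restrictScalars_finite ℚ k L
  have h1 := Height.logHeight_linearMap_apply_le (fun p : ι' × ι => algebraMap k L (g p)) x
  have h2 := Pool.Agent.Helper259.HtExt.logHeight_ext (K := k) (L := L) g
  have h3 : (Height.totalWeight L : ℝ) = finrank k L * finrank ℚ k := by
    rw [NumberField.totalWeight_eq_finrank, ← finrank_mul_finrank ℚ k L]
    push_cast
    ring
  rw [h2, h3] at h1
  unfold heightI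
  rw [div_le_iff₀ hd, add_mul, div_mul_cancel₀ _ hd.ne']
  refine h1.trans (le_of_eq ?_)
  ring

theorem weilI_eq {k L : Type} [Field k] [Field L] [Algebra k L] {M u : ℕ} (e : ℕ)
    (f : AbsoluteValue L ℝ) (G : Fin u → MvPolynomial (Fin M) k) (x : Fin M → L) (hx : x ≠ 0)
    (hG : ∃ i, aeval x (G i) ≠ 0) :
    weilI e f G x = e * Real.log (⨆ j, f (x j)) - Real.log (⨆ i, f (aeval x (G i))) := by
  obtain ⟨i, hi⟩ := hG
  have h1 : 0 < ⨆ i, f (aeval x (G i)) :=
    LINH.iSup_pos' f (fun i => aeval x (G i)) (fun h => hi (congrFun h i))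
  unfold weilI
  rw [Real.log_div (pow_ne_zero _ (LINH.iSup_pos' f x hx).ne') h1.ne', Real.log_pow]

open LINH in
theorem prox_le {k L : Type} [Field k] [NumberField k] [Field L] [NumberField L]
    [Algebra k L] {n u : ℕ} (S : Finset (HeightOneSpectrum (𝓞 k))) (e : ℕ)
    (F : Fin u → MvPolynomial (Fin (n + 1)) k) (g : Matrix (Fin (n + 1)) (Fin (n + 1)) k)
    (hg : vec g ≠ 0) (x y : Fin (n + 1) → L) (hx : x ≠ 0) (hy : y ≠ 0)
    (hxy : x = fun i => ∑ j, algebraMap k L (g i j) * y j) (hF : ∃ i, aeval x (F i) ≠ 0) :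
    proximityI S e F x ≤ proximityI S e (fun i => lin g (F i)) y +
      e * (finrank ℚ k * Real.log (n + 1) + proximity S 1 (1 : MvPolynomial _ k) (vec g)) := by
  have hd : (0 : ℝ) < finrank k L := by exact_mod_cast finrank_pos
  have hF' : ∀ i, aeval y (lin g (F i)) = aeval x (F i) := fun i => by rw [aeval_lin, ← hxy]
  have hvL : (fun t => algebraMap k L (vec g t)) ≠ 0 := by
    intro h
    apply hg
    funext t
    have := congrFun h t
    simpa using this
  rw [← t_PROX k k L _ S 1 (1 : MvPolynomial _ k) (vec g) hg (by simp)]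
  have hone : ∀ f : AbsoluteValue L ℝ, weil 1 f (1 : MvPolynomial _ k)
      (fun t => algebraMap k L (vec g t)) = Real.log (⨆ t, f (algebraMap k L (vec g t))) := by
    intro f
    rw [weil_eq 1 f _ _ hvL (by simp)]
    simp
  have hsup : ∀ f : AbsoluteValue L ℝ, 0 < ⨆ t, f (algebraMap k L (vec g t)) := fun f =>
    iSup_pos' f _ hvL
  have hFy : ∃ i, aeval y (lin g (F i)) ≠ 0 := by
    obtain ⟨i, hi⟩ := hF
    exact ⟨i, by rw [hF']; exact hi⟩
  have hinf : ∀ w : InfinitePlace L, weilI e w.1 F x ≤ weilI e w.1 (fun i => lin g (F i)) y +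
      e * (Real.log (n + 1) + weil 1 w.1 (1 : MvPolynomial _ k)
        (fun t => algebraMap k L (vec g t))) := by
    intro w
    have h1 := AbsoluteValue.iSup_abv_linearMap_apply_le w.1
      (fun p : Fin (n + 1) × Fin (n + 1) => algebraMap k L (g p.1 p.2)) y
    rw [← iSup_vec] at h1
    have h2 : (fun j => w.1 (∑ i, algebraMap k L (g j i) * y i)) = fun j => w.1 (x j) := by
      rw [hxy]
    have h3 : ⨆ j, w.1 (x j) ≤ (n + 1 : ℝ) * (⨆ t, w.1 (algebraMap k L (vec g t))) *
        ⨆ j, w.1 (y j) := by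
      rw [← h2]
      simpa using h1
    have h4 := Real.log_le_log (iSup_pos' w.1 x hx) h3
    have hn : (0 : ℝ) < n + 1 := by positivity
    rw [Real.log_mul (mul_pos hn (hsup w.1)).ne' (iSup_pos' w.1 y hy).ne',
      Real.log_mul hn.ne' (hsup w.1).ne'] at h4
    rw [hone, weilI_eq e w.1 F x hx hF, weilI_eq e w.1 (fun i => lin g (F i)) y hy hFy]
    simp only [hF']
    have h5 := mul_le_mul_of_nonneg_left h4 (Nat.cast_nonneg (α := ℝ) e)
    linarith
  have hfin : ∀ w : HeightOneSpectrum (𝓞 L), weilI e (FinitePlace.mk w).1 F x ≤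
      weilI e (FinitePlace.mk w).1 (fun i => lin g (F i)) y +
      e * weil 1 (FinitePlace.mk w).1 (1 : MvPolynomial _ k)
        (fun t => algebraMap k L (vec g t)) := by
    intro w
    have hna : IsNonarchimedean (FinitePlace.mk w).1 := FinitePlace.add_le (FinitePlace.mk w)
    have h1 := hna.iSup_abv_linearMap_apply_le
      (fun p : Fin (n + 1) × Fin (n + 1) => algebraMap k L (g p.1 p.2)) y
    rw [← iSup_vec] at h1
    have h2 : (fun j => (FinitePlace.mk w).1 (∑ i, algebraMap k L (g j i) * y i)) =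
        fun j => (FinitePlace.mk w).1 (x j) := by
      rw [hxy]
    have h3 : ⨆ j, (FinitePlace.mk w).1 (x j) ≤
        (⨆ t, (FinitePlace.mk w).1 (algebraMap k L (vec g t))) *
        ⨆ j, (FinitePlace.mk w).1 (y j) := by
      rw [← h2]
      exact h1
    have h4 := Real.log_le_log (iSup_pos' _ x hx) h3
    rw [Real.log_mul (hsup _).ne' (iSup_pos' _ y hy).ne'] at h4
    rw [hone, weilI_eq e _ F x hx hF, weilI_eq e _ (fun i => lin g (F i)) y hy hFy]
    simp only [hF']
    have h5 := mul_le_mul_of_nonneg_left h4 (Nat.cast_nonneg (α := ℝ) e)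
    linarith
  unfold proximity proximityI
  rw [finsum_mem_eq_finite_toFinset_sum _ (primes_finite S),
    finsum_mem_eq_finite_toFinset_sum _ (primes_finite S),
    finsum_mem_eq_finite_toFinset_sum _ (primes_finite S)]
  have hm : ∑ w : InfinitePlace L, (w.mult : ℝ) = finrank k L * finrank ℚ k := by
    rw [← Nat.cast_sum, InfinitePlace.sum_mult_eq, ← finrank_mul_finrank ℚ k L]
    push_cast
    ring
  have hsum1 := Finset.sum_le_sum (s := (Finset.univ : Finset (InfinitePlace L)))
    (fun w _ => mul_le_mul_of_nonneg_left (hinf w) (Nat.cast_nonneg (α := ℝ) w.mult))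
  have hsum2 := Finset.sum_le_sum (s := (primes_finite (L := L) S).toFinset)
    (fun w _ => hfin w)
  have e1 : ∑ w : InfinitePlace L, (w.mult : ℝ) * (weilI e w.1 (fun i => lin g (F i)) y +
      e * (Real.log (n + 1) + weil 1 w.1 (1 : MvPolynomial _ k)
        (fun t => algebraMap k L (vec g t)))) =
      ∑ w : InfinitePlace L, (w.mult : ℝ) * weilI e w.1 (fun i => lin g (F i)) y +
      e * (finrank k L * finrank ℚ k * Real.log (n + 1) + ∑ w : InfinitePlace L, (w.mult : ℝ) *
        weil 1 w.1 (1 : MvPolynomial _ k) (fun t => algebraMap k L (vec g t))) := by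
    rw [← hm, Finset.sum_mul, ← Finset.sum_add_distrib, Finset.mul_sum, ← Finset.sum_add_distrib]
    refine Finset.sum_congr rfl fun w _ => ?_
    ring
  rw [e1] at hsum1
  rw [Finset.sum_add_distrib, ← Finset.mul_sum] at hsum2
  rw [div_le_iff₀ hd, add_mul, div_mul_cancel₀ _ hd.ne', mul_assoc, add_mul,
    div_mul_cancel₀ _ hd.ne']
  linarith

end LINV

open LINH LINX LINV in
theorem t_LINV : S_LINV := by
  intro k _ _ n t u s f F e A r g hg hF ⟨G, N, hG0, hGh, hG⟩
  have h12 : g * g⁻¹ = 1 := Matrix.mul_nonsing_inv g hg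
  have h21 : g⁻¹ * g = 1 := Matrix.nonsing_inv_mul g hg
  have hv : vec g ≠ 0 := by
    intro h
    have h0 : g = 0 := by
      ext i j
      have := congrFun h (finProdFinEquiv (i, j))
      simpa [vec] using this
    rw [h0, zero_mul] at h12
    exact zero_ne_one h12
  refine ⟨lin g⁻¹ G, N, nzd_lin g g⁻¹ h12 h21 f G hG0, lin_hom _ G N hGh, fun S => ?_⟩
  obtain ⟨c, hc⟩ := hG S
  set c1 : ℝ := finrank ℚ k * Real.log (n + 1) + Height.logHeight
    (fun p : Fin (n + 1) × Fin (n + 1) => g⁻¹ p.1 p.2) with hc1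
  set c2 : ℝ := finrank ℚ k * Real.log (n + 1) + Height.logHeight
    (fun p : Fin (n + 1) × Fin (n + 1) => g p.1 p.2) with hc2
  set B : ℝ := A + (n - s + 1) with hB
  set c3 : ℝ := finrank ℚ k * Real.log (Nat.card (Fin s → Fin (n + 1))) + Height.logHeight
    (fun p : (Fin s → Fin (n + 1)) × (Fin s → Fin (n + 1)) => ∏ j, g⁻¹ (p.2 j) (p.1 j)) with hc3
  refine ⟨c + |B| * max c1 c2 + c3 +
    e * (finrank ℚ k * Real.log (n + 1) + proximity S 1 (1 : MvPolynomial _ k) (vec g)), ?_⟩
  intro L _ _ _ x hx hfx hr hGx hFx α hα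
  set y : Fin (n + 1) → L := fun i => ∑ j, algebraMap k L (g⁻¹ i j) * x j with hy
  have hxy : x = fun i => ∑ j, algebraMap k L (g i j) * y j := by
    funext i
    exact (mul_inv_apply g g⁻¹ h12 x i).symm
  have hy0 : y ≠ 0 := by
    intro h
    apply hx
    rw [hxy, h]
    funext i
    simp
  have hrow := gaussRow_lin g g⁻¹ h12 f α x
  rw [← hy] at hrow
  have hα' : gaussRow (fun i => lin g (f i)) α y ≠ 0 := by
    intro h
    apply hα
    rw [hrow, h]
    funext β
    simp
  have h1 := hc L y hy0 (fun i => by rw [aeval_lin, ← hxy]; exact hfx i) hr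
    (by rw [aeval_lin] at hGx; exact hGx)
    (by
      obtain ⟨i, hi⟩ := hFx
      exact ⟨i, by rw [aeval_lin, ← hxy]; exact hi⟩) α hα'
  have h2 : height k y ≤ height k x + c1 := height_le (L := L) g⁻¹ x
  have h2' : height k x ≤ height k y + c2 := by
    have := height_le (L := L) g y
    rw [← hxy] at this
    exact this
  have h3 := LINV.prox_le S e F g hv x y hx hy0 hxy hFx
  have h6 : heightI k (gaussRow f α x) ≤ heightI k (gaussRow (fun i => lin g (f i)) α y) + c3 := by
    have := heightI_le (L := L)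
      (fun p : (Fin s → Fin (n + 1)) × (Fin s → Fin (n + 1)) => ∏ j, g⁻¹ (p.2 j) (p.1 j))
      (gaussRow (fun i => lin g (f i)) α y)
    rw [hrow]
    exact this
  have h4 : B * height k y ≤ B * height k x + |B| * max c1 c2 := by
    have m1 := le_max_left c1 c2
    have m2 := le_max_right c1 c2
    have h5 : |height k y - height k x| ≤ max c1 c2 := by
      rw [abs_le]
      constructor <;> linarith
    have h6 : B * (height k y - height k x) ≤ |B| * max c1 c2 :=
      calc B * (height k y - height k x) ≤ |B * (height k y - height k x)| := le_abs_self _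
        _ = |B| * |height k y - height k x| := abs_mul _ _
        _ ≤ |B| * max c1 c2 := mul_le_mul_of_nonneg_left h5 (abs_nonneg _)
    linarith
  rw [hB] at h4
  have h7 : (A + ((n : ℝ) - s + 1)) * height k y = A * height k y + (n - s + 1) * height k y := by
    ring
  have h8 : (A + ((n : ℝ) - s + 1)) * height k x = A * height k x + (n - s + 1) * height k x := by
    ring
  rw [h7, h8] at h4
  linarith

end Pool.Agent.J4.H5.VJ
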