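import Pool.Agent.J4.H5.VJ.Defs

set_option autoImplicit false

open MvPolynomial NumberField IsDedekindDomain Module

namespace Pool.Agent.J4.H5.VJ

open FinitePlace in
/-- At a prime `v` with `|x|_v > 1` the absolute value is at least `N(v)`. -/
theorem cnt_place_ge {L : Type} [Field L] [NumberField L] (v : HeightOneSpectrum (𝓞 L)) (x : L)
    (hx : 1 < v.valuation L x) : (Ideal.absNorm v.asIdeal : ℝ) ≤ FinitePlace.mk v x := by
  rw [FinitePlace.mk_apply, FinitePlace.norm_embedding']
  have h0 : v.valuation L x ≠ 0 := (zero_lt_one.trans hx).ne'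
  obtain ⟨n, hn⟩ : ∃ n : ℤ, v.valuation L x = WithZero.exp n :=
    ⟨WithZero.log (v.valuation L x), (WithZero.exp_log h0).symm⟩
  have hn1 : WithZero.exp (1 : ℤ) ≤ v.valuation L x := by
    rw [hn, ← WithZero.exp_zero, WithZero.exp_lt_exp] at hx
    rw [hn, WithZero.exp_le_exp]
    omega
  have h1 := (WithZeroMulInt.toNNReal_strictMono
    (HeightOneSpectrum.one_lt_absNorm_nnreal v)).monotone hn1
  have h2 : WithZeroMulInt.toNNReal (HeightOneSpectrum.absNorm_ne_zero v) (WithZero.exp (1 : ℤ))
      = (Ideal.absNorm v.asIdeal : NNReal) := by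
    rw [WithZeroMulInt.toNNReal_neg_apply _ WithZero.exp_ne_zero]
    exact zpow_one _
  rw [h2] at h1
  exact_mod_cast h1

/-- At a prime `v` with `|x|_v ≠ 1` the absolute value is not `1`. -/
theorem cnt_place_ne {L : Type} [Field L] [NumberField L] (v : HeightOneSpectrum (𝓞 L)) (x : L)
    (hx : v.valuation L x ≠ 1) : FinitePlace.mk v x ≠ 1 := by
  rw [FinitePlace.mk_apply, FinitePlace.norm_embedding']
  intro h
  apply hx
  have h2 : WithZeroMulInt.toNNReal (HeightOneSpectrum.absNorm_ne_zero v) (v.valuation L x) = 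
      WithZeroMulInt.toNNReal (HeightOneSpectrum.absNorm_ne_zero v) 1 := by
    rw [map_one]
    exact_mod_cast h
  exact (WithZeroMulInt.toNNReal_strictMono
    (HeightOneSpectrum.one_lt_absNorm_nnreal v)).injective h2

/-- The primes at which a nonzero element is not a unit are finite in number. -/
theorem cnt_finite {L : Type} [Field L] [NumberField L] (x : L) (hx : x ≠ 0) :
    {v : HeightOneSpectrum (𝓞 L) | v.valuation L x ≠ 1}.Finite := by
  have h := FinitePlace.hasFiniteMulSupport hx
  have hinj : Set.InjOn (FinitePlace.mk (K := L)) {v | v.valuation L x ≠ 1} :=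
    (FinitePlace.equivHeightOneSpectrum (K := L)).symm.injective.injOn
  refine Set.Finite.of_finite_image (h.subset ?_) hinj
  rintro _ ⟨v, hv, rfl⟩
  exact cnt_place_ne v x hv

/-- The denominators. -/
theorem cnt_den {L : Type} [Field L] [NumberField L] {M : ℕ} (x : Fin M → L) (j₀ : Fin M)
    (hj₀ : x j₀ = 1) (hx : ∀ i, x i ≠ 0) (A : Finset (HeightOneSpectrum (𝓞 L)))
    (hA : ∀ v ∈ A, ∃ i, 1 < v.valuation L (x i)) :
    ∑ v ∈ A, Real.log (Ideal.absNorm v.asIdeal : ℝ) ≤ Height.logHeight x := by
  classical
  have hx0 : x ≠ 0 := fun h => hx j₀ (by rw [h]; rfl)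
  have : Nonempty (Fin M) := ⟨j₀⟩
  have hN : ∀ v : HeightOneSpectrum (𝓞 L), (1 : ℝ) < Ideal.absNorm v.asIdeal := fun v => by
    exact_mod_cast HeightOneSpectrum.one_lt_absNorm v
  rw [← Real.log_prod (fun v _ => (zero_lt_one.trans (hN v)).ne'), Height.logHeight_eq_log_mulHeight]
  refine Real.log_le_log (Finset.prod_pos fun v _ => zero_lt_one.trans (hN v)) ?_
  rw [NumberField.mulHeight_eq hx0]
  have hinf : 1 ≤ ∏ w : InfinitePlace L, (⨆ i, w (x i)) ^ w.mult := by
    have h1 : ∏ _w : InfinitePlace L, (1 : ℝ) ≤ ∏ w : InfinitePlace L, (⨆ i, w (x i)) ^ w.mult := by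
      refine Finset.prod_le_prod (fun _ _ => zero_le_one) fun w _ => ?_
      refine one_le_pow₀ ?_
      calc (1 : ℝ) = w (x j₀) := by rw [hj₀, map_one]
        _ ≤ ⨆ i, w (x i) := Finite.le_ciSup (fun i => w (x i)) j₀
    simpa using h1
  have hone : ∀ w : FinitePlace L, 1 ≤ ⨆ i, w (x i) := fun w => by
    calc (1 : ℝ) = w (x j₀) := by rw [hj₀, map_one]
      _ ≤ ⨆ i, w (x i) := Finite.le_ciSup (fun i => w (x i)) j₀
  have hfs : (fun w : FinitePlace L => ⨆ i, w (x i)).HasFiniteMulSupport :=
    .iSup (fun i => FinitePlace.hasFiniteMulSupport (hx i))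
  have hfin : ∏ v ∈ A, (Ideal.absNorm v.asIdeal : ℝ) ≤ ∏ᶠ w : FinitePlace L, ⨆ i, w (x i) := by
    have hinj : Function.Injective (FinitePlace.mk (K := L)) :=
      (FinitePlace.equivHeightOneSpectrum (K := L)).symm.injective
    rw [finprod_eq_prod_of_mulSupport_subset (s := Set.Finite.toFinset hfs ∪ A.image FinitePlace.mk)
      _ (fun w hw => Finset.mem_coe.mpr (Finset.mem_union_left _
        ((Set.Finite.mem_toFinset hfs).mpr hw)))]
    calc ∏ v ∈ A, (Ideal.absNorm v.asIdeal : ℝ) ≤ ∏ v ∈ A, ⨆ i, (FinitePlace.mk v) (x i) := by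
          refine Finset.prod_le_prod (fun v _ => (zero_lt_one.trans (hN v)).le) fun v hv => ?_
          obtain ⟨i, hi⟩ := hA v hv
          exact (cnt_place_ge v (x i) hi).trans
            (Finite.le_ciSup (fun i => (FinitePlace.mk v) (x i)) i)
      _ = ∏ w ∈ A.image FinitePlace.mk, ⨆ i, w (x i) := by
          rw [Finset.prod_image (fun a _ b _ h => hinj h)]
      _ ≤ _ := by
          rw [← Finset.prod_sdiff (Finset.subset_union_right (s₁ := Set.Finite.toFinset hfs)
            (s₂ := A.image FinitePlace.mk))]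
          refine le_mul_of_one_le_left
            (Finset.prod_nonneg fun w _ => zero_le_one.trans (hone w)) ?_
          have h1 : ∏ _w ∈ (Set.Finite.toFinset hfs ∪ A.image FinitePlace.mk) \
              A.image FinitePlace.mk, (1 : ℝ) ≤
              ∏ w ∈ (Set.Finite.toFinset hfs ∪ A.image FinitePlace.mk) \
              A.image FinitePlace.mk, ⨆ i, w (x i) :=
            Finset.prod_le_prod (fun _ _ => zero_le_one) fun w _ => hone w
          simpa using h1
  calc ∏ v ∈ A, (Ideal.absNorm v.asIdeal : ℝ) ≤ ∏ᶠ w : FinitePlace L, ⨆ i, w (x i) := hfin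
    _ ≤ _ := by
      refine le_mul_of_one_le_left ?_ hinf
      exact finprod_nonneg fun w => zero_le_one.trans (hone w)

theorem t_CNT : S_CNT := by
  classical
  intro n L _ _ x hx
  have hpt : ∀ j, pt x j ≠ 0 := by
    intro j
    refine Fin.cases ?_ (fun i => ?_) j
    · simp [pt]
    · simpa [pt] using hx i
  refine ⟨Finset.univ.biUnion (fun i => (cnt_finite (x i) (hx i)).toFinset), ?_, ?_⟩
  · intro v hv i
    by_contra h
    exact hv (Finset.mem_biUnion.mpr ⟨i, Finset.mem_univ _, by simpa using h⟩)
  · set T : Finset (HeightOneSpectrum (𝓞 L)) :=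
      Finset.univ.biUnion (fun i => (cnt_finite (x i) (hx i)).toFinset) with hT
    set g : HeightOneSpectrum (𝓞 L) → ℝ := fun v => Real.log (Ideal.absNorm v.asIdeal : ℝ) with hg
    have hg0 : ∀ v, 0 ≤ g v := fun v => Real.log_nonneg (by
      exact_mod_cast (HeightOneSpectrum.one_lt_absNorm v).le)
    have hA : ∑ v ∈ T.filter (fun v => ∃ i, 1 < v.valuation L (x i)), g v ≤
        Height.logHeight (pt x) := by
      refine cnt_den (pt x) 0 (by simp [pt]) hpt _ ?_
      intro v hv
      obtain ⟨i, hi⟩ := (Finset.mem_filter.mp hv).2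
      exact ⟨i.succ, by simpa [pt] using hi⟩
    have hB : ∀ i, ∑ v ∈ T.filter (fun v => v.valuation L (x i) < 1), g v ≤
        Height.logHeight (pt x) := by
      intro i
      have h1 : ∑ v ∈ T.filter (fun v => v.valuation L (x i) < 1), g v ≤
          Height.logHeight ![(x i)⁻¹, 1] := by
        refine cnt_den ![(x i)⁻¹, 1] 1 (by simp) ?_ _ ?_
        · intro j
          fin_cases j
          · simpa using hx i
          · simp
        · intro v hv
          refine ⟨0, ?_⟩
          have h2 := (Finset.mem_filter.mp hv).2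
          have h3 : 0 < v.valuation L (x i) := by
            rw [pos_iff_ne_zero]
            exact (Valuation.ne_zero_iff _).mpr (hx i)
          simp only [Matrix.cons_val_zero, map_inv₀]
          exact (one_lt_inv₀ h3).mpr h2
      have h2 : Height.logHeight ![(x i)⁻¹, 1] = Height.logHeight ![x i, 1] := by
        rw [← Height.logHeight₁_eq_logHeight, ← Height.logHeight₁_eq_logHeight,
          Height.logHeight₁_inv]
      have h3 : (![x i, 1] : Fin 2 → L) = pt x ∘ ![i.succ, 0] := by
        funext j
        fin_cases j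
        · simp [pt]
        · simp [pt]
      rw [h2, h3] at h1
      exact h1.trans (Height.logHeight_comp_le _ _)
    calc ∑ v ∈ T, g v ≤ ∑ v ∈ T, ((if ∃ i, 1 < v.valuation L (x i) then g v else 0) +
          ∑ i, if v.valuation L (x i) < 1 then g v else 0) := by
          refine Finset.sum_le_sum fun v hv => ?_
          have hnn : ∀ i : Fin n, 0 ≤ (if v.valuation L (x i) < 1 then g v else 0) := fun i => by
            split_ifs
            · exact hg0 v
            · exact le_rfl
          obtain ⟨i, -, hi⟩ := Finset.mem_biUnion.mp hv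
          have hi' : v.valuation L (x i) ≠ 1 := by simpa using hi
          rcases lt_or_gt_of_ne hi' with h | h
          · have h1 := Finset.single_le_sum (fun i _ => hnn i) (Finset.mem_univ i)
            rw [if_pos h] at h1
            have h2 : 0 ≤ (if ∃ i, 1 < v.valuation L (x i) then g v else 0) := by
              split_ifs
              · exact hg0 v
              · exact le_rfl
            linarith
          · rw [if_pos ⟨i, h⟩]
            have := Finset.sum_nonneg (fun i (_ : i ∈ Finset.univ) => hnn i)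
            linarith
      _ = ∑ v ∈ T.filter (fun v => ∃ i, 1 < v.valuation L (x i)), g v +
          ∑ i, ∑ v ∈ T.filter (fun v => v.valuation L (x i) < 1), g v := by
          rw [Finset.sum_add_distrib, Finset.sum_comm, Finset.sum_filter]
          simp only [Finset.sum_filter]
      _ ≤ Height.logHeight (pt x) + ∑ _i : Fin n, Height.logHeight (pt x) :=
          add_le_add hA (Finset.sum_le_sum fun i _ => hB i)
      _ = (n + 1) * Height.logHeight (pt x) := by
          rw [Finset.sum_const, Finset.card_univ, Fintype.card_fin, nsmul_eq_mul]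
          ring

end Pool.Agent.J4.H5.VJ
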