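import Pool.Agent.J4.H5.VJ.Defs4

/-!
# Piece NSX, algebraic part (helper82)
-/

set_option autoImplicit false

open MvPolynomial Module

namespace Pool.Agent.J4.H5.VJ.NSXA

/-- Hilbert's Nullstellensatz, with points in algebraically closed extension fields -/
theorem null {k : Type} [Field k] {n : ℕ} (I : Ideal (MvPolynomial (Fin (n + 1)) k)) (l : Fin (n + 1))
    (h : ∀ (Ω : Type) [Field Ω] [IsAlgClosed Ω] (φ : MvPolynomial (Fin (n + 1)) k →+* Ω),
      (∀ p ∈ I, φ p = 0) → φ (X l) = 0) : ∃ N : ℕ, X l ^ N ∈ I := by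
  by_contra hc
  have h1 : (X l : MvPolynomial (Fin (n + 1)) k) ∉ I.radical := hc
  rw [Ideal.radical_eq_sInf, Submodule.mem_sInf] at h1
  push Not at h1
  obtain ⟨P, ⟨hIP, hP⟩, hl⟩ := h1
  let K := FractionRing (MvPolynomial (Fin (n + 1)) k ⧸ P)
  let φ : MvPolynomial (Fin (n + 1)) k →+* AlgebraicClosure K :=
    (algebraMap K (AlgebraicClosure K)).comp
      ((algebraMap (MvPolynomial (Fin (n + 1)) k ⧸ P) K).comp (Ideal.Quotient.mk P))
  have hφ : ∀ p, φ p = 0 ↔ p ∈ P := by
    intro p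
    change algebraMap K (AlgebraicClosure K)
      (algebraMap (MvPolynomial (Fin (n + 1)) k ⧸ P) K (Ideal.Quotient.mk P p)) = 0 ↔ _
    rw [map_eq_zero_iff _ (algebraMap K (AlgebraicClosure K)).injective,
      map_eq_zero_iff _ (IsFractionRing.injective (MvPolynomial (Fin (n + 1)) k ⧸ P) K),
      Ideal.Quotient.eq_zero_iff_mem]
  exact hl ((hφ _).1 (h (AlgebraicClosure K) φ fun p hp => (hφ p).2 (hIP hp)))

/-- a matrix whose rows are independent on the coordinates in a set has a nonzero minor there -/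
theorem minor {K m : Type} [Field K] [Finite m] {s : ℕ} (A : Fin s → m → K) (Z : m → Prop)
    (h : ∀ a : Fin s → K, (∀ l, Z l → ∑ i, a i * A i l = 0) → a = 0) :
    ∃ β : Fin s → m, (∀ j, Z (β j)) ∧ (Matrix.of fun i j => A i (β j)).det ≠ 0 := by
  classical
  let v : {l // Z l} → (Fin s → K) := fun l i => A i l.1
  have htop : Submodule.span K (Set.range v) = ⊤ := by
    by_contra hne
    obtain ⟨f, hf0, hf⟩ := Submodule.exists_le_ker_of_lt_top _ (lt_top_iff_ne_top.2 hne)
    apply hf0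
    have hrep : ∀ w : Fin s → K, f w = ∑ i, f (Pi.single i 1) * w i := by
      intro w
      conv_lhs => rw [← Finset.univ_sum_single w]
      rw [map_sum]
      refine Finset.sum_congr rfl fun i _ => ?_
      have : (Pi.single i (w i) : Fin s → K) = w i • (Pi.single i (1 : K) : Fin s → K) := by
        rw [← Pi.single_smul, smul_eq_mul, mul_one]
      rw [this, map_smul, smul_eq_mul, mul_comm]
    have h0 := h (fun i => f (Pi.single i 1)) fun l hl => by
      have h1 : f (v ⟨l, hl⟩) = 0 := hf (Submodule.subset_span ⟨⟨l, hl⟩, rfl⟩)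
      rw [hrep] at h1
      exact h1
    ext i
    have h2 := congrFun h0 i
    simpa using h2
  obtain ⟨κ, a, ha, hsp, hli⟩ := exists_linearIndependent' K v
  rw [htop] at hsp
  let b : Basis κ K (Fin s → K) := Basis.mk hli hsp.ge
  have hfin : Finite κ := Module.Finite.finite_basis b
  have : Fintype κ := Fintype.ofFinite κ
  have hcard : Fintype.card κ = s := by
    rw [← Module.finrank_eq_card_basis b, Module.finrank_fin_fun]
  let e : Fin s ≃ κ := (Fintype.equivFinOfCardEq hcard).symm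
  refine ⟨fun j => (a (e j)).1, fun j => (a (e j)).2, ?_⟩
  have h3 : LinearIndependent K (Matrix.of fun i j => A i (a (e j)).1).col :=
    hli.comp e e.injective
  rw [Matrix.linearIndependent_cols_iff_isUnit, Matrix.isUnit_iff_isUnit_det] at h3
  exact h3.ne_zero

/-- the minors as polynomials -/
noncomputable def Jp {k : Type} [Field k] {n t s : ℕ} (f : Fin t → MvPolynomial (Fin (n + 1)) k)
    (α : Fin s → Fin t) (β : Fin s → Fin (n + 1)) : MvPolynomial (Fin (n + 1)) k :=
  (Matrix.of fun i j => pderiv (β j) (f (α i))).det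

theorem aeval_Jp {k L : Type} [Field k] [Field L] [Algebra k L] {n t s : ℕ}
    (f : Fin t → MvPolynomial (Fin (n + 1)) k) (α : Fin s → Fin t) (β : Fin s → Fin (n + 1))
    (x : Fin (n + 1) → L) : aeval x (Jp f α β) = gaussRow f α x β := by
  unfold Jp gaussRow
  rw [AlgHom.map_det]
  rfl

theorem map_Jp {k L : Type} [Field k] [Field L] {n t s : ℕ}
    (f : Fin t → MvPolynomial (Fin (n + 1)) k) (α : Fin s → Fin t) (β : Fin s → Fin (n + 1))
    (φ : MvPolynomial (Fin (n + 1)) k →+* L) :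
    φ (Jp f α β) = (Matrix.of fun i j => φ (pderiv (β j) (f (α i)))).det := by
  unfold Jp
  rw [RingHom.map_det]
  rfl

theorem Jp_hom {k : Type} [Field k] {n t s : ℕ} (f : Fin t → MvPolynomial (Fin (n + 1)) k)
    (d : Fin t → ℕ) (hd : ∀ i, (f i).IsHomogeneous (d i))
    (α : Fin s → Fin t) (β : Fin s → Fin (n + 1)) :
    (Jp f α β).IsHomogeneous (∑ i, (d (α i) - 1)) := by
  unfold Jp
  rw [Matrix.det_apply]
  refine IsHomogeneous.sum _ _ _ fun σ _ => ?_
  have h1 : (∏ i, (Matrix.of fun i j => pderiv (β j) (f (α i))) (σ i) i).IsHomogeneous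
      (∑ i, (d (α (σ i)) - 1)) :=
    IsHomogeneous.prod _ _ _ fun i _ => (hd _).pderiv
  rw [Equiv.sum_comp σ (fun i => d (α i) - 1)] at h1
  rcases Int.units_eq_one_or (Equiv.Perm.sign σ) with h | h
  · rw [h, one_smul]; exact h1
  · rw [h, Units.neg_smul, one_smul]; exact h1.neg

/-- the points of `X` -/
theorem point {k : Type} [Field k] [NumberField k] {n t u s : ℕ}
    {f : Fin t → MvPolynomial (Fin (n + 1)) k} {G : Fin u → MvPolynomial (Fin (n + 1)) k}
    (hT : IsTransV s f G) (Ω : Type) [Field Ω] [IsAlgClosed Ω]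
    (φ : MvPolynomial (Fin (n + 1)) k →+* Ω) (hf : ∀ i, φ (f i) = 0) (l₀ : Fin (n + 1))
    (hl₀ : φ (X l₀) ≠ 0) :
    (∃ (α : Fin s → Fin t) (β : Fin s → Fin (n + 1)), φ ((∏ j, X (β j)) * Jp f α β) ≠ 0) ∧
    ∀ (α₁ α₂ : Fin s → Fin t) (β₁ β₂ : Fin s → Fin (n + 1)),
      φ (Jp f α₁ β₁) * φ (Jp f α₂ β₂) = φ (Jp f α₁ β₂) * φ (Jp f α₂ β₁) := by
  let algk : Algebra k Ω := (φ.comp C).toAlgebra
  let ψ : AlgebraicClosure k →ₐ[k] Ω := IsAlgClosed.lift
  let alg2 : Algebra (AlgebraicClosure k) Ω := ψ.toRingHom.toAlgebra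
  set z : Fin (n + 1) → Ω := fun l => φ (X l) with hz
  have hev : ∀ p : MvPolynomial (Fin (n + 1)) k,
      aeval z (p.map (algebraMap k (AlgebraicClosure k))) = φ p := by
    intro p
    rw [aeval_def, eval₂_map]
    have h1 : (algebraMap (AlgebraicClosure k) Ω).comp (algebraMap k (AlgebraicClosure k)) =
        φ.comp C := ψ.comp_algebraMap
    rw [h1]
    have h2 : eval₂Hom (φ.comp C) z = φ := by
      apply MvPolynomial.ringHom_ext
      · intro r
        simp
      · intro i
        simp [hz]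
    exact congrArg (fun q : MvPolynomial (Fin (n + 1)) k →+* Ω => q p) h2
  have hz0 : z ≠ 0 := fun h => hl₀ (congrFun h l₀)
  obtain ⟨-, q, v, dd, H, -, hH⟩ := hT
  obtain ⟨α, ι, ⟨a, ha, hloc, -⟩, hind⟩ := hH Ω z hz0 fun i => by rw [hev, hf]
  have hpd : ∀ i l, aeval z (pderiv l ((f i).map (algebraMap k (AlgebraicClosure k)))) =
      φ (pderiv l (f i)) := by
    intro i l
    rw [pderiv_map, hev]
  -- independence
  have hmin := minor (fun i l => φ (pderiv l (f (α i)))) (fun l => z l ≠ 0) fun b hb => by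
    classical
    have h1 := hind b 0 (fun l => if z l ≠ 0 then 0 else -∑ i, b i * φ (pderiv l (f (α i))))
      (fun j hj => absurd rfl hj) (fun l hl => by
        by_contra hzl
        exact hl (if_pos hzl)) (fun l => by
        simp only [hpd, Pi.zero_apply, zero_mul, Finset.sum_const_zero, add_zero]
        by_cases hzl : z l ≠ 0
        · rw [if_pos hzl, hb l hzl, add_zero]
        · rw [if_neg hzl, add_neg_cancel])
    exact h1.1
  obtain ⟨β, hβ1, hβ2⟩ := hmin
  refine ⟨⟨α, β, ?_⟩, ?_⟩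
  · rw [map_mul, map_prod, map_Jp]
    exact mul_ne_zero (Finset.prod_ne_zero_iff.2 fun j _ => hβ1 j) hβ2
  · -- proportionality
    have hc : ∀ i, ∃ c : Fin s → Ω, ∀ l, φ (pderiv l (f i)) =
        ∑ j, c j * φ (pderiv l (f (α j))) := by
      intro i
      obtain ⟨c, hc⟩ := (Ideal.mem_span_range_iff_exists_fun).1 (hloc i)
      refine ⟨fun j => aeval z (c j) / aeval z a, fun l => ?_⟩
      have h1 := congrArg (fun p => aeval z (pderiv l p)) hc
      simp only [map_sum, Derivation.leibniz, smul_eq_mul, map_add, map_mul, hev, hf, hpd,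
        zero_mul, add_zero] at h1
      have h2 : φ (pderiv l (f i)) = (∑ j, aeval z (c j) * φ (pderiv l (f (α j)))) / aeval z a := by
        rw [eq_div_iff ha, mul_comm, ← h1]
      rw [h2, Finset.sum_div]
      refine Finset.sum_congr rfl fun j _ => by ring
    choose c hc using hc
    have hdet : ∀ (α₁ : Fin s → Fin t) (β : Fin s → Fin (n + 1)), φ (Jp f α₁ β) =
        (Matrix.of fun i j => c (α₁ i) j).det * φ (Jp f α β) := by
      intro α₁ β
      rw [map_Jp, map_Jp, ← Matrix.det_mul]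
      congr 1
      ext i j
      rw [Matrix.mul_apply]
      exact hc (α₁ i) (β j)
    intro α₁ α₂ β₁ β₂
    rw [hdet α₁ β₁, hdet α₂ β₂, hdet α₁ β₂, hdet α₂ β₁]
    ring

/-- the part of degree `N` of a multiple of a form of degree `e` -/
noncomputable def ex {k : Type} [Field k] {n : ℕ} (N e : ℕ) (q : MvPolynomial (Fin (n + 1)) k) :
    MvPolynomial (Fin (n + 1)) k :=
  ∑ j ∈ Finset.range (q.totalDegree + 1), if j + e = N then homogeneousComponent j q else 0

theorem ex_mul {k : Type} [Field k] {n : ℕ} (N e : ℕ) (q F : MvPolynomial (Fin (n + 1)) k)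
    (hF : F.IsHomogeneous e) : homogeneousComponent N (q * F) = ex N e q * F := by
  conv_lhs => rw [← sum_homogeneousComponent q]
  unfold ex
  rw [Finset.sum_mul, Finset.sum_mul, map_sum]
  refine Finset.sum_congr rfl fun j _ => ?_
  have h1 : (homogeneousComponent j q * F) ∈ homogeneousSubmodule (Fin (n + 1)) k (j + e) :=
    (homogeneousComponent_isHomogeneous j q).mul hF
  rw [homogeneousComponent_of_mem h1]
  by_cases h : j + e = N
  · rw [if_pos h, if_pos h.symm]
  · rw [if_neg h, if_neg (fun h' => h h'.symm), zero_mul]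

theorem ex_hom {k : Type} [Field k] {n : ℕ} (N e : ℕ) (q : MvPolynomial (Fin (n + 1)) k) (M D : ℕ)
    (J : MvPolynomial (Fin (n + 1)) k) (hJ : J.IsHomogeneous D) (hM : ∀ j, j + e = N → j + D = M) :
    (ex N e q * J).IsHomogeneous M := by
  unfold ex
  rw [Finset.sum_mul]
  refine IsHomogeneous.sum _ _ _ fun j _ => ?_
  by_cases h : j + e = N
  · rw [if_pos h, ← hM j h]
    exact (homogeneousComponent_isHomogeneous j q).mul hJ
  · rw [if_neg h, zero_mul]
    exact isHomogeneous_zero _ _ _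

/-- NSX-A -/
theorem nsxa (k : Type) [Field k] [NumberField k] (n t u s : ℕ)
    (f : Fin t → MvPolynomial (Fin (n + 1)) k) (G : Fin u → MvPolynomial (Fin (n + 1)) k)
    (d : Fin t → ℕ) (hd : ∀ i, (f i).IsHomogeneous (d i)) (hT : IsTransV s f G) :
    ∃ N : ℕ, s ≤ N ∧ ∃ P : Fin (n + 1) → (Fin s → Fin (n + 1)) → (Fin s → Fin (n + 1)) →
        MvPolynomial (Fin (n + 1)) k, (∀ l β' β, (P l β' β).IsHomogeneous (N - s)) ∧
      ∀ (L : Type) [Field L] [Algebra k L] (x : Fin (n + 1) → L), x ≠ 0 →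
        (∀ i, aeval x (f i) = 0) → ∀ (α : Fin s → Fin t) (l : Fin (n + 1))
          (β' : Fin s → Fin (n + 1)),
          x l ^ N * gaussRow f α x β' =
            ∑ β, aeval x (P l β' β) * ((∏ j, x (β j)) * gaussRow f α x β) := by
  classical
  let F : Fin t ⊕ ((Fin s → Fin t) × (Fin s → Fin (n + 1))) → MvPolynomial (Fin (n + 1)) k :=
    Sum.elim f (fun p => (∏ j, X (p.2 j)) * Jp f p.1 p.2)
  have hI : ∀ l : Fin (n + 1), ∃ N : ℕ, X l ^ N ∈ Ideal.span (Set.range F) := by
    intro l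
    refine null _ l fun Ω _ _ φ hφ => ?_
    by_contra hne
    obtain ⟨⟨α, β, h⟩, -⟩ := point hT Ω φ
      (fun i => hφ _ (Ideal.subset_span ⟨Sum.inl i, rfl⟩)) l hne
    exact h (hφ _ (Ideal.subset_span ⟨Sum.inr (α, β), rfl⟩))
  choose N₀ hN₀ using hI
  set N := ∑ l, N₀ l + s with hN
  have hIN : ∀ l : Fin (n + 1), X l ^ N ∈ Ideal.span (Set.range F) := by
    intro l
    have h1 : N₀ l ≤ N := (Finset.single_le_sum (f := N₀) (fun _ _ => Nat.zero_le _)
      (Finset.mem_univ l)).trans (Nat.le_add_right _ _)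
    rw [← Nat.sub_add_cancel h1, pow_add]
    exact Ideal.mul_mem_left _ _ (hN₀ l)
  choose Q hQ using fun l => (Ideal.mem_span_range_iff_exists_fun).1 (hIN l)
  let D : (Fin s → Fin t) → ℕ := fun α => ∑ i, (d (α i) - 1)
  have hFhom : ∀ p : (Fin s → Fin t) × (Fin s → Fin (n + 1)),
      (F (Sum.inr p)).IsHomogeneous (s + D p.1) := by
    intro p
    have h1 : (∏ j, X (p.2 j) : MvPolynomial (Fin (n + 1)) k).IsHomogeneous (∑ _j : Fin s, 1) :=
      IsHomogeneous.prod _ _ _ fun j _ => isHomogeneous_X _ _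
    rw [Finset.sum_const, Finset.card_univ, Fintype.card_fin, smul_eq_mul, mul_one] at h1
    exact h1.mul (Jp_hom f d hd p.1 p.2)
  have hkey : ∀ l : Fin (n + 1), X l ^ N = ∑ i, ex N (d i) (Q l (Sum.inl i)) * f i +
      ∑ p : (Fin s → Fin t) × (Fin s → Fin (n + 1)),
        ex N (s + D p.1) (Q l (Sum.inr p)) * F (Sum.inr p) := by
    intro l
    have h1 := congrArg (homogeneousComponent N) (hQ l)
    rw [Fintype.sum_sum_type, map_add, map_sum, map_sum] at h1
    have h2 : homogeneousComponent N (X l ^ N : MvPolynomial (Fin (n + 1)) k) = X l ^ N := by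
      have h3 : (X l ^ N : MvPolynomial (Fin (n + 1)) k).IsHomogeneous (1 * N) :=
        (isHomogeneous_X k l).pow N
      rw [one_mul] at h3
      rw [homogeneousComponent_of_mem (m := N) (n := N) h3, if_pos rfl]
    rw [h2] at h1
    rw [← h1]
    congr 1
    · exact Finset.sum_congr rfl fun i _ => ex_mul _ _ _ _ (hd i)
    · exact Finset.sum_congr rfl fun p _ => ex_mul _ _ _ _ (hFhom p)
  refine ⟨N, Nat.le_add_left _ _, fun l β' β => ∑ α : Fin s → Fin t,
    ex N (s + D α) (Q l (Sum.inr (α, β))) * Jp f α β', ?_, ?_⟩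
  · intro l β' β
    refine IsHomogeneous.sum _ _ _ fun α _ => ex_hom _ _ _ _ (D α) _ (Jp_hom f d hd α β') ?_
    intro j hj
    omega
  · intro L _ _ x hx hfx α l β'
    have hprop : ∀ (α₁ : Fin s → Fin t) (β₁ : Fin s → Fin (n + 1)),
        gaussRow f α₁ x β₁ * gaussRow f α x β' = gaussRow f α₁ x β' * gaussRow f α x β₁ := by
      intro α₁ β₁
      let φ : MvPolynomial (Fin (n + 1)) k →+* AlgebraicClosure L :=
        (algebraMap L (AlgebraicClosure L)).comp (aeval x : MvPolynomial (Fin (n + 1)) k →ₐ[k] L).toRingHom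
      have hφ : ∀ p, φ p = algebraMap L (AlgebraicClosure L) (aeval x p) := fun p => rfl
      obtain ⟨l₁, hl₁⟩ := Function.ne_iff.1 hx
      have h1 := (point hT (AlgebraicClosure L) φ (fun i => by rw [hφ, hfx, map_zero]) l₁ (by
        rw [hφ, aeval_X]
        exact (map_ne_zero_iff _ (algebraMap L (AlgebraicClosure L)).injective).2 hl₁)).2
        α₁ α β₁ β'
      simp only [hφ, aeval_Jp, ← map_mul] at h1
      exact (algebraMap L (AlgebraicClosure L)).injective h1
    have h1 := congrArg (aeval x) (hkey l)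
    rw [map_pow, aeval_X, map_add, map_sum, map_sum] at h1
    have h2 : ∑ i, aeval x (ex N (d i) (Q l (Sum.inl i)) * f i) = 0 :=
      Finset.sum_eq_zero fun i _ => by rw [map_mul, hfx, mul_zero]
    rw [h2, zero_add, Fintype.sum_prod_type] at h1
    rw [h1, Finset.sum_mul]
    have h3 : ∀ β : Fin s → Fin (n + 1), aeval x (∑ α : Fin s → Fin t,
        ex N (s + D α) (Q l (Sum.inr (α, β))) * Jp f α β') * ((∏ j, x (β j)) * gaussRow f α x β) =
        ∑ α₁ : Fin s → Fin t, aeval x (ex N (s + D α₁) (Q l (Sum.inr (α₁, β)))) *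
          (gaussRow f α₁ x β' * ((∏ j, x (β j)) * gaussRow f α x β)) := by
      intro β
      rw [map_sum, Finset.sum_mul]
      refine Finset.sum_congr rfl fun α₁ _ => ?_
      rw [map_mul, aeval_Jp, mul_assoc]
    simp only [h3]
    rw [Finset.sum_comm]
    refine Finset.sum_congr rfl fun α₁ _ => ?_
    rw [Finset.sum_mul]
    refine Finset.sum_congr rfl fun β _ => ?_
    change aeval x (ex N (s + D α₁) (Q l (Sum.inr (α₁, β))) * ((∏ j, X (β j)) * Jp f α₁ β)) *
      gaussRow f α x β' = _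
    rw [map_mul, map_mul, map_prod, aeval_Jp]
    simp only [aeval_X]
    have h4 := hprop α₁ β
    linear_combination (aeval x (ex N (s + D α₁) (Q l (Sum.inr (α₁, β)))) * ∏ j, x (β j)) * h4

end Pool.Agent.J4.H5.VJ.NSXA
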