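import Mathlib

/-!
# Vojta's conjecture for projective space with a large error term: definitions
-/

set_option autoImplicit false

open MvPolynomial NumberField IsDedekindDomain Module

namespace Pool.Agent.J4.H5.VJ

/-- The logarithmic height relative to `k` of a point over `L`. -/
noncomputable def height (k : Type) {L : Type} [Field k] [Field L] [NumberField L] [Algebra k L]
    {M : ℕ} (x : Fin M → L) : ℝ := Height.logHeight x / finrank k L

/-- The logarithmic discriminant `log |disc L| / [L : k] - log |disc k|`. -/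
noncomputable def logDisc (k L : Type) [Field k] [NumberField k] [Field L] [NumberField L]
    [Algebra k L] : ℝ :=
  Real.log |(discr L : ℝ)| / finrank k L - Real.log |(discr k : ℝ)|

/-- The primes of `L` above the primes in `S`. -/
def primesAbove {k : Type} [Field k] [NumberField k] (S : Finset (HeightOneSpectrum (𝓞 k)))
    (L : Type) [Field L] [NumberField L] [Algebra k L] : Set (HeightOneSpectrum (𝓞 L)) :=
  {w | ∃ v ∈ S, w.asIdeal.LiesOver v.asIdeal}

/-- The local height `log (max_j |x_j| ^ e / |F(x)|)` of the divisor `F = 0`, `F` a form of degree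
`e`, for an absolute value of `L`. -/
noncomputable def weil {k L : Type} [Field k] [Field L] [Algebra k L] {M : ℕ} (e : ℕ)
    (f : AbsoluteValue L ℝ) (F : MvPolynomial (Fin M) k) (x : Fin M → L) : ℝ :=
  Real.log ((⨆ j, f (x j)) ^ e / f (aeval x F))

/-- The proximity function `∑_{ν ∈ S} λ_D(x, ν)` relative to `k`, where `S` consists of the
archimedean places of `k` and the primes in `S`: the sum of the local heights over the infinite places
`w` of `L` (with the factor `[L_w : ℝ]`) and over the primes of `L` above the primes in `S` (with the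
absolute value `N(w) ^ (- ord_w)`), divided by `[L : k]`. -/
noncomputable def proximity {k L : Type} [Field k] [NumberField k] [Field L] [NumberField L]
    [Algebra k L] {M : ℕ} (S : Finset (HeightOneSpectrum (𝓞 k))) (e : ℕ)
    (F : MvPolynomial (Fin M) k) (x : Fin M → L) : ℝ :=
  (∑ w : InfinitePlace L, (w.mult : ℝ) * weil e w.1 F x +
    ∑ᶠ w ∈ primesAbove S L, weil e (FinitePlace.mk w).1 F x) / finrank k L

/-- The point `(1 : x_1 : … : x_n)`. -/
def pt {L : Type} [Field L] {n : ℕ} (x : Fin n → L) : Fin (n + 1) → L := Fin.cons 1 x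

/-- Vojta's inequality with the constant `A` for the divisor `F = 0` on `ℙⁿ` (`F` a form of degree
`e`) and the points of degree at most `r` over `k`: there is a proper closed subset of `ℙⁿ`
(`x_0 = 0` or `G = 0`) such that for all finite sets `S` of primes (the archimedean places are always
added) there is a constant `c` such that for all number fields `L` of degree at most `r` over `k` and
all points `x` over `L` outside the closed subset and `F = 0`
`∑_{ν ∈ S} λ_D(x, ν) ≤ A h(x) + d_k(L) + c`. -/
def Holds (k : Type) [Field k] [NumberField k] {n : ℕ} (F : MvPolynomial (Fin (n + 1)) k) (e : ℕ)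
    (A : ℝ) (r : ℕ) : Prop :=
  ∃ G : MvPolynomial (Fin n) k, G ≠ 0 ∧ ∀ S : Finset (HeightOneSpectrum (𝓞 k)), ∃ c : ℝ,
    ∀ (L : Type) [Field L] [NumberField L] [Algebra k L] (x : Fin n → L), finrank k L ≤ r →
      aeval x G ≠ 0 → aeval (pt x) F ≠ 0 →
      proximity S e F (pt x) ≤ A * height k (pt x) + logDisc k L + c

/-- The divisor `F = 0` together with the coordinate hyperplanes has strict normal crossings: over an
algebraic closure of `k` the form `F` is a product of forms `H_j`, and at all points `z` the gradients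
of the `H_j` which vanish at `z` and of the coordinates `x_l` which vanish at `z` are linearly
independent. -/
def IsTransversal {k : Type} [Field k] {n : ℕ} (F : MvPolynomial (Fin (n + 1)) k) : Prop :=
  ∃ (q : ℕ) (d : Fin q → ℕ) (H : Fin q → MvPolynomial (Fin (n + 1)) (AlgebraicClosure k)),
    (∀ j, (H j).IsHomogeneous (d j)) ∧ F.map (algebraMap k (AlgebraicClosure k)) = ∏ j, H j ∧
    ∀ z : Fin (n + 1) → AlgebraicClosure k, z ≠ 0 →
      ∀ (a : Fin q → AlgebraicClosure k) (b : Fin (n + 1) → AlgebraicClosure k),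
        (∀ j, a j ≠ 0 → eval z (H j) = 0) → (∀ l, b l ≠ 0 → z l = 0) →
        (∀ l, ∑ j, a j * eval z (pderiv l (H j)) + b l = 0) → a = 0 ∧ b = 0

/-! ## The pieces -/

/-- PROX: the proximity function does not depend on the field of definition. -/
def S_PROX : Prop := ∀ (k L L' : Type) [Field k] [NumberField k] [Field L] [NumberField L]
  [Field L'] [NumberField L'] [Algebra k L] [Algebra L L'] [Algebra k L'] [IsScalarTower k L L']
  (M : ℕ) (S : Finset (HeightOneSpectrum (𝓞 k))) (e : ℕ) (F : MvPolynomial (Fin M) k)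
  (x : Fin M → L), x ≠ 0 → aeval x F ≠ 0 →
  proximity S e F (fun i => algebraMap L L' (x i)) = proximity S e F x

/-- POW: the pull back by the power map. -/
def S_POW : Prop := ∀ (k L : Type) [Field k] [NumberField k] [Field L] [NumberField L]
  [Algebra k L] (M : ℕ) (S : Finset (HeightOneSpectrum (𝓞 k))) (e m : ℕ) (F : MvPolynomial (Fin M) k)
  (y : Fin M → L), 1 ≤ m → 1 ≤ M →
  proximity S (m * e) (expand m F) y = proximity S e F (fun i => y i ^ m) ∧
  height k (fun i => y i ^ m) = m * height k y

/-- HT: the height does not depend on the field of definition. -/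
def S_HT : Prop := ∀ (k L L' : Type) [Field k] [NumberField k] [Field L] [NumberField L]
  [Field L'] [NumberField L'] [Algebra k L] [Algebra L L'] [Algebra k L'] [IsScalarTower k L L']
  (M : ℕ) (x : Fin M → L), height k (fun i => algebraMap L L' (x i)) = height k x

/-- SER: the discriminant of a Galois extension, `T` contains all ramified primes. -/
def S_SER : Prop := ∀ (L L' : Type) [Field L] [NumberField L] [Field L'] [NumberField L']
  [Algebra L L'] [IsGalois L L'] (T : Finset (HeightOneSpectrum (𝓞 L))),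
  (∀ (P : HeightOneSpectrum (𝓞 L')), P.asIdeal ∣ differentIdeal (𝓞 L) (𝓞 L') →
    ∃ v ∈ T, P.asIdeal.LiesOver v.asIdeal) →
  Real.log (Ideal.absNorm (differentIdeal (𝓞 L) (𝓞 L')) : ℝ) ≤
    finrank L L' * (∑ v ∈ T, Real.log (Ideal.absNorm v.asIdeal : ℝ) +
      finrank ℚ L * Real.log (finrank L L'))

/-- UNR: adjoining `m`-th roots of `v`-units is unramified at `v`, if `v` does not divide `m`. -/
def S_UNR : Prop := ∀ (L L' : Type) [Field L] [NumberField L] [Field L'] [NumberField L']
  [Algebra L L'] [IsGalois L L'] (m : ℕ) (Θ : Set L'), 1 ≤ m → Algebra.adjoin L Θ = ⊤ →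
  ∀ (P : HeightOneSpectrum (𝓞 L')) (v : HeightOneSpectrum (𝓞 L)), P.asIdeal.LiesOver v.asIdeal →
    (m : 𝓞 L) ∉ v.asIdeal →
    (∀ θ ∈ Θ, ∃ x : L, v.valuation L x = 1 ∧ θ ^ m = algebraMap L L' x) →
    ¬ P.asIdeal ∣ differentIdeal (𝓞 L) (𝓞 L')

/-- KUM: the field generated by all `m`-th roots. -/
def S_KUM : Prop := ∀ (n m : ℕ), 1 ≤ m → ∃ B : ℕ, ∀ (L : Type) [Field L] [NumberField L]
  (x : Fin n → L), (∀ i, x i ≠ 0) → ∃ (L' : Type) (_ : Field L') (_ : NumberField L')
  (_ : Algebra L L') (_ : IsGalois L L') (y : Fin n → L') (Θ : Set L'),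
  finrank L L' ≤ B ∧ (∀ i, y i ^ m = algebraMap L L' (x i)) ∧ Algebra.adjoin L Θ = ⊤ ∧
  ∀ θ ∈ Θ, θ ^ m = 1 ∨ ∃ i, θ ^ m = algebraMap L L' (x i)

/-- CNT: the primes at which a coordinate of `(1 : x_1 : … : x_n)` is not a unit. -/
def S_CNT : Prop := ∀ (n : ℕ) (L : Type) [Field L] [NumberField L] (x : Fin n → L),
  (∀ i, x i ≠ 0) → ∃ T : Finset (HeightOneSpectrum (𝓞 L)),
    (∀ v : HeightOneSpectrum (𝓞 L), v ∉ T → ∀ i, v.valuation L (x i) = 1) ∧
    ∑ v ∈ T, Real.log (Ideal.absNorm v.asIdeal : ℝ) ≤ (n + 1) * Height.logHeight (pt x)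

/-- DIV: the primes dividing `m`. -/
def S_DIV : Prop := ∀ (m : ℕ), 1 ≤ m → ∀ (L : Type) [Field L] [NumberField L],
  ∃ T : Finset (HeightOneSpectrum (𝓞 L)),
    (∀ v : HeightOneSpectrum (𝓞 L), v ∉ T → (m : 𝓞 L) ∉ v.asIdeal) ∧
    ∑ v ∈ T, Real.log (Ideal.absNorm v.asIdeal : ℝ) ≤ finrank ℚ L * Real.log m

/-- DISC: the logarithmic discriminant in towers. -/
def S_DISC : Prop := ∀ (k L L' : Type) [Field k] [NumberField k] [Field L] [NumberField L]
  [Field L'] [NumberField L'] [Algebra k L] [Algebra L L'] [Algebra k L'] [IsScalarTower k L L'],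
  logDisc k L' = logDisc k L +
    Real.log (Ideal.absNorm (differentIdeal (𝓞 L) (𝓞 L')) : ℝ) / finrank k L'

/-- NORM: the image of a proper closed subset under the power map. -/
def S_NORM : Prop := ∀ (k : Type) [Field k] (n m : ℕ), 1 ≤ m → ∀ G : MvPolynomial (Fin n) k,
  G ≠ 0 → ∃ G' : MvPolynomial (Fin n) k, G' ≠ 0 ∧ ∀ (L : Type) [Field L] [Algebra k L]
    (y : Fin n → L), aeval y G = 0 → aeval (fun i => y i ^ m) G' = 0

/-- NC: the condition of normal crossings is preserved by the power map. -/
def S_NC : Prop := ∀ (k : Type) [Field k] [CharZero k] (n m : ℕ) (F : MvPolynomial (Fin (n + 1)) k),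
  1 ≤ m → IsTransversal F → IsTransversal (expand m F)

end Pool.Agent.J4.H5.VJ
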