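import Pool.Agent.J4.H5.VJ.Defs2

/-!
# Smooth complete intersections `X ⊂ ℙⁿ` and hypersurface sections `D` with strict normal crossings
-/

set_option autoImplicit false

open MvPolynomial NumberField IsDedekindDomain Module

namespace Pool.Agent.J4.H5.VJ

/-- `G` is not a zero divisor modulo the ideal generated by the `f_i`: `G` vanishes on no component of
`X : f_1 = … = f_s = 0`. -/
def NZD {k : Type} [Field k] {n s : ℕ} (f : Fin s → MvPolynomial (Fin (n + 1)) k)
    (G : MvPolynomial (Fin (n + 1)) k) : Prop :=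
  ∀ H : MvPolynomial (Fin (n + 1)) k, G * H ∈ Ideal.span (Set.range f) →
    H ∈ Ideal.span (Set.range f)

/-- The ideal generated by the `f_i` is saturated. -/
def Saturated {k : Type} [Field k] {n s : ℕ} (f : Fin s → MvPolynomial (Fin (n + 1)) k) : Prop :=
  ∀ H : MvPolynomial (Fin (n + 1)) k, (∀ l, X l * H ∈ Ideal.span (Set.range f)) →
    H ∈ Ideal.span (Set.range f)

/-- Vojta's inequality with the constant `A` for the divisor `F = 0` (`F` a form of degree `e`) on
`X : f_1 = … = f_s = 0` in `ℙⁿ` and the points of degree at most `r` over `k`: there is a closed subset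
`G = 0` which contains no component of `X` such that for all finite sets `S` of primes (the archimedean
places are always added) there is a constant `c` such that for all number fields `L` of degree at most
`r` over `k` and all points `x` of `X` over `L` outside `G = 0` and `F = 0`
`∑_{ν ∈ S} λ_D(x, ν) ≤ A h(x) + d_k(L) + c`. -/
def HoldsX (k : Type) [Field k] [NumberField k] {n s : ℕ}
    (f : Fin s → MvPolynomial (Fin (n + 1)) k) (F : MvPolynomial (Fin (n + 1)) k) (e : ℕ)
    (A : ℝ) (r : ℕ) : Prop :=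
  ∃ (G : MvPolynomial (Fin (n + 1)) k) (N : ℕ), NZD f G ∧ G.IsHomogeneous N ∧
    ∀ S : Finset (HeightOneSpectrum (𝓞 k)), ∃ c : ℝ,
    ∀ (L : Type) [Field L] [NumberField L] [Algebra k L] (x : Fin (n + 1) → L), x ≠ 0 →
      (∀ i, aeval x (f i) = 0) → finrank k L ≤ r → aeval x G ≠ 0 → aeval x F ≠ 0 →
      proximity S e F x ≤ A * height k x + logDisc k L + c

/-- `X : f_1 = … = f_s = 0` is a smooth complete intersection of codimension `s` and the divisor `D`
cut out on `X` by `F = 0` has strict normal crossings: over an algebraic closure of `k` the form `F` is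
a product of forms `H_j`, and at all points `z` of `X` over all extension fields the gradients of the
`f_i` and those of the `H_j` which vanish at `z` are linearly independent. -/
def IsSNCPair {k : Type} [Field k] {n s : ℕ} (f : Fin s → MvPolynomial (Fin (n + 1)) k)
    (F : MvPolynomial (Fin (n + 1)) k) : Prop :=
  Saturated f ∧ ∃ (q : ℕ) (d : Fin q → ℕ)
    (H : Fin q → MvPolynomial (Fin (n + 1)) (AlgebraicClosure k)),
    (∀ j, (H j).IsHomogeneous (d j)) ∧ F.map (algebraMap k (AlgebraicClosure k)) = ∏ j, H j ∧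
    ∀ (Ω : Type) [Field Ω] [Algebra (AlgebraicClosure k) Ω] (z : Fin (n + 1) → Ω), z ≠ 0 →
      (∀ i, aeval z ((f i).map (algebraMap k (AlgebraicClosure k))) = 0) →
      ∀ (a : Fin s → Ω) (c : Fin q → Ω), (∀ j, c j ≠ 0 → aeval z (H j) = 0) →
        (∀ l, ∑ i, a i * aeval z (pderiv l ((f i).map (algebraMap k (AlgebraicClosure k)))) +
          ∑ j, c j * aeval z (pderiv l (H j)) = 0) → a = 0 ∧ c = 0

/-- The same for the divisor `D` together with the coordinate hyperplanes. -/
def IsTransPair {k : Type} [Field k] {n s : ℕ} (f : Fin s → MvPolynomial (Fin (n + 1)) k)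
    (F : MvPolynomial (Fin (n + 1)) k) : Prop :=
  (∀ l, NZD f (X l)) ∧ ∃ (q : ℕ) (d : Fin q → ℕ)
    (H : Fin q → MvPolynomial (Fin (n + 1)) (AlgebraicClosure k)),
    (∀ j, (H j).IsHomogeneous (d j)) ∧ F.map (algebraMap k (AlgebraicClosure k)) = ∏ j, H j ∧
    ∀ (Ω : Type) [Field Ω] [Algebra (AlgebraicClosure k) Ω] (z : Fin (n + 1) → Ω), z ≠ 0 →
      (∀ i, aeval z ((f i).map (algebraMap k (AlgebraicClosure k))) = 0) →
      ∀ (a : Fin s → Ω) (c : Fin q → Ω) (b : Fin (n + 1) → Ω),
        (∀ j, c j ≠ 0 → aeval z (H j) = 0) → (∀ l, b l ≠ 0 → z l = 0) →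
        (∀ l, ∑ i, a i * aeval z (pderiv l ((f i).map (algebraMap k (AlgebraicClosure k)))) +
          ∑ j, c j * aeval z (pderiv l (H j)) + b l = 0) → a = 0 ∧ c = 0 ∧ b = 0

/-- FREE: `k[y]` is free over `k[y ^ m]` with the basis of the monomials with exponents `< m`. -/
def S_FREE : Prop := ∀ (k : Type) [Field k] (n m : ℕ), 1 ≤ m →
  ∃ κ : (Fin (n + 1) → Fin m) →
    (MvPolynomial (Fin (n + 1)) k →ₗ[k] MvPolynomial (Fin (n + 1)) k),
    (∀ H, H = ∑ a, (∏ l, X l ^ (a l : ℕ)) * expand m (κ a H)) ∧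
    (∀ a b P, κ a ((∏ l, X l ^ (b l : ℕ)) * expand m P) = if a = b then P else 0) ∧
    (∀ a P H, κ a (expand m P * H) = P * κ a H)

/-- PUSHX: the image of a closed subset under the power map. -/
def S_PUSHX : Prop := ∀ (k : Type) [Field k] (n s m : ℕ)
  (f : Fin s → MvPolynomial (Fin (n + 1)) k) (G : MvPolynomial (Fin (n + 1)) k) (N : ℕ), 1 ≤ m →
  NZD (fun i => expand m (f i)) G → G.IsHomogeneous N →
  ∃ (G' : MvPolynomial (Fin (n + 1)) k) (N' : ℕ), NZD f G' ∧ G'.IsHomogeneous N' ∧
    ∀ (L : Type) [Field L] [Algebra k L] (y : Fin (n + 1) → L), aeval y G = 0 →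
      aeval (fun i => y i ^ m) G' = 0

/-- PULLX: the coordinates remain nonzerodivisors. -/
def S_PULLX : Prop := ∀ (k : Type) [Field k] (n s m : ℕ)
  (f : Fin s → MvPolynomial (Fin (n + 1)) k) (l : Fin (n + 1)), 1 ≤ m → NZD f (X l) →
  NZD (fun i => expand m (f i)) (X l)

/-- GENX: a general linear form is not a zero divisor modulo a saturated ideal. -/
def S_GENX : Prop := ∀ (k : Type) [Field k] [Infinite k] (n s : ℕ)
  (f : Fin s → MvPolynomial (Fin (n + 1)) k), Saturated f →
  ∃ δ : MvPolynomial (Fin (n + 1)) k, δ ≠ 0 ∧ ∀ α : Fin (n + 1) → k, eval α δ ≠ 0 →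
    NZD f (∑ l, C (α l) * X l)

/-- LINX: invariance under linear changes of the coordinates, `A` any real number. -/
def S_LINX : Prop := ∀ (k : Type) [Field k] [NumberField k] (n s : ℕ)
  (f : Fin s → MvPolynomial (Fin (n + 1)) k) (F : MvPolynomial (Fin (n + 1)) k) (e : ℕ) (A : ℝ)
  (r : ℕ) (g : Matrix (Fin (n + 1)) (Fin (n + 1)) k), IsUnit g.det → F.IsHomogeneous e →
  HoldsX k (fun i => lin g (f i)) (lin g F) e A r → HoldsX k f F e A r

/-- NCX: the condition of normal crossings and the power map. -/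
def S_NCX : Prop := ∀ (k : Type) [Field k] [CharZero k] (n s m : ℕ)
  (f : Fin s → MvPolynomial (Fin (n + 1)) k) (F : MvPolynomial (Fin (n + 1)) k), 1 ≤ m →
  (∀ l, NZD (fun i => expand m (f i)) (X l)) → IsTransPair f F →
  IsTransPair (fun i => expand m (f i)) (expand m F)

/-- NCY: the coordinate hyperplanes can be omitted. -/
def S_NCY : Prop := ∀ (k : Type) [Field k] (n s : ℕ)
  (f : Fin s → MvPolynomial (Fin (n + 1)) k) (F : MvPolynomial (Fin (n + 1)) k),
  IsTransPair f F → IsSNCPair f F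

/-- BER1X: generic hyperplanes are transversal (derivations of `Ω` over `C`), pointwise. -/
def S_BER1X : Prop := ∀ (C Ω : Type) [Field C] [CharZero C] [Field Ω] [Algebra C Ω] (n q : ℕ)
  (H : Fin q → MvPolynomial (Fin (n + 1)) C) (a : Fin (n + 1) → Fin (n + 1) → Ω),
  AlgebraicIndependent C (fun p : Fin (n + 1) × Fin (n + 1) => a p.1 p.2) →
  ∀ z : Fin (n + 1) → Ω, z ≠ 0 → ∀ (c : Fin q → Ω) (b : Fin (n + 1) → Ω),
    (∀ j, c j ≠ 0 → aeval z (H j) = 0) → (∀ l, b l ≠ 0 → ∑ i, a l i * z i = 0) →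
    (∀ i, ∑ j, c j * aeval z (pderiv i (H j)) + ∑ l, b l * a l i = 0) → b = 0

/-- BERX: general position after a linear change of coordinates. -/
def S_BERX : Prop := ∀ (k : Type) [Field k] [CharZero k] (n s : ℕ)
  (f : Fin s → MvPolynomial (Fin (n + 1)) k) (F : MvPolynomial (Fin (n + 1)) k), IsSNCPair f F →
  ∃ g : Matrix (Fin (n + 1)) (Fin (n + 1)) k, IsUnit g.det ∧
    IsTransPair (fun i => lin g (f i)) (lin g F)

end Pool.Agent.J4.H5.VJ
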