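import Pool.Agent.J4.H5.VJ.Defs4
import Pool.Agent.J4.H5.VJ.Main3

/-!
# The main argument for all smooth projective varieties
-/

set_option autoImplicit false

open MvPolynomial NumberField IsDedekindDomain Module

namespace Pool.Agent.J4.H5.VJ

/-- The descent from the pull back under the power map. -/
theorem descV (hPROXI : S_PROXI) (hPOWI : S_POWI) (hROWS : S_ROWS) (hROWM : S_ROWM)
    (hNSX : S_NSX) (hPOW : S_POW) (hHT : S_HT) (hSER : S_SER) (hUNR : S_UNR)
    (hKUM : S_KUM) (hCNT : S_CNT) (hDIV : S_DIV) (hDISC : S_DISC) (hPUSHX : S_PUSHX)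
    (k : Type) [Field k] [NumberField k] {n t u : ℕ} (s : ℕ)
    (f : Fin t → MvPolynomial (Fin (n + 1)) k)
    (d : Fin t → ℕ) (hf : ∀ i, (f i).IsHomogeneous (d i))
    (G : Fin u → MvPolynomial (Fin (n + 1)) k) (e m : ℕ) (hGe : ∀ i, (G i).IsHomogeneous e)
    (hT : IsTransV s f G) (hm : 1 ≤ m) (A : ℝ)
    (h : ∀ r, HoldsV k s (fun i => expand m (f i)) (fun i => expand m (G i)) (m * e)
      (A * m - (n + 1)) r) (r : ℕ) :
    HoldsV k s f G e A r := by
  classical
  obtain ⟨B, hB⟩ := hKUM n m hm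
  obtain ⟨G₁, N₁, hG₁, hN₁, hS⟩ := h (r * B)
  obtain ⟨G₂, N₂, hG₂, hN₂, hG₂'⟩ := hPUSHX k n t m f G₁ N₁ hm hG₁ hN₁
  obtain ⟨cN, hcN⟩ := hNSX k n t u s f G d hf hT
  refine ⟨G₂ * ∏ i, X i, N₂ + ∑ i : Fin (n + 1), 1, nzd_mul hG₂ (nzd_prod _ _ hT.1),
    hN₂.mul (IsHomogeneous.prod _ _ _ fun i _ => isHomogeneous_X k i), fun S => ?_⟩
  obtain ⟨c, hc⟩ := hS S
  refine ⟨c + cN + finrank ℚ k * (Real.log m + Real.log (max B 1 : ℕ)), ?_⟩
  intro L _ _ _ x₀ hxne hfx hr hGx hFx α hα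
  rw [map_mul, map_prod, mul_ne_zero_iff, Finset.prod_ne_zero_iff] at hGx
  obtain ⟨hG2x, hx⟩ := hGx
  have hx00 : ∀ i, x₀ i ≠ 0 := fun i => by simpa using hx i (Finset.mem_univ i)
  obtain ⟨c₀, hc₀, x, rfl⟩ := Hom.exists_pt x₀ (hx00 0)
  rw [(hPOWI k L (n + 1) u S e 1 G (pt x) le_rfl (by omega)).2 c₀ hc₀ hGe,
    Hom.height_smul k hc₀, (hROWS k L L n t s f d α (pt x) c₀ hf hc₀).1]
  rw [(hROWS k L L n t s f d α (pt x) c₀ hf hc₀).2.1] at hα
  have hx0 : ∀ i, x i ≠ 0 := by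
    intro i h0
    apply hx00 i.succ
    simp [pt, h0]
  have hfx' : ∀ i, aeval (pt x) (f i) = 0 := by
    intro i
    have := hfx i
    rw [Hom.aeval_smul (hf i)] at this
    exact (mul_eq_zero.1 this).resolve_left (pow_ne_zero _ hc₀)
  rw [Hom.aeval_smul hN₂] at hG2x
  replace hG2x := (mul_ne_zero_iff.1 hG2x).2
  obtain ⟨i₀, hFx⟩ := hFx
  rw [Hom.aeval_smul (hGe i₀)] at hFx
  replace hFx := (mul_ne_zero_iff.1 hFx).2
  obtain ⟨L', _, _, _, _, y, Θ, hdeg, hy, hΘ, hΘ'⟩ := hB L x hx0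
  let _ : Algebra k L' := ((algebraMap L L').comp (algebraMap k L)).toAlgebra
  have _ : IsScalarTower k L L' := IsScalarTower.of_algebraMap_eq fun _ => rfl
  have hyfun : (fun i => y i ^ m) = fun i => algebraMap L L' (x i) := funext hy
  have hpt : (fun i => pt y i ^ m) = fun i => algebraMap L L' (pt x i) := by
    rw [pt_pow, hyfun, pt_map]
  have hy0 : ∀ l, pt y l ≠ 0 := by
    intro l h0
    have h1 := congrFun hpt l
    simp only [h0, zero_pow (by omega : m ≠ 0)] at h1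
    have h2 : pt x l = 0 := ((map_eq_zero _).1 h1.symm)
    have h3 := hx00 l
    rw [Pi.smul_apply, h2, smul_zero] at h3
    exact h3 rfl
  have hfin : finrank k L' = finrank k L * finrank L L' := (finrank_mul_finrank k L L').symm
  have hpos : 0 < finrank k L := finrank_pos
  have hpos' : 0 < finrank L L' := finrank_pos
  obtain ⟨hr1, hr2, hr3, hr4⟩ := hROWS k L L' n t s f d α (pt x) 1 hf one_ne_zero
  have hαL' : gaussRow f α (fun i => pt y i ^ m) ≠ 0 := by
    rw [hpt]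
    exact hr4.2 hα
  obtain ⟨hm1, hm2⟩ := hROWM k L' n t s m f α (pt y) hm hy0
  have h1 := hc L' (pt y) (pt_ne_zero y) (by
    intro i
    rw [aeval_expand', hpt, aeval_ext, hfx' i, map_zero]) (by
    rw [hfin]
    exact Nat.mul_le_mul hr hdeg) (by
    intro h0
    have h2 := hG₂' L' (pt y) h0
    rw [hpt, aeval_ext] at h2
    exact hG2x ((map_eq_zero _).1 h2)) ⟨i₀, by
    rw [aeval_expand', hpt, aeval_ext]
    intro h0
    exact hFx ((map_eq_zero _).1 h0)⟩ α (hm1.2 hαL')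
  have hpow1 := (hPOWI k L' (n + 1) u S e m G (pt y) hm (by omega)).1
  have hpow2 := (hPOW k L' (n + 1) S 0 m 0 (pt y) hm (by omega)).2
  rw [hpow1, hpt, hPROXI k L L' (n + 1) u S e G (pt x) (pt_ne_zero x) ⟨i₀, hFx⟩] at h1
  have h3 : (m : ℝ) * height k (pt y) = height k (pt x) := by
    rw [← hpow2, hpt, hHT k L L' (n + 1) (pt x)]
  -- the canonical height
  have hN1 := hcN L' (fun i => pt y i ^ m) (by
    intro h0
    have := congrFun h0 0
    simp only [Pi.zero_apply] at this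
    exact hy0 0 (pow_eq_zero_iff (by omega) |>.1 this)) (by
    intro i
    rw [hpt, aeval_ext, hfx' i, map_zero]) α hαL'
  have hN2 := hN1.trans (add_le_add_left hm2 cN)
  rw [hpow2, hpt, hr3] at hN2
  -- the discriminant
  obtain ⟨T₁, hT₁, hT₁s⟩ := hCNT n L x hx0
  obtain ⟨T₂, hT₂, hT₂s⟩ := hDIV m hm L
  have h4 := hSER L L' (T₁ ∪ T₂) (by
    intro P hP
    by_contra hcon
    push Not at hcon
    have hex : ∃ v : HeightOneSpectrum (𝓞 L), P.asIdeal.LiesOver v.asIdeal :=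
      ⟨P.under (𝓞 L), ⟨rfl⟩⟩
    obtain ⟨v, hv⟩ := hex
    have hvT : v ∉ T₁ ∪ T₂ := fun h => hcon v h hv
    rw [Finset.mem_union, not_or] at hvT
    refine hUNR L L' m Θ hm hΘ P v hv (hT₂ v hvT.2) ?_ hP
    intro θ hθ
    rcases hΘ' θ hθ with h | ⟨i, hi⟩
    · exact ⟨1, map_one _, by rw [h, map_one]⟩
    · exact ⟨x i, hT₁ v hvT.1 i, hi⟩)
  have h5 : ∑ v ∈ T₁ ∪ T₂, Real.log (Ideal.absNorm v.asIdeal : ℝ) ≤
      ∑ v ∈ T₁, Real.log (Ideal.absNorm v.asIdeal : ℝ) +
        ∑ v ∈ T₂, Real.log (Ideal.absNorm v.asIdeal : ℝ) := by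
    have h6 := Finset.sum_union_inter (s₁ := T₁) (s₂ := T₂)
      (f := fun v : HeightOneSpectrum (𝓞 L) => Real.log (Ideal.absNorm v.asIdeal : ℝ))
    have h7 : 0 ≤ ∑ v ∈ T₁ ∩ T₂, Real.log (Ideal.absNorm v.asIdeal : ℝ) :=
      Finset.sum_nonneg fun v _ => Real.log_natCast_nonneg _
    linarith
  have hD := hDISC k L L'
  have hkL : (finrank ℚ L : ℝ) = finrank ℚ k * finrank k L := by
    rw [← Nat.cast_mul, finrank_mul_finrank]
  have hposR : (0 : ℝ) < finrank k L := by exact_mod_cast hpos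
  have hposR' : (0 : ℝ) < finrank L L' := by exact_mod_cast hpos'
  have hlogN : Real.log (finrank L L') ≤ Real.log (max B 1 : ℕ) := by
    apply Real.log_le_log hposR'
    exact_mod_cast hdeg.trans (le_max_left _ _)
  have h8 : Real.log (Ideal.absNorm (differentIdeal (𝓞 L) (𝓞 L')) : ℝ) / finrank k L' ≤
      (n + 1) * height k (pt x) + finrank ℚ k * (Real.log m + Real.log (max B 1 : ℕ)) := by
    rw [hfin, Nat.cast_mul, div_le_iff₀ (mul_pos hposR hposR')]
    have h9 : Real.log (Ideal.absNorm (differentIdeal (𝓞 L) (𝓞 L')) : ℝ) ≤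
        finrank L L' * ((n + 1) * Height.logHeight (pt x) + finrank ℚ L * Real.log m +
          finrank ℚ L * Real.log (max B 1 : ℕ)) := by
      refine h4.trans (mul_le_mul_of_nonneg_left ?_ hposR'.le)
      have h10 := mul_le_mul_of_nonneg_left hlogN (Nat.cast_nonneg (α := ℝ) (finrank ℚ L))
      linarith
    refine h9.trans (le_of_eq ?_)
    rw [hkL]
    unfold height
    field_simp
    ring
  have h11 : A * m * height k (pt y) = A * height k (pt x) := by rw [mul_assoc, h3]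
  have h12 : (s : ℝ) * (m * height k (pt y)) = s * height k (pt x) := by rw [h3]
  rw [hD] at h1
  rw [sub_mul, h11] at h1
  have h13 : ((n : ℝ) + 1) * height k (pt y) = n * height k (pt y) + height k (pt y) := by ring
  have h14 : ((n : ℝ) - s + 1) * height k (pt y) =
      n * height k (pt y) - s * height k (pt y) + height k (pt y) := by ring
  have h15 : ((n : ℝ) - s + 1) * height k (pt x) =
      n * height k (pt x) - s * height k (pt x) + height k (pt x) := by ring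
  have h16 : ((n : ℝ) + 1) * height k (pt x) = n * height k (pt x) + height k (pt x) := by ring
  rw [h14, h13] at h1
  rw [h15]
  rw [h16] at h8
  rw [h3] at hN2
  linarith

end Pool.Agent.J4.H5.VJ
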