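import Pool.Agent.J4.H5.VJ.Defs4
import Pool.Agent.Helper259.HtExt

/-!
# Project VJ, the height half of the piece NSX
-/

set_option autoImplicit false

open MvPolynomial NumberField IsDedekindDomain Module

namespace Pool.Agent.J4.H5.VJ
namespace NSB

/-- heights and linear maps -/
theorem heightI_lin {k L : Type} [Field k] [NumberField k] [Field L] [NumberField L] [Algebra k L]
    {I J : Type} [Fintype I] [Fintype J] (A : I × J → k) (w : J → L) :
    heightI k (fun i : I => ∑ j, algebraMap k L (A (i, j)) * w j) ≤ heightI k w +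
      (finrank ℚ k * Real.log (Nat.card J) + Height.logHeight A) := by
  have hd : (0 : ℝ) < finrank k L := by exact_mod_cast finrank_pos
  have : FiniteDimensional k L := Module.Finite.of_restrictScalars_finite ℚ k L
  have h1 := Height.logHeight_linearMap_apply_le (fun p : I × J => algebraMap k L (A p)) w
  have h2 := Pool.Agent.Helper259.HtExt.logHeight_ext (K := k) (L := L) A
  have h3 : (Height.totalWeight L : ℝ) = finrank k L * finrank ℚ k := by
    rw [NumberField.totalWeight_eq_finrank, ← finrank_mul_finrank ℚ k L]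
    push_cast
    ring
  rw [h2, h3] at h1
  unfold heightI
  rw [div_le_iff₀ hd, add_mul, div_mul_cancel₀ _ hd.ne']
  refine h1.trans (le_of_eq ?_)
  ring

/-- monomials as words -/
theorem word {σ : Type} (D : ℕ) (a : σ →₀ ℕ) (h : a.degree = D) : ∃ p : Fin D → σ,
    ∀ (L : Type) [Field L] (x : σ → L), ∏ i, x (p i) = a.prod fun i k => x i ^ k := by
  classical
  obtain ⟨l, hl⟩ : ∃ l : List σ, (l : Multiset σ) = Finsupp.toMultiset a :=
    Quot.exists_rep (Finsupp.toMultiset a)
  have h1 : l.length = D := by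
    have h2 := Finsupp.card_toMultiset a
    rw [← hl, Multiset.coe_card] at h2
    rw [h2, ← h]
    rfl
  subst h1
  refine ⟨fun i => l.get i, fun L _ x => ?_⟩
  have h3 : ∏ i : Fin l.length, x (l.get i) = (l.map x).prod := by
    simp [List.get_eq_getElem]
  rw [h3, ← Multiset.prod_coe, ← Multiset.map_coe, hl, Finsupp.toMultiset_map,
    Finsupp.prod_toMultiset, Finsupp.prod_mapDomain_index]
  · intro b
    simp
  · intro b m₁ m₂
    exact pow_add _ _ _

/-- **the height half**: from the identities of the Nullstellensatz to the inequality -/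
theorem nsb (k : Type) [Field k] [NumberField k] (n s N : ℕ) (hN : 1 ≤ N) (hs : s ≤ N)
    (M : Type) [Fintype M] (a : M → Fin (n + 1) →₀ ℕ) (e : M → (Fin s → Fin (n + 1)) →₀ ℕ)
    (ha : ∀ μ, (a μ).degree = N - s) (he : ∀ μ, (e μ).degree = N - 1)
    (A : Fin (n + 1) → (Fin s → Fin (n + 1)) → (Fin s → Fin (n + 1)) → M → k) :
    ∃ c : ℝ, ∀ (L : Type) [Field L] [NumberField L] [Algebra k L] (x : Fin (n + 1) → L)
      (v : (Fin s → Fin (n + 1)) → L), x ≠ 0 → v ≠ 0 →
      (∀ l b', x l ^ N * v b' ^ N = ∑ b, ∑ μ, algebraMap k L (A l b' b μ) *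
        (((∏ j, x (b j)) * v b) *
          ((a μ).prod (fun i m => x i ^ m) * (e μ).prod (fun i m => v i ^ m)))) →
      heightI k v + s * height k x ≤
        heightI k (fun b : Fin s → Fin (n + 1) => (∏ j, x (b j)) * v b) + c := by
  classical
  choose pa hpa using fun μ => word (N - s) (a μ) (ha μ)
  choose pe hpe using fun μ => word (N - 1) (e μ) (he μ)
  let A' : (Fin (n + 1) × (Fin s → Fin (n + 1))) × ((Fin s → Fin (n + 1)) × M) → k :=
    fun p => A p.1.1 p.1.2 p.2.1 p.2.2
  refine ⟨finrank ℚ k * Real.log (Nat.card ((Fin s → Fin (n + 1)) × M)) +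
    Height.logHeight A', fun L _ _ _ x v hx hv hid => ?_⟩
  have hd : (0 : ℝ) < finrank k L := by
    have : FiniteDimensional k L := Module.Finite.of_restrictScalars_finite ℚ k L
    exact_mod_cast finrank_pos
  set u : (Fin s → Fin (n + 1)) → L := fun b => (∏ j, x (b j)) * v b with hu
  have hu0 : u ≠ 0 := by
    intro h0
    obtain ⟨l, hl⟩ := Function.ne_iff.1 hx
    obtain ⟨b', hb'⟩ := Function.ne_iff.1 hv
    have h1 := hid l b'
    have h2 : ∀ b, (∏ j, x (b j)) * v b = 0 := fun b => congrFun h0 b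
    simp only [h2, zero_mul, mul_zero, Finset.sum_const_zero] at h1
    exact (mul_ne_zero (pow_ne_zero _ hl) (pow_ne_zero _ hb')) h1
  -- the big vector
  let wx : (Fin (N - s) → Fin (n + 1)) → L := fun p => ∏ i, x (p i)
  let wv : (Fin (N - 1) → (Fin s → Fin (n + 1))) → L := fun p => ∏ i, v (p i)
  have hwx : Height.logHeight wx = (N - s : ℕ) * Height.logHeight x := by
    have := Height.logHeight_fun_prod_eq (α := Fin (N - s)) (x := fun _ => x) (fun _ => hx)
    simp only [Finset.sum_const, Finset.card_univ, Fintype.card_fin, nsmul_eq_mul] at this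
    exact this
  have hwv : Height.logHeight wv = (N - 1 : ℕ) * Height.logHeight v := by
    have := Height.logHeight_fun_prod_eq (α := Fin (N - 1)) (x := fun _ => v) (fun _ => hv)
    simp only [Finset.sum_const, Finset.card_univ, Fintype.card_fin, nsmul_eq_mul] at this
    exact this
  have hwx0 : wx ≠ 0 := by
    obtain ⟨l, hl⟩ := Function.ne_iff.1 hx
    exact Function.ne_iff.2 ⟨fun _ => l, Finset.prod_ne_zero_iff.2 fun _ _ => hl⟩
  have hwv0 : wv ≠ 0 := by
    obtain ⟨l, hl⟩ := Function.ne_iff.1 hv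
    exact Function.ne_iff.2 ⟨fun _ => l, Finset.prod_ne_zero_iff.2 fun _ _ => hl⟩
  let w2 : (Fin (N - s) → Fin (n + 1)) × (Fin (N - 1) → (Fin s → Fin (n + 1))) → L :=
    fun m => wx m.1 * wv m.2
  have hw2 : Height.logHeight w2 = (N - s : ℕ) * Height.logHeight x +
      (N - 1 : ℕ) * Height.logHeight v := by
    have := Height.logHeight_fun_mul_eq hwx0 hwv0
    rw [hwx, hwv] at this
    exact this
  have hw20 : w2 ≠ 0 := by
    obtain ⟨l, hl⟩ := Function.ne_iff.1 hwx0
    obtain ⟨l', hl'⟩ := Function.ne_iff.1 hwv0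
    exact Function.ne_iff.2 ⟨(l, l'), mul_ne_zero hl hl'⟩
  have hW := Height.logHeight_fun_mul_eq hu0 hw20
  let w : (Fin s → Fin (n + 1)) × M → L := fun m => u m.1 *
    ((a m.2).prod (fun i m => x i ^ m) * (e m.2).prod (fun i m => v i ^ m))
  have hw : Height.logHeight w ≤ Height.logHeight u + Height.logHeight w2 := by
    rw [← hW]
    have h1 := Height.logHeight_comp_le (K := L)
      (fun m : (Fin s → Fin (n + 1)) × M => (m.1, (pa m.2, pe m.2)))
      (fun p : (Fin s → Fin (n + 1)) × ((Fin (N - s) → Fin (n + 1)) ×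
        (Fin (N - 1) → (Fin s → Fin (n + 1)))) => u p.1 * w2 p.2)
    refine le_trans (le_of_eq ?_) h1
    congr 1
    funext m
    show u m.1 * _ = u m.1 * ((∏ i, x (pa m.2 i)) * ∏ i, v (pe m.2 i))
    rw [hpa m.2 L x, hpe m.2 L v]
  -- the powers
  have hz : Height.logHeight (fun p : Fin (n + 1) × (Fin s → Fin (n + 1)) =>
      x p.1 ^ N * v p.2 ^ N) = N * Height.logHeight x + N * Height.logHeight v := by
    have hxN : (x ^ N) ≠ 0 := by
      obtain ⟨l, hl⟩ := Function.ne_iff.1 hx
      exact Function.ne_iff.2 ⟨l, pow_ne_zero _ hl⟩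
    have hvN : (v ^ N) ≠ 0 := by
      obtain ⟨l, hl⟩ := Function.ne_iff.1 hv
      exact Function.ne_iff.2 ⟨l, pow_ne_zero _ hl⟩
    have := Height.logHeight_fun_mul_eq hxN hvN
    rw [Height.logHeight_pow, Height.logHeight_pow] at this
    exact this
  have hlin := heightI_lin (L := L) A' w
  have hsum : (fun p : Fin (n + 1) × (Fin s → Fin (n + 1)) =>
      ∑ j, algebraMap k L (A' (p, j)) * w j) = fun p => x p.1 ^ N * v p.2 ^ N := by
    funext p
    rw [hid p.1 p.2, Fintype.sum_prod_type]
  rw [hsum] at hlin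
  unfold heightI at hlin ⊢
  unfold height
  rw [hz] at hlin
  rw [hw2] at hw
  have c1 : ((N - s : ℕ) : ℝ) = N - s := by rw [Nat.cast_sub hs]
  have c2 : ((N - 1 : ℕ) : ℝ) = N - 1 := by rw [Nat.cast_sub hN]; simp
  rw [c1, c2] at hw
  have hdiv : Height.logHeight w / (finrank k L : ℝ) ≤ (Height.logHeight u +
      ((N - s) * Height.logHeight x + (N - 1) * Height.logHeight v)) / finrank k L :=
    div_le_div_of_nonneg_right hw hd.le
  have e1 : (Height.logHeight u + (((N : ℝ) - s) * Height.logHeight x +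
      ((N : ℝ) - 1) * Height.logHeight v)) / (finrank k L : ℝ) =
      Height.logHeight u / finrank k L + ((N : ℝ) - s) * (Height.logHeight x / finrank k L) +
      ((N : ℝ) - 1) * (Height.logHeight v / finrank k L) := by ring
  have e2 : ((N : ℝ) * Height.logHeight x + N * Height.logHeight v) / (finrank k L : ℝ) =
      N * (Height.logHeight x / finrank k L) + N * (Height.logHeight v / finrank k L) := by ring
  rw [e1] at hdiv
  rw [e2] at hlin
  linarith

end NSB
end Pool.Agent.J4.H5.VJ
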