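import Pool.Agent.J4.H5.VJ.Defs4

set_option autoImplicit false

open MvPolynomial NumberField IsDedekindDomain Module

namespace Pool.Agent.J4.H5.VJ

/-- CHART: affine Nullstellensatz -/
def S_CHART : Prop := ∀ (k : Type) [Field k] [NumberField k] (n t u s : ℕ)
  (f : Fin t → MvPolynomial (Fin (n + 1)) k) (G : Fin u → MvPolynomial (Fin (n + 1)) k)
  (d : Fin t → ℕ), (∀ i, (f i).IsHomogeneous (d i)) → IsTransV s f G →
  ∀ (l : Fin (n + 1)) (b₀ : Fin s → Fin (n + 1)),
  ∃ Q : (Fin s → Fin (n + 1)) → MvPolynomial (Fin (n + 1) ⊕ (Fin s → Fin (n + 1))) k,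
    ∀ (L : Type) [Field L] [Algebra k L] (x : Fin (n + 1) → L) (v : (Fin s → Fin (n + 1)) → L),
      x l = 1 → v b₀ = 1 → (∀ i, aeval x (f i) = 0) →
      (∀ (α : Fin s → Fin t) (b b' : Fin s → Fin (n + 1)),
        gaussRow f α x b * v b' = gaussRow f α x b' * v b) →
      ∑ b, aeval (Sum.elim x v) (Q b) * ((∏ j, x (b j)) * v b) = 1

/-- PROP: all rows of minors are proportional on `X` -/
def S_PROP : Prop := ∀ (k : Type) [Field k] [NumberField k] (n t u s : ℕ)
  (f : Fin t → MvPolynomial (Fin (n + 1)) k) (G : Fin u → MvPolynomial (Fin (n + 1)) k),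
  IsTransV s f G →
  ∀ (L : Type) [Field L] [Algebra k L] (x : Fin (n + 1) → L), x ≠ 0 →
    (∀ i, aeval x (f i) = 0) → ∀ (α α' : Fin s → Fin t) (b b' : Fin s → Fin (n + 1)),
      gaussRow f α x b * gaussRow f α' x b' = gaussRow f α x b' * gaussRow f α' x b

end Pool.Agent.J4.H5.VJ
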