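import Pool.Agent.J4.H5.VJ.Defs4
import Pool.Agent.Helper259.HtExt

/-! Part A of piece NSX (helper66): uniform bounds for the heights of the values of forms. -/

set_option autoImplicit false

open MvPolynomial NumberField IsDedekindDomain Module

namespace Pool.Agent.J4.H5.VJ.NSXA

theorem mono_prod {σ : Type} (D : ℕ) : ∀ m : σ →₀ ℕ, m.degree = D → ∃ β : Fin D → σ,
    ∀ (R : Type) [CommSemiring R] (x : σ → R), (m.prod fun i e => x i ^ e) = ∏ j, x (β j) := by
  classical
  induction D with
  | zero =>
    intro m hm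
    refine ⟨Fin.elim0, fun R _ x => ?_⟩
    rw [Finsupp.degree_eq_zero_iff] at hm
    rw [hm]
    simp
  | succ D ih =>
    intro m hm
    have hm0 : m ≠ 0 := by
      rintro rfl
      simp at hm
    obtain ⟨i, hi⟩ := Finsupp.ne_iff.1 hm0
    have hi : m i ≠ 0 := by simpa using hi
    have hle : Finsupp.single i 1 ≤ m := by
      rw [Finsupp.single_le_iff]
      omega
    have hadd : Finsupp.single i 1 + (m - Finsupp.single i 1) = m := add_tsub_cancel_of_le hle
    have hdeg : (m - Finsupp.single i 1).degree = D := by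
      have h := congrArg Finsupp.degree hadd
      rw [map_add, Finsupp.degree_single, hm] at h
      omega
    obtain ⟨β, hβ⟩ := ih _ hdeg
    refine ⟨Fin.cons i β, fun R _ x => ?_⟩
    rw [Fin.prod_univ_succ]
    simp only [Fin.cons_zero, Fin.cons_succ]
    rw [← hβ R x]
    conv_lhs => rw [← hadd]
    have h1 : ((Finsupp.single i 1).prod fun i e => x i ^ e) = x i := by
      rw [Finsupp.prod_single_index]
      · exact pow_one _
      · exact pow_zero _
    rw [Finsupp.prod_add_index' (fun _ => pow_zero _) (fun _ _ _ => pow_add _ _ _)]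
    exact congrArg (· * _) h1

theorem lh_mono {L : Type} [Field L] [NumberField L] {n D : ℕ} {S : Type} [Finite S]
    (m : S → (Fin (n + 1) →₀ ℕ)) (hm : ∀ s, (m s).degree = D) (x : Fin (n + 1) → L) (hx : x ≠ 0) :
    Height.logHeight (fun s => (m s).prod fun i e => x i ^ e) ≤ D * Height.logHeight x := by
  choose β hβ using fun s => mono_prod D (m s) (hm s)
  have h1 : (fun s => (m s).prod fun i e => x i ^ e) =
      (fun I : Fin D → Fin (n + 1) => ∏ j, x (I j)) ∘ β := by
    funext s
    exact hβ s L x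
  rw [h1]
  refine (Height.logHeight_comp_le _ _).trans ?_
  rw [Height.logHeight_fun_prod_eq (x := fun _ : Fin D => x) (fun _ => hx)]
  simp

/-- upper bound, uniform in `L` -/
theorem up {k : Type} [Field k] [NumberField k] {κ : Type} [Finite κ] {n D : ℕ}
    (P : κ → MvPolynomial (Fin (n + 1)) k) (hP : ∀ j, (P j).IsHomogeneous D) :
    ∃ c : ℝ, ∀ (L : Type) [Field L] [NumberField L] [Algebra k L] (x : Fin (n + 1) → L), x ≠ 0 →
      heightI k (fun j => aeval x (P j)) ≤ D * height k x + c := by
  classical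
  have := Fintype.ofFinite κ
  set S : Finset (Fin (n + 1) →₀ ℕ) := Finset.univ.biUnion fun j => (P j).support with hS
  have hdeg : ∀ m : S, (m : Fin (n + 1) →₀ ℕ).degree = D := by
    rintro ⟨m, hm⟩
    rw [hS, Finset.mem_biUnion] at hm
    obtain ⟨j, _, hj⟩ := hm
    have := hP j (mem_support_iff.1 hj)
    rw [← this, Finsupp.degree_eq_weight_one]
    rfl
  refine ⟨finrank ℚ k * Real.log (Nat.card S) + Height.logHeight (fun p : κ × S =>
    coeff (p.2 : Fin (n + 1) →₀ ℕ) (P p.1)), ?_⟩
  intro L _ _ _ x hx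
  have hd : (0 : ℝ) < finrank k L := by exact_mod_cast finrank_pos
  have : FiniteDimensional k L := Module.Finite.of_restrictScalars_finite ℚ k L
  have h1 := Height.logHeight_linearMap_apply_le
    (fun p : κ × S => algebraMap k L (coeff (p.2 : Fin (n + 1) →₀ ℕ) (P p.1)))
    (fun m : S => (m : Fin (n + 1) →₀ ℕ).prod fun i e => x i ^ e)
  have h2 := Pool.Agent.Helper259.HtExt.logHeight_ext (K := k) (L := L)
    (fun p : κ × S => coeff (p.2 : Fin (n + 1) →₀ ℕ) (P p.1))
  have h3 : (Height.totalWeight L : ℝ) = finrank k L * finrank ℚ k := by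
    rw [NumberField.totalWeight_eq_finrank, ← finrank_mul_finrank ℚ k L]
    push_cast
    ring
  have h4 : (fun j => aeval x (P j)) = fun j => ∑ m : S,
      algebraMap k L (coeff (m : Fin (n + 1) →₀ ℕ) (P j)) *
        (m : Fin (n + 1) →₀ ℕ).prod fun i e => x i ^ e := by
    funext j
    rw [aeval_def, eval₂_eq, Finset.sum_coe_sort S (fun m : Fin (n + 1) →₀ ℕ =>
      algebraMap k L (coeff m (P j)) * m.prod fun i e => x i ^ e)]
    refine (Finset.sum_subset (Finset.subset_biUnion_of_mem (fun j => (P j).support)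
      (Finset.mem_univ j)) ?_)
    intro m _ hm
    rw [notMem_support_iff.1 hm, map_zero, zero_mul]
  have h5 := lh_mono (fun m : S => (m : Fin (n + 1) →₀ ℕ)) hdeg x hx
  rw [h2, h3, ← h4] at h1
  unfold heightI height
  rw [div_le_iff₀ hd, add_mul, mul_assoc, div_mul_cancel₀ _ hd.ne']
  linarith

/-- lower bound from a certificate, uniform in `L` -/
theorem low {k : Type} [Field k] [NumberField k] {κ : Type} [Fintype κ] {n D M : ℕ}
    (F : κ → MvPolynomial (Fin (n + 1)) k) (q : Fin (n + 1) × κ → MvPolynomial (Fin (n + 1)) k)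
    (hq : ∀ p, (q p).IsHomogeneous M) :
    ∃ c : ℝ, ∀ (L : Type) [Field L] [NumberField L] [Algebra k L] (x : Fin (n + 1) → L), x ≠ 0 →
      (∀ l, ∑ j, aeval x (q (l, j)) * aeval x (F j) = x l ^ (M + D)) →
      D * height k x ≤ heightI k (fun j => aeval x (F j)) + c := by
  obtain ⟨c, hc⟩ := up q hq
  refine ⟨finrank ℚ k * Real.log (Nat.card κ) + c, ?_⟩
  intro L _ _ _ x hx h
  have hd : (0 : ℝ) < finrank k L := by exact_mod_cast finrank_pos
  have : FiniteDimensional k L := Module.Finite.of_restrictScalars_finite ℚ k L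
  have h1 := Height.logHeight_linearMap_apply_le
    (fun p : Fin (n + 1) × κ => aeval x (q p)) (fun j => aeval x (F j))
  have h2 : (fun l => ∑ j, aeval x (q (l, j)) * aeval x (F j)) = x ^ (M + D) := by
    funext l
    rw [h l]
    rfl
  rw [h2, Height.logHeight_pow] at h1
  have h3 : (Height.totalWeight L : ℝ) = finrank k L * finrank ℚ k := by
    rw [NumberField.totalWeight_eq_finrank, ← finrank_mul_finrank ℚ k L]
    push_cast
    ring
  have h4 := hc L x hx
  rw [h3] at h1
  unfold heightI height at h4 ⊢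
  rw [div_le_iff₀ hd, add_mul, mul_assoc, div_mul_cancel₀ _ hd.ne'] at h4
  have h5 : (D : ℝ) * (Height.logHeight x / finrank k L) = D * Height.logHeight x / finrank k L := by
    ring
  rw [h5, div_le_iff₀ hd, add_mul, div_mul_cancel₀ _ hd.ne']
  push_cast at h1
  nlinarith [h1, h4]

end Pool.Agent.J4.H5.VJ.NSXA
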