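import Mathlib

set_option autoImplicit false

open MvPolynomial

/-! Part B of piece NSX (helper66): the certificate from the Nullstellensatz. -/

namespace Pool.Agent.J4.H5.VJ.NSXB

/-- homogeneous components of products -/
theorem comp_mul {σ R : Type*} [CommRing R] {a b : MvPolynomial σ R} {d : ℕ}
    (hb : b.IsHomogeneous d) (n : ℕ) :
    homogeneousComponent n (a * b) = if d ≤ n then homogeneousComponent (n - d) a * b else 0 := by
  classical
  have h : a = ∑ i ∈ Finset.range (a.totalDegree + 1), homogeneousComponent i a :=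
    (sum_homogeneousComponent a).symm
  have h1 : homogeneousComponent n (a * b) = ∑ i ∈ Finset.range (a.totalDegree + 1),
      if i + d = n then homogeneousComponent i a * b else 0 := by
    conv_lhs => rw [h, Finset.sum_mul, map_sum]
    refine Finset.sum_congr rfl fun i _ => ?_
    have h2 : (homogeneousComponent i a * b).IsHomogeneous (i + d) :=
      (homogeneousComponent_isHomogeneous i a).mul hb
    rw [homogeneousComponent_of_mem h2]
    by_cases h3 : i + d = n
    · rw [if_pos h3, if_pos h3.symm]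
    · rw [if_neg h3, if_neg (fun h => h3 h.symm)]
  rw [h1]
  split_ifs with hd
  · by_cases h4 : n - d < a.totalDegree + 1
    · rw [Finset.sum_eq_single (n - d)]
      · rw [if_pos (by omega)]
      · intro i _ hi
        rw [if_neg (by omega)]
      · intro h5
        exact absurd (Finset.mem_range.2 h4) h5
    · rw [homogeneousComponent_eq_zero (n - d) a (by omega), zero_mul]
      refine Finset.sum_eq_zero fun i hi => ?_
      rw [Finset.mem_range] at hi
      rw [if_neg (by omega)]
  · refine Finset.sum_eq_zero fun i hi => ?_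
    rw [if_neg (by omega)]

/-- Nullstellensatz, pointwise at prime ideals -/
theorem mem_rad {k : Type} [Field k] {σ : Type} (I : Ideal (MvPolynomial σ k))
    (p : MvPolynomial σ k)
    (h : ∀ (Ω : Type) [Field Ω] [IsAlgClosed Ω] [Algebra k Ω] (z : σ → Ω),
      (∀ q ∈ I, aeval z q = 0) → aeval z p = 0) : p ∈ I.radical := by
  rw [Ideal.radical_eq_sInf, Ideal.mem_sInf]
  intro P hPP
  have hIP : I ≤ P := hPP.1
  have hP : P.IsPrime := hPP.2
  let A := MvPolynomial σ k ⧸ P
  let K := FractionRing A
  let Ω := AlgebraicClosure K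
  have hz : ∀ q : MvPolynomial σ k,
      aeval (fun i => algebraMap K Ω (algebraMap A K (Ideal.Quotient.mk P (X i)))) q =
        algebraMap K Ω (algebraMap A K (Ideal.Quotient.mk P q)) := by
    intro q
    have e : (aeval (fun i => algebraMap K Ω (algebraMap A K (Ideal.Quotient.mk P (X i)))) :
        MvPolynomial σ k →ₐ[k] Ω) =
        ((IsScalarTower.toAlgHom k K Ω).comp (IsScalarTower.toAlgHom k A K)).comp
          (Ideal.Quotient.mkₐ k P) := by
      apply MvPolynomial.algHom_ext
      intro i
      rw [aeval_X]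
      rfl
    rw [e]
    rfl
  have h1 := h Ω (fun i => algebraMap K Ω (algebraMap A K (Ideal.Quotient.mk P (X i)))) (by
    intro q hq
    rw [hz, Ideal.Quotient.eq_zero_iff_mem.2 (hIP hq), map_zero, map_zero])
  rw [hz] at h1
  have h2 : algebraMap A K (Ideal.Quotient.mk P p) = 0 :=
    (algebraMap K Ω).injective (by rw [h1, map_zero])
  have h3 : (Ideal.Quotient.mk P p : A) = 0 :=
    IsFractionRing.injective A K (by rw [h2, map_zero])
  exact Ideal.Quotient.eq_zero_iff_mem.1 h3

/-- the certificate -/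
theorem cert {k : Type} [Field k] {n t D : ℕ} {κ : Type} [Fintype κ]
    (f : Fin t → MvPolynomial (Fin (n + 1)) k) (d : Fin t → ℕ) (hf : ∀ i, (f i).IsHomogeneous (d i))
    (F : κ → MvPolynomial (Fin (n + 1)) k) (hF : ∀ j, (F j).IsHomogeneous D)
    (h : ∀ (Ω : Type) [Field Ω] [IsAlgClosed Ω] [Algebra k Ω] (z : Fin (n + 1) → Ω), z ≠ 0 →
      (∀ i, aeval z (f i) = 0) → ∃ j, aeval z (F j) ≠ 0) :
    ∃ (M : ℕ) (q : Fin (n + 1) × κ → MvPolynomial (Fin (n + 1)) k), (∀ p, (q p).IsHomogeneous M) ∧
      ∀ (L : Type) [Field L] [Algebra k L] (x : Fin (n + 1) → L), (∀ i, aeval x (f i) = 0) →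
        ∀ l, ∑ j, aeval x (q (l, j)) * aeval x (F j) = x l ^ (M + D) := by
  classical
  set I : Ideal (MvPolynomial (Fin (n + 1)) k) :=
    Ideal.span (Set.range (Sum.elim f F)) with hI
  have h1 : ∀ l, X l ∈ I.radical := by
    intro l
    apply mem_rad
    intro Ω _ _ _ z hz
    rw [aeval_X]
    by_contra hl
    have hz0 : z ≠ 0 := fun h0 => hl (by rw [h0]; rfl)
    obtain ⟨j, hj⟩ := h Ω z hz0 (fun i => hz _ (Ideal.subset_span ⟨Sum.inl i, rfl⟩))
    exact hj (hz _ (Ideal.subset_span ⟨Sum.inr j, rfl⟩))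
  have h2 : ∀ l, ∃ N : ℕ, (X l : MvPolynomial (Fin (n + 1)) k) ^ N ∈ I := fun l => h1 l
  choose N hN using h2
  set M : ℕ := ∑ l, N l with hM
  have h3 : ∀ l, (X l : MvPolynomial (Fin (n + 1)) k) ^ (M + D) ∈ I := by
    intro l
    have : N l ≤ M + D := by
      have := Finset.single_le_sum (f := N) (fun i _ => Nat.zero_le _) (Finset.mem_univ l)
      omega
    obtain ⟨c, hc⟩ := Nat.exists_eq_add_of_le this
    rw [hc, pow_add]
    exact I.mul_mem_right _ (hN l)
  have h4 : ∀ l, ∃ c : Fin t ⊕ κ → MvPolynomial (Fin (n + 1)) k,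
      ∑ i, c i * Sum.elim f F i = X l ^ (M + D) := by
    intro l
    have := h3 l
    rw [hI, Ideal.mem_span_range_iff_exists_fun] at this
    exact this
  choose c hc using h4
  refine ⟨M, fun p => homogeneousComponent M (c p.1 (Sum.inr p.2)),
    fun p => homogeneousComponent_isHomogeneous _ _, ?_⟩
  intro L _ _ x hx l
  have h5 := congrArg (homogeneousComponent (M + D)) (hc l)
  rw [map_sum, Fintype.sum_sum_type] at h5
  simp only [Sum.elim_inl, Sum.elim_inr] at h5
  have h6 : homogeneousComponent (M + D) (X l ^ (M + D) : MvPolynomial (Fin (n + 1)) k) =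
      X l ^ (M + D) := by
    have h7 : (X l ^ (M + D) : MvPolynomial (Fin (n + 1)) k).IsHomogeneous (M + D) :=
      isHomogeneous_X_pow _ _
    rw [homogeneousComponent_of_mem h7, if_pos rfl]
  rw [h6] at h5
  have h8 := congrArg (aeval x) h5
  rw [map_add, map_sum, map_sum, map_pow, aeval_X] at h8
  have h9 : ∑ i, aeval x (homogeneousComponent (M + D) (c l (Sum.inl i) * f i)) = 0 := by
    refine Finset.sum_eq_zero fun i _ => ?_
    rw [comp_mul (hf i)]
    split_ifs
    · rw [map_mul, hx, mul_zero]
    · rw [map_zero]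
  rw [h9, zero_add] at h8
  rw [← h8]
  refine Finset.sum_congr rfl fun j _ => ?_
  rw [comp_mul (hF j), if_pos (by omega), map_mul, Nat.add_sub_cancel]

end Pool.Agent.J4.H5.VJ.NSXB
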