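import Pool.Agent.J4.H5.VJ.Defs4

/-!
# Project VJ (helper5), piece NSX, part C (helper76): the rows of the minors are proportional, and
some minor with nonzero coordinates does not vanish
-/

set_option autoImplicit false

open MvPolynomial Module

namespace Pool.Agent.J4.H5.VJ

namespace NSXC

theorem exists_minor {K : Type} [Field K] {s : ℕ} {ι : Type} [Finite ι] (M : Fin s → ι → K)
    (h : ∀ a : Fin s → K, (∀ l, ∑ i, a i * M i l = 0) → a = 0) :
    ∃ β : Fin s → ι, (Matrix.of fun i j => M i (β j)).det ≠ 0 := by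
  classical
  set v : ι → (Fin s → K) := fun l i => M i l with hv
  have htop : Submodule.span K (Set.range v) = ⊤ := by
    by_contra hne
    obtain ⟨φ, hφ, hle⟩ := Submodule.exists_le_ker_of_lt_top _ (lt_top_iff_ne_top.2 hne)
    apply hφ
    have ha := h (fun i => φ (Pi.single i 1)) (by
      intro l
      have h1 : φ (v l) = 0 := hle (Submodule.subset_span ⟨l, rfl⟩)
      rw [← Finset.univ_sum_single (v l), map_sum] at h1
      rw [← h1]
      refine Finset.sum_congr rfl fun i _ => ?_
      have : (Pi.single i (v l i) : Fin s → K) = v l i • Pi.single i 1 := by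
        rw [← Pi.single_smul, smul_eq_mul, mul_one]
      rw [this, map_smul, smul_eq_mul, mul_comm])
    refine LinearMap.pi_ext' fun i => ?_
    refine LinearMap.ext_ring ?_
    simpa using congrFun ha i
  obtain ⟨w, hw1, -, hw3⟩ := Submodule.exists_fun_fin_finrank_span_eq K (Set.range v)
  have hfin : Module.finrank K (Submodule.span K (Set.range v)) = s := by
    rw [htop, finrank_top, Module.finrank_fin_fun]
  choose β' hβ' using hw1
  refine ⟨fun j => β' (Fin.cast hfin.symm j), ?_⟩
  have hli : LinearIndependent K fun j : Fin s => v (β' (Fin.cast hfin.symm j)) := by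
    simp only [hβ']
    exact hw3.comp _ (Fin.cast_injective _)
  have h2 : IsUnit (Matrix.of fun (i j : Fin s) => M i (β' (Fin.cast hfin.symm j))) := by
    rw [← Matrix.linearIndependent_cols_iff_isUnit]
    exact hli
  rw [Matrix.isUnit_iff_isUnit_det] at h2
  exact h2.ne_zero

/-- the gradient of a form which is locally in the ideal of others -/
theorem grad_mem {C Ω : Type} [Field C] [Field Ω] [Algebra C Ω] {n s : ℕ}
    (g : Fin s → MvPolynomial (Fin (n + 1)) C) (F a : MvPolynomial (Fin (n + 1)) C)
    (z : Fin (n + 1) → Ω) (ha : aeval z a ≠ 0) (hF : aeval z F = 0) (hg : ∀ j, aeval z (g j) = 0)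
    (h : a * F ∈ Ideal.span (Set.range g)) :
    ∃ c : Fin s → Ω, ∀ l, aeval z (pderiv l F) = ∑ j, c j * aeval z (pderiv l (g j)) := by
  obtain ⟨q, hq⟩ := (Ideal.mem_span_range_iff_exists_fun).1 h
  refine ⟨fun j => aeval z (q j) / aeval z a, fun l => ?_⟩
  have h1 := congrArg (fun P => aeval z (pderiv l P)) hq
  simp only [map_sum, Derivation.leibniz, smul_eq_mul, map_add, map_mul, hF, hg, mul_zero,
    zero_mul, add_zero] at h1
  have h2 : ∑ j, aeval z (q j) / aeval z a * aeval z (pderiv l (g j)) =
      (∑ j, aeval z (q j) * aeval z (pderiv l (g j))) / aeval z a := by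
    rw [Finset.sum_div]
    exact Finset.sum_congr rfl fun j _ => by ring
  rw [h2, eq_div_iff ha, h1, mul_comm]

/-- over fields which contain an algebraic closure of `k` -/
theorem core {k : Type} [Field k] {n t u s : ℕ} (f : Fin t → MvPolynomial (Fin (n + 1)) k)
    (G : Fin u → MvPolynomial (Fin (n + 1)) k) (hT : IsTransV s f G) (Ω : Type) [Field Ω]
    [Algebra k Ω] [Algebra (AlgebraicClosure k) Ω] [IsScalarTower k (AlgebraicClosure k) Ω]
    (z : Fin (n + 1) → Ω) (hz : z ≠ 0) (h : ∀ i, aeval z (f i) = 0) :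
    (∀ (α α' : Fin s → Fin t) (β β' : Fin s → Fin (n + 1)),
      gaussRow f α z β * gaussRow f α' z β' = gaussRow f α z β' * gaussRow f α' z β) ∧
    ∃ (α : Fin s → Fin t) (β : Fin s → Fin (n + 1)), (∀ j, z (β j) ≠ 0) ∧
      gaussRow f α z β ≠ 0 := by
  obtain ⟨-, q, v, d, H, -, hH⟩ := hT
  have hmap : ∀ P : MvPolynomial (Fin (n + 1)) k,
      aeval z (P.map (algebraMap k (AlgebraicClosure k))) = aeval z P := fun P =>
    MvPolynomial.aeval_map_algebraMap _ _ _
  obtain ⟨α₀, ι, ⟨a, ha, hf, -, -, -⟩, hind⟩ := hH Ω z hz (fun i => by rw [hmap, h i])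
  have hpd : ∀ (l : Fin (n + 1)) (P : MvPolynomial (Fin (n + 1)) k),
      aeval z (pderiv l (P.map (algebraMap k (AlgebraicClosure k)))) = aeval z (pderiv l P) := by
    intro l P
    rw [pderiv_map, hmap]
  -- the gradients
  have hgrad : ∀ i, ∃ c : Fin s → Ω, ∀ l, aeval z (pderiv l (f i)) =
      ∑ j, c j * aeval z (pderiv l (f (α₀ j))) := by
    intro i
    obtain ⟨c, hc⟩ := grad_mem (fun j => (f (α₀ j)).map (algebraMap k (AlgebraicClosure k)))
      ((f i).map (algebraMap k (AlgebraicClosure k))) a z ha (by rw [hmap, h i])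
      (fun j => by rw [hmap, h]) (hf i)
    refine ⟨c, fun l => ?_⟩
    have := hc l
    simpa only [hpd] using this
  choose c hc using hgrad
  have hrow : ∀ α : Fin s → Fin t, ∀ β, gaussRow f α z β =
      (Matrix.of fun i j => c (α i) j).det * gaussRow f α₀ z β := by
    intro α β
    unfold gaussRow
    rw [← Matrix.det_mul]
    congr 1
    ext i j
    rw [Matrix.mul_apply]
    simp only [Matrix.of_apply]
    exact hc (α i) (β j)
  refine ⟨fun α α' β β' => ?_, ?_⟩
  · rw [hrow α β, hrow α' β', hrow α β', hrow α' β]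
    ring
  · obtain ⟨β, hβ⟩ := exists_minor (s := s) (ι := {l : Fin (n + 1) // z l ≠ 0})
      (fun i l => aeval z (pderiv l.1 (f (α₀ i)))) (by
        intro a ha0
        have h1 := (hind a 0 (fun l => -∑ i, a i * aeval z (pderiv l (f (α₀ i))))
          (by intro j hj; exact absurd rfl hj) (by
            intro l hl
            by_contra hzl
            apply hl
            rw [ha0 ⟨l, hzl⟩, neg_zero]) (by
            intro l
            simp only [hpd, Pi.zero_apply, zero_mul, Finset.sum_const_zero, add_zero]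
            ring)).1
        exact h1)
    exact ⟨α₀, fun j => (β j).1, fun j => (β j).2, hβ⟩

/-- the rows of the minors are proportional at the points of `X`, and some minor with nonzero
coordinates does not vanish; over arbitrary extension fields of `k` -/
theorem main {k : Type} [Field k] {n t u s : ℕ} (f : Fin t → MvPolynomial (Fin (n + 1)) k)
    (G : Fin u → MvPolynomial (Fin (n + 1)) k) (hT : IsTransV s f G) (Ω : Type) [Field Ω]
    [Algebra k Ω] (z : Fin (n + 1) → Ω) (hz : z ≠ 0) (h : ∀ i, aeval z (f i) = 0) :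
    (∀ (α α' : Fin s → Fin t) (β β' : Fin s → Fin (n + 1)),
      gaussRow f α z β * gaussRow f α' z β' = gaussRow f α z β' * gaussRow f α' z β) ∧
    ∃ (α : Fin s → Fin t) (β : Fin s → Fin (n + 1)), (∀ j, z (β j) ≠ 0) ∧
      gaussRow f α z β ≠ 0 := by
  let φ : AlgebraicClosure k →ₐ[k] AlgebraicClosure Ω := IsAlgClosed.lift
  letI : Algebra (AlgebraicClosure k) (AlgebraicClosure Ω) := φ.toRingHom.toAlgebra
  haveI : IsScalarTower k (AlgebraicClosure k) (AlgebraicClosure Ω) :=
    IsScalarTower.of_algebraMap_eq fun x => (φ.commutes x).symm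
  set z' : Fin (n + 1) → AlgebraicClosure Ω := fun i => algebraMap Ω (AlgebraicClosure Ω) (z i)
    with hz'
  have hinj : Function.Injective (algebraMap Ω (AlgebraicClosure Ω)) :=
    (algebraMap Ω (AlgebraicClosure Ω)).injective
  have hae : ∀ P : MvPolynomial (Fin (n + 1)) k,
      aeval z' P = algebraMap Ω (AlgebraicClosure Ω) (aeval z P) := fun P =>
    aeval_algebraMap_apply _ _ _
  have hrow : ∀ α β, gaussRow f α z' β =
      algebraMap Ω (AlgebraicClosure Ω) (gaussRow f (s := s) α z β) := by
    intro α β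
    unfold gaussRow
    rw [RingHom.map_det]
    congr 1
    ext i j
    simp only [Matrix.of_apply, RingHom.mapMatrix_apply, Matrix.map_apply, hae]
  have hz0 : z' ≠ 0 := by
    obtain ⟨i, hi⟩ := Function.ne_iff.1 hz
    intro h0
    apply hi
    have := congrFun h0 i
    simpa [hz'] using this
  obtain ⟨h1, α, β, h2, h3⟩ := core f G hT (AlgebraicClosure Ω) z' hz0
    (fun i => by rw [hae, h i, map_zero])
  refine ⟨fun α α' β β' => ?_, α, β, fun j hj => h2 j ?_, fun h0 => h3 ?_⟩
  · have := h1 α α' β β'
    simp only [hrow, ← map_mul] at this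
    exact hinj this
  · show algebraMap Ω (AlgebraicClosure Ω) (z (β j)) = 0
    rw [hj, map_zero]
  · rw [hrow, h0, map_zero]

end NSXC

end Pool.Agent.J4.H5.VJ
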