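import Pool.Agent.J4.H5.VJ.Defs4

/-!
# Two lemmas on the rows of minors: no common zeros, proportional rows
-/

set_option autoImplicit false

open MvPolynomial Module

namespace Pool.Agent.J4.H5.VJ.NSXa

/-- A matrix with independent rows has a minor of full size which is not zero. -/
theorem exists_minor {Ω ι : Type} [Field Ω] [Fintype ι] {s : ℕ}
    (M : Matrix (Fin s) ι Ω) (h : ∀ a : Fin s → Ω, (∀ l, ∑ i, a i * M i l = 0) → a = 0) :
    ∃ β : Fin s → ι, (Matrix.of fun i j => M i (β j)).det ≠ 0 := by
  classical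
  by_contra hcon
  push Not at hcon
  have hli : LinearIndependent Ω M.row := by
    rw [Fintype.linearIndependent_iff]
    intro g hg
    have h1 := h g (fun l => by
      have := congrFun hg l
      simpa [Finset.sum_apply, Matrix.row] using this)
    intro i
    rw [h1]; rfl
  have hrk : M.rank = s := by simpa using hli.rank_matrix
  have hsurj : ∀ y : Fin s → Ω, ∃ x : ι → Ω, M.mulVec x = y := by
    have h1 : LinearMap.range M.mulVecLin = ⊤ := by
      apply Submodule.eq_top_of_finrank_eq
      rw [Module.finrank_fin_fun]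
      exact hrk
    intro y
    have h2 : y ∈ LinearMap.range M.mulVecLin := by rw [h1]; trivial
    obtain ⟨x, hx⟩ := h2
    exact ⟨x, hx⟩
  choose Y hY using fun j : Fin s => hsurj (Pi.single j 1)
  have h2 : Matrix.det (1 : Matrix (Fin s) (Fin s) Ω) =
      ∑ β : Fin s → ι, Matrix.det (Matrix.of fun j i => Y j (β j) * M i (β j)) := by
    have e : (1 : Matrix (Fin s) (Fin s) Ω) = fun j => ∑ l, (fun i => Y j l * M i l) := by
      funext j i
      have h3 := congrFun (hY j) i
      rw [Finset.sum_apply]
      simp only [Matrix.mulVec, dotProduct] at h3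
      rw [Matrix.one_apply]
      have h4 : (Pi.single j (1 : Ω) : Fin s → Ω) i = if j = i then 1 else 0 := by
        by_cases hji : j = i
        · subst hji; simp
        · rw [if_neg hji, Pi.single_eq_of_ne (Ne.symm hji)]
      rw [← h4, ← h3]
      exact Finset.sum_congr rfl fun l _ => mul_comm _ _
    rw [e]
    exact (Matrix.detRowAlternating (R := Ω) (n := Fin s)).toMultilinearMap.map_sum
      (fun j l => fun i => Y j l * M i l)
  rw [Matrix.det_one] at h2
  have h3 : ∀ β : Fin s → ι, Matrix.det (Matrix.of fun j i => Y j (β j) * M i (β j)) = 0 := by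
    intro β
    have h4 := Matrix.det_mul_column (fun j => Y j (β j)) (Matrix.of fun j i => M i (β j))
    have h5 : (Matrix.of fun j i => M i (β j)).det = 0 := by
      rw [← Matrix.det_transpose]
      exact hcon β
    rw [h5, mul_zero] at h4
    exact h4
  rw [Finset.sum_eq_zero fun β _ => h3 β] at h2
  exact one_ne_zero h2

/-- The common zeros of the forms `x_b v_b` -/
theorem no_zero {k : Type} [Field k] {n t u s : ℕ} {f : Fin t → MvPolynomial (Fin (n + 1)) k}
    {G : Fin u → MvPolynomial (Fin (n + 1)) k} (h : IsTransV s f G) (Ω : Type) [Field Ω]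
    [Algebra (AlgebraicClosure k) Ω] (z : Fin (n + 1) → Ω) (hz : z ≠ 0)
    (hf : ∀ i, aeval z ((f i).map (algebraMap k (AlgebraicClosure k))) = 0)
    (v : (Fin s → Fin (n + 1)) → Ω) (hv : v ≠ 0)
    (hrel : ∀ (a : Fin s → Fin t) (b b2 : Fin s → Fin (n + 1)),
      (Matrix.of fun i j =>
        aeval z (pderiv (b j) ((f (a i)).map (algebraMap k (AlgebraicClosure k))))).det * v b2 =
      (Matrix.of fun i j =>
        aeval z (pderiv (b2 j) ((f (a i)).map (algebraMap k (AlgebraicClosure k))))).det * v b) :
    ∃ b : Fin s → Fin (n + 1), (∏ j, z (b j)) * v b ≠ 0 := by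
  classical
  obtain ⟨-, q, w, d, H, -, hH⟩ := h
  obtain ⟨α, ι, -, hind⟩ := hH Ω z hz hf
  obtain ⟨β, hβ⟩ := exists_minor (ι := {l : Fin (n + 1) // z l ≠ 0}) (Matrix.of fun i l =>
    aeval z (pderiv l.1 ((f (α i)).map (algebraMap k (AlgebraicClosure k))))) (by
    intro a ha
    refine (hind a 0 (fun l => if z l = 0 then
      -∑ i, a i * aeval z (pderiv l ((f (α i)).map (algebraMap k (AlgebraicClosure k)))) else 0)
      (fun j hj => absurd rfl hj) (fun l hl => ?_) (fun l => ?_)).1
    · by_contra h0
      exact hl (if_neg h0)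
    · by_cases h0 : z l = 0
      · simp [h0]
      · have h1 := ha ⟨l, h0⟩
        simp only [Matrix.of_apply] at h1
        simp [h0, h1])
  refine ⟨fun j => (β j).1, mul_ne_zero (Finset.prod_ne_zero_iff.2 fun j _ => (β j).2) ?_⟩
  intro h0
  apply hv
  funext b2
  have h1 := hrel α (fun j => (β j).1) b2
  rw [h0, mul_zero] at h1
  exact (mul_eq_zero.1 h1).resolve_left hβ

/-- The rows of minors are multiples of one of them. -/
theorem rows_mul {k : Type} [Field k] {n t u s : ℕ} {f : Fin t → MvPolynomial (Fin (n + 1)) k}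
    {G : Fin u → MvPolynomial (Fin (n + 1)) k} (h : IsTransV s f G) (Ω : Type) [Field Ω]
    [Algebra (AlgebraicClosure k) Ω] (z : Fin (n + 1) → Ω) (hz : z ≠ 0)
    (hf : ∀ i, aeval z ((f i).map (algebraMap k (AlgebraicClosure k))) = 0) :
    ∃ (α : Fin s → Fin t) (D : (Fin s → Fin t) → Ω), ∀ (a : Fin s → Fin t)
      (b : Fin s → Fin (n + 1)),
      (Matrix.of fun i j =>
        aeval z (pderiv (b j) ((f (a i)).map (algebraMap k (AlgebraicClosure k))))).det =
      D a * (Matrix.of fun i j =>
        aeval z (pderiv (b j) ((f (α i)).map (algebraMap k (AlgebraicClosure k))))).det := by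
  classical
  obtain ⟨-, q, w, d, H, -, hH⟩ := h
  obtain ⟨α, ι, ⟨a₀, ha₀, h1, -⟩, -⟩ := hH Ω z hz hf
  have h2 : ∀ i, ∃ c : Fin s → Ω, ∀ l,
      aeval z (pderiv l ((f i).map (algebraMap k (AlgebraicClosure k)))) = ∑ i', c i' *
        aeval z (pderiv l ((f (α i')).map (algebraMap k (AlgebraicClosure k)))) := by
    intro i
    obtain ⟨c, hc⟩ := Ideal.mem_span_range_iff_exists_fun.1 (h1 i)
    refine ⟨fun i' => aeval z (c i') / aeval z a₀, fun l => ?_⟩
    have h3 := congrArg (fun p => aeval z (pderiv l p)) hc
    simp only [map_sum, pderiv_mul, map_add, map_mul, hf, mul_zero, zero_add] at h3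
    apply mul_left_cancel₀ ha₀
    rw [← h3, Finset.mul_sum]
    refine Finset.sum_congr rfl fun i' _ => ?_
    field_simp
  choose c hc using h2
  refine ⟨α, fun a => (Matrix.of fun i i' => c (a i) i').det, fun a b => ?_⟩
  rw [← Matrix.det_mul]
  congr 1
  ext i j
  rw [Matrix.mul_apply]
  simp only [Matrix.of_apply]
  exact hc (a i) (b j)

/-- The rows of minors are proportional on `X`. -/
theorem rows_prop {k : Type} [Field k] {n t u s : ℕ} {f : Fin t → MvPolynomial (Fin (n + 1)) k}
    {G : Fin u → MvPolynomial (Fin (n + 1)) k} (h : IsTransV s f G) {L : Type} [Field L]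
    [Algebra k L] (x : Fin (n + 1) → L) (hx : x ≠ 0) (hf : ∀ i, aeval x (f i) = 0)
    (α α2 : Fin s → Fin t) (b b2 : Fin s → Fin (n + 1)) :
    gaussRow f α x b * gaussRow f α2 x b2 = gaussRow f α x b2 * gaussRow f α2 x b := by
  classical
  let φ : AlgebraicClosure k →ₐ[k] AlgebraicClosure L := IsAlgClosed.lift
  let _ : Algebra (AlgebraicClosure k) (AlgebraicClosure L) := φ.toRingHom.toAlgebra
  have hev : ∀ p : MvPolynomial (Fin (n + 1)) k,
      aeval (fun l => algebraMap L (AlgebraicClosure L) (x l))
        (p.map (algebraMap k (AlgebraicClosure k))) =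
        algebraMap L (AlgebraicClosure L) (aeval x p) := by
    intro p
    induction p using MvPolynomial.induction_on with
    | C a =>
      rw [map_C, aeval_C, aeval_C]
      change φ (algebraMap k (AlgebraicClosure k) a) = _
      rw [AlgHom.commutes]
      exact IsScalarTower.algebraMap_apply k L (AlgebraicClosure L) a
    | add p q hp hq => rw [map_add, map_add, hp, hq, map_add, map_add]
    | mul_X p i hp => rw [map_mul, map_mul, hp, map_X, aeval_X, map_mul, aeval_X, map_mul]
  have hz : (fun l => algebraMap L (AlgebraicClosure L) (x l)) ≠ 0 := by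
    intro h0
    apply hx
    funext l
    exact (map_eq_zero (algebraMap L (AlgebraicClosure L))).1 (congrFun h0 l)
  obtain ⟨γ, D, hD⟩ := rows_mul h (AlgebraicClosure L) _ hz
    (fun i => by rw [hev, hf, map_zero])
  have hrow : ∀ (a : Fin s → Fin t) (b : Fin s → Fin (n + 1)),
      algebraMap L (AlgebraicClosure L) (gaussRow f a x b) = (Matrix.of fun i j =>
        aeval (fun l => algebraMap L (AlgebraicClosure L) (x l))
          (pderiv (b j) ((f (a i)).map (algebraMap k (AlgebraicClosure k))))).det := by
    intro a b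
    unfold gaussRow
    rw [RingHom.map_det]
    congr 1
    ext i j
    simp only [RingHom.mapMatrix_apply, Matrix.map_apply, Matrix.of_apply]
    rw [pderiv_map, hev]
  apply (algebraMap L (AlgebraicClosure L)).injective
  rw [map_mul, map_mul, hrow, hrow, hrow, hrow, hD α b, hD α2 b2, hD α b2, hD α2 b]
  ring

end Pool.Agent.J4.H5.VJ.NSXa
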