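import Pool.Agent.J4.H5.VJ.Defs2

set_option autoImplicit false

open MvPolynomial

namespace Pool.Agent.J4.H5.VJ

theorem t_BER2 : S_BER2 := by
  intro C σ τ ι _ _ P h
  classical
  let R := MvPolynomial σ C
  let K := FractionRing R
  let I : Ideal (MvPolynomial τ R) := Ideal.span (Set.range P)
  let A := MvPolynomial τ K
  let f : MvPolynomial τ R →+* A := MvPolynomial.map (algebraMap R K)
  have hf : Function.Injective f := MvPolynomial.map_injective _ (IsFractionRing.injective R K)
  -- the ideal generated over the field of fractions is the unit ideal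
  have htop : Ideal.map f I = ⊤ := by
    by_contra hne
    obtain ⟨𝔪, h𝔪, hle⟩ := Ideal.exists_le_maximal _ hne
    let _ : Field (A ⧸ 𝔪) := Ideal.Quotient.field 𝔪
    let q : A →+* A ⧸ 𝔪 := Ideal.Quotient.mk 𝔪
    let g : C →+* A ⧸ 𝔪 := (q.comp (MvPolynomial.C (σ := τ) (R := K))).comp
      ((algebraMap R K).comp (MvPolynomial.C (σ := σ) (R := C)))
    let _ : Algebra C (A ⧸ 𝔪) := g.toAlgebra
    have hK : Function.Injective (q.comp (MvPolynomial.C (σ := τ) (R := K))) :=
      RingHom.injective _
    let a : σ → A ⧸ 𝔪 := fun i => q (MvPolynomial.C (algebraMap R K (X i)))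
    let t : τ → A ⧸ 𝔪 := fun j => q (X j)
    have ha : (aeval a : R →ₐ[C] A ⧸ 𝔪).toRingHom =
        (q.comp (MvPolynomial.C (σ := τ) (R := K))).comp (algebraMap R K) := by
      refine MvPolynomial.ringHom_ext ?_ ?_
      · intro c
        change aeval a (MvPolynomial.C c) = _
        rw [aeval_C]
        rfl
      · intro i
        change aeval a (X i) = _
        rw [aeval_X]
        rfl
    have hind : AlgebraicIndependent C a := by
      have h1 : Function.Injective (aeval a : R →ₐ[C] A ⧸ 𝔪).toRingHom := by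
        rw [ha]
        exact hK.comp (IsFractionRing.injective R K)
      exact h1
    obtain ⟨s, hs⟩ := h (A ⧸ 𝔪) a hind t
    apply hs
    have h2 : (eval₂Hom (aeval a : R →ₐ[C] A ⧸ 𝔪).toRingHom t) = q.comp f := by
      refine MvPolynomial.ringHom_ext ?_ ?_
      · intro c
        rw [ha]
        change eval₂ _ t (MvPolynomial.C c) = q (MvPolynomial.map (algebraMap R K) (MvPolynomial.C c))
        rw [eval₂_C, MvPolynomial.map_C]
        rfl
      · intro i
        change eval₂ _ t (X i) = q (MvPolynomial.map (algebraMap R K) (X i))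
        rw [eval₂_X, MvPolynomial.map_X]
    have h3 : eval₂ (aeval a : R →ₐ[C] A ⧸ 𝔪).toRingHom t (P s) = q (f (P s)) :=
      congrArg (fun φ : MvPolynomial τ R →+* A ⧸ 𝔪 => φ (P s)) h2
    rw [h3]
    exact Ideal.Quotient.eq_zero_iff_mem.2
      (hle (Ideal.mem_map_of_mem f (Ideal.subset_span ⟨s, rfl⟩)))
  -- clear denominators
  let _ : Algebra (MvPolynomial τ R) A := f.toAlgebra
  have : IsLocalization (Submonoid.map (MvPolynomial.C (σ := τ)) (nonZeroDivisors R)) A :=
    MvPolynomial.isLocalization (nonZeroDivisors R) K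
  have h1 : (1 : A) ∈ Ideal.map (algebraMap (MvPolynomial τ R) A) I := by
    change (1 : A) ∈ Ideal.map f I
    rw [htop]
    trivial
  obtain ⟨⟨x, m⟩, hx⟩ := (IsLocalization.mem_map_algebraMap_iff
    (Submonoid.map (MvPolynomial.C (σ := τ)) (nonZeroDivisors R)) A).1 h1
  obtain ⟨δ, hδ, hδm⟩ := m.2
  have hmem : MvPolynomial.C (σ := τ) δ ∈ I := by
    have h2 : f (MvPolynomial.C δ) = f x.1 := by
      have h3 : f (m : MvPolynomial τ R) = f x.1 := by
        rw [one_mul] at hx
        exact hx
      rw [← h3]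
      exact congrArg f hδm
    rw [hf h2]
    exact x.2
  refine ⟨δ, nonZeroDivisors.ne_zero hδ, fun Ω _ _ a hδa t => ?_⟩
  by_contra hcon
  push Not at hcon
  apply hδa
  have h4 : I ≤ RingHom.ker (eval₂Hom (aeval a : R →ₐ[C] Ω).toRingHom t) := by
    refine Ideal.span_le.2 ?_
    rintro _ ⟨s, rfl⟩
    exact hcon s
  have h5 := h4 hmem
  rw [RingHom.mem_ker] at h5
  simpa using h5

end Pool.Agent.J4.H5.VJ
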