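import Pool.Agent.J4.H5.VJ.Defs2

/-! Piece BER3 of project VJ. -/

set_option autoImplicit false

open MvPolynomial

namespace Pool.Agent.J4.H5.VJ

theorem t_BER3 : S_BER3 := by
  intro k C σ _ _ _ _ _ δ hδ
  by_contra hcon
  push Not at hcon
  apply hδ
  refine MvPolynomial.funext_set (fun _ : σ => Set.range (algebraMap k C))
    (fun _ => Set.infinite_range_of_injective (algebraMap k C).injective) ?_
  intro x hx
  choose α hα using fun i => hx i (Set.mem_univ i)
  have h := hcon α
  have e : (fun i => algebraMap k C (α i)) = x := funext hα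
  rw [e] at h
  rw [h, map_zero]

end Pool.Agent.J4.H5.VJ
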