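import Pool.Agent.J4.H5.VJ.T_BER1
import Pool.Agent.J4.H5.VJ.T_BER2
import Pool.Agent.J4.H5.VJ.T_BER3
import Pool.Agent.J4.H5.VJ.T_LINH

/-!
# Bertini's theorem: assembly
-/

set_option autoImplicit false

open MvPolynomial Module

namespace Pool.Agent.J4.H5.VJ

namespace BER

/-- The chain rule for a linear change of the coordinates. -/
theorem pderiv_lin {k : Type} [Field k] {n : ℕ} (g : Matrix (Fin (n + 1)) (Fin (n + 1)) k)
    (H : MvPolynomial (Fin (n + 1)) k) (i : Fin (n + 1)) :
    pderiv i (lin g H) = ∑ l, lin g (pderiv l H) * C (g l i) := by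
  unfold lin
  induction H using MvPolynomial.induction_on with
  | C a => simp
  | add p q hp hq =>
    rw [map_add, map_add, hp, hq, ← Finset.sum_add_distrib]
    refine Finset.sum_congr rfl fun l _ => ?_
    rw [map_add, map_add, add_mul]
  | mul_X p s hp =>
    rw [map_mul, pderiv_mul, hp, bind₁_X_right]
    have h1 : pderiv i (∑ j, C (g s j) * X j : MvPolynomial (Fin (n + 1)) k) = C (g s i) := by
      rw [map_sum]
      rw [Finset.sum_eq_single i]
      · rw [pderiv_C_mul, pderiv_X_self]; simp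
      · intro j _ hj
        rw [pderiv_C_mul, pderiv_X_of_ne hj]; simp
      · intro h; exact absurd (Finset.mem_univ i) h
    rw [h1]
    have h2 : ∀ l, bind₁ (fun i => ∑ j, C (g i j) * X j) (pderiv l (p * X s)) =
        bind₁ (fun i => ∑ j, C (g i j) * X j) (pderiv l p) * (∑ j, C (g s j) * X j) +
          (if s = l then bind₁ (fun i => ∑ j, C (g i j) * X j) p else 0) := by
      intro l
      rw [pderiv_mul, map_add, map_mul, map_mul, bind₁_X_right]
      by_cases h : s = l
      · subst h; rw [pderiv_X_self, if_pos rfl]; simp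
      · rw [pderiv_X_of_ne h, if_neg h]; simp
    simp only [h2, add_mul, Finset.sum_add_distrib, ite_mul, zero_mul, Finset.sum_ite_eq,
      Finset.mem_univ, if_true]
    congr 1
    rw [Finset.sum_mul]
    refine Finset.sum_congr rfl fun l _ => ?_
    ring

theorem map_lin {k K : Type} [Field k] [Field K] (φ : k →+* K) {n : ℕ}
    (g : Matrix (Fin (n + 1)) (Fin (n + 1)) k) (F : MvPolynomial (Fin (n + 1)) k) :
    (lin g F).map φ = lin (g.map φ) (F.map φ) := by
  unfold lin
  rw [map_bind₁]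
  congr 2
  funext i
  simp

/-- The ring homomorphism of the evaluation. -/
theorem ev_aeval {C₀ Ω σ τ κ : Type} [Field C₀] [Field Ω] [Algebra C₀ Ω] (a : σ → Ω) (t : τ → Ω)
    (f : κ → τ) (p : MvPolynomial κ C₀) :
    eval₂ (aeval a : MvPolynomial σ C₀ →ₐ[C₀] Ω).toRingHom t
      (aeval (fun i => (X (f i) : MvPolynomial τ (MvPolynomial σ C₀))) p) =
      aeval (fun i => t (f i)) p := by
  induction p using MvPolynomial.induction_on with
  | C b =>
    simp only [aeval_C]
    rw [IsScalarTower.algebraMap_apply C₀ (MvPolynomial σ C₀) (MvPolynomial τ (MvPolynomial σ C₀)),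
      MvPolynomial.algebraMap_eq, MvPolynomial.algebraMap_eq, eval₂_C]
    simp
  | add p q hp hq => simp only [map_add, eval₂_add, hp, hq]
  | mul_X p s hp => simp only [map_mul, eval₂_mul, hp, aeval_X, eval₂_X]

section

variable {C₀ : Type} [Field C₀] {n q : ℕ} (H : Fin q → MvPolynomial (Fin (n + 1)) C₀)

/-- the unknowns: the point, the coefficients, and the dual variables -/
abbrev Tau (n q : ℕ) : Type := Fin 2 × (Fin (n + 1) ⊕ (Fin q ⊕ Fin (n + 1)))

abbrev Sig (n : ℕ) : Type := Fin (n + 1) × Fin (n + 1)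

/-- the index set of the equations -/
abbrev Iot (n q : ℕ) : Type := Bool ⊕ (Fin q ⊕ (Fin (n + 1) ⊕ Fin (n + 1)))

/-- the equations -/
noncomputable def Peq : Iot n q → MvPolynomial (Tau n q) (MvPolynomial (Sig n) C₀)
  | Sum.inl true => ∑ i, X (1, Sum.inl i) * X (0, Sum.inl i) - 1
  | Sum.inl false => ∑ j, X (1, Sum.inr j) * X (0, Sum.inr j) - 1
  | Sum.inr (Sum.inl j) => X (0, Sum.inr (Sum.inl j)) *
      aeval (fun i => (X ((0 : Fin 2), Sum.inl i) :
        MvPolynomial (Tau n q) (MvPolynomial (Sig n) C₀))) (H j)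
  | Sum.inr (Sum.inr (Sum.inl l)) => X (0, Sum.inr (Sum.inr l)) *
      ∑ i, C (X (l, i)) * X (0, Sum.inl i)
  | Sum.inr (Sum.inr (Sum.inr i)) =>
      ∑ j, X (0, Sum.inr (Sum.inl j)) *
        aeval (fun i => (X ((0 : Fin 2), Sum.inl i) :
          MvPolynomial (Tau n q) (MvPolynomial (Sig n) C₀))) (pderiv i (H j)) +
      ∑ l, X (0, Sum.inr (Sum.inr l)) * C (X (l, i))

variable {Ω : Type} [Field Ω] [Algebra C₀ Ω] (a : Sig n → Ω) (t : Tau n q → Ω)

/-- all equations hold -/
theorem peq_iff :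
    (∀ s, eval₂ (aeval a : MvPolynomial (Sig n) C₀ →ₐ[C₀] Ω).toRingHom t (Peq H s) = 0) ↔
      (∑ i, t (1, Sum.inl i) * t (0, Sum.inl i) = 1 ∧
        ∑ j, t (1, Sum.inr j) * t (0, Sum.inr j) = 1 ∧
        (∀ j, t (0, Sum.inr (Sum.inl j)) * aeval (fun i => t (0, Sum.inl i)) (H j) = 0) ∧
        (∀ l, t (0, Sum.inr (Sum.inr l)) * ∑ i, a (l, i) * t (0, Sum.inl i) = 0) ∧
        ∀ i, ∑ j, t (0, Sum.inr (Sum.inl j)) *
          aeval (fun i => t (0, Sum.inl i)) (pderiv i (H j)) +
          ∑ l, t (0, Sum.inr (Sum.inr l)) * a (l, i) = 0) := by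
  have e1 : eval₂ (aeval a : MvPolynomial (Sig n) C₀ →ₐ[C₀] Ω).toRingHom t
      (Peq H (Sum.inl true)) = ∑ i, t (1, Sum.inl i) * t (0, Sum.inl i) - 1 := by
    simp [Peq, eval₂_sum]
  have e2 : eval₂ (aeval a : MvPolynomial (Sig n) C₀ →ₐ[C₀] Ω).toRingHom t
      (Peq H (Sum.inl false)) = ∑ j, t (1, Sum.inr j) * t (0, Sum.inr j) - 1 := by
    simp [Peq, eval₂_sum]
  have e3 : ∀ j, eval₂ (aeval a : MvPolynomial (Sig n) C₀ →ₐ[C₀] Ω).toRingHom t
      (Peq H (Sum.inr (Sum.inl j))) =
      t (0, Sum.inr (Sum.inl j)) * aeval (fun i => t (0, Sum.inl i)) (H j) := by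
    intro j
    simp only [Peq, eval₂_mul, eval₂_X]
    rw [ev_aeval]
  have e4 : ∀ l, eval₂ (aeval a : MvPolynomial (Sig n) C₀ →ₐ[C₀] Ω).toRingHom t
      (Peq H (Sum.inr (Sum.inr (Sum.inl l)))) =
      t (0, Sum.inr (Sum.inr l)) * ∑ i, a (l, i) * t (0, Sum.inl i) := by
    intro l
    simp [Peq, eval₂_sum]
  have e5 : ∀ i, eval₂ (aeval a : MvPolynomial (Sig n) C₀ →ₐ[C₀] Ω).toRingHom t
      (Peq H (Sum.inr (Sum.inr (Sum.inr i)))) =
      ∑ j, t (0, Sum.inr (Sum.inl j)) *
          aeval (fun i => t (0, Sum.inl i)) (pderiv i (H j)) +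
          ∑ l, t (0, Sum.inr (Sum.inr l)) * a (l, i) := by
    intro i
    simp only [Peq, eval₂_add, eval₂_sum, eval₂_mul, eval₂_X, eval₂_C]
    congr 1
    · refine Finset.sum_congr rfl fun j _ => ?_
      rw [ev_aeval]
    · refine Finset.sum_congr rfl fun l _ => ?_
      simp
  constructor
  · intro h
    refine ⟨?_, ?_, fun j => ?_, fun l => ?_, fun i => ?_⟩
    · have := h (Sum.inl true); rw [e1] at this; exact sub_eq_zero.1 this
    · have := h (Sum.inl false); rw [e2] at this; exact sub_eq_zero.1 this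
    · rw [← e3]; exact h _
    · rw [← e4]; exact h _
    · rw [← e5]; exact h _
  · rintro ⟨h1, h2, h3, h4, h5⟩ s
    rcases s with (_ | _) | j | l | i
    · rw [e2, h2, sub_self]
    · rw [e1, h1, sub_self]
    · rw [e3, h3]
    · rw [e4, h4]
    · rw [e5, h5]

end

/-- a vector which is not zero has a dual vector -/
theorem exists_dual {Ω κ : Type} [Field Ω] [Fintype κ] (v : κ → Ω) (hv : v ≠ 0) :
    ∃ u : κ → Ω, ∑ i, u i * v i = 1 := by
  classical
  obtain ⟨i, hi⟩ := Function.ne_iff.1 hv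
  refine ⟨Pi.single i (v i)⁻¹, ?_⟩
  rw [Finset.sum_eq_single i]
  · rw [Pi.single_eq_same]
    exact inv_mul_cancel₀ hi
  · intro j _ hj
    rw [Pi.single_eq_of_ne hj, zero_mul]
  · intro h
    exact absurd (Finset.mem_univ i) h

/-- general hyperplanes are in general position to a divisor with normal crossings -/
theorem open_set {C₀ : Type} [Field C₀] [CharZero C₀] {n q : ℕ}
    (H : Fin q → MvPolynomial (Fin (n + 1)) C₀)
    (hH : ∀ (Ω : Type) [Field Ω] [Algebra C₀ Ω] (z : Fin (n + 1) → Ω), z ≠ 0 →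
      ∀ c : Fin q → Ω, (∀ j, c j ≠ 0 → aeval z (H j) = 0) →
        (∀ i, ∑ j, c j * aeval z (pderiv i (H j)) = 0) → c = 0) :
    ∃ δ : MvPolynomial (Sig n) C₀, δ ≠ 0 ∧ ∀ (Ω : Type) [Field Ω] [Algebra C₀ Ω] (a : Sig n → Ω),
      aeval a δ ≠ 0 → ∀ z : Fin (n + 1) → Ω, z ≠ 0 → ∀ (c : Fin q → Ω) (b : Fin (n + 1) → Ω),
        (∀ j, c j ≠ 0 → aeval z (H j) = 0) → (∀ l, b l ≠ 0 → ∑ i, a (l, i) * z i = 0) →
        (∀ i, ∑ j, c j * aeval z (pderiv i (H j)) + ∑ l, b l * a (l, i) = 0) →
        c = 0 ∧ b = 0 := by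
  obtain ⟨δ, hδ0, hδ⟩ := t_BER2 C₀ (Sig n) (Tau n q) (Iot n q) (Peq H) (by
    intro Ω _ _ a ha t
    by_contra hcon
    push Not at hcon
    obtain ⟨h1, h2, h3, h4, h5⟩ := (peq_iff H a t).1 hcon
    have hz : (fun i => t (0, Sum.inl i)) ≠ 0 := by
      intro h
      have h6 : ∀ i, t ((0 : Fin 2), Sum.inl i) = 0 := fun i => congrFun h i
      simp [h6] at h1
    obtain ⟨hc, hb⟩ := t_BER1 C₀ Ω n q H (fun l i => a (l, i)) ha (hH Ω)
      (fun i => t (0, Sum.inl i)) hz (fun j => t (0, Sum.inr (Sum.inl j)))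
      (fun l => t (0, Sum.inr (Sum.inr l)))
      (fun j hj => (mul_eq_zero.1 (h3 j)).resolve_left hj)
      (fun l hl => (mul_eq_zero.1 (h4 l)).resolve_left hl) h5
    have h6 : ∀ j, t ((0 : Fin 2), Sum.inr j) = 0 := by
      rintro (j | l)
      · exact congrFun hc j
      · exact congrFun hb l
    simp only [h6, mul_zero, Finset.sum_const_zero] at h2
    exact zero_ne_one h2)
  refine ⟨δ, hδ0, ?_⟩
  intro Ω _ _ a ha z hz c b hc hb hcb
  by_contra hcon
  have hv : (Sum.elim c b : Fin q ⊕ Fin (n + 1) → Ω) ≠ 0 := by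
    intro h
    apply hcon
    constructor
    · funext j
      exact congrFun h (Sum.inl j)
    · funext l
      exact congrFun h (Sum.inr l)
  obtain ⟨u, hu⟩ := exists_dual z hz
  obtain ⟨w, hw⟩ := exists_dual (Sum.elim c b : Fin q ⊕ Fin (n + 1) → Ω) hv
  set t : Tau n q → Ω := fun p => if p.1 = 0 then Sum.elim z (Sum.elim c b) p.2 else
    Sum.elim u w p.2 with ht
  obtain ⟨s, hs⟩ := hδ Ω a ha t
  apply hs
  refine (peq_iff H a t).2 ⟨?_, ?_, ?_, ?_, ?_⟩ s
  · simpa [ht] using hu
  · simpa [ht] using hw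
  · intro j
    by_cases h : c j = 0
    · simp [ht, h]
    · have := hc j h
      simp [ht, this]
  · intro l
    by_cases h : b l = 0
    · simp [ht, h]
    · have := hb l h
      simp [ht, this]
  · intro i
    have := hcb i
    simpa [ht] using this

end BER

open BER in
theorem t_BER : S_BER := by
  intro k _ _ n F hF
  obtain ⟨q, d, H, hH, hprod, hz⟩ := hF
  have hcz : CharZero (AlgebraicClosure k) :=
    charZero_of_injective_algebraMap (algebraMap k (AlgebraicClosure k)).injective
  obtain ⟨δ, hδ0, hδ⟩ := open_set H hz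
  have hdet : (Matrix.mvPolynomialX (Fin (n + 1)) (Fin (n + 1)) (AlgebraicClosure k)).det ≠ 0 :=
    Matrix.det_mvPolynomialX_ne_zero _ _
  obtain ⟨α, hα⟩ := t_BER3 k (AlgebraicClosure k) (Sig n) (δ *
    (Matrix.mvPolynomialX (Fin (n + 1)) (Fin (n + 1)) (AlgebraicClosure k)).det)
    (mul_ne_zero hδ0 hdet)
  rw [map_mul, mul_ne_zero_iff] at hα
  obtain ⟨hα1, hα2⟩ := hα
  set A : Matrix (Fin (n + 1)) (Fin (n + 1)) k := Matrix.of fun l i => α (l, i) with hA
  have hdetA : A.det ≠ 0 := by
    intro h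
    apply hα2
    rw [RingHom.map_det]
    have h1 : (eval fun i => algebraMap k (AlgebraicClosure k) (α i)).mapMatrix
        (Matrix.mvPolynomialX (Fin (n + 1)) (Fin (n + 1)) (AlgebraicClosure k)) =
        (algebraMap k (AlgebraicClosure k)).mapMatrix A := by
      ext l i
      simp [hA, Matrix.mvPolynomialX]
    rw [h1, ← RingHom.map_det, h, map_zero]
  have hAu : IsUnit A.det := isUnit_iff_ne_zero.2 hdetA
  refine ⟨A⁻¹, Matrix.isUnit_nonsing_inv_det A hAu, q, d,
    fun j => lin (A⁻¹.map (algebraMap k (AlgebraicClosure k))) (H j), ?_, ?_, ?_⟩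
  · intro j
    exact LINH.lin_hom _ _ _ (hH j)
  · rw [map_lin, hprod]
    unfold lin
    rw [map_prod]
  · intro Ω _ _ z hz0 c b hc hb hcb
    have hAB : A.map (algebraMap k (AlgebraicClosure k)) *
        A⁻¹.map (algebraMap k (AlgebraicClosure k)) = 1 := by
      rw [← Matrix.map_mul, Matrix.mul_nonsing_inv A hAu]
      simp
    have hBA : A⁻¹.map (algebraMap k (AlgebraicClosure k)) *
        A.map (algebraMap k (AlgebraicClosure k)) = 1 := by
      rw [← Matrix.map_mul, Matrix.nonsing_inv_mul A hAu]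
      simp
    set A' := A.map (algebraMap k (AlgebraicClosure k)) with hA'
    set B' := A⁻¹.map (algebraMap k (AlgebraicClosure k)) with hB'
    set y : Fin (n + 1) → Ω := fun l => ∑ j, algebraMap (AlgebraicClosure k) Ω (B' l j) * z j
      with hy
    have hAy : ∀ l, ∑ i, algebraMap (AlgebraicClosure k) Ω (A' l i) * y i = z l := fun l =>
      LINH.mul_inv_apply A' B' hAB z l
    have hy0 : y ≠ 0 := by
      intro h
      apply hz0
      funext l
      rw [← hAy l, h]
      simp
    have haev : ∀ G : MvPolynomial (Fin (n + 1)) (AlgebraicClosure k),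
        aeval z (lin B' G) = aeval y G := fun G => LINH.aeval_lin B' G z
    set a : Sig n → Ω := fun p => algebraMap (AlgebraicClosure k) Ω
      (algebraMap k (AlgebraicClosure k) (α p)) with ha
    have haδ : aeval a δ ≠ 0 := by
      have h1 : aeval a δ = algebraMap (AlgebraicClosure k) Ω
          (eval (fun i => algebraMap k (AlgebraicClosure k) (α i)) δ) := by
        rw [← coe_aeval_eq_eval]
        exact aeval_algebraMap_apply Ω
          (fun i => algebraMap k (AlgebraicClosure k) (α i)) δ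
      rw [h1]
      intro h
      exact hα1 ((map_eq_zero _).1 h)
    have haA : ∀ l i, a (l, i) = algebraMap (AlgebraicClosure k) Ω (A' l i) := by
      intro l i
      simp [ha, hA', hA]
    refine hδ Ω a haδ y hy0 c b (fun j hj => ?_) (fun l hl => ?_) (fun i => ?_)
    · rw [← haev]
      exact hc j hj
    · simp only [haA]
      rw [hAy l]
      exact hb l hl
    · have h1 : ∀ s, ∑ l, (∑ j, c j * aeval y (pderiv l (H j))) *
          algebraMap (AlgebraicClosure k) Ω (B' l s) + b s = 0 := by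
        intro s
        have h2 := hcb s
        rw [← h2]
        congr 1
        simp only [pderiv_lin, map_sum, map_mul, haev, aeval_C, Finset.sum_mul, Finset.mul_sum]
        rw [Finset.sum_comm]
        refine Finset.sum_congr rfl fun j _ => Finset.sum_congr rfl fun l _ => ?_
        ring
      have h3 : ∀ l, ∑ s, algebraMap (AlgebraicClosure k) Ω (B' l s) *
          algebraMap (AlgebraicClosure k) Ω (A' s i) = if l = i then 1 else 0 := by
        intro l
        have h4 := congrFun (congrFun hBA l) i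
        rw [Matrix.mul_apply, Matrix.one_apply] at h4
        have h5 := congrArg (algebraMap (AlgebraicClosure k) Ω) h4
        rw [map_sum] at h5
        simp only [map_mul] at h5
        rw [h5]
        split_ifs <;> simp
      have h6 : ∑ s, (∑ l, (∑ j, c j * aeval y (pderiv l (H j))) *
          algebraMap (AlgebraicClosure k) Ω (B' l s) + b s) *
          algebraMap (AlgebraicClosure k) Ω (A' s i) = 0 := by
        refine Finset.sum_eq_zero fun s _ => ?_
        rw [h1 s, zero_mul]
      rw [← h6]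
      simp only [add_mul, Finset.sum_add_distrib, haA]
      congr 1
      have h7 : ∑ s, (∑ l, (∑ j, c j * aeval y (pderiv l (H j))) *
          algebraMap (AlgebraicClosure k) Ω (B' l s)) *
          algebraMap (AlgebraicClosure k) Ω (A' s i) =
          ∑ l, (∑ j, c j * aeval y (pderiv l (H j))) *
            ∑ s, algebraMap (AlgebraicClosure k) Ω (B' l s) *
              algebraMap (AlgebraicClosure k) Ω (A' s i) := by
        simp only [Finset.sum_mul _ _ (algebraMap (AlgebraicClosure k) Ω (A' _ i))]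
        rw [Finset.sum_comm]
        refine Finset.sum_congr rfl fun l _ => ?_
        rw [Finset.mul_sum]
        refine Finset.sum_congr rfl fun s _ => ?_
        ring
      rw [h7]
      simp only [h3]
      simp

end Pool.Agent.J4.H5.VJ
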