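import Pool.Agent.J4.H5.VJ.Defs2
import Pool.Agent.H135R2.VS.Der

/-!
# Project VJ2, piece BER1: generic hyperplanes are transversal
-/

set_option autoImplicit false

open MvPolynomial NumberField IsDedekindDomain Module

namespace Pool.Agent.J4.H5.VJ

namespace Ber1Aux

theorem chain {C Ω : Type} [Field C] [Field Ω] [Algebra C Ω] {m : ℕ} (D : Derivation C Ω Ω)
    (z : Fin m → Ω) (g : MvPolynomial (Fin m) C) :
    D (aeval z g) = ∑ i, aeval z (pderiv i g) * D (z i) := by
  induction g using MvPolynomial.induction_on with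
  | C a => simp
  | add p q hp hq => simp [hp, hq, add_mul, Finset.sum_add_distrib]
  | mul_X p j hp =>
    rw [map_mul, aeval_X, Derivation.leibniz, hp]
    have h1 : ∀ i, aeval z (pderiv i (p * X j)) * D (z i) =
        z j * (aeval z (pderiv i p) * D (z i)) + if i = j then aeval z p * D (z j) else 0 := by
      intro i
      rw [Derivation.leibniz, map_add, smul_eq_mul, smul_eq_mul, map_mul, map_mul, aeval_X]
      by_cases h : i = j
      · subst h
        rw [if_pos rfl, pderiv_X_self, map_one]
        ring
      · rw [if_neg h, pderiv_X_of_ne (Ne.symm h), map_zero]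
        ring
    rw [Finset.sum_congr rfl fun i _ => h1 i, Finset.sum_add_distrib, ← Finset.mul_sum,
      Finset.sum_ite_eq', if_pos (Finset.mem_univ _), smul_eq_mul, smul_eq_mul]
    ring

end Ber1Aux

open Ber1Aux

theorem t_BER1 : S_BER1 := by
  intro C Ω _ _ _ _ n q H a ha hH z hz c b hc hb h0
  classical
  obtain ⟨i0, hi0⟩ : ∃ i, z i ≠ 0 := by
    by_contra hcon
    push Not at hcon
    exact hz (funext hcon)
  have key : ∀ β : Fin (n + 1) → Fin (n + 1) → Ω, ∑ l, b l * ∑ i, β l i * z i = 0 := by
    intro β
    obtain ⟨D, hD⟩ := Pool.Agent.H135R2.VS.exists_der ha (fun p => β p.1 p.2)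
    have hD' : ∀ l i, D (a l i) = β l i := fun l i => hD (l, i)
    have h1 : ∀ j, c j * ∑ i, aeval z (pderiv i (H j)) * D (z i) = 0 := by
      intro j
      by_cases hcj : c j = 0
      · rw [hcj, zero_mul]
      · rw [← chain, hc j hcj, map_zero, mul_zero]
    have h2 : ∀ l, b l * (∑ i, a l i * D (z i) + ∑ i, β l i * z i) = 0 := by
      intro l
      by_cases hbl : b l = 0
      · rw [hbl, zero_mul]
      · have h3 := congrArg D (hb l hbl)
        rw [map_sum, map_zero] at h3
        rw [← Finset.sum_add_distrib]
        have h4 : ∑ i, (a l i * D (z i) + β l i * z i) = ∑ i, D (a l i * z i) := by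
          refine Finset.sum_congr rfl fun i _ => ?_
          rw [Derivation.leibniz, hD', smul_eq_mul, smul_eq_mul]
          ring
        rw [h4, h3, mul_zero]
    have h5 : ∑ i, (∑ j, c j * aeval z (pderiv i (H j)) + ∑ l, b l * a l i) * D (z i) = 0 :=
      Finset.sum_eq_zero fun i _ => by rw [h0 i, zero_mul]
    have h6 : ∑ i, (∑ j, c j * aeval z (pderiv i (H j)) + ∑ l, b l * a l i) * D (z i) =
        ∑ j, c j * ∑ i, aeval z (pderiv i (H j)) * D (z i) +
          ∑ l, b l * ∑ i, a l i * D (z i) := by
      simp only [add_mul, Finset.sum_add_distrib, Finset.sum_mul, Finset.mul_sum]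
      congr 1
      · rw [Finset.sum_comm]
        exact Finset.sum_congr rfl fun j _ => Finset.sum_congr rfl fun i _ => by ring
      · rw [Finset.sum_comm]
        exact Finset.sum_congr rfl fun j _ => Finset.sum_congr rfl fun i _ => by ring
    rw [h6, Finset.sum_eq_zero fun j _ => h1 j, zero_add] at h5
    have h7 : ∑ l, b l * (∑ i, a l i * D (z i) + ∑ i, β l i * z i) = 0 :=
      Finset.sum_eq_zero fun l _ => h2 l
    simp only [mul_add, Finset.sum_add_distrib] at h7
    rw [h5, zero_add] at h7
    exact h7
  have hb0 : b = 0 := by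
    funext l0
    have h1 := key (fun l i => if l = l0 then (if i = i0 then 1 else 0) else 0)
    rw [Finset.sum_eq_single l0, Finset.sum_eq_single i0] at h1
    · rw [if_pos rfl, if_pos rfl, one_mul] at h1
      exact (mul_eq_zero.1 h1).resolve_right hi0
    · intro i _ hi
      rw [if_pos rfl, if_neg hi, zero_mul]
    · intro h
      exact absurd (Finset.mem_univ _) h
    · intro l _ hl
      simp [hl]
    · intro h
      exact absurd (Finset.mem_univ _) h
  refine ⟨hH z hz c hc fun i => ?_, hb0⟩
  have h1 := h0 i
  rw [hb0] at h1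
  simpa using h1

end Pool.Agent.J4.H5.VJ
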