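import Pool.Agent.J4.H5.VJ.Defs3
import Pool.Agent.J4.H5.VJ.T_BER1

/-!
# Project VJ3, piece BER1X: generic hyperplanes are transversal, pointwise
-/

set_option autoImplicit false

open MvPolynomial NumberField IsDedekindDomain Module

namespace Pool.Agent.J4.H5.VJ

open Ber1Aux

theorem t_BER1X : S_BER1X := by
  intro C Ω _ _ _ _ n q H a ha z hz c b hc hb h0
  classical
  obtain ⟨i0, hi0⟩ : ∃ i, z i ≠ 0 := by
    by_contra hcon
    push Not at hcon
    exact hz (funext hcon)
  have key : ∀ β : Fin (n + 1) → Fin (n + 1) → Ω, ∑ l, b l * ∑ i, β l i * z i = 0 := by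
    intro β
    obtain ⟨D, hD⟩ := Pool.Agent.H135R2.VS.exists_der ha (fun p => β p.1 p.2)
    have hD' : ∀ l i, D (a l i) = β l i := fun l i => hD (l, i)
    have h1 : ∀ j, c j * ∑ i, aeval z (pderiv i (H j)) * D (z i) = 0 := by
      intro j
      by_cases hcj : c j = 0
      · rw [hcj, zero_mul]
      · rw [← chain, hc j hcj, map_zero, mul_zero]
    have h2 : ∀ l, b l * (∑ i, a l i * D (z i) + ∑ i, β l i * z i) = 0 := by
      intro l
      by_cases hbl : b l = 0
      · rw [hbl, zero_mul]
      · have h3 := congrArg D (hb l hbl)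
        rw [map_sum, map_zero] at h3
        rw [← Finset.sum_add_distrib]
        have h4 : ∑ i, (a l i * D (z i) + β l i * z i) = ∑ i, D (a l i * z i) := by
          refine Finset.sum_congr rfl fun i _ => ?_
          rw [Derivation.leibniz, hD', smul_eq_mul, smul_eq_mul]
          ring
        rw [h4, h3, mul_zero]
    have h5 : ∑ i, (∑ j, c j * aeval z (pderiv i (H j)) + ∑ l, b l * a l i) * D (z i) = 0 :=
      Finset.sum_eq_zero fun i _ => by rw [h0 i, zero_mul]
    have h6 : ∑ i, (∑ j, c j * aeval z (pderiv i (H j)) + ∑ l, b l * a l i) * D (z i) =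
        ∑ j, c j * ∑ i, aeval z (pderiv i (H j)) * D (z i) +
          ∑ l, b l * ∑ i, a l i * D (z i) := by
      simp only [add_mul, Finset.sum_add_distrib, Finset.sum_mul, Finset.mul_sum]
      congr 1
      · rw [Finset.sum_comm]
        exact Finset.sum_congr rfl fun j _ => Finset.sum_congr rfl fun i _ => by ring
      · rw [Finset.sum_comm]
        exact Finset.sum_congr rfl fun j _ => Finset.sum_congr rfl fun i _ => by ring
    rw [h6, Finset.sum_eq_zero fun j _ => h1 j, zero_add] at h5
    have h7 : ∑ l, b l * (∑ i, a l i * D (z i) + ∑ i, β l i * z i) = 0 :=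
      Finset.sum_eq_zero fun l _ => h2 l
    simp only [mul_add, Finset.sum_add_distrib] at h7
    rw [h5, zero_add] at h7
    exact h7
  funext l0
  have h1 := key (fun l i => if l = l0 then (if i = i0 then 1 else 0) else 0)
  rw [Finset.sum_eq_single l0, Finset.sum_eq_single i0] at h1
  · rw [if_pos rfl, if_pos rfl, one_mul] at h1
    exact (mul_eq_zero.1 h1).resolve_right hi0
  · intro i _ hi
    rw [if_pos rfl, if_neg hi, zero_mul]
  · intro h
    exact absurd (Finset.mem_univ _) h
  · intro l _ hl
    simp [hl]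
  · intro h
    exact absurd (Finset.mem_univ _) h

end Pool.Agent.J4.H5.VJ
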