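import Pool.Agent.J4.H5.VJ.Defs2
import Pool.Agent.H135R2.VS.Der

/-!
# Generic hyperplanes are transversal
-/

set_option autoImplicit false

open MvPolynomial NumberField IsDedekindDomain Module

namespace Pool.Agent.J4.H5.VJ

namespace BER1b

/-- the chain rule -/
lemma der_aeval {C Ω : Type} [Field C] [Field Ω] [Algebra C Ω] {ι : Type} [Fintype ι]
    (D : Derivation C Ω Ω) (z : ι → Ω) (g : MvPolynomial ι C) :
    D (aeval z g) = ∑ i, aeval z (pderiv i g) * D (z i) := by
  classical
  induction g using MvPolynomial.induction_on with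
  | C a => simp
  | add p q hp hq => simp [hp, hq, add_mul, Finset.sum_add_distrib]
  | mul_X p j hp =>
    rw [map_mul, aeval_X, Derivation.leibniz, hp]
    simp only [Derivation.leibniz, map_add, smul_eq_mul, map_mul, aeval_X, pderiv_X, add_mul,
      Finset.sum_add_distrib]
    congr 1
    · rw [Finset.sum_eq_single j]
      · simp
      · intro i _ hi
        rw [Pi.single_eq_of_ne hi.symm]
        simp
      · intro h
        exact absurd (Finset.mem_univ j) h
    · rw [Finset.mul_sum]
      refine Finset.sum_congr rfl fun i _ => ?_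
      ring

end BER1b

theorem t_BER1b : S_BER1 := by
  classical
  intro C Ω _ _ _ _ n q H a ha hsnc z hz c b hc hb hsum
  have key : ∀ β : Fin (n + 1) × Fin (n + 1) → Ω, ∑ l, b l * ∑ i, β (l, i) * z i = 0 := by
    intro β
    obtain ⟨D, hD⟩ := Pool.Agent.H135R2.VS.exists_der ha β
    have h1 : ∀ j, c j * ∑ i, aeval z (pderiv i (H j)) * D (z i) = 0 := by
      intro j
      by_cases hj : c j = 0
      · rw [hj, zero_mul]
      · rw [← BER1b.der_aeval D z (H j), hc j hj, map_zero, mul_zero]
    have h2 : ∀ l, b l * (∑ i, β (l, i) * z i + ∑ i, a l i * D (z i)) = 0 := by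
      intro l
      by_cases hl : b l = 0
      · rw [hl, zero_mul]
      · have h3 := congrArg D (hb l hl)
        rw [map_zero, map_sum] at h3
        simp only [Derivation.leibniz, smul_eq_mul] at h3
        have h4 : ∀ i, D (a l i) = β (l, i) := fun i => hD (l, i)
        simp only [h4] at h3
        rw [← Finset.sum_add_distrib]
        have h5 : ∑ i, (β (l, i) * z i + a l i * D (z i)) = ∑ i, (a l i * D (z i) + z i * β (l, i)) := by
          refine Finset.sum_congr rfl fun i _ => ?_
          ring
        rw [h5, h3, mul_zero]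
    have h6 : ∑ l, b l * ∑ i, β (l, i) * z i + ∑ l, b l * ∑ i, a l i * D (z i) = 0 := by
      rw [← Finset.sum_add_distrib]
      refine Finset.sum_eq_zero fun l _ => ?_
      rw [← mul_add]
      exact h2 l
    have h7 : ∑ j, c j * ∑ i, aeval z (pderiv i (H j)) * D (z i) = 0 :=
      Finset.sum_eq_zero fun j _ => h1 j
    have h8 : ∑ j, c j * ∑ i, aeval z (pderiv i (H j)) * D (z i) + ∑ l, b l * ∑ i, a l i * D (z i) = 0 := by
      have h9 : ∑ j, c j * ∑ i, aeval z (pderiv i (H j)) * D (z i) + ∑ l, b l * ∑ i, a l i * D (z i) =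
          ∑ i, (∑ j, c j * aeval z (pderiv i (H j)) + ∑ l, b l * a l i) * D (z i) := by
        simp only [add_mul, Finset.sum_add_distrib, Finset.sum_mul, Finset.mul_sum]
        congr 1
        · rw [Finset.sum_comm]
          refine Finset.sum_congr rfl fun i _ => Finset.sum_congr rfl fun j _ => ?_
          ring
        · rw [Finset.sum_comm]
          refine Finset.sum_congr rfl fun i _ => Finset.sum_congr rfl fun j _ => ?_
          ring
      rw [h9]
      refine Finset.sum_eq_zero fun i _ => ?_
      rw [hsum i, zero_mul]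
    rw [h7, zero_add] at h8
    rw [h8, add_zero] at h6
    exact h6
  obtain ⟨i₀, hi₀⟩ : ∃ i, z i ≠ 0 := by
    by_contra h
    push Not at h
    exact hz (funext h)
  have hb0 : b = 0 := by
    funext l
    have h1 := key (fun p => if p = (l, i₀) then 1 else 0)
    rw [Finset.sum_eq_single l] at h1
    · rw [Finset.sum_eq_single i₀] at h1
      · rw [if_pos rfl, one_mul] at h1
        rcases mul_eq_zero.1 h1 with h2 | h2
        · exact h2
        · exact absurd h2 hi₀
      · intro i _ hi
        rw [if_neg (fun h => hi (Prod.ext_iff.1 h).2), zero_mul]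
      · intro h
        exact absurd (Finset.mem_univ _) h
    · intro l' _ hl'
      have h2 : ∑ i, (fun p : Fin (n + 1) × Fin (n + 1) => if p = (l, i₀) then (1 : Ω) else 0) (l', i) * z i = 0 := by
        refine Finset.sum_eq_zero fun i _ => ?_
        simp only
        rw [if_neg (fun h => hl' (Prod.ext_iff.1 h).1), zero_mul]
      rw [h2, mul_zero]
    · intro h
      exact absurd (Finset.mem_univ _) h
  refine ⟨hsnc z hz c hc fun i => ?_, hb0⟩
  have h1 := hsum i
  rw [hb0] at h1
  simpa using h1

end Pool.Agent.J4.H5.VJ
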