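import Pool.Agent.J4.H5.VJ.Defs3
import Pool.Agent.J4.H5.VJ.T_BER

/-!
# Bertini's theorem for complete intersections: assembly
-/

set_option autoImplicit false

open MvPolynomial Module

namespace Pool.Agent.J4.H5.VJ

namespace BERX

open BER

section

variable {C₀ : Type} [Field C₀] {n q s : ℕ} (H : Fin q → MvPolynomial (Fin (n + 1)) C₀)
  (E : Fin s → MvPolynomial (Fin (n + 1)) C₀)

/-- the equations, with additional equations for the point -/
noncomputable def PeqX : Iot n q ⊕ Fin s → MvPolynomial (Tau n q) (MvPolynomial (Sig n) C₀)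
  | Sum.inl i => Peq H i
  | Sum.inr i => aeval (fun i => (X ((0 : Fin 2), Sum.inl i) :
        MvPolynomial (Tau n q) (MvPolynomial (Sig n) C₀))) (E i)

end

/-- general hyperplanes are in general position -/
theorem open_setX (hB : S_BER1X) {C₀ : Type} [Field C₀] [CharZero C₀] {n q s : ℕ}
    (H : Fin q → MvPolynomial (Fin (n + 1)) C₀) (E : Fin s → MvPolynomial (Fin (n + 1)) C₀)
    (hH : ∀ (Ω : Type) [Field Ω] [Algebra C₀ Ω] (z : Fin (n + 1) → Ω), z ≠ 0 →
      (∀ i, aeval z (E i) = 0) →
      ∀ c : Fin q → Ω, (∀ j, c j ≠ 0 → aeval z (H j) = 0) →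
        (∀ i, ∑ j, c j * aeval z (pderiv i (H j)) = 0) → c = 0) :
    ∃ δ : MvPolynomial (Sig n) C₀, δ ≠ 0 ∧ ∀ (Ω : Type) [Field Ω] [Algebra C₀ Ω] (a : Sig n → Ω),
      aeval a δ ≠ 0 → ∀ z : Fin (n + 1) → Ω, z ≠ 0 → (∀ i, aeval z (E i) = 0) →
      ∀ (c : Fin q → Ω) (b : Fin (n + 1) → Ω),
        (∀ j, c j ≠ 0 → aeval z (H j) = 0) → (∀ l, b l ≠ 0 → ∑ i, a (l, i) * z i = 0) →
        (∀ i, ∑ j, c j * aeval z (pderiv i (H j)) + ∑ l, b l * a (l, i) = 0) →
        c = 0 ∧ b = 0 := by
  obtain ⟨δ, hδ0, hδ⟩ := t_BER2 C₀ (Sig n) (Tau n q) (Iot n q ⊕ Fin s) (PeqX H E) (by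
    intro Ω _ _ a ha t
    by_contra hcon
    push Not at hcon
    obtain ⟨h1, h2, h3, h4, h5⟩ := (peq_iff H a t).1 (fun i => hcon (Sum.inl i))
    have hE : ∀ i, aeval (fun i => t ((0 : Fin 2), Sum.inl i)) (E i) = 0 := by
      intro i
      have h := hcon (Sum.inr i)
      simp only [PeqX] at h
      rw [ev_aeval] at h
      exact h
    have hz : (fun i => t (0, Sum.inl i)) ≠ 0 := by
      intro h
      have h6 : ∀ i, t ((0 : Fin 2), Sum.inl i) = 0 := fun i => congrFun h i
      simp [h6] at h1
    have hb := hB C₀ Ω n q H (fun l i => a (l, i)) ha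
      (fun i => t (0, Sum.inl i)) hz (fun j => t (0, Sum.inr (Sum.inl j)))
      (fun l => t (0, Sum.inr (Sum.inr l)))
      (fun j hj => (mul_eq_zero.1 (h3 j)).resolve_left hj)
      (fun l hl => (mul_eq_zero.1 (h4 l)).resolve_left hl) h5
    have hb' : ∀ l, t ((0 : Fin 2), Sum.inr (Sum.inr l)) = 0 := fun l => congrFun hb l
    have hc := hH Ω (fun i => t (0, Sum.inl i)) hz hE (fun j => t (0, Sum.inr (Sum.inl j)))
      (fun j hj => (mul_eq_zero.1 (h3 j)).resolve_left hj) (by
        intro i
        have h := h5 i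
        simp only [hb', zero_mul, Finset.sum_const_zero, add_zero] at h
        exact h)
    have h6 : ∀ j, t ((0 : Fin 2), Sum.inr j) = 0 := by
      rintro (j | l)
      · exact congrFun hc j
      · exact congrFun hb l
    simp only [h6, mul_zero, Finset.sum_const_zero] at h2
    exact zero_ne_one h2)
  refine ⟨δ, hδ0, ?_⟩
  intro Ω _ _ a ha z hz hE c b hc hb hcb
  by_contra hcon
  have hv : (Sum.elim c b : Fin q ⊕ Fin (n + 1) → Ω) ≠ 0 := by
    intro h
    apply hcon
    constructor
    · funext j
      exact congrFun h (Sum.inl j)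
    · funext l
      exact congrFun h (Sum.inr l)
  obtain ⟨u, hu⟩ := exists_dual z hz
  obtain ⟨w, hw⟩ := exists_dual (Sum.elim c b : Fin q ⊕ Fin (n + 1) → Ω) hv
  set t : Tau n q → Ω := fun p => if p.1 = 0 then Sum.elim z (Sum.elim c b) p.2 else
    Sum.elim u w p.2 with ht
  obtain ⟨s', hs⟩ := hδ Ω a ha t
  apply hs
  rcases s' with s' | i
  · refine (peq_iff H a t).2 ⟨?_, ?_, ?_, ?_, ?_⟩ s'
    · simpa [ht] using hu
    · simpa [ht] using hw
    · intro j
      by_cases h : c j = 0
      · simp [ht, h]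
      · have := hc j h
        simp [ht, this]
    · intro l
      by_cases h : b l = 0
      · simp [ht, h]
      · have := hb l h
        simp [ht, this]
    · intro i
      have := hcb i
      simpa [ht] using this
  · simp only [PeqX]
    rw [ev_aeval]
    have : (fun i => t ((0 : Fin 2), Sum.inl i)) = z := by
      funext i
      simp [ht]
    rw [this]
    exact hE i

/-- the composition of linear changes of the coordinates -/
theorem lin_lin {k : Type} [Field k] {n : ℕ} (g h : Matrix (Fin (n + 1)) (Fin (n + 1)) k)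
    (hgh : g * h = 1) (P : MvPolynomial (Fin (n + 1)) k) : lin h (lin g P) = P := by
  have h0 : ∀ l, lin h (lin g (X l)) = (X l : MvPolynomial (Fin (n + 1)) k) := by
    intro l
    unfold lin
    rw [bind₁_X_right, map_sum]
    simp only [map_mul, bind₁_C_right, bind₁_X_right, Finset.mul_sum]
    rw [Finset.sum_comm]
    have h1 : ∀ m, ∑ j, g l j * h j m = if l = m then 1 else 0 := by
      intro m
      have := congrFun (congrFun hgh l) m
      rw [Matrix.mul_apply, Matrix.one_apply] at this
      exact this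
    have h2 : ∀ m, ∑ j, (C (g l j) * (C (h j m) * X m) : MvPolynomial (Fin (n + 1)) k) =
        C (if l = m then 1 else 0) * X m := by
      intro m
      rw [← h1 m, map_sum, Finset.sum_mul]
      refine Finset.sum_congr rfl fun j _ => ?_
      rw [map_mul, mul_assoc]
    simp only [h2]
    rw [Finset.sum_eq_single l]
    · simp
    · intro m _ hm
      rw [if_neg (Ne.symm hm)]
      simp
    · intro h
      exact absurd (Finset.mem_univ _) h
  unfold lin at h0 ⊢
  induction P using MvPolynomial.induction_on with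
  | C a => simp
  | add p q hp hq => rw [map_add, map_add, hp, hq]
  | mul_X p s hp => rw [map_mul, map_mul, hp, h0]

theorem lin_mem {k : Type} [Field k] {n s : ℕ} (g : Matrix (Fin (n + 1)) (Fin (n + 1)) k)
    (f : Fin s → MvPolynomial (Fin (n + 1)) k) (P : MvPolynomial (Fin (n + 1)) k)
    (hP : P ∈ Ideal.span (Set.range f)) :
    lin g P ∈ Ideal.span (Set.range (fun i => lin g (f i))) := by
  have h := Ideal.mem_map_of_mem
    (bind₁ (fun i => ∑ j, C (g i j) * X j) :
      MvPolynomial (Fin (n + 1)) k →ₐ[k] MvPolynomial (Fin (n + 1)) k) hP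
  rw [Ideal.map_span, ← Set.range_comp] at h
  exact h

theorem nzd_lin {k : Type} [Field k] {n s : ℕ} (A g : Matrix (Fin (n + 1)) (Fin (n + 1)) k)
    (hAg : A * g = 1) (hgA : g * A = 1) (f : Fin s → MvPolynomial (Fin (n + 1)) k)
    (G : MvPolynomial (Fin (n + 1)) k) (hG : NZD f G) :
    NZD (fun i => lin g (f i)) (lin g G) := by
  intro H hH
  have h1 := lin_mem A _ _ hH
  have h2 : (fun i => lin A (lin g (f i))) = f := by
    funext i
    exact lin_lin g A hgA (f i)
  rw [h2] at h1
  have h3 : lin A (lin g G * H) = G * lin A H := by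
    have : lin A (lin g G * H) = lin A (lin g G) * lin A H := by
      unfold lin
      rw [map_mul]
    rw [this, lin_lin g A hgA]
  rw [h3] at h1
  have h4 := lin_mem g _ _ (hG _ h1)
  rw [lin_lin A g hAg] at h4
  exact h4

theorem lin_form {k : Type} [Field k] {n : ℕ} (A g : Matrix (Fin (n + 1)) (Fin (n + 1)) k)
    (hAg : A * g = 1) (l : Fin (n + 1)) :
    lin g (∑ i, C (A l i) * X i) = (X l : MvPolynomial (Fin (n + 1)) k) := by
  have h := lin_lin A g hAg (X l)
  have h1 : lin A (X l) = (∑ i, C (A l i) * X i : MvPolynomial (Fin (n + 1)) k) := by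
    unfold lin
    rw [bind₁_X_right]
  rw [h1] at h
  exact h

/-- transversality after the linear change of the coordinates -/
theorem trans_lin {C₀ : Type} [Field C₀] {n q s : ℕ}
    (H : Fin q → MvPolynomial (Fin (n + 1)) C₀) (E : Fin s → MvPolynomial (Fin (n + 1)) C₀)
    (A' B' : Matrix (Fin (n + 1)) (Fin (n + 1)) C₀) (hAB : A' * B' = 1) (hBA : B' * A' = 1)
    {Ω : Type} [Field Ω] [Algebra C₀ Ω]
    (hδ : ∀ z : Fin (n + 1) → Ω, z ≠ 0 → (∀ i, aeval z (E i) = 0) →
      ∀ (c : Fin q → Ω) (b : Fin (n + 1) → Ω),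
        (∀ j, c j ≠ 0 → aeval z (H j) = 0) →
        (∀ l, b l ≠ 0 → ∑ i, algebraMap C₀ Ω (A' l i) * z i = 0) →
        (∀ i, ∑ j, c j * aeval z (pderiv i (H j)) + ∑ l, b l * algebraMap C₀ Ω (A' l i) = 0) →
        c = 0 ∧ b = 0)
    (z : Fin (n + 1) → Ω) (hz0 : z ≠ 0) (hE : ∀ i, aeval z (lin B' (E i)) = 0)
    (c : Fin q → Ω) (b : Fin (n + 1) → Ω)
    (hc : ∀ j, c j ≠ 0 → aeval z (lin B' (H j)) = 0) (hb : ∀ l, b l ≠ 0 → z l = 0)
    (hcb : ∀ i, ∑ j, c j * aeval z (pderiv i (lin B' (H j))) + b i = 0) : c = 0 ∧ b = 0 := by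
  set y : Fin (n + 1) → Ω := fun l => ∑ j, algebraMap C₀ Ω (B' l j) * z j with hy
  have hAy : ∀ l, ∑ i, algebraMap C₀ Ω (A' l i) * y i = z l := fun l =>
    LINH.mul_inv_apply A' B' hAB z l
  have hy0 : y ≠ 0 := by
    intro h
    apply hz0
    funext l
    rw [← hAy l, h]
    simp
  have haev : ∀ G : MvPolynomial (Fin (n + 1)) C₀,
      aeval z (lin B' G) = aeval y G := fun G => LINH.aeval_lin B' G z
  refine hδ y hy0 (fun i => ?_) c b (fun j hj => ?_) (fun l hl => ?_) (fun i => ?_)
  · rw [← haev]
    exact hE i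
  · rw [← haev]
    exact hc j hj
  · rw [hAy l]
    exact hb l hl
  · have h1 : ∀ s, ∑ l, (∑ j, c j * aeval y (pderiv l (H j))) *
        algebraMap C₀ Ω (B' l s) + b s = 0 := by
      intro s
      have h2 := hcb s
      rw [← h2]
      congr 1
      simp only [pderiv_lin, map_sum, map_mul, haev, aeval_C, Finset.sum_mul, Finset.mul_sum]
      rw [Finset.sum_comm]
      refine Finset.sum_congr rfl fun j _ => Finset.sum_congr rfl fun l _ => ?_
      ring
    have h3 : ∀ l, ∑ s, algebraMap C₀ Ω (B' l s) *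
        algebraMap C₀ Ω (A' s i) = if l = i then 1 else 0 := by
      intro l
      have h4 := congrFun (congrFun hBA l) i
      rw [Matrix.mul_apply, Matrix.one_apply] at h4
      have h5 := congrArg (algebraMap C₀ Ω) h4
      rw [map_sum] at h5
      simp only [map_mul] at h5
      rw [h5]
      split_ifs <;> simp
    have h6 : ∑ s, (∑ l, (∑ j, c j * aeval y (pderiv l (H j))) *
        algebraMap C₀ Ω (B' l s) + b s) *
        algebraMap C₀ Ω (A' s i) = 0 := by
      refine Finset.sum_eq_zero fun s _ => ?_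
      rw [h1 s, zero_mul]
    rw [← h6]
    simp only [add_mul, Finset.sum_add_distrib]
    congr 1
    have h7 : ∑ s, (∑ l, (∑ j, c j * aeval y (pderiv l (H j))) *
        algebraMap C₀ Ω (B' l s)) *
        algebraMap C₀ Ω (A' s i) =
        ∑ l, (∑ j, c j * aeval y (pderiv l (H j))) *
          ∑ s, algebraMap C₀ Ω (B' l s) *
            algebraMap C₀ Ω (A' s i) := by
      simp only [Finset.sum_mul _ _ (algebraMap C₀ Ω (A' _ i))]
      rw [Finset.sum_comm]
      refine Finset.sum_congr rfl fun l _ => ?_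
      rw [Finset.mul_sum]
      refine Finset.sum_congr rfl fun s _ => ?_
      ring
    rw [h7]
    simp only [h3]
    simp

end BERX

open BER BERX in
theorem t_BERX (hB : S_BER1X) (hGen : S_GENX) : S_BERX := by
  intro k _ _ n s f F hF
  obtain ⟨hsat, q, d, H, hH, hprod, hz⟩ := hF
  have hinf : Infinite k := Infinite.of_injective ((↑) : ℕ → k) Nat.cast_injective
  have hcz : CharZero (AlgebraicClosure k) :=
    charZero_of_injective_algebraMap (algebraMap k (AlgebraicClosure k)).injective
  set f' : Fin s → MvPolynomial (Fin (n + 1)) (AlgebraicClosure k) :=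
    fun i => (f i).map (algebraMap k (AlgebraicClosure k)) with hf'
  set K : Fin (s + q) → MvPolynomial (Fin (n + 1)) (AlgebraicClosure k) := Fin.append f' H with hK
  have hKl : ∀ i, K (Fin.castAdd q i) = f' i := fun i => by rw [hK, Fin.append_left]
  have hKr : ∀ j, K (Fin.natAdd s j) = H j := fun j => by rw [hK, Fin.append_right]
  obtain ⟨δ, hδ0, hδ⟩ := open_setX hB K f' (by
    intro Ω _ _ z hz0 hE e he hgr
    obtain ⟨ha, hc⟩ := hz Ω z hz0 hE (fun i => e (Fin.castAdd q i)) (fun j => e (Fin.natAdd s j))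
      (fun j hj => by
        have h := he _ hj
        rw [hKr] at h
        exact h)
      (fun l => by
        have h := hgr l
        rw [Fin.sum_univ_add] at h
        simp only [hKl, hKr] at h
        exact h)
    funext j
    refine Fin.addCases (fun i => ?_) (fun i => ?_) j
    · exact congrFun ha i
    · exact congrFun hc i)
  obtain ⟨γ, hγ0, hγ⟩ := hGen k n s f hsat
  have hdet : (Matrix.mvPolynomialX (Fin (n + 1)) (Fin (n + 1)) (AlgebraicClosure k)).det ≠ 0 :=
    Matrix.det_mvPolynomialX_ne_zero _ _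
  set γ' : Fin (n + 1) → MvPolynomial (Sig n) (AlgebraicClosure k) := fun l =>
    rename (fun i => (l, i)) (γ.map (algebraMap k (AlgebraicClosure k))) with hγ'
  have hγ'0 : ∏ l, γ' l ≠ 0 := by
    refine Finset.prod_ne_zero_iff.2 fun l _ => ?_
    intro h
    have hinj : Function.Injective (fun i : Fin (n + 1) => (l, i)) := fun i j hij => by
      simpa using hij
    have h1 : γ.map (algebraMap k (AlgebraicClosure k)) = 0 :=
      rename_injective _ hinj (by rw [map_zero]; exact h)
    have h2 := map_injective (σ := Fin (n + 1)) (algebraMap k (AlgebraicClosure k))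
      (algebraMap k (AlgebraicClosure k)).injective
    exact hγ0 (h2 (by rw [h1, map_zero]))
  obtain ⟨α, hα⟩ := t_BER3 k (AlgebraicClosure k) (Sig n) (δ *
    (Matrix.mvPolynomialX (Fin (n + 1)) (Fin (n + 1)) (AlgebraicClosure k)).det * ∏ l, γ' l)
    (mul_ne_zero (mul_ne_zero hδ0 hdet) hγ'0)
  rw [map_mul, map_mul, mul_ne_zero_iff, mul_ne_zero_iff] at hα
  obtain ⟨⟨hα1, hα2⟩, hα3⟩ := hα
  have hgen : ∀ l, NZD f (∑ i, C (α (l, i)) * X i) := by
    intro l
    apply hγ (fun i => α (l, i))
    intro h
    rw [map_prod, Finset.prod_ne_zero_iff] at hα3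
    apply hα3 l (Finset.mem_univ _)
    rw [hγ']
    simp only
    rw [eval_rename, eval_map]
    have h1 : eval₂ (algebraMap k (AlgebraicClosure k))
        ((fun i => algebraMap k (AlgebraicClosure k) (α i)) ∘ fun i => (l, i)) γ =
        algebraMap k (AlgebraicClosure k) (eval (fun i => α (l, i)) γ) :=
      (eval₂_comp (algebraMap k (AlgebraicClosure k)) (fun i => α (l, i)) γ).symm
    rw [h1, h, map_zero]
  set A : Matrix (Fin (n + 1)) (Fin (n + 1)) k := Matrix.of fun l i => α (l, i) with hA
  have hdetA : A.det ≠ 0 := by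
    intro h
    apply hα2
    rw [RingHom.map_det]
    have h1 : (eval fun i => algebraMap k (AlgebraicClosure k) (α i)).mapMatrix
        (Matrix.mvPolynomialX (Fin (n + 1)) (Fin (n + 1)) (AlgebraicClosure k)) =
        (algebraMap k (AlgebraicClosure k)).mapMatrix A := by
      ext l i
      simp [hA, Matrix.mvPolynomialX]
    rw [h1, ← RingHom.map_det, h, map_zero]
  have hAu : IsUnit A.det := isUnit_iff_ne_zero.2 hdetA
  have hAg : A * A⁻¹ = 1 := Matrix.mul_nonsing_inv A hAu
  have hgA : A⁻¹ * A = 1 := Matrix.nonsing_inv_mul A hAu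
  have hAB : A.map (algebraMap k (AlgebraicClosure k)) *
      A⁻¹.map (algebraMap k (AlgebraicClosure k)) = 1 := by
    rw [← Matrix.map_mul, hAg]
    simp
  have hBA : A⁻¹.map (algebraMap k (AlgebraicClosure k)) *
      A.map (algebraMap k (AlgebraicClosure k)) = 1 := by
    rw [← Matrix.map_mul, hgA]
    simp
  refine ⟨A⁻¹, Matrix.isUnit_nonsing_inv_det A hAu, ?_, q, d,
    fun j => lin (A⁻¹.map (algebraMap k (AlgebraicClosure k))) (H j), ?_, ?_, ?_⟩
  · intro l
    have h := nzd_lin A A⁻¹ hAg hgA f _ (hgen l)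
    have h1 : (∑ i, C (α (l, i)) * X i : MvPolynomial (Fin (n + 1)) k) =
        ∑ i, C (A l i) * X i := by
      simp [hA]
    rw [h1, lin_form A A⁻¹ hAg] at h
    exact h
  · intro j
    exact LINH.lin_hom _ _ _ (hH j)
  · rw [map_lin, hprod]
    unfold lin
    rw [map_prod]
  · intro Ω _ _ z hz0 hE a c b hc hb hcb
    have hmap : ∀ i, (lin A⁻¹ (f i)).map (algebraMap k (AlgebraicClosure k)) =
        lin (A⁻¹.map (algebraMap k (AlgebraicClosure k))) (f' i) := fun i => map_lin _ _ _
    set a' : Sig n → Ω := fun p => algebraMap (AlgebraicClosure k) Ω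
      (algebraMap k (AlgebraicClosure k) (α p)) with ha'
    have haδ : aeval a' δ ≠ 0 := by
      have h1 : aeval a' δ = algebraMap (AlgebraicClosure k) Ω
          (eval (fun i => algebraMap k (AlgebraicClosure k) (α i)) δ) := by
        rw [← coe_aeval_eq_eval]
        exact aeval_algebraMap_apply Ω
          (fun i => algebraMap k (AlgebraicClosure k) (α i)) δ
      rw [h1]
      intro h
      exact hα1 ((map_eq_zero _).1 h)
    have haA : ∀ l i, a' (l, i) = algebraMap (AlgebraicClosure k) Ω
        (A.map (algebraMap k (AlgebraicClosure k)) l i) := by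
      intro l i
      simp [ha', hA]
    have hfin := trans_lin K f' (A.map (algebraMap k (AlgebraicClosure k)))
      (A⁻¹.map (algebraMap k (AlgebraicClosure k))) hAB hBA (Ω := Ω) (by
        intro y hy0 hEy c b hc hb hcb
        refine hδ Ω a' haδ y hy0 hEy c b hc (fun l hl => ?_) (fun i => ?_)
        · simp only [haA]
          exact hb l hl
        · simp only [haA]
          exact hcb i) z hz0 (fun i => by rw [← hmap]; exact hE i) (Fin.append a c) b
      (by
        intro j
        refine Fin.addCases (fun i => ?_) (fun i => ?_) j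
        · intro _
          rw [hKl, ← hmap]
          exact hE i
        · intro h
          rw [Fin.append_right] at h
          rw [hKr]
          exact hc i h)
      hb
      (by
        intro l
        rw [Fin.sum_univ_add]
        simp only [Fin.append_left, Fin.append_right, hKl, hKr]
        rw [← hcb l]
        simp only [hmap])
    obtain ⟨h1, h2⟩ := hfin
    refine ⟨?_, ?_, h2⟩
    · funext i
      have := congrFun h1 (Fin.castAdd q i)
      rw [Fin.append_left] at this
      exact this
    · funext j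
      have := congrFun h1 (Fin.natAdd s j)
      rw [Fin.append_right] at this
      exact this

end Pool.Agent.J4.H5.VJ
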