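import Pool.Agent.J4.H5.VJ.Defs4
import Pool.Agent.J4.H5.VJ.T_BERX

/-!
# Bertini's theorem for smooth projective varieties
-/

set_option autoImplicit false

open MvPolynomial Module

namespace Pool.Agent.J4.H5.VJ

namespace BERV

open BER BERX

section

variable {C₀ : Type} [Field C₀] {n q : ℕ} (H : Fin q → MvPolynomial (Fin (n + 1)) C₀)

/-- the equations, with a vector dual to the coefficients of the hyperplanes -/
noncomputable def PeqV : Iot n q → MvPolynomial (Tau n q) (MvPolynomial (Sig n) C₀)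
  | Sum.inl true => Peq H (Sum.inl true)
  | Sum.inl false => ∑ l, X (1, Sum.inr (Sum.inr l)) * X (0, Sum.inr (Sum.inr l)) - 1
  | Sum.inr s => Peq H (Sum.inr s)

variable {Ω : Type} [Field Ω] [Algebra C₀ Ω] (a : Sig n → Ω) (t : Tau n q → Ω)

/-- all equations hold -/
theorem peqV_iff :
    (∀ s, eval₂ (aeval a : MvPolynomial (Sig n) C₀ →ₐ[C₀] Ω).toRingHom t (PeqV H s) = 0) ↔
      (∑ i, t (1, Sum.inl i) * t (0, Sum.inl i) = 1 ∧
        ∑ l, t (1, Sum.inr (Sum.inr l)) * t (0, Sum.inr (Sum.inr l)) = 1 ∧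
        (∀ j, t (0, Sum.inr (Sum.inl j)) * aeval (fun i => t (0, Sum.inl i)) (H j) = 0) ∧
        (∀ l, t (0, Sum.inr (Sum.inr l)) * ∑ i, a (l, i) * t (0, Sum.inl i) = 0) ∧
        ∀ i, ∑ j, t (0, Sum.inr (Sum.inl j)) *
          aeval (fun i => t (0, Sum.inl i)) (pderiv i (H j)) +
          ∑ l, t (0, Sum.inr (Sum.inr l)) * a (l, i) = 0) := by
  have e1 : eval₂ (aeval a : MvPolynomial (Sig n) C₀ →ₐ[C₀] Ω).toRingHom t
      (PeqV H (Sum.inl true)) = ∑ i, t (1, Sum.inl i) * t (0, Sum.inl i) - 1 := by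
    simp [PeqV, Peq, eval₂_sum]
  have e2 : eval₂ (aeval a : MvPolynomial (Sig n) C₀ →ₐ[C₀] Ω).toRingHom t
      (PeqV H (Sum.inl false)) =
        ∑ l, t (1, Sum.inr (Sum.inr l)) * t (0, Sum.inr (Sum.inr l)) - 1 := by
    simp [PeqV, eval₂_sum]
  have e3 : ∀ j, eval₂ (aeval a : MvPolynomial (Sig n) C₀ →ₐ[C₀] Ω).toRingHom t
      (PeqV H (Sum.inr (Sum.inl j))) =
      t (0, Sum.inr (Sum.inl j)) * aeval (fun i => t (0, Sum.inl i)) (H j) := by
    intro j
    simp only [PeqV, Peq, eval₂_mul, eval₂_X]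
    rw [ev_aeval]
  have e4 : ∀ l, eval₂ (aeval a : MvPolynomial (Sig n) C₀ →ₐ[C₀] Ω).toRingHom t
      (PeqV H (Sum.inr (Sum.inr (Sum.inl l)))) =
      t (0, Sum.inr (Sum.inr l)) * ∑ i, a (l, i) * t (0, Sum.inl i) := by
    intro l
    simp [PeqV, Peq, eval₂_sum]
  have e5 : ∀ i, eval₂ (aeval a : MvPolynomial (Sig n) C₀ →ₐ[C₀] Ω).toRingHom t
      (PeqV H (Sum.inr (Sum.inr (Sum.inr i)))) =
      ∑ j, t (0, Sum.inr (Sum.inl j)) *
          aeval (fun i => t (0, Sum.inl i)) (pderiv i (H j)) +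
          ∑ l, t (0, Sum.inr (Sum.inr l)) * a (l, i) := by
    intro i
    simp only [PeqV, Peq, eval₂_add, eval₂_sum, eval₂_mul, eval₂_X, eval₂_C]
    congr 1
    · refine Finset.sum_congr rfl fun j _ => ?_
      rw [ev_aeval]
    · refine Finset.sum_congr rfl fun l _ => ?_
      simp
  constructor
  · intro h
    refine ⟨?_, ?_, fun j => ?_, fun l => ?_, fun i => ?_⟩
    · have := h (Sum.inl true); rw [e1] at this; exact sub_eq_zero.1 this
    · have := h (Sum.inl false); rw [e2] at this; exact sub_eq_zero.1 this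
    · rw [← e3]; exact h _
    · rw [← e4]; exact h _
    · rw [← e5]; exact h _
  · rintro ⟨h1, h2, h3, h4, h5⟩ s
    rcases s with (_ | _) | j | l | i
    · rw [e2, h2, sub_self]
    · rw [e1, h1, sub_self]
    · rw [e3, h3]
    · rw [e4, h4]
    · rw [e5, h5]

end

/-- the coefficients of general hyperplanes vanish -/
theorem open_setV (hB : S_BER1X) {C₀ : Type} [Field C₀] [CharZero C₀] {n q : ℕ}
    (H : Fin q → MvPolynomial (Fin (n + 1)) C₀) :
    ∃ δ : MvPolynomial (Sig n) C₀, δ ≠ 0 ∧ ∀ (Ω : Type) [Field Ω] [Algebra C₀ Ω] (a : Sig n → Ω),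
      aeval a δ ≠ 0 → ∀ z : Fin (n + 1) → Ω, z ≠ 0 →
      ∀ (c : Fin q → Ω) (b : Fin (n + 1) → Ω),
        (∀ j, c j ≠ 0 → aeval z (H j) = 0) → (∀ l, b l ≠ 0 → ∑ i, a (l, i) * z i = 0) →
        (∀ i, ∑ j, c j * aeval z (pderiv i (H j)) + ∑ l, b l * a (l, i) = 0) → b = 0 := by
  obtain ⟨δ, hδ0, hδ⟩ := t_BER2 C₀ (Sig n) (Tau n q) (Iot n q) (PeqV H) (by
    intro Ω _ _ a ha t
    by_contra hcon
    push Not at hcon
    obtain ⟨h1, h2, h3, h4, h5⟩ := (peqV_iff H a t).1 hcon
    have hz : (fun i => t (0, Sum.inl i)) ≠ 0 := by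
      intro h
      have h6 : ∀ i, t ((0 : Fin 2), Sum.inl i) = 0 := fun i => congrFun h i
      simp [h6] at h1
    have hb := hB C₀ Ω n q H (fun l i => a (l, i)) ha
      (fun i => t (0, Sum.inl i)) hz (fun j => t (0, Sum.inr (Sum.inl j)))
      (fun l => t (0, Sum.inr (Sum.inr l)))
      (fun j hj => (mul_eq_zero.1 (h3 j)).resolve_left hj)
      (fun l hl => (mul_eq_zero.1 (h4 l)).resolve_left hl) h5
    have hb' : ∀ l, t ((0 : Fin 2), Sum.inr (Sum.inr l)) = 0 := fun l => congrFun hb l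
    simp only [hb', mul_zero, Finset.sum_const_zero] at h2
    exact zero_ne_one h2)
  refine ⟨δ, hδ0, ?_⟩
  intro Ω _ _ a ha z hz c b hc hb hcb
  by_contra hcon
  obtain ⟨u, hu⟩ := exists_dual z hz
  obtain ⟨w, hw⟩ := exists_dual b hcon
  set t : Tau n q → Ω := fun p => if p.1 = 0 then Sum.elim z (Sum.elim c b) p.2 else
    Sum.elim u (Sum.elim 0 w) p.2 with ht
  obtain ⟨s', hs⟩ := hδ Ω a ha t
  apply hs
  refine (peqV_iff H a t).2 ⟨?_, ?_, ?_, ?_, ?_⟩ s'
  · simpa [ht] using hu
  · simpa [ht] using hw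
  · intro j
    by_cases h : c j = 0
    · simp [ht, h]
    · have := hc j h
      simp [ht, this]
  · intro l
    by_cases h : b l = 0
    · simp [ht, h]
    · have := hb l h
      simp [ht, this]
  · intro i
    have := hcb i
    simpa [ht] using this

/-- the relation between the gradients after the linear change of the coordinates -/
theorem rel_lin {C₀ : Type} [Field C₀] {n q : ℕ}
    (H : Fin q → MvPolynomial (Fin (n + 1)) C₀)
    (A' B' : Matrix (Fin (n + 1)) (Fin (n + 1)) C₀) (hBA : B' * A' = 1)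
    {Ω : Type} [Field Ω] [Algebra C₀ Ω] (z : Fin (n + 1) → Ω)
    (c : Fin q → Ω) (b : Fin (n + 1) → Ω)
    (hcb : ∀ i, ∑ j, c j * aeval z (pderiv i (lin B' (H j))) + b i = 0) (i : Fin (n + 1)) :
    ∑ j, c j * aeval (fun l => ∑ j, algebraMap C₀ Ω (B' l j) * z j) (pderiv i (H j)) +
      ∑ l, b l * algebraMap C₀ Ω (A' l i) = 0 := by
  set y : Fin (n + 1) → Ω := fun l => ∑ j, algebraMap C₀ Ω (B' l j) * z j with hy
  have haev : ∀ G : MvPolynomial (Fin (n + 1)) C₀,
      aeval z (lin B' G) = aeval y G := fun G => LINH.aeval_lin B' G z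
  have h1 : ∀ s, ∑ l, (∑ j, c j * aeval y (pderiv l (H j))) *
      algebraMap C₀ Ω (B' l s) + b s = 0 := by
    intro s
    have h2 := hcb s
    rw [← h2]
    congr 1
    simp only [pderiv_lin, map_sum, map_mul, haev, aeval_C, Finset.sum_mul, Finset.mul_sum]
    rw [Finset.sum_comm]
    refine Finset.sum_congr rfl fun j _ => Finset.sum_congr rfl fun l _ => ?_
    ring
  have h3 : ∀ l, ∑ s, algebraMap C₀ Ω (B' l s) *
      algebraMap C₀ Ω (A' s i) = if l = i then 1 else 0 := by
    intro l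
    have h4 := congrFun (congrFun hBA l) i
    rw [Matrix.mul_apply, Matrix.one_apply] at h4
    have h5 := congrArg (algebraMap C₀ Ω) h4
    rw [map_sum] at h5
    simp only [map_mul] at h5
    rw [h5]
    split_ifs <;> simp
  have h6 : ∑ s, (∑ l, (∑ j, c j * aeval y (pderiv l (H j))) *
      algebraMap C₀ Ω (B' l s) + b s) *
      algebraMap C₀ Ω (A' s i) = 0 := by
    refine Finset.sum_eq_zero fun s _ => ?_
    rw [h1 s, zero_mul]
  rw [← h6]
  simp only [add_mul, Finset.sum_add_distrib]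
  congr 1
  have h7 : ∑ s, (∑ l, (∑ j, c j * aeval y (pderiv l (H j))) *
      algebraMap C₀ Ω (B' l s)) *
      algebraMap C₀ Ω (A' s i) =
      ∑ l, (∑ j, c j * aeval y (pderiv l (H j))) *
        ∑ s, algebraMap C₀ Ω (B' l s) *
          algebraMap C₀ Ω (A' s i) := by
    simp only [Finset.sum_mul _ _ (algebraMap C₀ Ω (A' _ i))]
    rw [Finset.sum_comm]
    refine Finset.sum_congr rfl fun l _ => ?_
    rw [Finset.mul_sum]
    refine Finset.sum_congr rfl fun s _ => ?_
    ring
  rw [h7]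
  simp only [h3]
  simp

theorem lin_span {k : Type} [Field k] {n : ℕ} (g : Matrix (Fin (n + 1)) (Fin (n + 1)) k)
    {S : Set (MvPolynomial (Fin (n + 1)) k)} {P : MvPolynomial (Fin (n + 1)) k}
    (hP : P ∈ Ideal.span S) : lin g P ∈ Ideal.span (lin g '' S) := by
  have h := Ideal.mem_map_of_mem
    (bind₁ (fun i => ∑ j, C (g i j) * X j) :
      MvPolynomial (Fin (n + 1)) k →ₐ[k] MvPolynomial (Fin (n + 1)) k) hP
  rw [Ideal.map_span] at h
  exact h

theorem lin_mul' {k : Type} [Field k] {n : ℕ} (g : Matrix (Fin (n + 1)) (Fin (n + 1)) k)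
    (P Q : MvPolynomial (Fin (n + 1)) k) : lin g (P * Q) = lin g P * lin g Q := by
  unfold lin
  rw [map_mul]

theorem lin_prod {k : Type} [Field k] {n q : ℕ} (g : Matrix (Fin (n + 1)) (Fin (n + 1)) k)
    (P : Fin q → MvPolynomial (Fin (n + 1)) k) : lin g (∏ j, P j) = ∏ j, lin g (P j) := by
  unfold lin
  rw [map_prod]

/-- local equations after a linear change of the coordinates -/
theorem local_lin {C₀ Ω : Type} [Field C₀] [Field Ω] [Algebra C₀ Ω] {n t u q v s : ℕ}
    (f : Fin t → MvPolynomial (Fin (n + 1)) C₀) (G : Fin u → MvPolynomial (Fin (n + 1)) C₀)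
    (H : Fin q → Fin v → MvPolynomial (Fin (n + 1)) C₀)
    (B' : Matrix (Fin (n + 1)) (Fin (n + 1)) C₀) (z : Fin (n + 1) → Ω)
    (α : Fin s → Fin t) (ι : Fin q → Fin v)
    (h : LocalEquations f G H (fun l => ∑ j, algebraMap C₀ Ω (B' l j) * z j) α ι) :
    LocalEquations (fun i => lin B' (f i)) (fun i => lin B' (G i))
      (fun j i => lin B' (H j i)) z α ι := by
  obtain ⟨a, h1, h2, h3, h4, h5⟩ := h
  refine ⟨lin B' a, ?_, fun i => ?_, fun j i => ?_, fun i => ?_, ?_⟩
  · rw [LINH.aeval_lin B' a z]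
    exact h1
  · have h6 := lin_span B' (h2 i)
    rw [lin_mul', ← Set.range_comp] at h6
    exact h6
  · have h6 := lin_span B' (h3 j i)
    rw [lin_mul', Set.image_union, Set.image_singleton, ← Set.range_comp] at h6
    exact h6
  · have h6 := lin_span B' (h4 i)
    rw [lin_mul', Set.image_union, Set.image_singleton, ← Set.range_comp, lin_prod] at h6
    exact h6
  · have h6 := lin_span B' h5
    rw [lin_mul', Set.image_union, ← Set.range_comp, ← Set.range_comp, lin_prod] at h6
    exact h6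

end BERV

open BER BERX BERV in
theorem t_BERV (hB : S_BER1X) (hGen : S_GENX) : S_BERV := by
  classical
  intro k _ _ n t u s f G hF
  obtain ⟨hsat, q, v, d, H, hH, hz⟩ := hF
  have hinf : Infinite k := Infinite.of_injective ((↑) : ℕ → k) Nat.cast_injective
  have hcz : CharZero (AlgebraicClosure k) :=
    charZero_of_injective_algebraMap (algebraMap k (AlgebraicClosure k)).injective
  set f' : Fin t → MvPolynomial (Fin (n + 1)) (AlgebraicClosure k) :=
    fun i => (f i).map (algebraMap k (AlgebraicClosure k)) with hf'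
  set G' : Fin u → MvPolynomial (Fin (n + 1)) (AlgebraicClosure k) :=
    fun i => (G i).map (algebraMap k (AlgebraicClosure k)) with hG'
  obtain ⟨K, hK⟩ : ∃ K : (Fin s → Fin t) × (Fin q → Fin v) → Fin (s + q) →
      MvPolynomial (Fin (n + 1)) (AlgebraicClosure k), K = fun p =>
      Fin.append (fun i => f' (p.1 i)) (fun j => H j (p.2 j)) := ⟨_, rfl⟩
  have hKl : ∀ p i, K p (Fin.castAdd q i) = f' (p.1 i) := fun p i => by
    rw [hK]; exact Fin.append_left _ _ _
  have hKr : ∀ p j, K p (Fin.natAdd s j) = H j (p.2 j) := fun p j => by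
    rw [hK]; exact Fin.append_right _ _ _
  choose δ hδ0 hδ using fun p => open_setV hB (K p)
  obtain ⟨γ, hγ0, hγ⟩ := hGen k n t f hsat
  have hdet : (Matrix.mvPolynomialX (Fin (n + 1)) (Fin (n + 1)) (AlgebraicClosure k)).det ≠ 0 :=
    Matrix.det_mvPolynomialX_ne_zero _ _
  set γ' : Fin (n + 1) → MvPolynomial (Sig n) (AlgebraicClosure k) := fun l =>
    rename (fun i => (l, i)) (γ.map (algebraMap k (AlgebraicClosure k))) with hγ'
  have hγ'0 : ∏ l, γ' l ≠ 0 := by
    refine Finset.prod_ne_zero_iff.2 fun l _ => ?_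
    intro h
    have hinj : Function.Injective (fun i : Fin (n + 1) => (l, i)) := fun i j hij => by
      simpa using hij
    have h1 : γ.map (algebraMap k (AlgebraicClosure k)) = 0 :=
      rename_injective _ hinj (by rw [map_zero]; exact h)
    have h2 := map_injective (σ := Fin (n + 1)) (algebraMap k (AlgebraicClosure k))
      (algebraMap k (AlgebraicClosure k)).injective
    exact hγ0 (h2 (by rw [h1, map_zero]))
  have hδ'0 : ∏ p, δ p ≠ 0 := Finset.prod_ne_zero_iff.2 fun p _ => hδ0 p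
  obtain ⟨α₀, hα⟩ := t_BER3 k (AlgebraicClosure k) (Sig n) ((∏ p, δ p) *
    (Matrix.mvPolynomialX (Fin (n + 1)) (Fin (n + 1)) (AlgebraicClosure k)).det * ∏ l, γ' l)
    (mul_ne_zero (mul_ne_zero hδ'0 hdet) hγ'0)
  rw [map_mul, map_mul, mul_ne_zero_iff, mul_ne_zero_iff] at hα
  obtain ⟨⟨hα1, hα2⟩, hα3⟩ := hα
  have hα1' : ∀ p, eval (fun i => algebraMap k (AlgebraicClosure k) (α₀ i)) (δ p) ≠ 0 := by
    intro p
    rw [map_prod, Finset.prod_ne_zero_iff] at hα1
    exact hα1 p (Finset.mem_univ _)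
  have hgen : ∀ l, NZD f (∑ i, C (α₀ (l, i)) * X i) := by
    intro l
    apply hγ (fun i => α₀ (l, i))
    intro h
    rw [map_prod, Finset.prod_ne_zero_iff] at hα3
    apply hα3 l (Finset.mem_univ _)
    rw [hγ']
    simp only
    rw [eval_rename, eval_map]
    have h1 : eval₂ (algebraMap k (AlgebraicClosure k))
        ((fun i => algebraMap k (AlgebraicClosure k) (α₀ i)) ∘ fun i => (l, i)) γ =
        algebraMap k (AlgebraicClosure k) (eval (fun i => α₀ (l, i)) γ) :=
      (eval₂_comp (algebraMap k (AlgebraicClosure k)) (fun i => α₀ (l, i)) γ).symm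
    rw [h1, h, map_zero]
  set A : Matrix (Fin (n + 1)) (Fin (n + 1)) k := Matrix.of fun l i => α₀ (l, i) with hA
  have hdetA : A.det ≠ 0 := by
    intro h
    apply hα2
    rw [RingHom.map_det]
    have h1 : (eval fun i => algebraMap k (AlgebraicClosure k) (α₀ i)).mapMatrix
        (Matrix.mvPolynomialX (Fin (n + 1)) (Fin (n + 1)) (AlgebraicClosure k)) =
        (algebraMap k (AlgebraicClosure k)).mapMatrix A := by
      ext l i
      simp [hA, Matrix.mvPolynomialX]
    rw [h1, ← RingHom.map_det, h, map_zero]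
  have hAu : IsUnit A.det := isUnit_iff_ne_zero.2 hdetA
  have hAg : A * A⁻¹ = 1 := Matrix.mul_nonsing_inv A hAu
  have hgA : A⁻¹ * A = 1 := Matrix.nonsing_inv_mul A hAu
  set A' := A.map (algebraMap k (AlgebraicClosure k)) with hA'
  set B' := A⁻¹.map (algebraMap k (AlgebraicClosure k)) with hB'
  have hAB : A' * B' = 1 := by
    rw [hA', hB', ← Matrix.map_mul, hAg]
    simp
  have hBA : B' * A' = 1 := by
    rw [hA', hB', ← Matrix.map_mul, hgA]
    simp
  refine ⟨A⁻¹, Matrix.isUnit_nonsing_inv_det A hAu, ?_, q, v, d,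
    fun j i => lin B' (H j i), ?_, ?_⟩
  · intro l
    have h := nzd_lin A A⁻¹ hAg hgA f _ (hgen l)
    have h1 : (∑ i, C (α₀ (l, i)) * X i : MvPolynomial (Fin (n + 1)) k) =
        ∑ i, C (A l i) * X i := by
      simp [hA]
    rw [h1, lin_form A A⁻¹ hAg] at h
    exact h
  · intro j i
    exact LINH.lin_hom _ _ _ (hH j i)
  · intro Ω _ _ z hz0 hE
    have hmap : ∀ i, (lin A⁻¹ (f i)).map (algebraMap k (AlgebraicClosure k)) =
        lin B' (f' i) := fun i => map_lin _ _ _
    have hmapG : ∀ i, (lin A⁻¹ (G i)).map (algebraMap k (AlgebraicClosure k)) =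
        lin B' (G' i) := fun i => map_lin _ _ _
    simp only [hmap] at hE
    simp only [hmap, hmapG]
    obtain ⟨y, hy⟩ : ∃ y : Fin (n + 1) → Ω, y = fun l =>
      ∑ j, algebraMap (AlgebraicClosure k) Ω (B' l j) * z j := ⟨_, rfl⟩
    have hAy : ∀ l, ∑ i, algebraMap (AlgebraicClosure k) Ω (A' l i) * y i = z l := fun l => by
      rw [hy]
      exact LINH.mul_inv_apply A' B' hAB z l
    have hy0 : y ≠ 0 := by
      intro h
      apply hz0
      funext l
      rw [← hAy l, h]
      simp
    have haev : ∀ P : MvPolynomial (Fin (n + 1)) (AlgebraicClosure k),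
        aeval z (lin B' P) = aeval y P := fun P => by
      rw [hy]
      exact LINH.aeval_lin B' P z
    have hEy : ∀ i, aeval y (f' i) = 0 := fun i => by
      rw [← haev]
      exact hE i
    obtain ⟨α, ι, hloc, hlin⟩ := hz Ω y hy0 hEy
    refine ⟨α, ι, ?_, ?_⟩
    · rw [hy] at hloc
      exact local_lin f' G' H B' z α ι hloc
    · intro a c b hc hb hcb
      set a' : Sig n → Ω := fun p => algebraMap (AlgebraicClosure k) Ω
        (algebraMap k (AlgebraicClosure k) (α₀ p)) with ha'
      have haδ : aeval a' (δ (α, ι)) ≠ 0 := by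
        have h1 : aeval a' (δ (α, ι)) = algebraMap (AlgebraicClosure k) Ω
            (eval (fun i => algebraMap k (AlgebraicClosure k) (α₀ i)) (δ (α, ι))) := by
          rw [← coe_aeval_eq_eval]
          exact aeval_algebraMap_apply Ω
            (fun i => algebraMap k (AlgebraicClosure k) (α₀ i)) (δ (α, ι))
        rw [h1]
        intro h
        exact hα1' (α, ι) ((map_eq_zero _).1 h)
      have haA : ∀ l i, a' (l, i) = algebraMap (AlgebraicClosure k) Ω (A' l i) := by
        intro l i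
        simp [ha', hA', hA]
      have hrel := rel_lin (K (α, ι)) A' B' hBA z (Fin.append a c) b (by
        intro l
        rw [Fin.sum_univ_add]
        simp only [Fin.append_left, Fin.append_right, hKl, hKr]
        rw [← hcb l])
      rw [← hy] at hrel
      have hKv : ∀ j, Fin.append a c j ≠ 0 → aeval y (K (α, ι) j) = 0 := by
        intro j
        refine Fin.addCases (fun i => ?_) (fun i => ?_) j
        · intro _
          rw [hKl]
          exact hEy _
        · intro h
          rw [Fin.append_right] at h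
          rw [hKr, ← haev]
          exact hc i h
      have hb0 : b = 0 := by
        refine hδ (α, ι) Ω a' haδ y hy0 (Fin.append a c) b hKv (fun l hl => ?_) (fun i => ?_)
        · simp only [haA]
          rw [hAy l]
          exact hb l hl
        · simp only [haA]
          exact hrel i
      obtain ⟨h1, h2⟩ := hlin a c (fun j hj => by
        rw [← haev]
        exact hc j hj) (fun l => by
        have h := hrel l
        rw [Fin.sum_univ_add] at h
        simp only [Fin.append_left, Fin.append_right, hKl, hKr] at h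
        rw [hb0] at h
        simpa using h)
      exact ⟨h1, h2, hb0⟩

end Pool.Agent.J4.H5.VJ
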