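import Pool.Agent.J4.H5.VJ.T_BER
import Pool.Agent.J4.H5.VJ.Defs3

/-!
# Bertini's theorem for complete intersections: assembly (independent copy, helper23)
-/

set_option autoImplicit false
set_option maxHeartbeats 4000000

open MvPolynomial Module

namespace Pool.Agent.J4.H5.VJ

namespace BERXb

open BER

section

variable {C₀ : Type} [Field C₀] {n q s : ℕ} (f : Fin s → MvPolynomial (Fin (n + 1)) C₀)
  (H : Fin q → MvPolynomial (Fin (n + 1)) C₀)

/-- the equations with those of `X` -/
noncomputable def PeqX : Fin s ⊕ Iot n q → MvPolynomial (Tau n q) (MvPolynomial (Sig n) C₀)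
  | Sum.inl i => aeval (fun i => (X ((0 : Fin 2), Sum.inl i) :
      MvPolynomial (Tau n q) (MvPolynomial (Sig n) C₀))) (f i)
  | Sum.inr j => Peq H j

variable {Ω : Type} [Field Ω] [Algebra C₀ Ω] (a : Sig n → Ω) (t : Tau n q → Ω)

theorem peqX_iff :
    (∀ j, eval₂ (aeval a : MvPolynomial (Sig n) C₀ →ₐ[C₀] Ω).toRingHom t (PeqX f H j) = 0) ↔
      ((∀ i, aeval (fun i => t (0, Sum.inl i)) (f i) = 0) ∧
        ∀ j, eval₂ (aeval a : MvPolynomial (Sig n) C₀ →ₐ[C₀] Ω).toRingHom t (Peq H j) = 0) := by
  have e1 : ∀ i, eval₂ (aeval a : MvPolynomial (Sig n) C₀ →ₐ[C₀] Ω).toRingHom t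
      (PeqX f H (Sum.inl i)) = aeval (fun i => t (0, Sum.inl i)) (f i) := by
    intro i
    simp only [PeqX]
    rw [ev_aeval]
  constructor
  · intro h
    exact ⟨fun i => by rw [← e1]; exact h _, fun j => h (Sum.inr j)⟩
  · rintro ⟨h1, h2⟩ (i | j)
    · rw [e1, h1]
    · exact h2 j

end

/-- general hyperplanes are in general position -/
theorem open_setX (hB1 : S_BER1X) {C₀ : Type} [Field C₀] [CharZero C₀] {n q s : ℕ}
    (f : Fin s → MvPolynomial (Fin (n + 1)) C₀)
    (H : Fin q → MvPolynomial (Fin (n + 1)) C₀)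
    (hH : ∀ (Ω : Type) [Field Ω] [Algebra C₀ Ω] (z : Fin (n + 1) → Ω), z ≠ 0 →
      (∀ i, aeval z (f i) = 0) →
      ∀ c : Fin q → Ω, (∀ j, c j ≠ 0 → aeval z (H j) = 0) →
        (∀ i, ∑ j, c j * aeval z (pderiv i (H j)) = 0) → c = 0) :
    ∃ δ : MvPolynomial (Sig n) C₀, δ ≠ 0 ∧ ∀ (Ω : Type) [Field Ω] [Algebra C₀ Ω] (a : Sig n → Ω),
      aeval a δ ≠ 0 → ∀ z : Fin (n + 1) → Ω, z ≠ 0 → (∀ i, aeval z (f i) = 0) →
      ∀ (c : Fin q → Ω) (b : Fin (n + 1) → Ω),
        (∀ j, c j ≠ 0 → aeval z (H j) = 0) → (∀ l, b l ≠ 0 → ∑ i, a (l, i) * z i = 0) →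
        (∀ i, ∑ j, c j * aeval z (pderiv i (H j)) + ∑ l, b l * a (l, i) = 0) →
        c = 0 ∧ b = 0 := by
  obtain ⟨δ, hδ0, hδ⟩ := t_BER2 C₀ (Sig n) (Tau n q) (Fin s ⊕ Iot n q) (PeqX f H) (by
    intro Ω _ _ a ha t
    by_contra hcon
    push Not at hcon
    obtain ⟨h0, hP⟩ := (peqX_iff f H a t).1 hcon
    obtain ⟨h1, h2, h3, h4, h5⟩ := (peq_iff H a t).1 hP
    have hz : (fun i => t (0, Sum.inl i)) ≠ 0 := by
      intro h
      have h6 : ∀ i, t ((0 : Fin 2), Sum.inl i) = 0 := fun i => congrFun h i
      simp [h6] at h1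
    have hb := hB1 C₀ Ω n q H (fun l i => a (l, i)) ha
      (fun i => t (0, Sum.inl i)) hz (fun j => t (0, Sum.inr (Sum.inl j)))
      (fun l => t (0, Sum.inr (Sum.inr l)))
      (fun j hj => (mul_eq_zero.1 (h3 j)).resolve_left hj)
      (fun l hl => (mul_eq_zero.1 (h4 l)).resolve_left hl) h5
    have hb' : ∀ l, t ((0 : Fin 2), Sum.inr (Sum.inr l)) = 0 := fun l => congrFun hb l
    have hc := hH Ω (fun i => t (0, Sum.inl i)) hz h0 (fun j => t (0, Sum.inr (Sum.inl j)))
      (fun j hj => (mul_eq_zero.1 (h3 j)).resolve_left hj) (fun i => by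
        have h7 := h5 i
        simp only [hb', zero_mul, Finset.sum_const_zero, add_zero] at h7
        exact h7)
    have h6 : ∀ j, t ((0 : Fin 2), Sum.inr j) = 0 := by
      rintro (j | l)
      · exact congrFun hc j
      · exact hb' l
    simp only [h6, mul_zero, Finset.sum_const_zero] at h2
    exact zero_ne_one h2)
  refine ⟨δ, hδ0, ?_⟩
  intro Ω _ _ a ha z hz hf c b hc hb hcb
  by_contra hcon
  have hv : (Sum.elim c b : Fin q ⊕ Fin (n + 1) → Ω) ≠ 0 := by
    intro h
    apply hcon
    constructor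
    · funext j
      exact congrFun h (Sum.inl j)
    · funext l
      exact congrFun h (Sum.inr l)
  obtain ⟨u, hu⟩ := exists_dual z hz
  obtain ⟨w, hw⟩ := exists_dual (Sum.elim c b : Fin q ⊕ Fin (n + 1) → Ω) hv
  set t : Tau n q → Ω := fun p => if p.1 = 0 then Sum.elim z (Sum.elim c b) p.2 else
    Sum.elim u w p.2 with ht
  obtain ⟨j, hj⟩ := hδ Ω a ha t
  apply hj
  refine (peqX_iff f H a t).2 ⟨?_, ?_⟩ j
  · intro i
    simpa [ht] using hf i
  refine (peq_iff H a t).2 ⟨?_, ?_, ?_, ?_, ?_⟩
  · simpa [ht] using hu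
  · simpa [ht] using hw
  · intro j
    by_cases h : c j = 0
    · simp [ht, h]
    · have := hc j h
      simp [ht, this]
  · intro l
    by_cases h : b l = 0
    · simp [ht, h]
    · have := hb l h
      simp [ht, this]
  · intro i
    have := hcb i
    simpa [ht] using this

/-- composition of linear changes -/
theorem lin_lin {k : Type} [Field k] {n : ℕ} (A B : Matrix (Fin (n + 1)) (Fin (n + 1)) k)
    (hBA : B * A = 1) (F : MvPolynomial (Fin (n + 1)) k) : lin A (lin B F) = F := by
  unfold lin
  rw [bind₁_bind₁]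
  have h1 : (fun i => bind₁ (fun i => ∑ j, C (A i j) * X j)
      (∑ j, C (B i j) * X j : MvPolynomial (Fin (n + 1)) k)) = X := by
    funext i
    rw [map_sum]
    have h2 : ∀ j, bind₁ (fun i => ∑ j, C (A i j) * X j)
        (C (B i j) * X j : MvPolynomial (Fin (n + 1)) k) = ∑ l, C (B i j * A j l) * X l := by
      intro j
      rw [map_mul, bind₁_C_right, bind₁_X_right, Finset.mul_sum]
      refine Finset.sum_congr rfl fun l _ => ?_
      rw [C_mul, mul_assoc]
    simp only [h2]
    rw [Finset.sum_comm]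
    have h3 : ∀ l, ∑ j, (C (B i j * A j l) * X l : MvPolynomial (Fin (n + 1)) k) =
        if i = l then X l else 0 := by
      intro l
      rw [← Finset.sum_mul, ← map_sum]
      have h4 := congrFun (congrFun hBA i) l
      rw [Matrix.mul_apply, Matrix.one_apply] at h4
      rw [h4]
      split_ifs <;> simp
    simp only [h3]
    simp
  rw [h1]
  exact aeval_X_left_apply F

theorem span_map {k : Type} [Field k] {n s : ℕ} (A : Matrix (Fin (n + 1)) (Fin (n + 1)) k)
    (f : Fin s → MvPolynomial (Fin (n + 1)) k) (P : MvPolynomial (Fin (n + 1)) k)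
    (hP : P ∈ Ideal.span (Set.range f)) :
    lin A P ∈ Ideal.span (Set.range fun i => lin A (f i)) := by
  have h1 := Ideal.mem_map_of_mem
    (bind₁ (fun i => ∑ j, C (A i j) * X j) : MvPolynomial (Fin (n + 1)) k →ₐ[k] _).toRingHom hP
  rw [Ideal.map_span, ← Set.range_comp] at h1
  exact h1

theorem nzd_lin {k : Type} [Field k] {n s : ℕ} (A B : Matrix (Fin (n + 1)) (Fin (n + 1)) k)
    (hBA : B * A = 1) (hAB : A * B = 1) (f : Fin s → MvPolynomial (Fin (n + 1)) k)
    (l : Fin (n + 1)) (h : NZD f (∑ i, C (A l i) * X i)) :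
    NZD (fun i => lin B (f i)) (X l) := by
  intro P hP
  have h1 := span_map A (fun i => lin B (f i)) _ hP
  have h2 : (fun i => lin A (lin B (f i))) = f := by
    funext i
    exact lin_lin A B hBA (f i)
  have h3 : lin A (X l * P) = (∑ i, C (A l i) * X i) * lin A P := by
    unfold lin
    rw [map_mul, bind₁_X_right]
  rw [h2, h3] at h1
  have h4 := h _ h1
  have h5 := span_map B f _ h4
  rw [lin_lin B A hAB] at h5
  exact h5

end BERXb

open BERXb BER in
theorem t_BERXb (hB1 : S_BER1X) (hG : S_GENX) : S_BERX := by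
  intro k _ _ n s f F hF
  obtain ⟨hsat, q, d, H, hH, hprod, hz⟩ := hF
  have hcz : CharZero (AlgebraicClosure k) :=
    charZero_of_injective_algebraMap (algebraMap k (AlgebraicClosure k)).injective
  set φ := algebraMap k (AlgebraicClosure k) with hφ
  set f' : Fin s → MvPolynomial (Fin (n + 1)) (AlgebraicClosure k) := fun i => (f i).map φ with hf'
  set HH : Fin (s + q) → MvPolynomial (Fin (n + 1)) (AlgebraicClosure k) := Fin.append f' H with hHH
  have hHH' : ∀ (Ω : Type) [Field Ω] [Algebra (AlgebraicClosure k) Ω] (z : Fin (n + 1) → Ω), z ≠ 0 →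
      (∀ i, aeval z (f' i) = 0) →
      ∀ c : Fin (s + q) → Ω, (∀ j, c j ≠ 0 → aeval z (HH j) = 0) →
        (∀ i, ∑ j, c j * aeval z (pderiv i (HH j)) = 0) → c = 0 := by
    intro Ω _ _ z hz0 hfz c hc hs
    obtain ⟨h1, h2⟩ := hz Ω z hz0 hfz (fun i => c (Fin.castAdd q i)) (fun j => c (Fin.natAdd s j))
      (fun j hj => by
        have h3 := hc (Fin.natAdd s j) hj
        rwa [hHH, Fin.append_right] at h3)
      (fun l => by
        have h3 := hs l
        rw [Fin.sum_univ_add] at h3
        simp only [hHH, Fin.append_left, Fin.append_right] at h3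
        exact h3)
    funext j
    refine Fin.addCases (fun i => ?_) (fun i => ?_) j
    · exact congrFun h1 i
    · exact congrFun h2 i
  obtain ⟨δ, hδ0, hδ⟩ := open_setX hB1 f' HH hHH'
  obtain ⟨δG, hδG0, hδG⟩ := hG k n s f hsat
  have hdet : (Matrix.mvPolynomialX (Fin (n + 1)) (Fin (n + 1)) (AlgebraicClosure k)).det ≠ 0 :=
    Matrix.det_mvPolynomialX_ne_zero _ _
  set R : Fin (n + 1) → MvPolynomial (Sig n) (AlgebraicClosure k) := fun l =>
    (rename (fun i => ((l, i) : Sig n)) δG).map φ with hR
  have hR0 : ∀ l, R l ≠ 0 := by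
    intro l h
    have h1 : rename (fun i => ((l, i) : Sig n)) δG = 0 :=
      MvPolynomial.map_injective φ φ.injective (by rw [map_zero]; exact h)
    have h2 : Function.Injective (fun i => ((l, i) : Sig n)) := fun i j hij => (Prod.mk.inj hij).2
    exact hδG0 (rename_injective _ h2 (by rw [map_zero]; exact h1))
  obtain ⟨α, hα⟩ := t_BER3 k (AlgebraicClosure k) (Sig n) (δ *
    (Matrix.mvPolynomialX (Fin (n + 1)) (Fin (n + 1)) (AlgebraicClosure k)).det * ∏ l, R l)
    (mul_ne_zero (mul_ne_zero hδ0 hdet) (Finset.prod_ne_zero_iff.2 fun l _ => hR0 l))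
  rw [map_mul, map_mul, mul_ne_zero_iff, mul_ne_zero_iff] at hα
  obtain ⟨⟨hα1, hα2⟩, hα3⟩ := hα
  have hα4 : ∀ l, eval (fun i => α (l, i)) δG ≠ 0 := by
    intro l h
    apply hα3
    rw [map_prod]
    refine Finset.prod_eq_zero (Finset.mem_univ l) ?_
    have h1 : eval (fun i => φ (α i)) (R l) = φ (eval (fun i => α (l, i)) δG) := by
      rw [hR]
      simp only
      rw [eval_map, eval₂_rename]
      exact (MvPolynomial.eval₂_comp_left φ (RingHom.id k) (fun i => α (l, i)) δG).symm
    rw [h1, h, map_zero]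
  set A : Matrix (Fin (n + 1)) (Fin (n + 1)) k := Matrix.of fun l i => α (l, i) with hA
  have hdetA : A.det ≠ 0 := by
    intro h
    apply hα2
    rw [RingHom.map_det]
    have h1 : (eval fun i => algebraMap k (AlgebraicClosure k) (α i)).mapMatrix
        (Matrix.mvPolynomialX (Fin (n + 1)) (Fin (n + 1)) (AlgebraicClosure k)) =
        (algebraMap k (AlgebraicClosure k)).mapMatrix A := by
      ext l i
      simp [hA, Matrix.mvPolynomialX]
    rw [h1, ← RingHom.map_det, h, map_zero]
  have hAu : IsUnit A.det := isUnit_iff_ne_zero.2 hdetA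
  refine ⟨A⁻¹, Matrix.isUnit_nonsing_inv_det A hAu, ?_, q, d,
    fun j => lin (A⁻¹.map φ) (H j), ?_, ?_, ?_⟩
  · intro l
    exact nzd_lin A A⁻¹ (Matrix.nonsing_inv_mul A hAu) (Matrix.mul_nonsing_inv A hAu) f l
      (hδG (fun i => A l i) (hα4 l))
  · intro j
    exact LINH.lin_hom _ _ _ (hH j)
  · rw [map_lin, hprod]
    unfold lin
    rw [map_prod]
  · intro Ω _ _ z hz0 hfz a₀ c₀ b hc₀ hb hcb₀
    have hAB : A.map φ * A⁻¹.map φ = 1 := by
      rw [← Matrix.map_mul, Matrix.mul_nonsing_inv A hAu]
      simp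
    have hBA : A⁻¹.map φ * A.map φ = 1 := by
      rw [← Matrix.map_mul, Matrix.nonsing_inv_mul A hAu]
      simp
    set A' := A.map φ with hA'
    set B' := A⁻¹.map φ with hB'
    set y : Fin (n + 1) → Ω := fun l => ∑ j, algebraMap (AlgebraicClosure k) Ω (B' l j) * z j
      with hy
    have hAy : ∀ l, ∑ i, algebraMap (AlgebraicClosure k) Ω (A' l i) * y i = z l := fun l =>
      LINH.mul_inv_apply A' B' hAB z l
    have hy0 : y ≠ 0 := by
      intro h
      apply hz0
      funext l
      rw [← hAy l, h]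
      simp
    have haev : ∀ G : MvPolynomial (Fin (n + 1)) (AlgebraicClosure k),
        aeval z (lin B' G) = aeval y G := fun G => LINH.aeval_lin B' G z
    have hml : ∀ i, (lin A⁻¹ (f i)).map φ = lin B' (f' i) := fun i => map_lin φ A⁻¹ (f i)
    set a : Sig n → Ω := fun p => algebraMap (AlgebraicClosure k) Ω (φ (α p)) with ha
    have haδ : aeval a δ ≠ 0 := by
      have h1 : aeval a δ = algebraMap (AlgebraicClosure k) Ω
          (eval (fun i => φ (α i)) δ) := by
        rw [← coe_aeval_eq_eval]
        exact aeval_algebraMap_apply Ω (fun i => φ (α i)) δ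
      rw [h1]
      intro h
      exact hα1 ((map_eq_zero _).1 h)
    have haA : ∀ l i, a (l, i) = algebraMap (AlgebraicClosure k) Ω (A' l i) := by
      intro l i
      simp [ha, hA', hA]
    set c : Fin (s + q) → Ω := Fin.append a₀ c₀ with hcdef
    have hfy : ∀ i, aeval y (f' i) = 0 := by
      intro i
      have h1 := hfz i
      rw [hml, haev] at h1
      exact h1
    have hcb : ∀ l, ∑ j, c j * aeval z (pderiv l (lin B' (HH j))) + b l = 0 := by
      intro l
      have h1 := hcb₀ l
      rw [Fin.sum_univ_add]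
      simp only [hHH, hcdef, Fin.append_left, Fin.append_right]
      refine Eq.trans ?_ h1
      congr 2
      refine Finset.sum_congr rfl fun i _ => ?_
      rw [← hml]
    have hmain : c = 0 ∧ b = 0 := by
      refine hδ Ω a haδ y hy0 hfy c b (fun j => ?_) (fun l hl => ?_) (fun i => ?_)
      · refine Fin.addCases (fun i => ?_) (fun i => ?_) j
        · intro _
          rw [hHH, Fin.append_left]
          exact hfy i
        · intro hj
          rw [hcdef, Fin.append_right] at hj
          rw [hHH, Fin.append_right, ← haev]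
          exact hc₀ i hj
      · simp only [haA]
        rw [hAy l]
        exact hb l hl
      · have h1 : ∀ s, ∑ l, (∑ j, c j * aeval y (pderiv l (HH j))) *
            algebraMap (AlgebraicClosure k) Ω (B' l s) + b s = 0 := by
          intro s
          have h2 := hcb s
          rw [← h2]
          congr 1
          simp only [pderiv_lin, map_sum, map_mul, haev, aeval_C, Finset.sum_mul, Finset.mul_sum]
          rw [Finset.sum_comm]
          refine Finset.sum_congr rfl fun j _ => Finset.sum_congr rfl fun l _ => ?_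
          ring
        have h3 : ∀ l, ∑ s, algebraMap (AlgebraicClosure k) Ω (B' l s) *
            algebraMap (AlgebraicClosure k) Ω (A' s i) = if l = i then 1 else 0 := by
          intro l
          have h4 := congrFun (congrFun hBA l) i
          rw [Matrix.mul_apply, Matrix.one_apply] at h4
          have h5 := congrArg (algebraMap (AlgebraicClosure k) Ω) h4
          rw [map_sum] at h5
          simp only [map_mul] at h5
          rw [h5]
          split_ifs <;> simp
        have h6 : ∑ s, (∑ l, (∑ j, c j * aeval y (pderiv l (HH j))) *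
            algebraMap (AlgebraicClosure k) Ω (B' l s) + b s) *
            algebraMap (AlgebraicClosure k) Ω (A' s i) = 0 := by
          refine Finset.sum_eq_zero fun s _ => ?_
          rw [h1 s, zero_mul]
        rw [← h6]
        simp only [add_mul, Finset.sum_add_distrib, haA]
        congr 1
        have h7 : ∑ s, (∑ l, (∑ j, c j * aeval y (pderiv l (HH j))) *
            algebraMap (AlgebraicClosure k) Ω (B' l s)) *
            algebraMap (AlgebraicClosure k) Ω (A' s i) =
            ∑ l, (∑ j, c j * aeval y (pderiv l (HH j))) *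
              ∑ s, algebraMap (AlgebraicClosure k) Ω (B' l s) *
                algebraMap (AlgebraicClosure k) Ω (A' s i) := by
          simp only [Finset.sum_mul _ _ (algebraMap (AlgebraicClosure k) Ω (A' _ i))]
          rw [Finset.sum_comm]
          refine Finset.sum_congr rfl fun l _ => ?_
          rw [Finset.mul_sum]
          refine Finset.sum_congr rfl fun s _ => ?_
          ring
        rw [h7]
        simp only [h3]
        simp
    obtain ⟨h8, h9⟩ := hmain
    refine ⟨?_, ?_, h9⟩
    · funext i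
      have := congrFun h8 (Fin.castAdd q i)
      rwa [hcdef, Fin.append_left] at this
    · funext j
      have := congrFun h8 (Fin.natAdd s j)
      rwa [hcdef, Fin.append_right] at this

end Pool.Agent.J4.H5.VJ
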