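import Pool.Agent.J4.H5.VJ.NSXDefs
import Pool.Agent.J4.H5.VJ.NSXa

/-!
# CHART: the affine Nullstellensatz
-/

set_option autoImplicit false

open MvPolynomial NumberField IsDedekindDomain Module

namespace Pool.Agent.J4.H5.VJ

namespace NSXa

/-- no common zeros, over any field -/
theorem no_zero' {k : Type} [Field k] {n t u s : ℕ} {f : Fin t → MvPolynomial (Fin (n + 1)) k}
    {G : Fin u → MvPolynomial (Fin (n + 1)) k} (h : IsTransV s f G) {L : Type} [Field L]
    [Algebra k L] (x : Fin (n + 1) → L) (hx : x ≠ 0) (hf : ∀ i, aeval x (f i) = 0)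
    (v : (Fin s → Fin (n + 1)) → L) (hv : v ≠ 0)
    (hrel : ∀ (α : Fin s → Fin t) (b b' : Fin s → Fin (n + 1)),
      gaussRow f α x b * v b' = gaussRow f α x b' * v b) :
    ∃ b : Fin s → Fin (n + 1), (∏ j, x (b j)) * v b ≠ 0 := by
  classical
  let φ : AlgebraicClosure k →ₐ[k] AlgebraicClosure L := IsAlgClosed.lift
  let _ : Algebra (AlgebraicClosure k) (AlgebraicClosure L) := φ.toRingHom.toAlgebra
  have hev : ∀ p : MvPolynomial (Fin (n + 1)) k,
      aeval (fun l => algebraMap L (AlgebraicClosure L) (x l))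
        (p.map (algebraMap k (AlgebraicClosure k))) =
        algebraMap L (AlgebraicClosure L) (aeval x p) := by
    intro p
    induction p using MvPolynomial.induction_on with
    | C a =>
      rw [map_C, aeval_C, aeval_C]
      change φ (algebraMap k (AlgebraicClosure k) a) = _
      rw [AlgHom.commutes]
      exact IsScalarTower.algebraMap_apply k L (AlgebraicClosure L) a
    | add p q hp hq => rw [map_add, map_add, hp, hq, map_add, map_add]
    | mul_X p i hp => rw [map_mul, map_mul, hp, map_X, aeval_X, map_mul, aeval_X, map_mul]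
  have hz : (fun l => algebraMap L (AlgebraicClosure L) (x l)) ≠ 0 := by
    intro h0
    apply hx
    funext l
    exact (map_eq_zero (algebraMap L (AlgebraicClosure L))).1 (congrFun h0 l)
  have hw : (fun b => algebraMap L (AlgebraicClosure L) (v b)) ≠ 0 := by
    intro h0
    apply hv
    funext l
    exact (map_eq_zero (algebraMap L (AlgebraicClosure L))).1 (congrFun h0 l)
  have hrow : ∀ (a : Fin s → Fin t) (b : Fin s → Fin (n + 1)),
      (Matrix.of fun i j =>
        aeval (fun l => algebraMap L (AlgebraicClosure L) (x l))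
          (pderiv (b j) ((f (a i)).map (algebraMap k (AlgebraicClosure k))))).det =
      algebraMap L (AlgebraicClosure L) (gaussRow f a x b) := by
    intro a b
    unfold gaussRow
    rw [RingHom.map_det]
    congr 1
    ext i j
    simp only [RingHom.mapMatrix_apply, Matrix.map_apply, Matrix.of_apply]
    rw [pderiv_map, hev]
  obtain ⟨b, hb⟩ := no_zero h (AlgebraicClosure L) _ hz (fun i => by rw [hev, hf, map_zero]) _ hw
    (fun a b b2 => by rw [hrow, hrow, ← map_mul, ← map_mul, hrel])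
  refine ⟨b, fun h0 => hb ?_⟩
  rw [← map_prod, ← map_mul, h0, map_zero]

/-- the forms which are the minors -/
noncomputable def Jp {k : Type} [Field k] {n t s : ℕ} (f : Fin t → MvPolynomial (Fin (n + 1)) k)
    (α : Fin s → Fin t) (b : Fin s → Fin (n + 1)) : MvPolynomial (Fin (n + 1)) k :=
  (Matrix.of fun i j => pderiv (b j) (f (α i))).det

theorem aeval_Jp {k : Type} [Field k] {n t s : ℕ} (f : Fin t → MvPolynomial (Fin (n + 1)) k)
    (α : Fin s → Fin t) (b : Fin s → Fin (n + 1)) {L : Type} [Field L] [Algebra k L]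
    (x : Fin (n + 1) → L) : aeval x (Jp f α b) = gaussRow f α x b := by
  unfold Jp gaussRow
  rw [AlgHom.map_det]
  rfl

end NSXa

open NSXa

theorem t_CHART : S_CHART := by
  intro k _ _ n t u s f G d _ hT l b₀
  classical
  obtain ⟨ι₁, hι₁⟩ : ∃ g : MvPolynomial (Fin (n + 1)) k →ₐ[k]
      MvPolynomial (Fin (n + 1) ⊕ (Fin s → Fin (n + 1))) k, g = rename Sum.inl := ⟨_, rfl⟩
  obtain ⟨A, hA⟩ : ∃ A : Ideal (MvPolynomial (Fin (n + 1) ⊕ (Fin s → Fin (n + 1))) k),
      A = Ideal.span ({X (Sum.inl l) - 1, X (Sum.inr b₀) - 1} ∪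
        (Set.range fun i => rename Sum.inl (f i)) ∪
        Set.range fun p : (Fin s → Fin t) × (Fin s → Fin (n + 1)) × (Fin s → Fin (n + 1)) =>
          rename Sum.inl (Jp f p.1 p.2.1) * X (Sum.inr p.2.2) -
            rename Sum.inl (Jp f p.1 p.2.2) * X (Sum.inr p.2.1)) := ⟨_, rfl⟩
  obtain ⟨B, hB⟩ : ∃ B : Ideal (MvPolynomial (Fin (n + 1) ⊕ (Fin s → Fin (n + 1))) k),
      B = Ideal.span (Set.range fun b : Fin s → Fin (n + 1) =>
        (∏ j, X (Sum.inl (b j))) * X (Sum.inr b)) := ⟨_, rfl⟩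
  have hev : ∀ {L : Type} [Field L] [Algebra k L] (x : Fin (n + 1) → L)
      (v : (Fin s → Fin (n + 1)) → L) (p : MvPolynomial (Fin (n + 1)) k),
      aeval (Sum.elim x v) (rename Sum.inl p) = aeval x p := by
    intro L _ _ x v p
    rw [aeval_rename]
    rfl
  have htop : A ⊔ B = ⊤ := by
    by_contra hne
    obtain ⟨M, hM, hle⟩ := Ideal.exists_le_maximal _ hne
    let _ : Field (MvPolynomial (Fin (n + 1) ⊕ (Fin s → Fin (n + 1))) k ⧸ M) :=
      Ideal.Quotient.field M
    let x : Fin (n + 1) → (MvPolynomial (Fin (n + 1) ⊕ (Fin s → Fin (n + 1))) k ⧸ M) :=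
      fun i => Ideal.Quotient.mk M (X (Sum.inl i))
    let v : (Fin s → Fin (n + 1)) →
      (MvPolynomial (Fin (n + 1) ⊕ (Fin s → Fin (n + 1))) k ⧸ M) :=
      fun b => Ideal.Quotient.mk M (X (Sum.inr b))
    have hmk : ∀ p : MvPolynomial (Fin (n + 1) ⊕ (Fin s → Fin (n + 1))) k,
        aeval (Sum.elim x v) p = Ideal.Quotient.mk M p := by
      intro p
      have h1 : (aeval (Sum.elim x v) : MvPolynomial (Fin (n + 1) ⊕ (Fin s → Fin (n + 1))) k →ₐ[k]
          (MvPolynomial (Fin (n + 1) ⊕ (Fin s → Fin (n + 1))) k ⧸ M)) = Ideal.Quotient.mkₐ k M := by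
        apply MvPolynomial.algHom_ext
        rintro (i | b)
        · rw [aeval_X]; rfl
        · rw [aeval_X]; rfl
      exact congrArg (fun g => g p) h1
    have hz : ∀ p ∈ A, aeval (Sum.elim x v) p = 0 := fun p hp => by
      rw [hmk]
      exact Ideal.Quotient.eq_zero_iff_mem.2 (hle (Ideal.mem_sup_left hp))
    have hz' : ∀ p ∈ B, aeval (Sum.elim x v) p = 0 := fun p hp => by
      rw [hmk]
      exact Ideal.Quotient.eq_zero_iff_mem.2 (hle (Ideal.mem_sup_right hp))
    have hxl : x l = 1 := by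
      have h1 := hz (X (Sum.inl l) - 1) (by
        rw [hA]; exact Ideal.subset_span (Or.inl (Or.inl (Or.inl rfl))))
      rw [map_sub, map_one, aeval_X] at h1
      exact sub_eq_zero.1 h1
    have hvb : v b₀ = 1 := by
      have h1 := hz (X (Sum.inr b₀) - 1) (by
        rw [hA]; exact Ideal.subset_span (Or.inl (Or.inl (Or.inr rfl))))
      rw [map_sub, map_one, aeval_X] at h1
      exact sub_eq_zero.1 h1
    obtain ⟨b, hb⟩ := no_zero' hT x (fun h0 => by
        rw [h0] at hxl; exact zero_ne_one hxl) (fun i => by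
        rw [← hev x v]
        exact hz _ (by rw [hA]; exact Ideal.subset_span (Or.inl (Or.inr ⟨i, rfl⟩)))) v
      (fun h0 => by rw [h0] at hvb; exact zero_ne_one hvb) (fun α b b' => by
        have h1 := hz _ (by rw [hA]; exact Ideal.subset_span (Or.inr ⟨(α, b, b'), rfl⟩))
        rw [map_sub, map_mul, map_mul, hev, hev, aeval_Jp, aeval_Jp, aeval_X, aeval_X] at h1
        exact sub_eq_zero.1 h1)
    apply hb
    have h1 := hz' _ (by rw [hB]; exact Ideal.subset_span ⟨b, rfl⟩)
    rw [map_mul, map_prod, aeval_X] at h1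
    simp only [aeval_X] at h1
    exact h1
  have hone : (1 : MvPolynomial (Fin (n + 1) ⊕ (Fin s → Fin (n + 1))) k) ∈ A ⊔ B := by
    rw [htop]; trivial
  obtain ⟨a, ha, c, hc, hac⟩ := Submodule.mem_sup.1 hone
  rw [hB] at hc
  obtain ⟨Q, hQ⟩ := Ideal.mem_span_range_iff_exists_fun.1 hc
  refine ⟨Q, fun L _ _ x v hxl hvb hf hrel => ?_⟩
  have ha0 : aeval (Sum.elim x v) a = 0 := by
    have h1 : A ≤ RingHom.ker (aeval (Sum.elim x v) :
        MvPolynomial (Fin (n + 1) ⊕ (Fin s → Fin (n + 1))) k →ₐ[k] L) := by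
      rw [hA, Ideal.span_le]
      rintro p ((hp | ⟨i, rfl⟩) | ⟨⟨α, b, b'⟩, rfl⟩)
      · rcases hp with rfl | hp
        · change aeval (Sum.elim x v) _ = 0
          rw [map_sub, map_one, aeval_X, Sum.elim_inl, hxl, sub_self]
        · rw [Set.mem_singleton_iff] at hp
          subst hp
          change aeval (Sum.elim x v) _ = 0
          rw [map_sub, map_one, aeval_X, Sum.elim_inr, hvb, sub_self]
      · change aeval (Sum.elim x v) _ = 0
        rw [hev, hf]
      · change aeval (Sum.elim x v) _ = 0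
        rw [map_sub, map_mul, map_mul, hev, hev, aeval_Jp, aeval_Jp, aeval_X, aeval_X,
          Sum.elim_inr, Sum.elim_inr, hrel, sub_self]
    exact h1 ha
  have h2 := congrArg (aeval (Sum.elim x v)) hac
  rw [map_add, ha0, zero_add, ← hQ, map_sum, map_one] at h2
  rw [← h2]
  refine Finset.sum_congr rfl fun b _ => ?_
  rw [map_mul, map_mul, map_prod, aeval_X, Sum.elim_inr]
  simp only [aeval_X, Sum.elim_inl]

end Pool.Agent.J4.H5.VJ
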