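import Pool.Agent.J4.H5.VJ.Defs

/-! # The logarithmic discriminant in towers -/

set_option autoImplicit false

open MvPolynomial NumberField IsDedekindDomain Module

namespace Pool.Agent.J4.H5.VJ

theorem t_DISC : S_DISC := by
  intro k L L' _ _ _ _ _ _ _ _ _ _
  have : FiniteDimensional k L := Module.Finite.of_restrictScalars_finite ℚ k L
  have : FiniteDimensional L L' := Module.Finite.of_restrictScalars_finite ℚ L L'
  have h1 := natAbs_discr_eq_absNorm_differentIdeal_mul_natAbs_discr_pow L (𝓞 L) L' (𝓞 L')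
  have hd : ∀ (F : Type) [Field F] [NumberField F], (((discr F).natAbs : ℕ) : ℝ) = |(discr F : ℝ)| := by
    intro F _ _
    rw [Nat.cast_natAbs, Int.cast_abs]
  have hL : (0 : ℝ) < |(discr L : ℝ)| := abs_pos.mpr (by exact_mod_cast discr_ne_zero L)
  have hL' : (0 : ℝ) < |(discr L' : ℝ)| := abs_pos.mpr (by exact_mod_cast discr_ne_zero L')
  have h2 : |(discr L' : ℝ)| = (Ideal.absNorm (differentIdeal (𝓞 L) (𝓞 L')) : ℝ) *
      |(discr L : ℝ)| ^ finrank L L' := by
    rw [← hd, ← hd, h1]
    push_cast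
    ring
  have hN : (Ideal.absNorm (differentIdeal (𝓞 L) (𝓞 L')) : ℝ) ≠ 0 := by
    intro h
    rw [h, zero_mul] at h2
    exact hL'.ne' h2
  have hk : (finrank k L' : ℝ) = finrank k L * finrank L L' := by
    rw [← Nat.cast_mul, Module.finrank_mul_finrank]
  have h3 : (finrank k L : ℝ) ≠ 0 := by
    exact_mod_cast (Module.finrank_pos (R := k) (M := L)).ne'
  have h4 : (finrank L L' : ℝ) ≠ 0 := by
    exact_mod_cast (Module.finrank_pos (R := L) (M := L')).ne'
  unfold logDisc
  rw [h2, Real.log_mul hN (pow_pos hL _).ne', Real.log_pow, hk]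
  field_simp
  ring

end Pool.Agent.J4.H5.VJ
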