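import Pool.Agent.J4.H5.VJ.Defs

/-!
# The primes dividing `m` (piece DIV, helper50)
-/

set_option autoImplicit false

open MvPolynomial NumberField IsDedekindDomain Module

namespace Pool.Agent.J4.H5.VJ

theorem t_DIV : S_DIV := by
  classical
  intro m hm L _ _
  have hm0 : (m : 𝓞 L) ≠ 0 := by exact_mod_cast (by omega : m ≠ 0)
  set I : Ideal (𝓞 L) := Ideal.span {(m : 𝓞 L)} with hI
  have hI0 : I ≠ 0 := by
    rw [hI, Ne, Ideal.zero_eq_bot, Ideal.span_singleton_eq_bot]
    exact hm0
  have hfin : {v : HeightOneSpectrum (𝓞 L) | v.asIdeal ∣ I}.Finite := Ideal.finite_factors hI0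
  refine ⟨hfin.toFinset, fun v hv hmv => ?_, ?_⟩
  · apply hv
    rw [Set.Finite.mem_toFinset]
    show v.asIdeal ∣ I
    rw [Ideal.dvd_iff_le, hI, Ideal.span_le, Set.singleton_subset_iff]
    exact hmv
  · set T := hfin.toFinset with hT
    have hinj : Set.InjOn (fun v : HeightOneSpectrum (𝓞 L) => v.asIdeal) T :=
      fun v _ w _ h => HeightOneSpectrum.ext h
    have hdvd : ∏ v ∈ T, v.asIdeal ∣ I := by
      have h1 : ∏ p ∈ T.image (fun v : HeightOneSpectrum (𝓞 L) => v.asIdeal), p ∣ I := by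
        refine Finset.prod_primes_dvd I ?_ ?_
        · intro p hp
          obtain ⟨v, -, rfl⟩ := Finset.mem_image.1 hp
          exact v.prime
        · intro p hp
          obtain ⟨v, hv, rfl⟩ := Finset.mem_image.1 hp
          exact hfin.mem_toFinset.1 hv
      rwa [Finset.prod_image hinj] at h1
    have hN : Ideal.absNorm I = m ^ finrank ℚ L := by
      rw [hI, Ideal.absNorm_span_singleton]
      have h2 : Algebra.norm ℤ (m : 𝓞 L) = (m : ℤ) ^ finrank ℚ L := by
        have h3 := Algebra.norm_algebraMap (S := 𝓞 L) (m : ℤ)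
        rw [← RingOfIntegers.rank L]
        simpa using h3
      rw [h2, Int.natAbs_pow, Int.natAbs_natCast]
    have hle : Ideal.absNorm (∏ v ∈ T, v.asIdeal) ≤ m ^ finrank ℚ L := by
      rw [← hN]
      refine Nat.le_of_dvd ?_ (Ideal.absNorm_dvd_absNorm_of_le (Ideal.le_of_dvd hdvd))
      rw [hN]
      positivity
    have hpos : ∀ v ∈ T, (0 : ℝ) < (Ideal.absNorm v.asIdeal : ℝ) := by
      intro v _
      have : Ideal.absNorm v.asIdeal ≠ 0 := by
        rw [Ne, Ideal.absNorm_eq_zero_iff]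
        exact v.ne_bot
      positivity
    rw [← Real.log_prod (fun v hv => (hpos v hv).ne')]
    have h4 : ∏ v ∈ T, (Ideal.absNorm v.asIdeal : ℝ) = ((Ideal.absNorm (∏ v ∈ T, v.asIdeal) : ℕ) : ℝ) := by
      rw [map_prod]
      push_cast
      rfl
    rw [h4, ← Real.log_pow]
    refine Real.log_le_log ?_ (by exact_mod_cast hle)
    rw [← h4]
    exact Finset.prod_pos hpos

end Pool.Agent.J4.H5.VJ
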