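import Pool.Agent.J4.H5.VJ.Defs3

/-!
# FREE: `k[y]` is free over `k[y ^ m]`
-/

set_option autoImplicit false

open MvPolynomial NumberField IsDedekindDomain Module

namespace Pool.Agent.J4.H5.VJ

namespace FREE

variable {k : Type} [Field k] {n m : ℕ}

/-- the exponent vector of `a` -/
noncomputable def bf (a : Fin (n + 1) → Fin m) : Fin (n + 1) →₀ ℕ :=
  Finsupp.equivFunOnFinite.symm (fun l => (a l : ℕ))

theorem bf_apply (a : Fin (n + 1) → Fin m) (l : Fin (n + 1)) : bf a l = (a l : ℕ) := rfl

theorem mon (a : Fin (n + 1) → Fin m) :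
    (∏ l, (X l : MvPolynomial (Fin (n + 1)) k) ^ (a l : ℕ)) = monomial (bf a) 1 := by
  rw [monomial_eq, map_one, one_mul, Finsupp.prod_fintype _ _ (fun i => pow_zero _)]
  rfl

/-- the quotient -/
noncomputable def qu (m : ℕ) (s : Fin (n + 1) →₀ ℕ) : Fin (n + 1) →₀ ℕ :=
  s.mapRange (fun x => x / m) (Nat.zero_div m)

theorem qu_apply (s : Fin (n + 1) →₀ ℕ) (l : Fin (n + 1)) : qu m s l = s l / m := rfl

/-- the value on monomials -/
noncomputable def kf (k : Type) [Field k] {n m : ℕ} (a : Fin (n + 1) → Fin m)
    (s : Fin (n + 1) →₀ ℕ) : MvPolynomial (Fin (n + 1)) k := by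
  classical
  exact if (∀ l, s l % m = a l) then monomial (qu m s) 1 else 0

/-- the components -/
noncomputable def ka (k : Type) [Field k] {n m : ℕ} (a : Fin (n + 1) → Fin m) :
    MvPolynomial (Fin (n + 1)) k →ₗ[k] MvPolynomial (Fin (n + 1)) k :=
  (basisMonomials (Fin (n + 1)) k).constr k (kf k a)

theorem ka_mon (a : Fin (n + 1) → Fin m) (s : Fin (n + 1) →₀ ℕ) (c : k) :
    ka k a (monomial s c) = c • kf k a s := by
  have h1 : (monomial s c : MvPolynomial (Fin (n + 1)) k) =
      c • basisMonomials (Fin (n + 1)) k s := by
    rw [coe_basisMonomials]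
    simp [smul_monomial]
  rw [h1, map_smul]
  unfold ka
  rw [Basis.constr_basis]

theorem one (hm : 1 ≤ m) (H : MvPolynomial (Fin (n + 1)) k) :
    H = ∑ a : Fin (n + 1) → Fin m, (∏ l, X l ^ (a l : ℕ)) * expand m (ka k a H) := by
  classical
  induction H using MvPolynomial.induction_on' with
  | monomial s c =>
    have hlt : ∀ l, s l % m < m := fun l => Nat.mod_lt _ (by omega)
    rw [Finset.sum_eq_single (fun l => ⟨s l % m, hlt l⟩)]
    · have he : bf (fun l => (⟨s l % m, hlt l⟩ : Fin m)) + m • qu m s = s := by
        ext l
        rw [Finsupp.add_apply, bf_apply, Finsupp.smul_apply, qu_apply, smul_eq_mul]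
        exact Nat.mod_add_div (s l) m
      rw [ka_mon, mon]
      unfold kf
      rw [if_pos (fun l => rfl), map_smul, expand_monomial, mul_smul_comm,
        monomial_mul, one_mul, he]
      simp [smul_monomial]
    · intro a _ ha
      rw [ka_mon]
      unfold kf
      rw [if_neg, smul_zero, map_zero, mul_zero]
      intro h
      apply ha
      funext l
      exact Fin.ext (h l).symm
    · intro h
      exact absurd (Finset.mem_univ _) h
  | add p q hp hq =>
    conv_lhs => rw [hp, hq]
    rw [← Finset.sum_add_distrib]
    refine Finset.sum_congr rfl fun a _ => ?_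
    rw [map_add, map_add, mul_add]

theorem two (hm : 1 ≤ m) (a b : Fin (n + 1) → Fin m) (P : MvPolynomial (Fin (n + 1)) k) :
    ka k a ((∏ l, X l ^ (b l : ℕ)) * expand m P) = if a = b then P else 0 := by
  classical
  induction P using MvPolynomial.induction_on' with
  | monomial t c =>
    rw [expand_monomial, mon, monomial_mul, one_mul, ka_mon]
    have hmod : ∀ l, (bf b + m • t) l % m = b l := by
      intro l
      rw [Finsupp.add_apply, bf_apply, Finsupp.smul_apply, smul_eq_mul, Nat.add_mul_mod_self_left]
      exact Nat.mod_eq_of_lt (b l).2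
    unfold kf
    by_cases hab : a = b
    · subst hab
      have he : qu m (bf a + m • t) = t := by
        ext l
        rw [qu_apply, Finsupp.add_apply, bf_apply, Finsupp.smul_apply, smul_eq_mul,
          Nat.add_mul_div_left _ _ (by omega), Nat.div_eq_of_lt (a l).2, zero_add]
      rw [if_pos hmod, if_pos rfl, he]
      simp [smul_monomial]
    · rw [if_neg hab, if_neg, smul_zero]
      intro h
      apply hab
      funext l
      exact Fin.ext ((h l).symm.trans (hmod l))
  | add p q hp hq =>
    rw [map_add, mul_add, map_add, hp, hq]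
    split_ifs <;> simp

theorem three (hm : 1 ≤ m) (a : Fin (n + 1) → Fin m) (P H : MvPolynomial (Fin (n + 1)) k) :
    ka k a (expand m P * H) = P * ka k a H := by
  classical
  induction P using MvPolynomial.induction_on' with
  | monomial t c =>
    induction H using MvPolynomial.induction_on' with
    | monomial s d =>
      rw [expand_monomial, monomial_mul, ka_mon, ka_mon]
      have hmod : ∀ l, (m • t + s) l % m = s l % m := by
        intro l
        rw [Finsupp.add_apply, Finsupp.smul_apply, smul_eq_mul, add_comm,
          Nat.add_mul_mod_self_left]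
      unfold kf
      simp only [hmod]
      have he : qu m (m • t + s) = t + qu m s := by
        ext l
        rw [qu_apply, Finsupp.add_apply, Finsupp.smul_apply, smul_eq_mul, Finsupp.add_apply,
          qu_apply, add_comm, Nat.add_mul_div_left _ _ (by omega), add_comm]
      split_ifs with h
      · rw [he]
        simp [smul_monomial, monomial_mul]
      · rw [smul_zero, smul_zero, mul_zero]
    | add p q hp hq => rw [mul_add, map_add, hp, hq, map_add, mul_add]
  | add p q hp hq => rw [map_add, add_mul, map_add, hp, hq, add_mul]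

end FREE

theorem t_FREE : S_FREE := by
  intro k _ n m hm
  exact ⟨fun a => FREE.ka k a, fun H => FREE.one hm H, fun a b P => by
    classical
    rw [FREE.two hm a b P], fun a P H => FREE.three hm a P H⟩

end Pool.Agent.J4.H5.VJ
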