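import Pool.Agent.J4.H5.VJ.Defs3

/-!
# A general linear form is not a zero divisor modulo a saturated ideal
-/

set_option autoImplicit false

open MvPolynomial NumberField IsDedekindDomain Module

namespace Pool.Agent.J4.H5.VJ

namespace GENX

variable {k : Type} [Field k] {n : ℕ}

/-- the linear form with the coefficients `α`, as a linear map -/
noncomputable def lf : (Fin (n + 1) → k) →ₗ[k] MvPolynomial (Fin (n + 1)) k where
  toFun α := ∑ l, C (α l) * X l
  map_add' α β := by
    rw [← Finset.sum_add_distrib]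
    refine Finset.sum_congr rfl fun l _ => ?_
    rw [Pi.add_apply, C_add, add_mul]
  map_smul' c α := by
    rw [Finset.smul_sum]
    refine Finset.sum_congr rfl fun l _ => ?_
    rw [Pi.smul_apply, smul_eq_mul, C_mul, mul_assoc, RingHom.id_apply, smul_eq_C_mul]

theorem lf_single (l : Fin (n + 1)) : lf (k := k) (Pi.single l 1) = X l := by
  classical
  show ∑ j, C ((Pi.single l (1 : k) : Fin (n + 1) → k) j) * X j = X l
  rw [Finset.sum_eq_single l]
  · simp
  · intro j _ hj
    rw [Pi.single_eq_of_ne hj, C_0, zero_mul]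
  · intro h
    exact absurd (Finset.mem_univ l) h

/-- one prime ideal -/
theorem one_prime (p : Ideal (MvPolynomial (Fin (n + 1)) k))
    (hp : ∃ l, (X l : MvPolynomial (Fin (n + 1)) k) ∉ p) :
    ∃ δ : MvPolynomial (Fin (n + 1)) k, δ ≠ 0 ∧ ∀ α : Fin (n + 1) → k, eval α δ ≠ 0 → lf α ∉ p := by
  classical
  obtain ⟨l, hl⟩ := hp
  set W : Submodule k (Fin (n + 1) → k) := (p.restrictScalars k).comap lf with hW
  have hWt : W < ⊤ := by
    rw [lt_top_iff_ne_top]
    intro h
    have h1 : (Pi.single l 1 : Fin (n + 1) → k) ∈ W := by rw [h]; trivial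
    rw [hW, Submodule.mem_comap, lf_single] at h1
    exact hl h1
  obtain ⟨φ, hφ, hWφ⟩ := Submodule.exists_le_ker_of_lt_top W hWt
  have hev : ∀ α : Fin (n + 1) → k, eval α (lf (fun j => φ (Pi.single j 1))) = φ α := by
    intro α
    show eval α (∑ j, C (φ (Pi.single j 1)) * X j) = φ α
    rw [map_sum]
    have h1 : α = ∑ j, α j • (Pi.single j 1 : Fin (n + 1) → k) := by
      funext i
      rw [Finset.sum_apply, Finset.sum_eq_single i]
      · simp
      · intro j _ hj
        rw [Pi.smul_apply, Pi.single_eq_of_ne hj.symm, smul_zero]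
      · intro h
        exact absurd (Finset.mem_univ i) h
    conv_rhs => rw [h1, map_sum]
    refine Finset.sum_congr rfl fun j _ => ?_
    rw [map_mul, eval_C, eval_X, map_smul, smul_eq_mul, mul_comm]
  refine ⟨lf (fun j => φ (Pi.single j 1)), ?_, ?_⟩
  · intro h0
    apply hφ
    ext α
    have h1 := hev (Pi.single α 1)
    rw [h0, map_zero] at h1
    simpa using h1.symm
  · intro α hα hmem
    apply hα
    rw [hev]
    have h1 : α ∈ W := by
      rw [hW, Submodule.mem_comap]
      exact hmem
    exact LinearMap.mem_ker.mp (hWφ h1)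

end GENX

open GENX in
/-- GENX -/
theorem t_GENX : S_GENX := by
  intro k _ _ n s f hsat
  classical
  set I : Ideal (MvPolynomial (Fin (n + 1)) k) := Ideal.span (Set.range f) with hI
  have hfin : (associatedPrimes (MvPolynomial (Fin (n + 1)) k)
      (MvPolynomial (Fin (n + 1)) k ⧸ I)).Finite := associatedPrimes.finite _ _
  have hP : ∀ p ∈ associatedPrimes (MvPolynomial (Fin (n + 1)) k)
      (MvPolynomial (Fin (n + 1)) k ⧸ I), ∃ δ : MvPolynomial (Fin (n + 1)) k, δ ≠ 0 ∧
      ∀ α : Fin (n + 1) → k, eval α δ ≠ 0 → lf α ∉ p := by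
    intro p hp
    apply one_prime
    by_contra hcon
    push Not at hcon
    rw [AssociatedPrimes.mem_iff, isAssociatedPrime_iff] at hp
    obtain ⟨hpp, x, hx⟩ := hp
    obtain ⟨H, rfl⟩ := Ideal.Quotient.mk_surjective x
    have h1 : ∀ l, X l * H ∈ I := by
      intro l
      have h2 := hcon l
      rw [hx, Submodule.mem_colon_singleton, Submodule.mem_bot] at h2
      rw [← Ideal.Quotient.eq_zero_iff_mem, map_mul]
      exact h2
    have h3 : H ∈ I := hsat H h1
    apply hpp.ne_top
    rw [Ideal.eq_top_iff_one, hx, Submodule.mem_colon_singleton, Submodule.mem_bot, one_smul]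
    exact Ideal.Quotient.eq_zero_iff_mem.mpr h3
  choose! δ hδ0 hδ using hP
  refine ⟨∏ p ∈ hfin.toFinset, δ p, ?_, ?_⟩
  · rw [Finset.prod_ne_zero_iff]
    intro p hp
    exact hδ0 p (hfin.mem_toFinset.mp hp)
  · intro α hα H hH
    by_contra hHn
    have h1 : lf α ∈ ⋃ p ∈ associatedPrimes (MvPolynomial (Fin (n + 1)) k)
        (MvPolynomial (Fin (n + 1)) k ⧸ I), (p : Set (MvPolynomial (Fin (n + 1)) k)) := by
      rw [biUnion_associatedPrimes_eq_zero_divisors]
      refine ⟨Ideal.Quotient.mk I H, ?_, ?_⟩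
      · intro h0
        exact hHn (Ideal.Quotient.eq_zero_iff_mem.mp h0)
      · show Ideal.Quotient.mk I (lf α * H) = 0
        exact Ideal.Quotient.eq_zero_iff_mem.mpr hH
    rw [Set.mem_iUnion₂] at h1
    obtain ⟨p, hp, hmem⟩ := h1
    refine hδ p hp α ?_ hmem
    rw [map_prod, Finset.prod_ne_zero_iff] at hα
    exact hα p (hfin.mem_toFinset.mpr hp)

end Pool.Agent.J4.H5.VJ
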