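import Pool.Agent.J4.H5.VJ.Defs
import Pool.Agent.Helper259.HtExt

/-!
# Project VJ, piece HT: the height does not depend on the field of definition
-/

set_option autoImplicit false

open MvPolynomial NumberField IsDedekindDomain Module

namespace Pool.Agent.J4.H5.VJ

theorem t_HT : S_HT := by
  intro k L L' _ _ _ _ _ _ _ _ _ _ M x
  have : FiniteDimensional k L := Module.Finite.of_restrictScalars_finite ℚ k L
  have : FiniteDimensional L L' := Module.Finite.of_restrictScalars_finite ℚ L L'
  unfold height
  rw [Pool.Agent.Helper259.HtExt.logHeight_ext, ← Module.finrank_mul_finrank k L L']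
  have h1 : (finrank L L' : ℝ) ≠ 0 := by
    exact_mod_cast (Module.finrank_pos (R := L) (M := L')).ne'
  push_cast
  rw [mul_comm (finrank k L : ℝ), mul_div_mul_left _ _ h1]

end Pool.Agent.J4.H5.VJ
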