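import Pool.Agent.J4.H5.VJ.Defs

/-! # Piece KUM: the field generated by all `m`-th roots of finitely many numbers -/

set_option autoImplicit false

open Module

namespace Pool.Agent.J4.H5.VJ

namespace KUM

open Polynomial

/-- the polynomial `(X^m - 1) ∏ (X^m - x_i)` -/
noncomputable def P {L : Type} [Field L] {n : ℕ} (m : ℕ) (x : Fin n → L) : L[X] :=
  (X ^ m - C 1) * ∏ i, (X ^ m - C (x i))

theorem P_monic {L : Type} [Field L] {n m : ℕ} (hm : 1 ≤ m) (x : Fin n → L) : (P m x).Monic :=
  (monic_X_pow_sub_C _ (by omega)).mul (monic_prod_of_monic _ _ fun i _ =>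
    monic_X_pow_sub_C _ (by omega))

theorem P_natDegree {L : Type} [Field L] {n m : ℕ} (hm : 1 ≤ m) (x : Fin n → L) :
    (P m x).natDegree = m + n * m := by
  unfold P
  rw [Monic.natDegree_mul (monic_X_pow_sub_C _ (by omega)) (monic_prod_of_monic _ _ fun i _ =>
    monic_X_pow_sub_C _ (by omega)), natDegree_X_pow_sub_C,
    natDegree_prod_of_monic _ _ fun i _ => monic_X_pow_sub_C _ (by omega)]
  simp only [natDegree_X_pow_sub_C, Finset.sum_const, Finset.card_univ, Fintype.card_fin,
    smul_eq_mul]

theorem finrank_le {L : Type} [Field L] [CharZero L] (p : L[X]) :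
    finrank L p.SplittingField ≤ p.natDegree.factorial := by
  classical
  have : Normal L p.SplittingField := Normal.of_isSplittingField p
  have hG : IsGalois L p.SplittingField := {}
  rw [← IsGalois.card_aut_eq_finrank]
  have hf : Fact ((p.map (algebraMap L p.SplittingField)).Splits) := ⟨SplittingField.splits p⟩
  have h1 := Polynomial.Gal.galActionHom_injective p p.SplittingField
  have h2 : Nat.card p.Gal ≤ Nat.card (Equiv.Perm (p.rootSet p.SplittingField)) :=
    Nat.card_le_card_of_injective _ h1
  refine (show Nat.card (p.SplittingField ≃ₐ[L] p.SplittingField) ≤ _ from h2).trans ?_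
  rw [Nat.card_perm, Nat.card_coe_set_eq]
  exact Nat.factorial_le (ncard_rootSet_le p p.SplittingField)

theorem aeval_P {L E : Type} [Field L] [Field E] [Algebra L E] {n : ℕ} (m : ℕ) (x : Fin n → L)
    (θ : E) : aeval θ (P m x) = (θ ^ m - 1) * ∏ i, (θ ^ m - algebraMap L E (x i)) := by
  unfold P
  rw [map_mul, map_prod]
  simp

end KUM

open Polynomial KUM in
theorem t_KUM : S_KUM := by
  intro n m hm
  refine ⟨(m + n * m).factorial, ?_⟩
  intro L _ _ x hx
  have hc : CharZero (P m x).SplittingField := inferInstance
  have hN : NumberField (P m x).SplittingField := by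
    have : FiniteDimensional ℚ (P m x).SplittingField :=
      FiniteDimensional.trans ℚ L (P m x).SplittingField
    exact { to_charZero := hc, to_finiteDimensional := this }
  have hn : Normal L (P m x).SplittingField := Normal.of_isSplittingField (P m x)
  have hG : IsGalois L (P m x).SplittingField := {}
  have hroot : ∀ i, ∃ y : (P m x).SplittingField, y ^ m = algebraMap L _ (x i) := by
    intro i
    have h1 : ((X ^ m - C (x i)).map (algebraMap L (P m x).SplittingField)).Splits := by
      refine (SplittingField.splits (P m x)).of_dvd (map_ne_zero (P_monic hm x).ne_zero)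
        ((map_dvd_map' _).2 ?_)
      exact (Finset.dvd_prod_of_mem _ (Finset.mem_univ i)).mul_left _
    obtain ⟨y, hy⟩ := h1.exists_eval_eq_zero (by
      rw [degree_map, degree_X_pow_sub_C (by omega)]
      exact_mod_cast (by omega : m ≠ 0))
    refine ⟨y, ?_⟩
    simpa [sub_eq_zero] using hy
  choose y hy using hroot
  refine ⟨(P m x).SplittingField, inferInstance, hN, inferInstance, hG, y,
    (P m x).rootSet (P m x).SplittingField, ?_, hy, SplittingField.adjoin_rootSet _, ?_⟩
  · have := finrank_le (P m x)
    rwa [P_natDegree hm] at this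
  · intro θ hθ
    have h1 := aeval_eq_zero_of_mem_rootSet hθ
    rw [aeval_P] at h1
    rcases mul_eq_zero.1 h1 with h2 | h2
    · left
      exact sub_eq_zero.1 h2
    · right
      obtain ⟨i, _, hi⟩ := Finset.prod_eq_zero_iff.1 h2
      exact ⟨i, sub_eq_zero.1 hi⟩

end Pool.Agent.J4.H5.VJ
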