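import Pool.Agent.J4.H5.VJ.Defs

/-! # Piece NC: the power map preserves the condition of normal crossings -/

set_option autoImplicit false

open MvPolynomial Module

namespace Pool.Agent.J4.H5.VJ

namespace NC

theorem pderiv_expand {K σ : Type*} [Field K] [DecidableEq σ] (m : ℕ) (l : σ)
    (H : MvPolynomial σ K) :
    pderiv l (expand m H) = expand m (pderiv l H) * ((m : MvPolynomial σ K) * X l ^ (m - 1)) := by
  induction H using MvPolynomial.induction_on with
  | C a => simp
  | add p q hp hq => rw [map_add, map_add, hp, hq, map_add, map_add, add_mul]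
  | mul_X p i hp =>
    rw [map_mul, expand_X, pderiv_mul, hp, pderiv_mul, map_add, map_mul, map_mul, expand_X,
      pderiv_pow]
    by_cases h : i = l
    · subst h
      rw [pderiv_X_self, map_one]
      ring
    · rw [pderiv_X_of_ne h, map_zero]
      ring

theorem eval_pderiv_expand {K σ : Type*} [Field K] [DecidableEq σ] (m : ℕ) (l : σ)
    (H : MvPolynomial σ K) (z : σ → K) :
    eval z (pderiv l (expand m H)) = eval (z ^ m) (pderiv l H) * (m * z l ^ (m - 1)) := by
  rw [pderiv_expand, map_mul, eval_expand, map_mul, map_pow, eval_X, map_natCast]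

end NC

open NC in
theorem t_NC : S_NC := by
  intro k _ _ n m F hm hF
  obtain ⟨q, d, H, hH, hprod, hz⟩ := hF
  refine ⟨q, fun j => m * d j, fun j => expand m (H j), ?_, ?_, ?_⟩
  · intro j
    exact (hH j).aeval (fun i => X i ^ m) (fun i => isHomogeneous_X_pow i m)
  · rw [map_expand, hprod, map_prod]
  · intro z hz0 a b ha hb hab
    have hw0 : z ^ m ≠ 0 := by
      intro h
      apply hz0
      funext i
      have := congrFun h i
      rw [Pi.pow_apply, Pi.zero_apply] at this
      exact pow_eq_zero_iff (by omega) |>.1 this
    have hcz : CharZero (AlgebraicClosure k) :=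
      charZero_of_injective_algebraMap (algebraMap k (AlgebraicClosure k)).injective
    have hm0 : (m : AlgebraicClosure k) ≠ 0 := Nat.cast_ne_zero.2 (by omega)
    have key : ∀ l, (∑ j, a j * eval (z ^ m) (pderiv l (H j))) * (m * z l ^ (m - 1)) + b l = 0 := by
      intro l
      have := hab l
      simp only [eval_pderiv_expand] at this
      rw [Finset.sum_mul, ← this]
      congr 1
      exact Finset.sum_congr rfl fun j _ => by ring
    obtain ⟨h1, h2⟩ := hz (z ^ m) hw0 a
      (fun l => -∑ j, a j * eval (z ^ m) (pderiv l (H j)))
      (fun j hj => by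
        have := ha j hj
        rw [eval_expand] at this
        exact this)
      (fun l hl => by
        by_contra hzl
        rw [Pi.pow_apply] at hzl
        have hzl' : z l ≠ 0 := fun h => hzl (by rw [h, zero_pow (by omega)])
        have hbl : b l = 0 := by
          by_contra hbl
          exact hzl' (hb l hbl)
        have h3 := key l
        rw [hbl, add_zero] at h3
        rcases mul_eq_zero.1 h3 with h4 | h4
        · exact hl (by rw [h4, neg_zero])
        · rcases mul_eq_zero.1 h4 with h5 | h5
          · exact hm0 h5
          · exact hzl' (eq_zero_of_pow_eq_zero h5))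
      (fun l => by ring)
    refine ⟨h1, ?_⟩
    funext l
    have h3 := key l
    rw [h1] at h3
    simpa using h3

end Pool.Agent.J4.H5.VJ
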