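import Pool.Agent.J4.H5.VJ.Defs2

/-! # Piece NC2: the power map preserves the condition of normal crossings (all extension fields) -/

set_option autoImplicit false

open MvPolynomial Module

namespace Pool.Agent.J4.H5.VJ

namespace NC2

theorem pderiv_expand {K σ : Type*} [Field K] [DecidableEq σ] (m : ℕ) (l : σ)
    (H : MvPolynomial σ K) :
    pderiv l (expand m H) = expand m (pderiv l H) * ((m : MvPolynomial σ K) * X l ^ (m - 1)) := by
  induction H using MvPolynomial.induction_on with
  | C a => simp
  | add p q hp hq => rw [map_add, map_add, hp, hq, map_add, map_add, add_mul]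
  | mul_X p i hp =>
    rw [map_mul, expand_X, pderiv_mul, hp, pderiv_mul, map_add, map_mul, map_mul, expand_X,
      pderiv_pow]
    by_cases h : i = l
    · subst h
      rw [pderiv_X_self, map_one]
      ring
    · rw [pderiv_X_of_ne h, map_zero]
      ring

theorem aeval_exp {K Ω σ : Type*} [Field K] [Field Ω] [Algebra K Ω] (m : ℕ)
    (H : MvPolynomial σ K) (z : σ → Ω) : aeval z (expand m H) = aeval (z ^ m) H := by
  induction H using MvPolynomial.induction_on with
  | C a => simp
  | add p q hp hq => simp only [map_add, hp, hq]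
  | mul_X p i hp => simp only [map_mul, hp, expand_X, map_pow, aeval_X, Pi.pow_apply]

theorem aeval_pderiv_expand {K Ω σ : Type*} [Field K] [Field Ω] [Algebra K Ω] [DecidableEq σ]
    (m : ℕ) (l : σ) (H : MvPolynomial σ K) (z : σ → Ω) :
    aeval z (pderiv l (expand m H)) = aeval (z ^ m) (pderiv l H) * (m * z l ^ (m - 1)) := by
  rw [pderiv_expand, map_mul, aeval_exp, map_mul, map_pow, aeval_X, map_natCast]

theorem snc_of_trans {k : Type} [Field k] {n : ℕ} {F : MvPolynomial (Fin (n + 1)) k}
    (h : IsTrans F) : IsSNC F := by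
  obtain ⟨q, d, H, hH, hprod, hz⟩ := h
  refine ⟨q, d, H, hH, hprod, fun Ω _ _ z hz0 c hc hs => ?_⟩
  exact (hz Ω z hz0 c 0 hc (fun l hl => absurd rfl hl) (fun i => by
    rw [hs i, Pi.zero_apply, add_zero])).1

theorem trans {k : Type} [Field k] [CharZero k] {n m : ℕ} {F : MvPolynomial (Fin (n + 1)) k}
    (hm : 1 ≤ m) (hF : IsTrans F) : IsTrans (expand m F) := by
  obtain ⟨q, d, H, hH, hprod, hz⟩ := hF
  refine ⟨q, fun j => m * d j, fun j => expand m (H j), ?_, ?_, ?_⟩
  · intro j
    exact (hH j).aeval (fun i => X i ^ m) (fun i => isHomogeneous_X_pow i m)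
  · rw [map_expand, hprod, map_prod]
  · intro Ω _ _ z hz0 a b ha hb hab
    have hw0 : z ^ m ≠ 0 := by
      intro h
      apply hz0
      funext i
      have := congrFun h i
      rw [Pi.pow_apply, Pi.zero_apply] at this
      exact pow_eq_zero_iff (by omega) |>.1 this
    have hcz : CharZero (AlgebraicClosure k) :=
      charZero_of_injective_algebraMap (algebraMap k (AlgebraicClosure k)).injective
    have hczΩ : CharZero Ω :=
      charZero_of_injective_algebraMap (algebraMap (AlgebraicClosure k) Ω).injective
    have hm0 : (m : Ω) ≠ 0 := Nat.cast_ne_zero.2 (by omega)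
    have key : ∀ l, (∑ j, a j * aeval (z ^ m) (pderiv l (H j))) * (m * z l ^ (m - 1)) + b l = 0 := by
      intro l
      have := hab l
      simp only [aeval_pderiv_expand] at this
      rw [Finset.sum_mul, ← this]
      congr 1
      exact Finset.sum_congr rfl fun j _ => by ring
    obtain ⟨h1, h2⟩ := hz Ω (z ^ m) hw0 a
      (fun l => -∑ j, a j * aeval (z ^ m) (pderiv l (H j)))
      (fun j hj => by
        have := ha j hj
        rw [aeval_exp] at this
        exact this)
      (fun l hl => by
        by_contra hzl
        rw [Pi.pow_apply] at hzl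
        have hzl' : z l ≠ 0 := fun h => hzl (by rw [h, zero_pow (by omega)])
        have hbl : b l = 0 := by
          by_contra hbl
          exact hzl' (hb l hbl)
        have h3 := key l
        rw [hbl, add_zero] at h3
        rcases mul_eq_zero.1 h3 with h4 | h4
        · exact hl (by rw [h4, neg_zero])
        · rcases mul_eq_zero.1 h4 with h5 | h5
          · exact hm0 h5
          · exact hzl' (eq_zero_of_pow_eq_zero h5))
      (fun l => by ring)
    refine ⟨h1, ?_⟩
    funext l
    have h3 := key l
    rw [h1] at h3
    simpa using h3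

end NC2

theorem t_NC2 : S_NC2 := by
  intro k _ _ n m F e hm hF hT
  have h := NC2.trans hm hT
  exact ⟨hF.aeval (fun i => X i ^ m) (fun i => isHomogeneous_X_pow i m), h, NC2.snc_of_trans h⟩

end Pool.Agent.J4.H5.VJ
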