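import Pool.Agent.J4.H5.VJ.Defs4
import Pool.Agent.J4.H5.VJ.T_NC2

/-! # Piece NCV: normal crossings with local equations and the power map -/

set_option autoImplicit false

open MvPolynomial Module

namespace Pool.Agent.J4.H5.VJ

namespace NCVAux

theorem span_expand {C σ : Type*} [Field C] (m : ℕ) {S : Set (MvPolynomial σ C)}
    {P : MvPolynomial σ C} (h : P ∈ Ideal.span S) :
    expand m P ∈ Ideal.span ((fun Q => expand m Q) '' S) := by
  have h1 := Ideal.mem_map_of_mem (expand m : MvPolynomial σ C →ₐ[C] MvPolynomial σ C) h
  rw [Ideal.map_span] at h1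
  exact h1

theorem local_expand {C Ω : Type} [Field C] [Field Ω] [Algebra C Ω] {n t u q v s : ℕ} (m : ℕ)
    {f : Fin t → MvPolynomial (Fin (n + 1)) C} {G : Fin u → MvPolynomial (Fin (n + 1)) C}
    {H : Fin q → Fin v → MvPolynomial (Fin (n + 1)) C} {z : Fin (n + 1) → Ω}
    {α : Fin s → Fin t} {ι : Fin q → Fin v} (h : LocalEquations f G H (z ^ m) α ι) :
    LocalEquations (fun i => expand m (f i)) (fun i => expand m (G i))
      (fun j i => expand m (H j i)) z α ι := by
  obtain ⟨a, ha, h1, h2, h3, h4⟩ := h
  refine ⟨expand m a, ?_, fun i => ?_, fun j i => ?_, fun i => ?_, ?_⟩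
  · rw [NC2.aeval_exp]
    exact ha
  · have h5 := span_expand m (h1 i)
    rw [← Set.range_comp, map_mul] at h5
    exact h5
  · have h5 := span_expand m (h2 j i)
    rw [Set.image_union, ← Set.range_comp, Set.image_singleton, map_mul] at h5
    exact h5
  · have h5 := span_expand m (h3 i)
    rw [Set.image_union, ← Set.range_comp, Set.image_singleton, map_mul] at h5
    simp only [map_prod] at h5
    exact h5
  · have h5 := span_expand m h4
    rw [Set.image_union, ← Set.range_comp, ← Set.range_comp, map_mul, map_prod] at h5
    exact h5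

end NCVAux

theorem t_NCV : S_NCV := by
  intro k _ _ n t u s m f G hm hX hT
  obtain ⟨-, q, v, d, H, hH, hz⟩ := hT
  refine ⟨hX, q, v, fun j => m * d j, fun j i => expand m (H j i), ?_, ?_⟩
  · intro j i
    exact (hH j i).aeval (fun i => X i ^ m) (fun i => isHomogeneous_X_pow i m)
  · intro Ω _ _ z hz0 hfz
    have hw0 : z ^ m ≠ 0 := by
      intro h
      apply hz0
      funext i
      have := congrFun h i
      rw [Pi.pow_apply, Pi.zero_apply] at this
      exact pow_eq_zero_iff (by omega) |>.1 this
    obtain ⟨α, ι, hloc, hind⟩ := hz Ω (z ^ m) hw0 (fun i => by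
      have := hfz i
      rw [map_expand, NC2.aeval_exp] at this
      exact this)
    refine ⟨α, ι, ?_, fun a c b hc hb hab => ?_⟩
    · have h1 := NCVAux.local_expand m hloc
      simp only [map_expand]
      exact h1
    have hcz : CharZero (AlgebraicClosure k) :=
      charZero_of_injective_algebraMap (algebraMap k (AlgebraicClosure k)).injective
    have hczΩ : CharZero Ω :=
      charZero_of_injective_algebraMap (algebraMap (AlgebraicClosure k) Ω).injective
    have hm0 : (m : Ω) ≠ 0 := Nat.cast_ne_zero.2 (by omega)
    have key : ∀ l, (∑ i, a i * aeval (z ^ m)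
        (pderiv l ((f (α i)).map (algebraMap k (AlgebraicClosure k)))) +
        ∑ j, c j * aeval (z ^ m) (pderiv l (H j (ι j)))) * (m * z l ^ (m - 1)) + b l = 0 := by
      intro l
      have := hab l
      simp only [map_expand, NC2.aeval_pderiv_expand] at this
      rw [add_mul, Finset.sum_mul, Finset.sum_mul, ← this]
      congr 1
      congr 1
      · exact Finset.sum_congr rfl fun j _ => by ring
      · exact Finset.sum_congr rfl fun j _ => by ring
    obtain ⟨h1, h2, -⟩ := hind a c
      (fun l => -(∑ i, a i * aeval (z ^ m)
        (pderiv l ((f (α i)).map (algebraMap k (AlgebraicClosure k)))) +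
        ∑ j, c j * aeval (z ^ m) (pderiv l (H j (ι j)))))
      (fun j hj => by
        have := hc j hj
        rw [NC2.aeval_exp] at this
        exact this)
      (fun l hl => by
        by_contra hzl
        rw [Pi.pow_apply] at hzl
        have hzl' : z l ≠ 0 := fun h => hzl (by rw [h, zero_pow (by omega)])
        have hbl : b l = 0 := by
          by_contra hbl
          exact hzl' (hb l hbl)
        have h3 := key l
        rw [hbl, add_zero] at h3
        rcases mul_eq_zero.1 h3 with h4 | h4
        · exact hl (by rw [h4, neg_zero])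
        · rcases mul_eq_zero.1 h4 with h5 | h5
          · exact hm0 h5
          · exact hzl' (eq_zero_of_pow_eq_zero h5))
      (fun l => by ring)
    refine ⟨h1, h2, ?_⟩
    funext l
    have h3 := key l
    rw [h1, h2] at h3
    simpa using h3

end Pool.Agent.J4.H5.VJ
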