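import Pool.Agent.J4.H5.VJ.Defs4

/-! # Piece NCW: the coordinate hyperplanes can be omitted -/

set_option autoImplicit false

open MvPolynomial Module

namespace Pool.Agent.J4.H5.VJ

theorem t_NCW : S_NCW := by
  intro k _ n t u s f G hT
  obtain ⟨hX, q, v, d, H, hH, hz⟩ := hT
  refine ⟨fun P hP => hX 0 P (hP 0), q, v, d, H, hH, fun Ω _ _ z hz0 hfz => ?_⟩
  obtain ⟨α, ι, hloc, hind⟩ := hz Ω z hz0 hfz
  refine ⟨α, ι, hloc, fun a c hc hac => ?_⟩
  obtain ⟨h1, h2, -⟩ := hind a c 0 hc (fun l hl => absurd rfl hl) (fun l => by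
    rw [hac l, Pi.zero_apply, add_zero])
  exact ⟨h1, h2⟩

end Pool.Agent.J4.H5.VJ
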