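import Pool.Agent.J4.H5.VJ.Defs3
import Pool.Agent.J4.H5.VJ.T_NC2

/-! # Piece NCX: the power map preserves the condition of normal crossings on `X` -/

set_option autoImplicit false

open MvPolynomial Module

namespace Pool.Agent.J4.H5.VJ

theorem t_NCX : S_NCX := by
  intro k _ _ n s m f F hm hX hT
  obtain ⟨-, q, d, H, hH, hprod, hz⟩ := hT
  refine ⟨hX, q, fun j => m * d j, fun j => expand m (H j), ?_, ?_, ?_⟩
  · intro j
    exact (hH j).aeval (fun i => X i ^ m) (fun i => isHomogeneous_X_pow i m)
  · rw [map_expand, hprod, map_prod]
  · intro Ω _ _ z hz0 hfz a c b hc hb hab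
    have hw0 : z ^ m ≠ 0 := by
      intro h
      apply hz0
      funext i
      have := congrFun h i
      rw [Pi.pow_apply, Pi.zero_apply] at this
      exact pow_eq_zero_iff (by omega) |>.1 this
    have hcz : CharZero (AlgebraicClosure k) :=
      charZero_of_injective_algebraMap (algebraMap k (AlgebraicClosure k)).injective
    have hczΩ : CharZero Ω :=
      charZero_of_injective_algebraMap (algebraMap (AlgebraicClosure k) Ω).injective
    have hm0 : (m : Ω) ≠ 0 := Nat.cast_ne_zero.2 (by omega)
    have key : ∀ l, (∑ i, a i * aeval (z ^ m)
        (pderiv l ((f i).map (algebraMap k (AlgebraicClosure k)))) +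
        ∑ j, c j * aeval (z ^ m) (pderiv l (H j))) * (m * z l ^ (m - 1)) + b l = 0 := by
      intro l
      have := hab l
      simp only [map_expand, NC2.aeval_pderiv_expand] at this
      rw [add_mul, Finset.sum_mul, Finset.sum_mul, ← this]
      congr 1
      congr 1
      · exact Finset.sum_congr rfl fun j _ => by ring
      · exact Finset.sum_congr rfl fun j _ => by ring
    obtain ⟨h1, h2, -⟩ := hz Ω (z ^ m) hw0
      (fun i => by
        have := hfz i
        rw [map_expand, NC2.aeval_exp] at this
        exact this) a c
      (fun l => -(∑ i, a i * aeval (z ^ m)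
        (pderiv l ((f i).map (algebraMap k (AlgebraicClosure k)))) +
        ∑ j, c j * aeval (z ^ m) (pderiv l (H j))))
      (fun j hj => by
        have := hc j hj
        rw [NC2.aeval_exp] at this
        exact this)
      (fun l hl => by
        by_contra hzl
        rw [Pi.pow_apply] at hzl
        have hzl' : z l ≠ 0 := fun h => hzl (by rw [h, zero_pow (by omega)])
        have hbl : b l = 0 := by
          by_contra hbl
          exact hzl' (hb l hbl)
        have h3 := key l
        rw [hbl, add_zero] at h3
        rcases mul_eq_zero.1 h3 with h4 | h4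
        · exact hl (by rw [h4, neg_zero])
        · rcases mul_eq_zero.1 h4 with h5 | h5
          · exact hm0 h5
          · exact hzl' (eq_zero_of_pow_eq_zero h5))
      (fun l => by ring)
    refine ⟨h1, h2, ?_⟩
    funext l
    have h3 := key l
    rw [h1, h2] at h3
    simpa using h3

end Pool.Agent.J4.H5.VJ
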