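import Pool.Agent.J4.H5.VJ.Defs3

/-! # Piece NCY: the coordinate hyperplanes can be omitted -/

set_option autoImplicit false

open MvPolynomial Module

namespace Pool.Agent.J4.H5.VJ

theorem t_NCY : S_NCY := by
  intro k _ n s f F h
  obtain ⟨hX, q, d, H, hH, hprod, hz⟩ := h
  refine ⟨fun P hP => hX 0 P (hP 0), q, d, H, hH, hprod, fun Ω _ _ z hz0 hf a c hc hs => ?_⟩
  obtain ⟨h1, h2, -⟩ := hz Ω z hz0 hf a c 0 hc (fun l hl => absurd rfl hl) (fun i => by
    rw [hs i, Pi.zero_apply, add_zero])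
  exact ⟨h1, h2⟩

end Pool.Agent.J4.H5.VJ
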