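import Pool.Agent.J4.H5.VJ.Defs

set_option autoImplicit false

open MvPolynomial

namespace Pool.Agent.J4.H5.VJ

/-- The ring of polynomials is integral over the ring of polynomials in the `m`-th powers. -/
theorem norm_integral {k : Type} [Field k] {n m : ℕ} (hm : 1 ≤ m) (G : MvPolynomial (Fin n) k) :
    ((expand m : MvPolynomial (Fin n) k →ₐ[k] MvPolynomial (Fin n) k) :
      MvPolynomial (Fin n) k →+* MvPolynomial (Fin n) k).IsIntegralElem G := by
  set φ : MvPolynomial (Fin n) k →+* MvPolynomial (Fin n) k :=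
    ((expand m : MvPolynomial (Fin n) k →ₐ[k] MvPolynomial (Fin n) k) :
      MvPolynomial (Fin n) k →+* MvPolynomial (Fin n) k) with hφ
  induction G using MvPolynomial.induction_on with
  | C a =>
    have h : φ (C a) = C a := by simp [hφ]
    rw [← h]
    exact φ.isIntegralElem_map
  | add p q hp hq => exact RingHom.IsIntegralElem.add φ hp hq
  | mul_X p i hp =>
    refine RingHom.IsIntegralElem.mul φ hp ?_
    refine ⟨Polynomial.X ^ m - Polynomial.C (X i), Polynomial.monic_X_pow_sub_C _ (by omega), ?_⟩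
    rw [Polynomial.eval₂_sub, Polynomial.eval₂_X_pow, Polynomial.eval₂_C]
    simp [hφ]

theorem t_NORM : S_NORM := by
  intro k _ n m hm G hG
  set φ : MvPolynomial (Fin n) k →+* MvPolynomial (Fin n) k :=
    ((expand m : MvPolynomial (Fin n) k →ₐ[k] MvPolynomial (Fin n) k) :
      MvPolynomial (Fin n) k →+* MvPolynomial (Fin n) k) with hφ
  obtain ⟨p, hp, hpG⟩ := norm_integral hm G
  obtain ⟨i, hi0, hi⟩ := Ideal.exists_coeff_ne_zero_mem_comap_of_root_mem (f := φ)
    (I := Ideal.span {G}) hG (Ideal.mem_span_singleton_self G) hp.ne_zero hpG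
  refine ⟨p.coeff i, hi0, ?_⟩
  intro L _ _ y hy
  rw [Ideal.mem_comap, Ideal.mem_span_singleton] at hi
  obtain ⟨H, hH⟩ := hi
  have h1 : φ (p.coeff i) = expand m (p.coeff i) := rfl
  have h2 : aeval y (expand m (p.coeff i)) = aeval (fun i => y i ^ m) (p.coeff i) := by
    rw [expand, ← AlgHom.comp_apply]
    congr 1
    apply MvPolynomial.algHom_ext
    intro j
    simp
  rw [← h2, ← h1, hH, map_mul, hy, zero_mul]

end Pool.Agent.J4.H5.VJ
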