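import Pool.Agent.J4.H14.VJ.Nsx
import Pool.Agent.J4.H5.VJ.NSX_C

/-!
# Project VJ, piece NSX
-/

set_option autoImplicit false

namespace Pool.Agent.J4.H5.VJ

theorem t_NSX : S_NSX :=
  NSXh.t_NSX (fun _ _ _ _ _ _ f G hT Ω _ _ z hz h => NSXC.main f G hT Ω z hz h)

end Pool.Agent.J4.H5.VJ
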