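import Pool.Agent.J4.H5.VJ.T_NSXA
import Pool.Agent.J4.H31.VJ.Hei

/-!
# The height of the Gauss map: assembly of the pieces of helper82 and helper31
-/

set_option autoImplicit false

open MvPolynomial NumberField IsDedekindDomain Module

namespace Pool.Agent.J4.H5.VJ

theorem t_NSX5 : S_NSX := by
  intro k _ _ n t u s f G d hd hT
  obtain ⟨N, hsN, P, hP, hid⟩ := NSXA.nsxa k n t u s f G d hd hT
  obtain ⟨c, hc⟩ := Pool.Agent.J4.H31.VJ.NSXH.hei k n s N hsN P hP
  refine ⟨c, ?_⟩
  intro L _ _ _ x hx hfx α hα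
  exact hc L x (gaussRow f α x) (fun β => (∏ j, x (β j)) * gaussRow f α x β) hx hα
    (fun l b => hid L x hx hfx α l b)

end Pool.Agent.J4.H5.VJ
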