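import Pool.Agent.J4.H5.VJ.Defs

/-!
# Project VJ, piece POW: the pull back by the power map
-/

set_option autoImplicit false

open MvPolynomial NumberField IsDedekindDomain Module

namespace Pool.Agent.J4.H5.VJ

namespace PowAux

theorem weil_expand {k L : Type} [Field k] [Field L] [Algebra k L] {M : ℕ} [Nonempty (Fin M)]
    (e m : ℕ) (f : AbsoluteValue L ℝ) (F : MvPolynomial (Fin M) k) (y : Fin M → L) :
    weil (m * e) f (expand m F) y = weil e f F (fun i => y i ^ m) := by
  have h1 : (⨆ j, f (y j ^ m)) = (⨆ j, f (y j)) ^ m := by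
    rw [Real.iSup_pow (fun j => f.nonneg _)]
    exact iSup_congr fun j => map_pow f _ _
  have h2 : aeval y (expand m F) = aeval (fun i => y i ^ m) F := by
    rw [aeval_expand]
    rfl
  unfold weil
  rw [h1, h2, pow_mul]

end PowAux

open PowAux

theorem t_POW : S_POW := by
  intro k L _ _ _ _ _ M S e m F y hm hM
  have : Nonempty (Fin M) := ⟨⟨0, hM⟩⟩
  refine ⟨?_, ?_⟩
  · unfold proximity
    simp only [weil_expand]
  · unfold height
    have h : (fun i => y i ^ m) = y ^ m := rfl
    rw [h, Height.logHeight_pow, mul_div_assoc]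

end Pool.Agent.J4.H5.VJ
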