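import Pool.Agent.J4.H5.VJ.Defs4

/-!
# Project VJ, piece POWI (helper20)
-/

set_option autoImplicit false

open MvPolynomial NumberField IsDedekindDomain Module

namespace Pool.Agent.J4.H5.VJ

namespace PowIAux

theorem aeval_smul' {k L : Type} [Field k] [Field L] [Algebra k L] {M : ℕ} {e : ℕ}
    {F : MvPolynomial (Fin M) k} (hF : F.IsHomogeneous e) (c : L) (x : Fin M → L) :
    aeval (c • x) F = c ^ e * aeval x F := by
  rw [aeval_def, aeval_def, eval₂_eq, eval₂_eq, Finset.mul_sum]
  refine Finset.sum_congr rfl fun d hd => ?_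
  have h1 : ∑ i ∈ d.support, d i = e := by
    have := hF (mem_support_iff.1 hd)
    rw [← this, Finsupp.weight_apply]
    simp [Finsupp.sum]
  have h2 : ∏ i ∈ d.support, (c • x) i ^ d i = c ^ e * ∏ i ∈ d.support, x i ^ d i := by
    simp only [Pi.smul_apply, smul_eq_mul, mul_pow, Finset.prod_mul_distrib]
    rw [Finset.prod_pow_eq_pow_sum, h1]
  rw [h2]
  ring

theorem weilI_expand {k L : Type} [Field k] [Field L] [Algebra k L] {M u : ℕ} [Nonempty (Fin M)]
    (e m : ℕ) (f : AbsoluteValue L ℝ) (G : Fin u → MvPolynomial (Fin M) k) (y : Fin M → L) :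
    weilI (m * e) f (fun i => expand m (G i)) y = weilI e f G (fun i => y i ^ m) := by
  have h1 : (⨆ j, f (y j ^ m)) = (⨆ j, f (y j)) ^ m := by
    rw [Real.iSup_pow (fun j => f.nonneg _)]
    exact iSup_congr fun j => map_pow f _ _
  have h2 : ∀ i, aeval y (expand m (G i)) = aeval (fun i => y i ^ m) (G i) := by
    intro i
    rw [aeval_expand]
    rfl
  unfold weilI
  simp only [h1, h2, pow_mul]

theorem weilI_smul {k L : Type} [Field k] [Field L] [Algebra k L] {M u : ℕ}
    (f : AbsoluteValue L ℝ) {e : ℕ} {G : Fin u → MvPolynomial (Fin M) k}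
    (hG : ∀ i, (G i).IsHomogeneous e) {c : L} (hc : c ≠ 0) (x : Fin M → L) :
    weilI e f G (c • x) = weilI e f G x := by
  unfold weilI
  have h1 : (⨆ j, f ((c • x) j)) = f c * ⨆ j, f (x j) := by
    rw [Real.mul_iSup_of_nonneg (f.nonneg c)]
    exact iSup_congr fun j => map_mul f _ _
  have h2 : (⨆ i, f (aeval (c • x) (G i))) = f c ^ e * ⨆ i, f (aeval x (G i)) := by
    rw [Real.mul_iSup_of_nonneg (pow_nonneg (f.nonneg c) e)]
    refine iSup_congr fun i => ?_
    rw [aeval_smul' (hG i), map_mul, map_pow]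
  have hc' : f c ≠ 0 := f.ne_zero hc
  rw [h1, h2, mul_pow, mul_div_mul_left _ _ (pow_ne_zero _ hc')]

end PowIAux

open PowIAux

theorem t_POWI : S_POWI := by
  intro k L _ _ _ _ _ M u S e m G y hm hM
  have : Nonempty (Fin M) := ⟨⟨0, hM⟩⟩
  refine ⟨?_, fun c hc hG => ?_⟩
  · unfold proximityI
    simp only [weilI_expand]
  · unfold proximityI
    simp only [weilI_smul _ hG hc]

end Pool.Agent.J4.H5.VJ
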