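import Pool.Agent.J4.H5.VJ.NSXDefs
import Pool.Agent.J4.H5.VJ.NSXa

set_option autoImplicit false

namespace Pool.Agent.J4.H5.VJ

theorem t_PROP : S_PROP := fun _ _ _ _ _ _ _ _ _ h _ _ _ x hx hf α α' b b' =>
  NSXa.rows_prop h x hx hf α α' b b'

end Pool.Agent.J4.H5.VJ
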