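import Pool.Agent.J4.H5.VJ.Defs4
import Pool.Agent.J4.H5.VJ.T_PROX

/-!
# Project VJ (helper5), piece PROXI (helper30): the proximity function of a subscheme does not depend
on the field
-/

set_option autoImplicit false

open MvPolynomial NumberField IsDedekindDomain Module

namespace Pool.Agent.J4.H5.VJ

namespace PROXI

variable {k L L' : Type} [Field k] [Field L]
  [Field L'] [Algebra k L] [Algebra L L'] [Algebra k L'] [IsScalarTower k L L']

/-- the local heights -/
theorem weilI_pow {e : ℕ} {M u : ℕ} (G : Fin u → MvPolynomial (Fin M) k) (x : Fin M → L) (hx : x ≠ 0)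
    (hG : ∃ i, aeval x (G i) ≠ 0)
    (f : AbsoluteValue L ℝ) (g : AbsoluteValue L' ℝ) (n : ℕ) (hn : n ≠ 0)
    (hfg : ∀ y : L, y ≠ 0 → g (algebraMap L L' y) = f y ^ n) :
    weilI e g G (fun i => algebraMap L L' (x i)) = n * weilI e f G x := by
  have hfg' : ∀ y : L, g (algebraMap L L' y) = f y ^ n := by
    intro y
    by_cases hy : y = 0
    · rw [hy, map_zero, map_zero, map_zero, zero_pow hn]
    · exact hfg y hy
  have hM : Nonempty (Fin M) := by
    by_contra hM
    rw [not_nonempty_iff] at hM
    exact hx (funext fun i => (hM.false i).elim)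
  obtain ⟨i0, _⟩ := hG
  have hU : Nonempty (Fin u) := ⟨i0⟩
  unfold weilI
  have h1 : ∀ i, aeval (fun i => algebraMap L L' (x i)) (G i) = algebraMap L L' (aeval x (G i)) := by
    intro i
    exact MvPolynomial.aeval_algebraMap_apply (A := L) L' x (G i)
  simp only [h1, hfg']
  rw [← Real.iSup_pow (fun i => f.nonneg _) n, ← Real.iSup_pow (fun i => f.nonneg _) n, ← pow_mul,
    mul_comm n e, pow_mul, ← div_pow, Real.log_pow]

end PROXI

open PROX PROXI

theorem t_PROXI : S_PROXI := by
  intro k L L' _ _ _ _ _ _ _ _ _ _ M u S e F x hx hF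
  have hfr : finrank k L * finrank L L' = finrank k L' := finrank_mul_finrank k L L'
  have hpos : (0 : ℝ) < finrank L L' := by exact_mod_cast finrank_pos
  have hpos' : (0 : ℝ) < finrank k L := by exact_mod_cast finrank_pos
  -- the infinite places
  have hinf : ∑ w : InfinitePlace L', (w.mult : ℝ) * weilI e w.1 F (fun i => algebraMap L L' (x i)) =
      finrank L L' * ∑ w : InfinitePlace L, (w.mult : ℝ) * weilI e w.1 F x := by
    have h1 := Helper259.HtExt.prod_inf_ext (K := L) (L := L')
      (fun v => Real.exp (weilI e v.1 F x))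
    have h2 : ∀ w : InfinitePlace L', weilI e w.1 F (fun i => algebraMap L L' (x i)) =
        weilI e (w.comap (algebraMap L L')).1 F x := by
      intro w
      rw [weilI_pow F x hx hF (w.comap (algebraMap L L')).1 w.1 1 one_ne_zero
        (fun y _ => by rw [pow_one]; rfl), Nat.cast_one, one_mul]
    simp only [h2]
    have h3 : Real.exp (∑ w : InfinitePlace L', (w.mult : ℝ) *
        weilI e (w.comap (algebraMap L L')).1 F x) =
        Real.exp (finrank L L' * ∑ w : InfinitePlace L, (w.mult : ℝ) * weilI e w.1 F x) := by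
      rw [Real.exp_sum, Real.exp_nat_mul, Real.exp_sum]
      simp only [Real.exp_nat_mul]
      exact h1
    exact Real.exp_injective h3
  -- the primes above one prime
  have hfin1 : ∀ v : HeightOneSpectrum (𝓞 L), ∑ᶠ w ∈ ov L' v, weilI e (FinitePlace.mk w).1 F
      (fun i => algebraMap L L' (x i)) = finrank L L' * weilI e (FinitePlace.mk v).1 F x := by
    intro v
    rw [finsum_mem_eq_finite_toFinset_sum _ (ov_finite v)]
    have h1 : ∀ w ∈ (ov_finite (L' := L') v).toFinset, weilI e (FinitePlace.mk w).1 F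
        (fun i => algebraMap L L' (x i)) = (dg v w : ℝ) * weilI e (FinitePlace.mk v).1 F x := by
      intro w hw
      rw [Set.Finite.mem_toFinset] at hw
      exact weilI_pow F x hx hF _ _ _ (dg_ne_zero v w hw) (fun y hy => abs_ext v w hw y hy)
    rw [Finset.sum_congr rfl h1, ← Finset.sum_mul, ← Nat.cast_sum, sum_dg]
  -- the primes above `S`
  have hSf : (primesAbove S L).Finite := by
    have : primesAbove S L = ⋃ v ∈ (S : Set (HeightOneSpectrum (𝓞 k))), ov L v := by
      ext w
      simp only [Set.mem_iUnion, exists_prop, Finset.mem_coe]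
      rfl
    rw [this]
    exact S.finite_toSet.biUnion fun v _ => ov_finite v
  have hunion : primesAbove S L' = ⋃ v ∈ primesAbove S L, ov L' v := by
    ext w
    simp only [Set.mem_iUnion, exists_prop]
    constructor
    · rintro ⟨u, hu, hwu⟩
      refine ⟨w.under (𝓞 L), ⟨u, hu, ?_⟩, ⟨rfl⟩⟩
      have := hwu
      have : w.asIdeal.LiesOver (w.under (𝓞 L)).asIdeal := ⟨rfl⟩
      exact Ideal.LiesOver.tower_bot w.asIdeal (w.under (𝓞 L)).asIdeal u.asIdeal
    · rintro ⟨v, ⟨u, hu, hvu⟩, hwv⟩
      have := hvu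
      have : w.asIdeal.LiesOver v.asIdeal := hwv
      exact ⟨u, hu, Ideal.LiesOver.trans w.asIdeal v.asIdeal u.asIdeal⟩
  have hdisj : (primesAbove S L).PairwiseDisjoint (ov L') := by
    intro v _ v' _ hvv
    rw [Function.onFun, Set.disjoint_left]
    intro w hw hw'
    apply hvv
    exact HeightOneSpectrum.ext (hw.over.trans hw'.over.symm)
  have hfin : ∑ᶠ w ∈ primesAbove S L', weilI e (FinitePlace.mk w).1 F
      (fun i => algebraMap L L' (x i)) =
      finrank L L' * ∑ᶠ w ∈ primesAbove S L, weilI e (FinitePlace.mk w).1 F x := by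
    rw [hunion, finsum_mem_biUnion hdisj hSf (fun v _ => ov_finite v)]
    refine Eq.trans (finsum_mem_congr rfl fun v _ => hfin1 v) ?_
    exact (mul_finsum_mem' (fun w : HeightOneSpectrum (𝓞 L) => weilI e (FinitePlace.mk w).1 F x)
      (finrank L L' : ℝ) hSf).symm
  unfold proximityI
  rw [hinf, hfin, ← hfr, ← mul_add]
  push_cast
  rw [mul_comm (finrank k L : ℝ), mul_div_mul_left _ _ hpos.ne']

end Pool.Agent.J4.H5.VJ
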