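import Pool.Agent.J4.H5.VJ.Defs3

/-!
# The coordinates remain nonzerodivisors under the power map
-/

set_option autoImplicit false

open MvPolynomial

namespace Pool.Agent.J4.H5.VJ

namespace PULLX

variable {k : Type} [Field k] {n s m : ℕ}

/-- Membership in the ideal generated by the `f_i(y ^ m)` is membership of all components in the
ideal generated by the `f_i`. -/
theorem mem_iff (f : Fin s → MvPolynomial (Fin (n + 1)) k)
    (κ : (Fin (n + 1) → Fin m) →
      (MvPolynomial (Fin (n + 1)) k →ₗ[k] MvPolynomial (Fin (n + 1)) k))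
    (h1 : ∀ H, H = ∑ a, (∏ l, X l ^ (a l : ℕ)) * expand m (κ a H))
    (h3 : ∀ a P H, κ a (expand m P * H) = P * κ a H) (H : MvPolynomial (Fin (n + 1)) k) :
    H ∈ Ideal.span (Set.range fun i => expand m (f i)) ↔
      ∀ a, κ a H ∈ Ideal.span (Set.range f) := by
  constructor
  · intro hH a
    obtain ⟨c, rfl⟩ := Ideal.mem_span_range_iff_exists_fun.mp hH
    rw [map_sum]
    refine Ideal.sum_mem _ fun i _ => ?_
    rw [mul_comm, h3]
    exact Ideal.mul_mem_right _ _ (Ideal.subset_span ⟨i, rfl⟩)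
  · intro hH
    rw [h1 H]
    refine Ideal.sum_mem _ fun a _ => Ideal.mul_mem_left _ _ ?_
    have : Ideal.map (expand m : MvPolynomial (Fin (n + 1)) k →ₐ[k] _) (Ideal.span (Set.range f))
        = Ideal.span (Set.range fun i => expand m (f i)) := by
      rw [Ideal.map_span, ← Set.range_comp]
      rfl
    rw [← this]
    exact Ideal.mem_map_of_mem _ (hH a)

end PULLX

/-- PULLX from FREE. -/
theorem t_PULLX (h : S_FREE) : S_PULLX := by
  intro k _ n s m f l hm hf H hH
  obtain ⟨κ, h1, -, h3⟩ := h k n m hm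
  rw [PULLX.mem_iff f κ h1 h3]
  intro a
  apply hf
  rw [← h3 a (X l) H]
  refine (PULLX.mem_iff f κ h1 h3 _).mp ?_ a
  have e : expand m (X l : MvPolynomial (Fin (n + 1)) k) * H = X l ^ (m - 1) * (X l * H) := by
    rw [expand_X, ← mul_assoc, ← pow_succ, Nat.sub_add_cancel hm]
  rw [e]
  exact Ideal.mul_mem_left _ _ hH

end Pool.Agent.J4.H5.VJ
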