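import Pool.Agent.J4.H5.VJ.T_FREE

/-!
# PUSHX: the image of a closed subset under the power map
-/

set_option autoImplicit false

open MvPolynomial NumberField IsDedekindDomain Module

namespace Pool.Agent.J4.H5.VJ

namespace PUSHX

open FREE (ka bf mon)

variable {k : Type} [Field k] {n m : ℕ}

/-- the coefficients of the components -/
theorem coeff_ka (hm : 1 ≤ m) (a : Fin (n + 1) → Fin m) (H : MvPolynomial (Fin (n + 1)) k)
    (t : Fin (n + 1) →₀ ℕ) : coeff t (ka k a H) = coeff (bf a + m • t) H := by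
  classical
  induction H using MvPolynomial.induction_on' with
  | monomial s c =>
    rw [FREE.ka_mon, coeff_monomial, coeff_smul]
    unfold FREE.kf
    by_cases hs : s = bf a + m • t
    · have hmod : ∀ l, s l % m = a l := by
        intro l
        rw [hs, Finsupp.add_apply, FREE.bf_apply, Finsupp.smul_apply, smul_eq_mul,
          Nat.add_mul_mod_self_left]
        exact Nat.mod_eq_of_lt (a l).2
      have hq : FREE.qu m s = t := by
        ext l
        rw [FREE.qu_apply, hs, Finsupp.add_apply, FREE.bf_apply, Finsupp.smul_apply, smul_eq_mul,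
          Nat.add_mul_div_left _ _ (by omega), Nat.div_eq_of_lt (a l).2, zero_add]
      rw [if_pos hmod, if_pos hs, hq, coeff_monomial, if_pos rfl, smul_eq_mul, mul_one]
    · rw [if_neg hs]
      split_ifs with h
      · rw [coeff_monomial, if_neg, smul_zero]
        intro hq
        apply hs
        ext l
        rw [Finsupp.add_apply, FREE.bf_apply, Finsupp.smul_apply, smul_eq_mul, ← hq,
          FREE.qu_apply, ← h l]
        exact (Nat.mod_add_div (s l) m).symm
      · simp
  | add p q hp hq => rw [map_add, coeff_add, coeff_add, hp, hq]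

/-- the weight -/
noncomputable def wt (t : Fin (n + 1) →₀ ℕ) : ℕ := Finsupp.weight (1 : Fin (n + 1) → ℕ) t

theorem hom_ka (hm : 1 ≤ m) (a : Fin (n + 1) → Fin m) (H : MvPolynomial (Fin (n + 1)) k) (Q : ℕ)
    (hH : H.IsHomogeneous Q) :
    ka k a H = 0 ∨ ∃ d, m * d + wt (bf a) = Q ∧ (ka k a H).IsHomogeneous d := by
  classical
  by_cases h0 : ka k a H = 0
  · exact Or.inl h0
  right
  have key : ∀ t, coeff t (ka k a H) ≠ 0 → m * wt t + wt (bf a) = Q := by
    intro t ht
    rw [coeff_ka hm] at ht
    have h1 := hH ht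
    rw [map_add, map_nsmul, smul_eq_mul] at h1
    unfold wt
    omega
  obtain ⟨t, ht⟩ := ne_zero_iff.1 h0
  refine ⟨wt t, key t ht, ?_⟩
  intro t' ht'
  have h1 := key t ht
  have h2 := key t' ht'
  have h3 : m * wt t' = m * wt t := by omega
  exact Nat.eq_of_mul_eq_mul_left (by omega) h3

/-- the matrix of the multiplication by `G` -/
noncomputable def Mx (m : ℕ) (G : MvPolynomial (Fin (n + 1)) k) :
    Matrix (Fin (n + 1) → Fin m) (Fin (n + 1) → Fin m) (MvPolynomial (Fin (n + 1)) k) :=
  Matrix.of fun a b => ka k a ((∏ l, X l ^ (b l : ℕ)) * G)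

theorem Mx_eq (hm : 1 ≤ m) (G : MvPolynomial (Fin (n + 1)) k) (b : Fin (n + 1) → Fin m) :
    (∏ l, X l ^ (b l : ℕ)) * G = ∑ a : Fin (n + 1) → Fin m,
      (∏ l, X l ^ (a l : ℕ)) * expand m (Mx m G a b) :=
  FREE.one hm _

theorem vanish (hm : 1 ≤ m) (G : MvPolynomial (Fin (n + 1)) k) (L : Type) [Field L] [Algebra k L]
    (y : Fin (n + 1) → L) (hy : aeval y G = 0) : aeval (fun i => y i ^ m) (Mx m G).det = 0 := by
  classical
  have h1 : aeval (fun i => y i ^ m) (Mx m G).det =
      ((Mx m G).map (aeval (fun i => y i ^ m) : MvPolynomial (Fin (n + 1)) k →ₐ[k] L)).det := by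
    rw [AlgHom.map_det]
    rfl
  rw [h1, ← Matrix.exists_vecMul_eq_zero_iff]
  refine ⟨fun a => ∏ l, y l ^ (a l : ℕ), ?_, ?_⟩
  · intro h
    have h2 := congrFun h (fun _ => ⟨0, hm⟩)
    simp at h2
  · funext b
    have h2 := congrArg (aeval y) (Mx_eq hm G b)
    rw [map_mul, hy, mul_zero, map_sum] at h2
    simp only [Matrix.vecMul, dotProduct, Matrix.map_apply, Pi.zero_apply]
    rw [h2]
    refine Finset.sum_congr rfl fun a _ => ?_
    rw [map_mul, map_prod, aeval_expand]
    simp only [map_pow, aeval_X]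
    rfl

theorem homog (hm : 1 ≤ m) (G : MvPolynomial (Fin (n + 1)) k) (N : ℕ) (hG : G.IsHomogeneous N) :
    (Mx m G).det.IsHomogeneous (m ^ n * N) := by
  classical
  rw [Matrix.det_apply]
  refine IsHomogeneous.sum _ _ _ fun σ _ => ?_
  have hprod : (∏ b, Mx m G (σ b) b).IsHomogeneous (m ^ n * N) := by
    by_cases h0 : ∃ b, Mx m G (σ b) b = 0
    · obtain ⟨b, hb⟩ := h0
      have h0' : ∏ b, Mx m G (σ b) b = 0 := Finset.prod_eq_zero (Finset.mem_univ b) hb
      rw [h0']
      exact isHomogeneous_zero _ _ _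
    · have h1 : ∀ b, ∃ d, m * d + wt (bf (σ b)) = wt (bf b) + N ∧ (Mx m G (σ b) b).IsHomogeneous d := by
        intro b
        have hh : ((∏ l, X l ^ (b l : ℕ)) * G).IsHomogeneous (wt (bf b) + N) := by
          refine IsHomogeneous.mul ?_ hG
          rw [mon]
          refine isHomogeneous_monomial _ ?_
          unfold wt
          rw [Finsupp.degree_eq_weight_one]
          rfl
        rcases hom_ka hm (σ b) _ _ hh with h | h
        · exact absurd ⟨b, h⟩ h0
        · exact h
      choose d hd hd' using h1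
      have h2 := IsHomogeneous.prod Finset.univ (fun b => Mx m G (σ b) b) d (fun b _ => hd' b)
      have h3 : ∑ b, d b = m ^ n * N := by
        have h4 : ∑ b, (m * d b + wt (bf (σ b))) = ∑ b : Fin (n + 1) → Fin m, (wt (bf b) + N) :=
          Finset.sum_congr rfl fun b _ => hd b
        rw [Finset.sum_add_distrib, Finset.sum_add_distrib, Equiv.sum_comp σ (fun b => wt (bf b)),
          Finset.sum_const, Finset.card_univ, Fintype.card_fun, Fintype.card_fin, Fintype.card_fin,
          smul_eq_mul, ← Finset.mul_sum] at h4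
        have h5 : m * ∑ b, d b = m * (m ^ n * N) := by
          have : m ^ (n + 1) * N = m * (m ^ n * N) := by ring
          omega
        exact Nat.eq_of_mul_eq_mul_left (by omega) h5
      rw [← h3]
      exact h2
  rcases Int.units_eq_one_or (Equiv.Perm.sign σ) with h | h
  · rw [h, one_smul]; exact hprod
  · rw [h, Units.neg_smul, one_smul]; exact hprod.neg

variable {s : ℕ} (f : Fin s → MvPolynomial (Fin (n + 1)) k)

/-- components of the elements of the extended ideal -/
theorem ka_mem (hm : 1 ≤ m) (a : Fin (n + 1) → Fin m) (H : MvPolynomial (Fin (n + 1)) k)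
    (hH : H ∈ Ideal.span (Set.range fun i => expand m (f i))) :
    ka k a H ∈ Ideal.span (Set.range f) := by
  classical
  refine Submodule.span_induction (p := fun H _ => ka k a H ∈ Ideal.span (Set.range f) ∧
    ∀ c : MvPolynomial (Fin (n + 1)) k, ka k a (c * H) ∈ Ideal.span (Set.range f)) ?_ ?_ ?_ ?_ hH |>.1
  · rintro _ ⟨i, rfl⟩
    have h1 : ∀ c : MvPolynomial (Fin (n + 1)) k, ka k a (c * expand m (f i)) ∈ Ideal.span (Set.range f) := by
      intro c
      rw [mul_comm, FREE.three hm]
      exact Ideal.mul_mem_right _ _ (Ideal.subset_span ⟨i, rfl⟩)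
    refine ⟨?_, h1⟩
    have := h1 1
    rwa [one_mul] at this
  · refine ⟨by rw [map_zero]; exact Ideal.zero_mem _, fun c => by rw [mul_zero, map_zero]; exact Ideal.zero_mem _⟩
  · rintro x y _ _ ⟨hx, hx'⟩ ⟨hy, hy'⟩
    refine ⟨by rw [map_add]; exact Ideal.add_mem _ hx hy, fun c => ?_⟩
    rw [mul_add, map_add]
    exact Ideal.add_mem _ (hx' c) (hy' c)
  · rintro c x _ ⟨hx, hx'⟩
    refine ⟨by rw [smul_eq_mul]; exact hx' c, fun c' => ?_⟩
    rw [smul_eq_mul, ← mul_assoc]
    exact hx' _

theorem expand_mem (H : MvPolynomial (Fin (n + 1)) k) (hH : H ∈ Ideal.span (Set.range f)) :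
    expand m H ∈ Ideal.span (Set.range fun i => expand m (f i)) := by
  have h1 := Ideal.mem_map_of_mem (expand m : MvPolynomial (Fin (n + 1)) k →ₐ[k] _) hH
  rw [Ideal.map_span, ← Set.range_comp] at h1
  exact h1

theorem nzd (hm : 1 ≤ m) (G : MvPolynomial (Fin (n + 1)) k)
    (hG : NZD (fun i => expand m (f i)) G) : NZD f (Mx m G).det := by
  classical
  set J : Ideal (MvPolynomial (Fin (n + 1)) k) := Ideal.span (Set.range f) with hJ
  have hli : LinearIndependent (MvPolynomial (Fin (n + 1)) k ⧸ J)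
      ((Mx m G).map (Ideal.Quotient.mk J)).col := by
    rw [Fintype.linearIndependent_iff]
    intro g hg
    have hlift : ∀ b, ∃ V : MvPolynomial (Fin (n + 1)) k, Ideal.Quotient.mk J V = g b :=
      fun b => Ideal.Quotient.mk_surjective (g b)
    choose V hV using hlift
    have h1 : ∀ a, ∑ b, Mx m G a b * V b ∈ J := by
      intro a
      rw [← Ideal.Quotient.eq_zero_iff_mem, map_sum]
      have h2 := congrFun hg a
      rw [Finset.sum_apply, Pi.zero_apply] at h2
      rw [← h2]
      refine Finset.sum_congr rfl fun b _ => ?_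
      rw [map_mul, hV b, Pi.smul_apply, smul_eq_mul, mul_comm]
      rfl
    set H : MvPolynomial (Fin (n + 1)) k :=
      ∑ b : Fin (n + 1) → Fin m, (∏ l, X l ^ (b l : ℕ)) * expand m (V b) with hH
    have h2 : G * H = ∑ a : Fin (n + 1) → Fin m, (∏ l, X l ^ (a l : ℕ)) *
        expand m (∑ b, Mx m G a b * V b) := by
      rw [hH, Finset.mul_sum]
      have h3 : ∀ b : Fin (n + 1) → Fin m, G * ((∏ l, X l ^ (b l : ℕ)) * expand m (V b)) =
          ∑ a : Fin (n + 1) → Fin m, (∏ l, X l ^ (a l : ℕ)) * (expand m (Mx m G a b) * expand m (V b)) := by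
        intro b
        rw [show G * ((∏ l, X l ^ (b l : ℕ)) * expand m (V b)) =
          ((∏ l, X l ^ (b l : ℕ)) * G) * expand m (V b) by ring, Mx_eq hm G b, Finset.sum_mul]
        exact Finset.sum_congr rfl fun a _ => by ring
      rw [Finset.sum_congr rfl fun b _ => h3 b, Finset.sum_comm]
      refine Finset.sum_congr rfl fun a _ => ?_
      rw [← Finset.mul_sum, map_sum]
      simp only [map_mul]
    have h4 : G * H ∈ Ideal.span (Set.range fun i => expand m (f i)) := by
      rw [h2]
      refine Ideal.sum_mem _ fun a _ => Ideal.mul_mem_left _ _ ?_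
      exact expand_mem f _ (h1 a)
    have h5 := hG H h4
    intro b
    have h6 := ka_mem f hm b H h5
    have h7 : ka k b H = V b := by
      rw [hH, map_sum]
      rw [Finset.sum_congr rfl fun b' _ => FREE.two hm b b' (V b')]
      simp
    rw [h7] at h6
    rw [← hV b, Ideal.Quotient.eq_zero_iff_mem]
    exact h6
  have hdet := Matrix.nonsingular_iff_det_mem_nonZeroDivisors.1 (Matrix.linearIndependent_col_iff.1 hli)
  have hdet' : ((Mx m G).map (Ideal.Quotient.mk J)).det = Ideal.Quotient.mk J (Mx m G).det := by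
    rw [RingHom.map_det]
    rfl
  rw [hdet'] at hdet
  intro H hH
  rw [← hJ, ← Ideal.Quotient.eq_zero_iff_mem] at hH ⊢
  rw [map_mul] at hH
  exact (mem_nonZeroDivisors_iff.1 hdet).1 _ hH

end PUSHX

theorem t_PUSHX : S_PUSHX := by
  intro k _ n s m f G N hm hG hN
  exact ⟨(PUSHX.Mx m G).det, m ^ n * N, PUSHX.nzd f hm G hG, PUSHX.homog hm G N hN,
    fun L _ _ y hy => PUSHX.vanish hm G L y hy⟩

end Pool.Agent.J4.H5.VJ
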