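import Pool.Agent.J4.H5.VJ.Defs3

/-!
# PUSHX: the image of a closed subset under the power map
-/

set_option autoImplicit false

open MvPolynomial Module Matrix

namespace Pool.Agent.J4.H5.VJ.PushXb

variable {k : Type} [Field k] {n m : ℕ}

/-- the monomial with the exponents `a` -/
noncomputable def ee (k : Type) [Field k] {n m : ℕ} (a : Fin (n + 1) → Fin m) : MvPolynomial (Fin (n + 1)) k :=
  ∏ l, X l ^ (a l : ℕ)

def wt {n m : ℕ} (a : Fin (n + 1) → Fin m) : ℕ := ∑ l, (a l : ℕ)

lemma monomial_split (hm : 1 ≤ m) (s : Fin (n + 1) →₀ ℕ) (c : k) :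
    monomial s c = ee k (fun l => (⟨s l % m, Nat.mod_lt _ hm⟩ : Fin m)) *
      expand m (monomial (Finsupp.equivFunOnFinite.symm (fun l => s l / m)) c) := by
  unfold ee
  rw [expand_monomial, monomial_eq, monomial_eq]
  rw [mul_left_comm, Finsupp.prod_fintype _ _ (by simp), Finsupp.prod_fintype _ _ (by simp), ← Finset.prod_mul_distrib]
  congr 1
  refine Finset.prod_congr rfl fun l _ => ?_
  rw [← pow_add]
  congr 1
  simp [Nat.mod_add_div]

variable (κ : (Fin (n + 1) → Fin m) → (MvPolynomial (Fin (n + 1)) k →ₗ[k] MvPolynomial (Fin (n + 1)) k))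

/-- homogeneity of the components -/
lemma hom (hm : 1 ≤ m)
    (h2 : ∀ a b P, κ a ((∏ l, X l ^ (b l : ℕ)) * expand m P) = if a = b then P else 0)
    (P : MvPolynomial (Fin (n + 1)) k) (D : ℕ) (hP : P.IsHomogeneous D) (a : Fin (n + 1) → Fin m) :
    (κ a P).IsHomogeneous ((D - wt a) / m) ∧ (κ a P = 0 ∨ m * ((D - wt a) / m) + wt a = D) := by
  classical
  have hsum : κ a P = ∑ s ∈ P.support, κ a (monomial s (P.coeff s)) := by
    conv_lhs => rw [P.as_sum]
    rw [map_sum]
  have hterm : ∀ s ∈ P.support, κ a (monomial s (P.coeff s)) =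
      if a = (fun l => (⟨s l % m, Nat.mod_lt _ hm⟩ : Fin m)) then
        monomial (Finsupp.equivFunOnFinite.symm (fun l => s l / m)) (P.coeff s) else 0 := by
    intro s _
    rw [monomial_split hm s]
    exact h2 a _ _
  have hdeg : ∀ s ∈ P.support, a = (fun l => (⟨s l % m, Nat.mod_lt _ hm⟩ : Fin m)) →
      m * (∑ l, s l / m) + wt a = D := by
    intro s hs ha
    have h1 : s.degree = D := by
      have := hP (mem_support_iff.1 hs)
      rw [← this, Finsupp.degree_eq_weight_one]
      rfl
    rw [← h1, Finsupp.degree_eq_sum, ha]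
    unfold wt
    rw [Finset.mul_sum, ← Finset.sum_add_distrib]
    refine Finset.sum_congr rfl fun l _ => ?_
    simp [Nat.div_add_mod]
  constructor
  · rw [hsum]
    refine IsHomogeneous.sum _ _ _ fun s hs => ?_
    rw [hterm s hs]
    split_ifs with h
    · refine isHomogeneous_monomial _ ?_
      have h3 := hdeg s hs h
      rw [Finsupp.degree_eq_sum]
      have h4 : (∑ l, (Finsupp.equivFunOnFinite.symm (fun l => s l / m)) l) = ∑ l, s l / m := by simp
      rw [h4]
      have h5 : D - wt a = m * ∑ l, s l / m := by omega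
      rw [h5, Nat.mul_div_cancel_left _ (by omega)]
    · exact isHomogeneous_zero _ _ _
  · by_cases h : ∃ s ∈ P.support, a = (fun l => (⟨s l % m, Nat.mod_lt _ hm⟩ : Fin m))
    · right
      obtain ⟨s, hs, h⟩ := h
      have h3 := hdeg s hs h
      have h5 : D - wt a = m * ∑ l, s l / m := by omega
      rw [h5, Nat.mul_div_cancel_left _ (by omega)]
      exact h3
    · left
      push Not at h
      rw [hsum]
      refine Finset.sum_eq_zero fun s hs => ?_
      rw [hterm s hs, if_neg (h s hs)]

/-- membership in the extended ideal -/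
lemma mem_iff {s : ℕ} (f : Fin s → MvPolynomial (Fin (n + 1)) k)
    (h1 : ∀ H, H = ∑ a, (∏ l, X l ^ (a l : ℕ)) * expand m (κ a H))
    (h3 : ∀ a P H, κ a (expand m P * H) = P * κ a H) (H : MvPolynomial (Fin (n + 1)) k) :
    H ∈ Ideal.span (Set.range fun i => expand m (f i)) ↔ ∀ a, κ a H ∈ Ideal.span (Set.range f) := by
  constructor
  · intro h a
    obtain ⟨c, hc⟩ := Ideal.mem_span_range_iff_exists_fun.1 h
    rw [← hc, map_sum]
    refine Ideal.sum_mem _ fun i _ => ?_
    rw [mul_comm, h3]
    exact Ideal.mul_mem_right _ _ (Ideal.subset_span ⟨i, rfl⟩)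
  · intro h
    rw [h1 H]
    refine Ideal.sum_mem _ fun a _ => Ideal.mul_mem_left _ _ ?_
    have h4 : Ideal.span (Set.range fun i => expand m (f i)) = (Ideal.span (Set.range f)).map (expand m) := by
      rw [Ideal.map_span]
      congr 1
      ext x
      simp
    rw [h4]
    exact Ideal.mem_map_of_mem _ (h a)

/-- the matrix of the multiplication by `G` -/
noncomputable def MM (G : MvPolynomial (Fin (n + 1)) k) :
    Matrix (Fin (n + 1) → Fin m) (Fin (n + 1) → Fin m) (MvPolynomial (Fin (n + 1)) k) :=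
  Matrix.of fun a b => κ a (ee k b * G)

lemma MM_apply (G : MvPolynomial (Fin (n + 1)) k) (a b : Fin (n + 1) → Fin m) :
    MM κ G a b = κ a (ee k b * G) := rfl

lemma nonzerodiv {s : ℕ} (f : Fin s → MvPolynomial (Fin (n + 1)) k)
    (h1 : ∀ H, H = ∑ a, (∏ l, X l ^ (a l : ℕ)) * expand m (κ a H))
    (h2 : ∀ a b P, κ a ((∏ l, X l ^ (b l : ℕ)) * expand m P) = if a = b then P else 0)
    (h3 : ∀ a P H, κ a (expand m P * H) = P * κ a H) (G : MvPolynomial (Fin (n + 1)) k)
    (hG : NZD (fun i => expand m (f i)) G) : NZD f (MM κ G).det := by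
  classical
  set I := Ideal.span (Set.range f) with hI
  let q := Ideal.Quotient.mk I
  have key : (MM κ G).map q |>.Nonsingular := by
    refine Matrix.Nonsingular.of_linearIndependent_col ?_
    rw [← Matrix.mulVec_injective_iff]
    have h0 : ∀ v : (Fin (n + 1) → Fin m) → MvPolynomial (Fin (n + 1)) k ⧸ I,
        (MM κ G).map q *ᵥ v = 0 → v = 0 := by
      intro v hv
      choose w hw using fun b => Ideal.Quotient.mk_surjective (v b)
      have h4 : ∀ a, κ a (G * ∑ b, ee k b * expand m (w b)) ∈ I := by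
        intro a
        rw [← Ideal.Quotient.eq_zero_iff_mem]
        have h5 : κ a (G * ∑ b, ee k b * expand m (w b)) = ∑ b, MM κ G a b * w b := by
          rw [Finset.mul_sum, map_sum]
          refine Finset.sum_congr rfl fun b _ => ?_
          rw [MM_apply, mul_comm _ (w b), ← h3]
          congr 1
          ring
        rw [h5, map_sum]
        have h6 := congrFun hv a
        simp only [Matrix.mulVec, dotProduct, Matrix.map_apply, Pi.zero_apply] at h6
        rw [← h6]
        refine Finset.sum_congr rfl fun b _ => ?_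
        rw [map_mul, ← hw b]
      have h7 := hG _ ((mem_iff κ f h1 h3 _).2 h4)
      funext b
      have h8 := (mem_iff κ f h1 h3 _).1 h7 b
      have h9 : κ b (∑ b, ee k b * expand m (w b)) = w b := by
        rw [map_sum]
        have : ∀ c, κ b (ee k c * expand m (w c)) = if b = c then w c else 0 := fun c => h2 b c (w c)
        simp [this]
      rw [h9] at h8
      rw [← hw b, Pi.zero_apply]
      exact Ideal.Quotient.eq_zero_iff_mem.2 h8
    intro v w hvw
    have h10 := h0 (v - w) (by
      rw [Matrix.mulVec_sub, sub_eq_zero]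
      exact hvw)
    exact sub_eq_zero.1 h10
  rw [Matrix.nonsingular_iff_det_mem_nonZeroDivisors] at key
  intro H hH
  have h11 : q H * ((MM κ G).map q).det = 0 := by
    have h12 : ((MM κ G).map q).det = q (MM κ G).det := by
      rw [RingHom.map_det]
      rfl
    rw [h12, ← map_mul, mul_comm]
    exact Ideal.Quotient.eq_zero_iff_mem.2 hH
  exact Ideal.Quotient.eq_zero_iff_mem.1 ((mem_nonZeroDivisors_iff_right.1 key) _ h11)

lemma det_hom (hm : 1 ≤ m)
    (h2 : ∀ a b P, κ a ((∏ l, X l ^ (b l : ℕ)) * expand m P) = if a = b then P else 0)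
    (G : MvPolynomial (Fin (n + 1)) k) (N : ℕ) (hG : G.IsHomogeneous N) :
    (MM κ G).det.IsHomogeneous (Fintype.card (Fin (n + 1) → Fin m) * N / m) := by
  classical
  have hee : ∀ b : Fin (n + 1) → Fin m, (ee k b).IsHomogeneous (wt b) := by
    intro b
    unfold ee wt
    refine IsHomogeneous.prod _ _ _ fun l _ => ?_
    have := (isHomogeneous_X k l).pow (b l : ℕ)
    simpa using this
  have hM := fun a b => hom κ hm h2 (ee k b * G) (wt b + N) ((hee b).mul hG) a
  rw [Matrix.det_apply]
  refine IsHomogeneous.sum _ _ _ fun σ _ => ?_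
  have hprod : (∏ b, MM κ G (σ b) b).IsHomogeneous (Fintype.card (Fin (n + 1) → Fin m) * N / m) := by
    by_cases h0 : ∃ b, MM κ G (σ b) b = 0
    · obtain ⟨b, hb⟩ := h0
      have h00 : (∏ b, MM κ G (σ b) b) = 0 := Finset.prod_eq_zero (Finset.mem_univ b) hb
      rw [h00]
      exact isHomogeneous_zero _ _ _
    · push Not at h0
      have h4 : ∀ b, m * ((wt b + N - wt (σ b)) / m) + wt (σ b) = wt b + N := by
        intro b
        exact ((hM (σ b) b).2).resolve_left (h0 b)
      have h5 : m * ∑ b, ((wt b + N - wt (σ b)) / m) = Fintype.card (Fin (n + 1) → Fin m) * N := by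
        have h6 : ∑ b, (m * ((wt b + N - wt (σ b)) / m) + wt (σ b)) = ∑ b : Fin (n + 1) → Fin m, (wt b + N) :=
          Finset.sum_congr rfl fun b _ => h4 b
        rw [Finset.sum_add_distrib, Finset.sum_add_distrib, Equiv.sum_comp σ (fun b => wt b)] at h6
        rw [Finset.mul_sum]
        have h7 : ∑ _b : Fin (n + 1) → Fin m, N = Fintype.card (Fin (n + 1) → Fin m) * N := by simp
        rw [h7] at h6
        omega
      have h8 : Fintype.card (Fin (n + 1) → Fin m) * N / m = ∑ b, ((wt b + N - wt (σ b)) / m) := by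
        rw [← h5, Nat.mul_div_cancel_left _ (by omega)]
      rw [h8]
      exact IsHomogeneous.prod _ _ _ fun b _ => (hM (σ b) b).1
  rcases Int.units_eq_one_or (Equiv.Perm.sign σ) with h | h
  · rw [h, one_smul]
    exact hprod
  · rw [h, Units.neg_smul, one_smul]
    exact hprod.neg

lemma det_zero (hm : 1 ≤ m)
    (h1 : ∀ H, H = ∑ a, (∏ l, X l ^ (a l : ℕ)) * expand m (κ a H))
    (G : MvPolynomial (Fin (n + 1)) k) (L : Type) [Field L] [Algebra k L] (y : Fin (n + 1) → L)
    (hy : aeval y G = 0) : aeval (fun i => y i ^ m) (MM κ G).det = 0 := by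
  classical
  have h2 : aeval (fun i => y i ^ m) (MM κ G).det = ((MM κ G).map (aeval (fun i => y i ^ m))).det := by
    rw [AlgHom.map_det]
    rfl
  rw [h2, ← Matrix.exists_vecMul_eq_zero_iff]
  refine ⟨fun a => aeval y (ee k a), ?_, ?_⟩
  · intro h
    have h3 := congrFun h (fun _ => ⟨0, by omega⟩)
    simp [ee] at h3
  · funext b
    have h4 := congrArg (aeval y) (h1 (ee k b * G))
    rw [map_mul, hy, mul_zero, map_sum] at h4
    simp only [Matrix.vecMul, dotProduct, Matrix.map_apply, Pi.zero_apply]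
    rw [h4]
    refine Finset.sum_congr rfl fun a _ => ?_
    rw [map_mul, aeval_expand]
    rfl

end Pool.Agent.J4.H5.VJ.PushXb

namespace Pool.Agent.J4.H5.VJ

theorem t_PUSHXb (h : S_FREE) : S_PUSHX := by
  intro k _ n s m f G N hm hG hN
  obtain ⟨κ, h1, h2, h3⟩ := h k n m hm
  exact ⟨(PushXb.MM κ G).det, _, PushXb.nonzerodiv κ f h1 h2 h3 G hG, PushXb.det_hom κ hm h2 G N hN,
    fun L _ _ y hy => PushXb.det_zero κ hm h1 G L y hy⟩

end Pool.Agent.J4.H5.VJ
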