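import Pool.Agent.J4.H5.VJ.Defs4
import Pool.Agent.J4.H5.VJ.T_NC2

/-! # Piece ROWM (helper43): the Gauss map of the pull back under the power map -/

set_option autoImplicit false

open MvPolynomial Module

namespace Pool.Agent.J4.H5.VJ

namespace ROWM

theorem row_eq {k L : Type} [Field k] [Field L] [Algebra k L] {n t s m : ℕ}
    (f : Fin t → MvPolynomial (Fin (n + 1)) k) (α : Fin s → Fin t) (y : Fin (n + 1) → L)
    (β : Fin s → Fin (n + 1)) :
    gaussRow (fun i => expand m (f i)) α y β =
      (∏ j, ((m : L) * y (β j) ^ (m - 1))) * gaussRow f α (fun i => y i ^ m) β := by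
  unfold gaussRow
  rw [← Matrix.det_mul_row]
  congr 1
  ext i j
  rw [Matrix.of_apply, Matrix.of_apply, Matrix.of_apply, NC2.aeval_pderiv_expand]
  rw [mul_comm]
  rfl

end ROWM

theorem t_ROWM : S_ROWM := by
  intro k L _ _ _ _ _ n t s m f α y hm hy
  have hm0 : (m : L) ≠ 0 := Nat.cast_ne_zero.2 (by omega)
  have hfac : ∀ β : Fin s → Fin (n + 1), (∏ j, ((m : L) * y (β j) ^ (m - 1))) ≠ 0 := by
    intro β
    refine Finset.prod_ne_zero_iff.2 fun j _ => mul_ne_zero hm0 (pow_ne_zero _ (hy _))
  refine ⟨?_, ?_⟩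
  · rw [Function.ne_iff, Function.ne_iff]
    refine exists_congr fun β => ?_
    rw [ROWM.row_eq, Pi.zero_apply, mul_ne_zero_iff]
    exact ⟨fun h => h.2, fun h => ⟨hfac β, h⟩⟩
  · have hy0 : y ≠ 0 := fun h => hy 0 (congrFun h 0)
    have e1 : (fun β : Fin s → Fin (n + 1) => (∏ j, y (β j) ^ m) *
        gaussRow f α (fun i => y i ^ m) β) =
        ((m : L) ^ s)⁻¹ • ((fun β : Fin s → Fin (n + 1) => ∏ j, y (β j)) *
          gaussRow (fun i => expand m (f i)) α y) := by
      funext β
      rw [Pi.smul_apply, Pi.mul_apply, ROWM.row_eq, smul_eq_mul]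
      have e2 : ∏ j, y (β j) ^ m = (∏ j, y (β j)) * ∏ j, y (β j) ^ (m - 1) := by
        rw [← Finset.prod_mul_distrib]
        refine Finset.prod_congr rfl fun j _ => ?_
        rw [← pow_succ', Nat.sub_add_cancel hm]
      have e3 : ∏ j : Fin s, ((m : L) * y (β j) ^ (m - 1)) =
          (m : L) ^ s * ∏ j, y (β j) ^ (m - 1) := by
        rw [Finset.prod_mul_distrib, Finset.prod_const, Finset.card_univ, Fintype.card_fin]
      have e4 : (m : L) ^ s ≠ 0 := pow_ne_zero _ hm0
      rw [e2, e3]
      field_simp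
    have e5 : Height.logHeight (fun β : Fin s → Fin (n + 1) => ∏ j, y (β j)) =
        s * Height.logHeight y := by
      have := Height.logHeight_fun_prod_eq (α := Fin s) (ι := fun _ => Fin (n + 1))
        (x := fun _ => y) (fun _ => hy0)
      rw [this, Finset.sum_const, Finset.card_univ, Fintype.card_fin, nsmul_eq_mul]
    have e6 : Height.logHeight (fun β : Fin s → Fin (n + 1) => (∏ j, y (β j) ^ m) *
        gaussRow f α (fun i => y i ^ m) β) ≤
        s * Height.logHeight y + Height.logHeight (gaussRow (fun i => expand m (f i)) α y) := by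
      rw [e1, Height.logHeight_smul_eq_logHeight _ (inv_ne_zero (pow_ne_zero _ hm0)), ← e5]
      exact Height.logHeight_mul_le _ _
    unfold heightI height
    rw [mul_div_assoc', ← add_div]
    refine div_le_div_of_nonneg_right ?_ (Nat.cast_nonneg _)
    linarith

end Pool.Agent.J4.H5.VJ
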