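import Pool.Agent.J4.H5.VJ.Defs4
import Pool.Agent.Helper259.HtExt

/-!
# Project VJ, piece ROWS: the rows of the minors of the Jacobian matrix
-/

set_option autoImplicit false

open MvPolynomial NumberField IsDedekindDomain Module

namespace Pool.Agent.J4.H5.VJ

namespace ROWS

theorem aeval_smul {k L σ : Type} [Field k] [Field L] [Algebra k L] {F : MvPolynomial σ k} {e : ℕ}
    (hF : F.IsHomogeneous e) (c : L) (x : σ → L) : aeval (c • x) F = c ^ e * aeval x F := by
  rw [aeval_def, aeval_def, eval₂_eq, eval₂_eq, Finset.mul_sum]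
  refine Finset.sum_congr rfl fun d hd => ?_
  have h1 := hF.degree_eq_sum_deg_support hd
  simp only [Pi.smul_apply, smul_eq_mul, mul_pow, Finset.prod_mul_distrib,
    Finset.prod_pow_eq_pow_sum]
  rw [← h1]
  ring

theorem row_smul {k L : Type} [Field k] [Field L] [Algebra k L] {n t s : ℕ}
    {f : Fin t → MvPolynomial (Fin (n + 1)) k} {d : Fin t → ℕ} (hd : ∀ i, (f i).IsHomogeneous (d i))
    (α : Fin s → Fin t) (x : Fin (n + 1) → L) (c : L) :
    gaussRow f α (c • x) = (∏ i, c ^ (d (α i) - 1)) • gaussRow f α x := by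
  funext β
  rw [Pi.smul_apply, smul_eq_mul]
  unfold gaussRow
  rw [← Matrix.det_mul_column]
  congr 1
  ext i j
  simp only [Matrix.of_apply]
  exact aeval_smul ((hd (α i)).pderiv) c x

theorem row_map {k L L' : Type} [Field k] [Field L] [Field L'] [Algebra k L] [Algebra L L']
    [Algebra k L'] [IsScalarTower k L L'] {n t s : ℕ}
    (f : Fin t → MvPolynomial (Fin (n + 1)) k) (α : Fin s → Fin t) (x : Fin (n + 1) → L) :
    gaussRow f α (fun i => algebraMap L L' (x i)) = fun β => algebraMap L L' (gaussRow f α x β) := by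
  funext β
  unfold gaussRow
  rw [RingHom.map_det]
  congr 1
  ext i j
  simp only [Matrix.of_apply, RingHom.mapMatrix_apply, Matrix.map_apply]
  exact aeval_algebraMap_apply L' x _

end ROWS

open ROWS in
theorem t_ROWS : S_ROWS := by
  intro k L L' _ _ _ _ _ _ _ _ _ _ n t s f d α x c hd hc
  have hu : (∏ i, c ^ (d (α i) - 1)) ≠ 0 := Finset.prod_ne_zero_iff.2 fun i _ => pow_ne_zero _ hc
  refine ⟨?_, ?_, ?_, ?_⟩
  · unfold heightI
    rw [row_smul hd, Height.logHeight_smul_eq_logHeight _ hu]
  · rw [row_smul hd, smul_ne_zero_iff]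
    exact ⟨fun h => h.2, fun h => ⟨hu, h⟩⟩
  · have : FiniteDimensional k L := Module.Finite.of_restrictScalars_finite ℚ k L
    have : FiniteDimensional L L' := Module.Finite.of_restrictScalars_finite ℚ L L'
    unfold heightI
    rw [row_map, Pool.Agent.Helper259.HtExt.logHeight_ext, ← Module.finrank_mul_finrank k L L']
    have h1 : (finrank L L' : ℝ) ≠ 0 := by
      exact_mod_cast (Module.finrank_pos (R := L) (M := L')).ne'
    push_cast
    rw [mul_comm (finrank k L : ℝ), mul_div_mul_left _ _ h1]
  · rw [row_map, not_iff_not]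
    constructor
    · intro h
      funext β
      have h2 := congrFun h β
      simp only [Pi.zero_apply] at h2 ⊢
      exact (map_eq_zero (algebraMap L L')).1 h2
    · intro h
      funext β
      rw [h]
      simp

end Pool.Agent.J4.H5.VJ
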