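import Pool.Agent.J4.H5.VJ.Defs

/-!
# The discriminant of a Galois extension (relative form of `Pool/Agent/N890/US/DISC.lean`)
-/

set_option autoImplicit false
set_option linter.all false

namespace Pool.Agent.J4.H5.VJ.SER

open NumberField UniqueFactorizationMonoid IsDedekindDomain Module
open scoped Pointwise nonZeroDivisors

lemma dvd_of_pow {B : Type*} [CommRing B] [IsDedekindDomain B] {I J : Ideal B} (hI : I ≠ ⊥)
    (hJ : J ≠ ⊥)
    (h : ∀ P : Ideal B, P.IsPrime → P ≠ ⊥ → ∀ j : ℕ, P ^ j ∣ I → P ^ j ∣ J) : I ∣ J := by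
  classical
  rw [dvd_iff_normalizedFactors_le_normalizedFactors hI hJ, Multiset.le_iff_count]
  intro P
  by_cases hP : P ∈ normalizedFactors I
  · have hirr := irreducible_of_normalized_factor P hP
    have hn := normalize_normalized_factor P hP
    have h1 := emultiplicity_eq_count_normalizedFactors hirr hI
    have h2 := emultiplicity_eq_count_normalizedFactors hirr hJ
    rw [hn] at h1 h2
    have h3 : P ^ (Multiset.count P (normalizedFactors I)) ∣ I := by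
      apply pow_dvd_of_le_emultiplicity; rw [h1]
    have h0 : P ≠ ⊥ := hirr.ne_zero
    have hPp : P.IsPrime := Ideal.isPrime_of_prime (prime_of_normalized_factor P hP)
    have h4 := h P hPp h0 _ h3
    have := le_emultiplicity_of_pow_dvd h4
    rw [h2] at this
    exact_mod_cast this
  · simp [Multiset.count_eq_zero_of_notMem hP]

variable {K F : Type} [Field K] [NumberField K] [Field F] [NumberField F] [Algebra K F]

lemma inv_diff (σ : F ≃ₐ[K] F) (I : Ideal (𝓞 F)) (hI : I ≠ ⊥)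
    (h : differentIdeal (𝓞 K) (𝓞 F) ≤ I) : differentIdeal (𝓞 K) (𝓞 F) ≤ σ • I := by
  have hI' : σ • I ≠ ⊥ := by
    intro h0
    apply hI
    have : σ⁻¹ • (σ • I) = σ⁻¹ • (⊥ : Ideal (𝓞 F)) := by rw [h0]
    rw [inv_smul_smul] at this
    rw [this]
    exact smul_zero _
  rw [differentialIdeal_le_iff (K := K) (L := F) hI] at h
  rw [differentialIdeal_le_iff (K := K) (L := F) hI']
  rintro _ ⟨x, hx, rfl⟩
  have hx' : x ∈ ((↑(σ • I) : FractionalIdeal (𝓞 F)⁰ F)⁻¹) := hx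
  rw [FractionalIdeal.mem_inv_iff (by simpa using hI')] at hx'
  have h2 : σ.symm x ∈ ((↑I : FractionalIdeal (𝓞 F)⁰ F)⁻¹) := by
    rw [FractionalIdeal.mem_inv_iff (by simpa using hI)]
    intro y hy
    rw [FractionalIdeal.mem_coeIdeal] at hy
    obtain ⟨z, hz, rfl⟩ := hy
    have h3 : algebraMap (𝓞 F) F (σ • z) ∈ (↑(σ • I) : FractionalIdeal (𝓞 F)⁰ F) := by
      rw [FractionalIdeal.mem_coeIdeal]
      exact ⟨_, Ideal.smul_mem_pointwise_smul _ _ _ hz, rfl⟩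
    have h4 := hx' _ h3
    rw [FractionalIdeal.mem_one_iff] at h4 ⊢
    obtain ⟨w, hw⟩ := h4
    refine ⟨σ⁻¹ • w, ?_⟩
    have e1 : algebraMap (𝓞 F) F (σ⁻¹ • w) = σ.symm (algebraMap (𝓞 F) F w) := rfl
    have e2 : algebraMap (𝓞 F) F (σ • z) = σ (algebraMap (𝓞 F) F z) := rfl
    rw [e1, hw, e2, map_mul, AlgEquiv.symm_apply_apply]
  have h5 := h ⟨σ.symm x, h2, rfl⟩
  have e3 : (Algebra.trace K F) (σ.symm x) = (Algebra.trace K F) x :=
    Algebra.trace_eq_of_algEquiv σ.symm x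
  simpa [e3] using h5

lemma diff_ne_bot : differentIdeal (𝓞 K) (𝓞 F) ≠ ⊥ := differentIdeal_ne_bot

lemma map_ne (p : Ideal (𝓞 K)) (hp : p ≠ ⊥) : p.map (algebraMap (𝓞 K) (𝓞 F)) ≠ ⊥ := by
  intro h
  exact hp ((Ideal.map_eq_bot_iff_of_injective
    (FaithfulSMul.algebraMap_injective (𝓞 K) (𝓞 F))).1 h)

lemma trace_part (p : Ideal (𝓞 K)) (hp : p ≠ ⊥)
    (h : differentIdeal (𝓞 K) (𝓞 F) ≤ p.map (algebraMap (𝓞 K) (𝓞 F))) :
    ((finrank K F : ℕ) : 𝓞 K) ∈ p := by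
  have hI : p.map (algebraMap (𝓞 K) (𝓞 F)) ≠ ⊥ := map_ne p hp
  rw [differentialIdeal_le_iff (K := K) (L := F) hI] at h
  have hp' : (p : FractionalIdeal (𝓞 K)⁰ K) ≠ 0 := FractionalIdeal.coeIdeal_ne_zero.mpr hp
  -- for `a` in the inverse of `p`, `N a` is integral
  have key : ∀ a : K, a ∈ ((p : FractionalIdeal (𝓞 K)⁰ K)⁻¹) →
      ∃ w : 𝓞 K, algebraMap (𝓞 K) K w = (finrank K F : K) * a := by
    intro a ha
    rw [FractionalIdeal.mem_inv_iff hp'] at ha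
    have h2 : algebraMap K F a ∈
        ((↑(p.map (algebraMap (𝓞 K) (𝓞 F))) : FractionalIdeal (𝓞 F)⁰ F)⁻¹) := by
      rw [FractionalIdeal.mem_inv_iff (FractionalIdeal.coeIdeal_ne_zero.mpr hI)]
      intro y hy
      rw [FractionalIdeal.mem_coeIdeal] at hy
      obtain ⟨z, hz, rfl⟩ := hy
      rw [FractionalIdeal.mem_one_iff]
      have hz' : z ∈ Ideal.span (algebraMap (𝓞 K) (𝓞 F) '' (p : Set (𝓞 K))) := hz
      clear hz
      induction hz' using Submodule.span_induction with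
      | mem z hz =>
        obtain ⟨s, hs, rfl⟩ := hz
        have h3 := ha (algebraMap (𝓞 K) K s) (FractionalIdeal.mem_coeIdeal_of_mem _ hs)
        rw [FractionalIdeal.mem_one_iff] at h3
        obtain ⟨w, hw⟩ := h3
        refine ⟨algebraMap (𝓞 K) (𝓞 F) w, ?_⟩
        rw [← IsScalarTower.algebraMap_apply (𝓞 K) (𝓞 F) F, IsScalarTower.algebraMap_apply (𝓞 K) K F,
          hw, map_mul, ← IsScalarTower.algebraMap_apply (𝓞 K) K F,
          ← IsScalarTower.algebraMap_apply (𝓞 K) (𝓞 F) F]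
      | zero => exact ⟨0, by simp⟩
      | add u v _ _ hu hv =>
        obtain ⟨w1, hw1⟩ := hu
        obtain ⟨w2, hw2⟩ := hv
        exact ⟨w1 + w2, by rw [map_add, hw1, hw2, map_add, mul_add]⟩
      | smul c u _ hu =>
        obtain ⟨w1, hw1⟩ := hu
        refine ⟨c * w1, ?_⟩
        rw [map_mul, hw1, smul_eq_mul, map_mul]
        ring
    have h5 := h ⟨_, h2, rfl⟩
    rw [LinearMap.restrictScalars_apply, Algebra.trace_algebraMap] at h5
    rw [Submodule.mem_one] at h5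
    obtain ⟨w, hw⟩ := h5
    exact ⟨w, by rw [hw, nsmul_eq_mul]⟩
  -- hence `N` is in `p`
  have h6 : FractionalIdeal.spanSingleton (𝓞 K)⁰ ((finrank K F : ℕ) : K) *
      ((p : FractionalIdeal (𝓞 K)⁰ K)⁻¹) ≤ 1 := by
    rw [FractionalIdeal.spanSingleton_mul_le_iff]
    intro a ha
    obtain ⟨w, hw⟩ := key a ha
    rw [FractionalIdeal.mem_one_iff]
    exact ⟨w, by rw [hw]⟩
  have h7 : FractionalIdeal.spanSingleton (𝓞 K)⁰ ((finrank K F : ℕ) : K) ≤
      (p : FractionalIdeal (𝓞 K)⁰ K) := by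
    calc FractionalIdeal.spanSingleton (𝓞 K)⁰ ((finrank K F : ℕ) : K)
        = (FractionalIdeal.spanSingleton (𝓞 K)⁰ ((finrank K F : ℕ) : K) *
          ((p : FractionalIdeal (𝓞 K)⁰ K)⁻¹)) * (p : FractionalIdeal (𝓞 K)⁰ K) := by
          rw [mul_assoc, inv_mul_cancel₀ hp', mul_one]
      _ ≤ 1 * (p : FractionalIdeal (𝓞 K)⁰ K) := by gcongr
      _ = (p : FractionalIdeal (𝓞 K)⁰ K) := one_mul _
  rw [FractionalIdeal.spanSingleton_le_iff_mem, FractionalIdeal.mem_coeIdeal] at h7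
  obtain ⟨s, hs, h9⟩ := h7
  have h10 : s = ((finrank K F : ℕ) : 𝓞 K) := by
    apply RingOfIntegers.coe_injective
    rw [h9]; simp
  rw [← h10]; exact hs

lemma smul_map (σ : F ≃ₐ[K] F) (p : Ideal (𝓞 K)) :
    σ • (p.map (algebraMap (𝓞 K) (𝓞 F))) = p.map (algebraMap (𝓞 K) (𝓞 F)) := by
  rw [Ideal.pointwise_smul_def, Ideal.map_map]
  congr 1
  ext s
  show σ (algebraMap (𝓞 F) F (algebraMap (𝓞 K) (𝓞 F) s)) = algebraMap (𝓞 F) F (algebraMap (𝓞 K) (𝓞 F) s)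
  rw [← IsScalarTower.algebraMap_apply (𝓞 K) (𝓞 F) F, IsScalarTower.algebraMap_apply (𝓞 K) K F,
    AlgEquiv.commutes]

/-- the exponent of a prime in the different -/
lemma loc [IsGalois K F] (v : Ideal (𝓞 K)) (hv : v.IsMaximal) (hv0 : v ≠ ⊥) (k : ℕ) (hk0 : k ≠ 0)
    (hk : ((finrank K F : ℕ) : 𝓞 K) ∉ v ^ k) (P : Ideal (𝓞 F)) (hP : P.IsPrime) (hP0 : P ≠ ⊥)
    (hvP : P.LiesOver v) (j : ℕ) (hj : P ^ j ∣ differentIdeal (𝓞 K) (𝓞 F)) :
    P ^ j ∣ (v ^ k).map (algebraMap (𝓞 K) (𝓞 F)) := by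
  by_contra hcon
  apply hk
  have hvk : v ^ k ≠ ⊥ := pow_ne_zero _ hv0
  have hI : (v ^ k).map (algebraMap (𝓞 K) (𝓞 F)) ≠ ⊥ := map_ne _ hvk
  apply trace_part (F := F) (v ^ k) hvk
  rw [← Ideal.dvd_iff_le]
  apply dvd_of_pow hI diff_ne_bot
  intro Q hQ hQ0 i hi
  rcases Nat.eq_zero_or_pos i with h0 | hi0
  · subst h0; simp
  have hvQ : Q.LiesOver v := by
    have h1 : Q ∣ (v ^ k).map (algebraMap (𝓞 K) (𝓞 F)) := (dvd_pow_self Q hi0.ne').trans hi
    rw [Ideal.map_pow] at h1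
    have h2 : Q ∣ v.map (algebraMap (𝓞 K) (𝓞 F)) :=
      (Ideal.prime_of_isPrime hQ0 hQ).dvd_of_dvd_pow h1
    rw [Ideal.dvd_iff_le, Ideal.map_le_iff_le_comap] at h2
    exact ⟨hv.eq_of_le (Ideal.comap_ne_top _ hQ.ne_top) h2⟩
  obtain ⟨σ, hσ⟩ := Ideal.exists_smul_eq_of_isGaloisGroup v P Q (F ≃ₐ[K] F)
  have h2 : P ^ i ∣ (v ^ k).map (algebraMap (𝓞 K) (𝓞 F)) := by
    rw [Ideal.dvd_iff_le]
    have h3 : σ⁻¹ • (v ^ k).map (algebraMap (𝓞 K) (𝓞 F)) ≤ σ⁻¹ • (Q ^ i) := by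
      rw [Ideal.pointwise_smul_le_pointwise_smul_iff]
      exact Ideal.dvd_iff_le.mp hi
    rw [smul_map, smul_pow', ← hσ, inv_smul_smul] at h3
    exact h3
  have hij : i < j := by
    by_contra h
    push Not at h
    exact hcon ((pow_dvd_pow P h).trans h2)
  have h4 : differentIdeal (𝓞 K) (𝓞 F) ≤ P ^ i :=
    Ideal.dvd_iff_le.mp ((pow_dvd_pow P hij.le).trans hj)
  have h5 := inv_diff σ (P ^ i) (pow_ne_zero _ hP0) h4
  rw [smul_pow', hσ] at h5
  exact Ideal.dvd_iff_le.mpr h5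

/-- the largest power of a prime dividing an ideal -/
lemma exists_exp (v I : Ideal (𝓞 K)) (hv : v.IsPrime) (hv0 : v ≠ ⊥) (hI : I ≠ ⊥) :
    ∃ c : ℕ, v ^ c ∣ I ∧ ¬ v ^ (c + 1) ∣ I := by
  classical
  have hfin : FiniteMultiplicity v I :=
    FiniteMultiplicity.of_prime_left (Ideal.prime_of_isPrime hv0 hv) hI
  exact ⟨multiplicity v I, pow_multiplicity_dvd v I,
    hfin.not_pow_dvd_of_multiplicity_lt (Nat.lt_succ_self _)⟩

theorem main : S_SER := by
  intro K F _ _ _ _ _ _ T hT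
  classical
  set N := finrank K F with hN
  have hN0 : 0 < N := finrank_pos
  have hNK : ((N : ℕ) : 𝓞 K) ≠ 0 := by exact_mod_cast hN0.ne'
  set I : Ideal (𝓞 K) := Ideal.span {((N : ℕ) : 𝓞 K)} with hIdef
  have hI : I ≠ ⊥ := by rw [hIdef, Ne, Ideal.span_singleton_eq_bot]; exact hNK
  choose c hc1 hc2 using fun v : HeightOneSpectrum (𝓞 K) =>
    exists_exp v.asIdeal I v.isPrime v.ne_bot hI
  set J : Ideal (𝓞 K) := ∏ v ∈ T, v.asIdeal ^ (c v + 1) with hJdef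
  have hJ : J ≠ ⊥ := by
    rw [hJdef]
    exact Finset.prod_ne_zero_iff.2 fun v _ => pow_ne_zero _ v.ne_bot
  have hdvd : differentIdeal (𝓞 K) (𝓞 F) ∣ J.map (algebraMap (𝓞 K) (𝓞 F)) := by
    apply dvd_of_pow diff_ne_bot (map_ne J hJ)
    intro P hP hP0 j hj
    rcases Nat.eq_zero_or_pos j with h0 | hj0
    · subst h0; simp
    have hPD : P ∣ differentIdeal (𝓞 K) (𝓞 F) := (dvd_pow_self P hj0.ne').trans hj
    obtain ⟨v, hv, hvP⟩ := hT ⟨P, hP, hP0⟩ hPD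
    have h1 := loc v.asIdeal v.isMaximal v.ne_bot (c v + 1) (Nat.succ_ne_zero _) (by
      intro h
      apply hc2 v
      rw [Ideal.dvd_iff_le, hIdef, Ideal.span_singleton_le_iff_mem]
      exact h) P hP hP0 hvP j hj
    refine h1.trans ?_
    rw [Ideal.dvd_iff_le]
    apply Ideal.map_mono
    rw [← Ideal.dvd_iff_le]
    exact Finset.dvd_prod_of_mem (fun v => v.asIdeal ^ (c v + 1)) hv
  have h1 : (Ideal.absNorm (differentIdeal (𝓞 K) (𝓞 F)) : ℕ) ∣ Ideal.absNorm J ^ N := by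
    have h2 := Ideal.absNorm_dvd_absNorm_of_le (Ideal.dvd_iff_le.mp hdvd)
    rwa [Ideal.absNorm_algebraMap, ← IsFractionRing.finrank_eq (𝓞 K) K (𝓞 F) F] at h2
  have hJN : 0 < Ideal.absNorm J := Nat.pos_of_ne_zero (by rw [Ne, Ideal.absNorm_eq_zero_iff]; exact hJ)
  have h2 : (Ideal.absNorm (differentIdeal (𝓞 K) (𝓞 F)) : ℕ) ≤ Ideal.absNorm J ^ N :=
    Nat.le_of_dvd (pow_pos hJN _) h1
  have hD0 : 0 < Ideal.absNorm (differentIdeal (𝓞 K) (𝓞 F)) :=
    Nat.pos_of_ne_zero (by rw [Ne, Ideal.absNorm_eq_zero_iff]; exact diff_ne_bot)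
  have h3 : Real.log (Ideal.absNorm (differentIdeal (𝓞 K) (𝓞 F)) : ℝ) ≤
      N * Real.log (Ideal.absNorm J : ℝ) := by
    rw [← Real.log_pow]
    apply Real.log_le_log (by exact_mod_cast hD0)
    exact_mod_cast h2
  refine h3.trans (mul_le_mul_of_nonneg_left ?_ (Nat.cast_nonneg _))
  -- the norm of `J`
  have h4 : Real.log (Ideal.absNorm J : ℝ) = ∑ v ∈ T, Real.log (Ideal.absNorm v.asIdeal : ℝ) +
      ∑ v ∈ T, (c v : ℝ) * Real.log (Ideal.absNorm v.asIdeal : ℝ) := by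
    rw [hJdef, map_prod, Nat.cast_prod, Real.log_prod, ← Finset.sum_add_distrib]
    · refine Finset.sum_congr rfl fun v _ => ?_
      rw [map_pow, Nat.cast_pow, Real.log_pow]
      push_cast
      ring
    · intro v _
      rw [map_pow]
      have : Ideal.absNorm v.asIdeal ≠ 0 := by
        rw [Ne, Ideal.absNorm_eq_zero_iff]; exact v.ne_bot
      exact_mod_cast pow_ne_zero _ this
  rw [h4]
  have h5 : (∏ v ∈ T, v.asIdeal ^ c v) ∣ I := by
    apply Finset.prod_dvd_of_coprime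
    · intro v _ w _ hvw
      show IsCoprime (v.asIdeal ^ c v) (w.asIdeal ^ c w)
      apply IsCoprime.pow
      rw [Ideal.isCoprime_iff_sup_eq]
      apply Ideal.IsMaximal.coprime_of_ne v.isMaximal w.isMaximal
      intro h
      exact hvw (HeightOneSpectrum.ext h)
    · intro v _
      exact hc1 v
  have h6 : Ideal.absNorm I = N ^ finrank ℚ K := by
    rw [hIdef, Ideal.absNorm_span_singleton]
    have h4 : ((N : ℕ) : 𝓞 K) = algebraMap ℤ (𝓞 K) (N : ℤ) := by simp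
    rw [h4, Algebra.norm_algebraMap, NumberField.RingOfIntegers.rank]
    simp [Int.natAbs_pow]
  have h7 : Ideal.absNorm (∏ v ∈ T, v.asIdeal ^ c v) ≤ N ^ finrank ℚ K := by
    rw [← h6]
    apply Nat.le_of_dvd
    · rw [h6]; exact pow_pos hN0 _
    · exact Ideal.absNorm_dvd_absNorm_of_le (Ideal.dvd_iff_le.mp h5)
  have h8 : ∑ v ∈ T, (c v : ℝ) * Real.log (Ideal.absNorm v.asIdeal : ℝ) =
      Real.log (Ideal.absNorm (∏ v ∈ T, v.asIdeal ^ c v) : ℝ) := by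
    rw [map_prod, Nat.cast_prod, Real.log_prod]
    · refine Finset.sum_congr rfl fun v _ => ?_
      rw [map_pow, Nat.cast_pow, Real.log_pow]
    · intro v _
      rw [map_pow]
      have : Ideal.absNorm v.asIdeal ≠ 0 := by
        rw [Ne, Ideal.absNorm_eq_zero_iff]; exact v.ne_bot
      exact_mod_cast pow_ne_zero _ this
  have h9 : Real.log (Ideal.absNorm (∏ v ∈ T, v.asIdeal ^ c v) : ℝ) ≤
      finrank ℚ K * Real.log N := by
    rw [← Real.log_pow]
    apply Real.log_le_log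
    · have h10 : Ideal.absNorm (∏ v ∈ T, v.asIdeal ^ c v) ≠ 0 := by
        rw [Ne, Ideal.absNorm_eq_zero_iff]
        exact Finset.prod_ne_zero_iff.2 fun v _ => pow_ne_zero _ v.ne_bot
      exact_mod_cast Nat.pos_of_ne_zero h10
    · exact_mod_cast h7
  rw [h8]
  linarith

end Pool.Agent.J4.H5.VJ.SER

namespace Pool.Agent.J4.H5.VJ

theorem t_SER : S_SER := SER.main

end Pool.Agent.J4.H5.VJ
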