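import Pool.Agent.J4.H5.VJ.Defs

/-!
# Adjoining roots of units is unramified
-/

set_option autoImplicit false

open MvPolynomial NumberField IsDedekindDomain Module

namespace Pool.Agent.J4.H5.VJ

namespace UNR

lemma fix {L L' : Type} [Field L] [NumberField L] [Field L'] [NumberField L'] [Algebra L L']
    {m : ℕ} (hm : 1 ≤ m) (P : HeightOneSpectrum (𝓞 L')) (v : HeightOneSpectrum (𝓞 L))
    (hPv : P.asIdeal.LiesOver v.asIdeal) (hmv : (m : 𝓞 L) ∉ v.asIdeal) (θ : L') (x : L)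
    (hx : v.valuation L x = 1) (hθ : θ ^ m = algebraMap L L' x) (σ : Gal(L'/L))
    (hσ : ∀ y : 𝓞 L', σ • y - y ∈ P.asIdeal) : σ θ = θ := by
  have hmem : ∀ y : 𝓞 L, algebraMap (𝓞 L) (𝓞 L') y ∈ P.asIdeal ↔ y ∈ v.asIdeal := by
    intro y
    rw [hPv.over]
    rfl
  obtain ⟨n, d, hnd⟩ := HeightOneSpectrum.exists_primeCompl_mul_eq_of_integer v x hx.le
  have hd : (d : 𝓞 L) ∉ v.asIdeal := d.2
  have hd0 : (d : 𝓞 L) ≠ 0 := by
    intro h
    apply hd
    rw [h]
    exact Ideal.zero_mem _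
  have hn : n ∉ v.asIdeal := by
    rw [← HeightOneSpectrum.valuation_eq_one_iff_notMem (K := L)] at hd ⊢
    rw [← hnd, map_mul, hx, one_mul]
    exact hd
  -- an integral multiple
  have hpow : (θ * algebraMap (𝓞 L) L' d) ^ m =
      algebraMap (𝓞 L') L' (algebraMap (𝓞 L) (𝓞 L') (n * (d : 𝓞 L) ^ (m - 1))) := by
    rw [← IsScalarTower.algebraMap_apply, mul_pow, hθ, IsScalarTower.algebraMap_apply (𝓞 L) L L' d,
      IsScalarTower.algebraMap_apply (𝓞 L) L L', ← map_pow, ← map_mul, map_mul (algebraMap (𝓞 L) L),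
      ← hnd, map_pow]
    congr 1
    obtain ⟨k, rfl⟩ : ∃ k, m = k + 1 := ⟨m - 1, by omega⟩
    rw [Nat.add_sub_cancel, pow_succ]
    ring
  have hint : IsIntegral ℤ (θ * algebraMap (𝓞 L) L' d) := by
    apply IsIntegral.of_pow hm
    rw [hpow]
    exact RingOfIntegers.isIntegral_coe _
  set t : 𝓞 L' := ⟨θ * algebraMap (𝓞 L) L' d, hint⟩ with ht
  have htm : t ^ m = algebraMap (𝓞 L) (𝓞 L') (n * (d : 𝓞 L) ^ (m - 1)) := by
    apply RingOfIntegers.coe_injective
    rw [map_pow]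
    exact hpow
  have htP : t ∉ P.asIdeal := by
    intro h
    have h1 : t ^ m ∈ P.asIdeal := Ideal.pow_mem_of_mem _ h m hm
    rw [htm, hmem] at h1
    rcases v.isPrime.mem_or_mem h1 with h2 | h2
    · exact hn h2
    · exact hd (v.isPrime.mem_of_pow_mem _ h2)
  have hmP : (m : 𝓞 L') ∉ P.asIdeal := by
    intro h
    apply hmv
    rw [← hmem, map_natCast]
    exact h
  set s : 𝓞 L' := σ • t with hs
  have hst : s ^ m = t ^ m := by
    rw [hs, ← smul_pow', htm]
    apply RingOfIntegers.coe_injective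
    change σ (algebraMap (𝓞 L') L' (algebraMap (𝓞 L) (𝓞 L') (n * (d : 𝓞 L) ^ (m - 1)))) = _
    rw [← IsScalarTower.algebraMap_apply, IsScalarTower.algebraMap_apply (𝓞 L) L L', σ.commutes]
  have hfin : s = t := by
    by_contra hne
    have h1 := (Commute.all s t).geom_sum₂_mul m
    rw [hst, sub_self] at h1
    have h2 : ∑ i ∈ Finset.range m, s ^ i * t ^ (m - 1 - i) = 0 := by
      rcases mul_eq_zero.1 h1 with h | h
      · exact h
      · exact absurd (sub_eq_zero.1 h) hne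
    have h3 : Ideal.Quotient.mk P.asIdeal s = Ideal.Quotient.mk P.asIdeal t :=
      Ideal.Quotient.eq.2 (hσ t)
    have h4 : Ideal.Quotient.mk P.asIdeal ((m : 𝓞 L') * t ^ (m - 1)) = 0 := by
      rw [← map_zero (Ideal.Quotient.mk P.asIdeal), ← h2, map_sum, map_mul, map_natCast, map_pow]
      have h5 : ∀ i ∈ Finset.range m, Ideal.Quotient.mk P.asIdeal (s ^ i * t ^ (m - 1 - i)) =
          Ideal.Quotient.mk P.asIdeal t ^ (m - 1) := by
        intro i hi
        rw [map_mul, map_pow, map_pow, h3, ← pow_add]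
        congr 1
        have := Finset.mem_range.1 hi
        omega
      rw [Finset.sum_congr rfl h5, Finset.sum_const, Finset.card_range, nsmul_eq_mul]
    rw [Ideal.Quotient.eq_zero_iff_mem] at h4
    rcases P.isPrime.mem_or_mem h4 with h5 | h5
    · exact hmP h5
    · exact htP (P.isPrime.mem_of_pow_mem _ h5)
  have h6 : σ (θ * algebraMap (𝓞 L) L' d) = θ * algebraMap (𝓞 L) L' d :=
    congrArg (algebraMap (𝓞 L') L') hfin
  rw [map_mul, IsScalarTower.algebraMap_apply (𝓞 L) L L', σ.commutes] at h6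
  have h7 : algebraMap L L' (algebraMap (𝓞 L) L d) ≠ 0 := by
    rw [Ne, FaithfulSMul.algebraMap_eq_zero_iff, FaithfulSMul.algebraMap_eq_zero_iff]
    exact hd0
  exact mul_right_cancel₀ h7 h6

end UNR

theorem t_UNR : S_UNR := by
  intro L L' _ _ _ _ _ _ m Θ hm hΘ P v hPv hmv h
  have hI : Ideal.inertia Gal(L'/L) P.asIdeal = ⊥ := by
    rw [eq_bot_iff]
    intro σ hσ
    rw [Subgroup.mem_bot]
    have h1 : (σ : L' →ₐ[L] L') = AlgHom.id L L' := by
      apply AlgHom.ext_of_adjoin_eq_top hΘ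
      intro θ hθ
      obtain ⟨x, hx, hx'⟩ := h θ hθ
      exact UNR.fix hm P v hPv hmv θ x hx hx' σ hσ
    ext y
    exact congrArg (fun f : L' →ₐ[L] L' => f y) h1
  have := v.isPrime
  have := P.isPrime
  have h1 := Ideal.card_inertia_eq_ramificationIdxIn (G := Gal(L'/L)) v.asIdeal P.asIdeal
  rw [hI, Subgroup.card_bot,
    Ideal.ramificationIdxIn_eq_ramificationIdx v.asIdeal P.asIdeal Gal(L'/L)] at h1
  rw [not_dvd_differentIdeal_iff, ← Ideal.ramificationIdx_eq_one_iff]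
  exact h1.symm

end Pool.Agent.J4.H5.VJ
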