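import Pool.Agent.J4.H5.VJ.Defs

/-!
Piece UNR of project VJ (insurance copy, helper6): adjoining `m`-th roots of `v`-units is unramified
at `v` if `v` does not divide `m`: the inertia group acts trivially on the generators.
-/

set_option autoImplicit false
set_option linter.all false

open NumberField IsDedekindDomain Module
open scoped Pointwise

namespace Pool.Agent.J4.H5.VJ.Two

theorem unit_rep {L : Type} [Field L] [NumberField L] (v : HeightOneSpectrum (𝓞 L)) (x : L)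
    (hx : v.valuation L x = 1) : ∃ a s : 𝓞 L, a ∉ v.asIdeal ∧ s ∉ v.asIdeal ∧
      algebraMap (𝓞 L) L s * x = algebraMap (𝓞 L) L a := by
  obtain ⟨a, s, has⟩ := v.exists_primeCompl_mul_eq_of_integer x hx.le
  have h1 : v.valuation L (algebraMap (𝓞 L) L s) = 1 :=
    (HeightOneSpectrum.valuation_eq_one_iff_notMem (K := L) v).2 s.2
  refine ⟨a, s, ?_, s.2, by rw [mul_comm]; exact has⟩
  rw [← HeightOneSpectrum.valuation_eq_one_iff_notMem (K := L), ← has, map_mul, hx, h1, one_mul]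

/-- the inertia group fixes the roots of units -/
theorem fix_root (L L' : Type) [Field L] [NumberField L] [Field L'] [NumberField L']
    [Algebra L L'] [IsGalois L L'] (m : ℕ) (hm : 1 ≤ m) (P : HeightOneSpectrum (𝓞 L'))
    (v : HeightOneSpectrum (𝓞 L)) [P.asIdeal.LiesOver v.asIdeal] (hmv : (m : 𝓞 L) ∉ v.asIdeal)
    (σ : Gal(L'/L)) (hσ : σ ∈ P.asIdeal.inertia Gal(L'/L)) (θ : L') (x : L)
    (hx : v.valuation L x = 1) (hθ : θ ^ m = algebraMap L L' x) : σ θ = θ := by
  have hover : ∀ a : 𝓞 L, a ∉ v.asIdeal → algebraMap (𝓞 L) (𝓞 L') a ∉ P.asIdeal := by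
    intro a ha h
    apply ha
    rw [Ideal.LiesOver.over (P := P.asIdeal) (p := v.asIdeal)]
    exact h
  obtain ⟨a, s, ha, hs, hsx⟩ := unit_rep v x hx
  have hs0 : s ≠ 0 := fun h => hs (h ▸ v.asIdeal.zero_mem)
  -- the integral element `s θ`
  have hpow : (algebraMap (𝓞 L) L' s * θ) ^ m = algebraMap (𝓞 L) L' (s ^ (m - 1) * a) := by
    obtain ⟨k, rfl⟩ := Nat.exists_eq_add_of_le hm
    rw [mul_pow, hθ, IsScalarTower.algebraMap_apply (𝓞 L) L L' s,
      IsScalarTower.algebraMap_apply (𝓞 L) L L' (s ^ (1 + k - 1) * a), map_mul, ← hsx, ← map_pow,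
      ← map_mul, Nat.add_sub_cancel_left, map_pow]
    congr 1
    ring
  have hint : IsIntegral ℤ (algebraMap (𝓞 L) L' s * θ) := by
    apply IsIntegral.of_pow (by omega : 0 < m)
    rw [hpow, IsScalarTower.algebraMap_apply (𝓞 L) L L']
    exact (RingOfIntegers.isIntegral_coe _).algebraMap
  obtain ⟨b, hb⟩ : ∃ b : 𝓞 L', algebraMap (𝓞 L') L' b = algebraMap (𝓞 L) L' s * θ :=
    ⟨⟨_, hint⟩, rfl⟩
  have hbm : b ^ m = algebraMap (𝓞 L) (𝓞 L') (s ^ (m - 1) * a) := by
    apply IsFractionRing.injective (𝓞 L') L'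
    rw [map_pow, hb, hpow, ← IsScalarTower.algebraMap_apply]
  have hbP : b ∉ P.asIdeal := by
    intro h
    have h1 : b ^ m ∈ P.asIdeal := Ideal.pow_mem_of_mem _ h m (by omega)
    rw [hbm, map_mul, map_pow] at h1
    rcases P.isPrime.mem_or_mem h1 with h2 | h2
    · exact hover s hs (P.isPrime.mem_of_pow_mem _ h2)
    · exact hover a ha h2
  have hb0 : b ≠ 0 := fun h => hbP (h ▸ P.asIdeal.zero_mem)
  have hb0' : algebraMap (𝓞 L') L' b ≠ 0 := by
    rwa [Ne, map_eq_zero_iff _ (IsFractionRing.injective (𝓞 L') L')]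
  -- the root of unity
  have hσb : algebraMap (𝓞 L') L' (σ • b) = σ (algebraMap (𝓞 L') L' b) := rfl
  have hσm : σ (algebraMap (𝓞 L') L' b) ^ m = algebraMap (𝓞 L') L' b ^ m := by
    rw [← map_pow, hb, hpow, IsScalarTower.algebraMap_apply (𝓞 L) L L', AlgEquiv.commutes]
  obtain ⟨z, hz⟩ : ∃ z : L', z = σ (algebraMap (𝓞 L') L' b) / algebraMap (𝓞 L') L' b := ⟨_, rfl⟩
  have hzm : z ^ m = 1 := by
    rw [hz, div_pow, hσm, div_self (pow_ne_zero _ hb0')]
  have hzb : z * algebraMap (𝓞 L') L' b = σ (algebraMap (𝓞 L') L' b) := by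
    rw [hz, div_mul_cancel₀ _ hb0']
  have hzint : IsIntegral ℤ z := by
    apply IsIntegral.of_pow (by omega : 0 < m)
    rw [hzm]
    exact isIntegral_one
  obtain ⟨ζ, hζ⟩ : ∃ ζ : 𝓞 L', algebraMap (𝓞 L') L' ζ = z := ⟨⟨z, hzint⟩, rfl⟩
  have hζb : ζ * b = σ • b := by
    apply IsFractionRing.injective (𝓞 L') L'
    rw [map_mul, hζ, hzb, hσb]
  have hζm : ζ ^ m = 1 := by
    apply IsFractionRing.injective (𝓞 L') L'
    rw [map_pow, hζ, hzm, map_one]
  have hmem : (ζ - 1) * b ∈ P.asIdeal := by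
    have h1 : σ • b - b ∈ P.asIdeal := hσ b
    rwa [← hζb, show ζ * b - b = (ζ - 1) * b by ring] at h1
  have hζ1 : ζ - 1 ∈ P.asIdeal := (P.isPrime.mem_or_mem hmem).resolve_right hbP
  have hone : ζ = 1 := by
    by_contra hne
    have h1 : (∑ i ∈ Finset.range m, ζ ^ i) * (ζ - 1) = 0 := by
      rw [geom_sum_mul, hζm, sub_self]
    have h2 : ∑ i ∈ Finset.range m, ζ ^ i = 0 :=
      (mul_eq_zero.1 h1).resolve_right (sub_ne_zero.2 hne)
    have h3 : ∑ i ∈ Finset.range m, (ζ ^ i - 1) ∈ P.asIdeal := by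
      apply Ideal.sum_mem
      intro i _
      obtain ⟨c, hc⟩ := sub_one_dvd_pow_sub_one ζ i
      rw [hc]
      exact P.asIdeal.mul_mem_right _ hζ1
    rw [Finset.sum_sub_distrib, h2, zero_sub, neg_mem_iff, Finset.sum_const, Finset.card_range,
      nsmul_eq_mul, mul_one] at h3
    apply hover _ hmv
    rwa [map_natCast]
  have hσb' : σ (algebraMap (𝓞 L') L' b) = algebraMap (𝓞 L') L' b := by
    rw [← hσb, ← hζb, hone, one_mul]
  rw [hb, map_mul, IsScalarTower.algebraMap_apply (𝓞 L) L L' s, AlgEquiv.commutes] at hσb'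
  have hs0' : algebraMap L L' (algebraMap (𝓞 L) L s) ≠ 0 := by
    rw [← IsScalarTower.algebraMap_apply]
    intro h
    apply hs0
    have := (map_eq_zero_iff (algebraMap L L') (algebraMap L L').injective).1 (by
      rwa [← IsScalarTower.algebraMap_apply (𝓞 L) L L'] :
        algebraMap L L' (algebraMap (𝓞 L) L s) = 0)
    exact (map_eq_zero_iff _ (IsFractionRing.injective (𝓞 L) L)).1 this
  exact mul_left_cancel₀ hs0' hσb'
where
  sub_one_dvd_pow_sub_one {R : Type} [CommRing R] (x : R) (i : ℕ) : x - 1 ∣ x ^ i - 1 := by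
    simpa using sub_dvd_pow_sub_pow x 1 i

theorem t_UNR : S_UNR := by
  intro L L' _ _ _ _ _ _ m Θ hm hΘ P v hover hmv hθ
  haveI := hover
  have hin : ∀ σ ∈ P.asIdeal.inertia Gal(L'/L), σ = 1 := by
    intro σ hσ
    have h1 : (σ : L' →ₐ[L] L') = AlgHom.id L L' := by
      apply AlgHom.ext_of_adjoin_eq_top hΘ
      intro θ hθm
      obtain ⟨x, hx, hxθ⟩ := hθ θ hθm
      exact fix_root L L' m hm P v hmv σ hσ θ x hx hxθ
    ext y
    exact DFunLike.congr_fun h1 y
  have hcard : Nat.card (P.asIdeal.inertia Gal(L'/L)) = 1 := by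
    have : P.asIdeal.inertia Gal(L'/L) = ⊥ := by
      rw [eq_bot_iff]
      intro σ hσ
      exact hin σ hσ
    rw [this]
    simp
  rw [Ideal.card_inertia_eq_ramificationIdxIn v.asIdeal P.asIdeal,
    Ideal.ramificationIdxIn_eq_ramificationIdx v.asIdeal P.asIdeal Gal(L'/L)] at hcard
  rw [not_dvd_differentIdeal_iff]
  exact Ideal.ramificationIdx_eq_one_iff.1 hcard

end Pool.Agent.J4.H5.VJ.Two
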